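import Mathlib

set_option autoImplicit false

/-!
Arithmetic and counting part: for a target residue `u` modulo `6^L`, a proportion
`1 - (1 - 8^{-L})^K` of the integers `m` below `M` satisfy `⌊m 3^a / 2^t⌋ = u mod 6^L` for some
admissible `t`.
-/

namespace Pool.Agent.H145R3.AAC

/-- No admissible time up to `T` shows `u`. -/
def Bad (L u c s T m : ℕ) : Prop :=
  ∀ t, s ≤ t → t ≤ T → (m * 3 ^ (t - s + c) / 2 ^ t) % 6 ^ L ≠ u % 6 ^ L

theorem three_le_four (L : ℕ) : 3 ^ L ≤ 2 ^ (2 * L) := by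
  rw [pow_mul]; exact Nat.pow_le_pow_left (by norm_num) L

/-- Whatever the bits of `m` below `e` are, some choice of the next `3L` bits shows `u`. -/
theorem hit (L u c s e m0 : ℕ) (hs : s ≤ e) (hm0 : m0 < 2 ^ e) :
    ∃ b < 2 ^ (3 * L), ∀ m, m % 2 ^ (e + 3 * L) = m0 + 2 ^ e * b →
      (m * 3 ^ (e + 2 * L - s + c) / 2 ^ (e + 2 * L)) % 6 ^ L = u % 6 ^ L := by
  set a := e + 2 * L - s + c with ha
  set t := e + 2 * L with ht
  have hco : Nat.Coprime (2 ^ e) (3 ^ L) := Nat.Coprime.pow _ _ (by norm_num)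
  obtain ⟨ρ, hρ1, hρ2⟩ := Nat.chineseRemainder hco (m0 * 3 ^ a) ((3 ^ L - 1) * (u * 2 ^ t))
  -- reduce ρ below 2^e * 3^L
  set σ := ρ % (2 ^ e * 3 ^ L) with hσ
  have hσlt : σ < 2 ^ t := by
    have h1 : σ < 2 ^ e * 3 ^ L := Nat.mod_lt _ (by positivity)
    have h2 : 2 ^ e * 3 ^ L ≤ 2 ^ e * 2 ^ (2 * L) := Nat.mul_le_mul_left _ (three_le_four L)
    rw [ht, pow_add]; omega
  have hσ1 : σ ≡ m0 * 3 ^ a [MOD 2 ^ e] :=
    ((Nat.mod_modEq ρ _).of_mul_right _).trans hρ1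
  have hσ2 : σ ≡ (3 ^ L - 1) * (u * 2 ^ t) [MOD 3 ^ L] :=
    ((Nat.mod_modEq ρ _).of_mul_left _).trans hρ2
  set ν := 2 ^ t * (u % 2 ^ L) + σ with hν
  have hνlt : ν < 2 ^ (e + 3 * L) := by
    have h1 : u % 2 ^ L < 2 ^ L := Nat.mod_lt _ (by positivity)
    have h2 : e + 3 * L = t + L := by omega
    rw [h2, pow_add]
    calc ν < 2 ^ t * (u % 2 ^ L) + 2 ^ t := by omega
      _ = 2 ^ t * (u % 2 ^ L + 1) := by ring
      _ ≤ 2 ^ t * 2 ^ L := Nat.mul_le_mul_left _ h1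
  -- invert 3^a
  have hco2 : Nat.Coprime (3 ^ a) (2 ^ (e + 3 * L)) := Nat.Coprime.pow _ _ (by norm_num)
  obtain ⟨m1, hm1⟩ : ∃ m1, m1 * 3 ^ a ≡ ν [MOD 2 ^ (e + 3 * L)] := by
    rcases Nat.eq_or_lt_of_le (Nat.one_le_two_pow : 1 ≤ 2 ^ (e + 3 * L)) with h1 | h1
    · exact ⟨0, by rw [← h1]; exact Nat.modEq_one⟩
    · obtain ⟨y, -, hy⟩ := Nat.exists_mul_mod_eq_one_of_coprime hco2 h1
      refine ⟨y * ν, ?_⟩
      have h2 : 3 ^ a * y ≡ 1 [MOD 2 ^ (e + 3 * L)] := by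
        show _ % _ = _ % _
        rw [hy, Nat.mod_eq_of_lt h1]
      have h3 : y * ν * 3 ^ a = (3 ^ a * y) * ν := by ring
      rw [h3]
      simpa using h2.mul_right ν
  set m2 := m1 % 2 ^ (e + 3 * L) with hm2
  have hm2lt : m2 < 2 ^ (e + 3 * L) := Nat.mod_lt _ (by positivity)
  have hm2' : m2 * 3 ^ a ≡ ν [MOD 2 ^ (e + 3 * L)] :=
    ((Nat.mod_modEq m1 _).mul_right _).trans hm1
  have hlow : m2 % 2 ^ e = m0 := by
    have h1 : m2 * 3 ^ a ≡ m0 * 3 ^ a [MOD 2 ^ e] := by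
      have h2 : m2 * 3 ^ a ≡ ν [MOD 2 ^ e] := by
        refine Nat.ModEq.of_dvd ?_ hm2'
        exact pow_dvd_pow 2 (by omega)
      refine h2.trans (Nat.ModEq.trans ?_ hσ1)
      rw [hν]
      have h3 : 2 ^ t * (u % 2 ^ L) ≡ 0 [MOD 2 ^ e] :=
        (Nat.modEq_zero_iff_dvd.2 (Dvd.dvd.mul_right (pow_dvd_pow 2 (by omega)) _))
      simpa using h3.add_right σ
    have h4 : m2 ≡ m0 [MOD 2 ^ e] :=
      Nat.ModEq.cancel_right_of_coprime (by
        show Nat.gcd (2 ^ e) (3 ^ a) = 1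
        exact Nat.Coprime.pow _ _ (by norm_num)) h1
    have h5 : m2 % 2 ^ e = m0 % 2 ^ e := h4
    rw [h5, Nat.mod_eq_of_lt hm0]
  refine ⟨m2 / 2 ^ e, ?_, ?_⟩
  · rw [Nat.div_lt_iff_lt_mul (by positivity), ← pow_add, add_comm]
    exact hm2lt
  · intro m hm
    have hm3 : m % 2 ^ (e + 3 * L) = m2 := by
      rw [hm]
      have := Nat.mod_add_div m2 (2 ^ e)
      rw [hlow] at this
      exact this
    have hA : (m * 3 ^ a) % 2 ^ (e + 3 * L) = ν := by
      have h1 : m * 3 ^ a ≡ ν [MOD 2 ^ (e + 3 * L)] := by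
        refine Nat.ModEq.trans ?_ hm2'
        refine Nat.ModEq.mul_right _ ?_
        show m % _ = m2 % _
        rw [hm3, Nat.mod_eq_of_lt hm2lt]
      have h2 : (m * 3 ^ a) % 2 ^ (e + 3 * L) = ν % 2 ^ (e + 3 * L) := h1
      rw [h2, Nat.mod_eq_of_lt hνlt]
    set A := m * 3 ^ a with hAdef
    have hdecomp : A = 2 ^ t * (2 ^ L * (A / 2 ^ (e + 3 * L)) + u % 2 ^ L) + σ := by
      have h1 := Nat.div_add_mod A (2 ^ (e + 3 * L))
      rw [hA] at h1
      have h2 : 2 ^ (e + 3 * L) = 2 ^ t * 2 ^ L := by rw [← pow_add]; congr 1; omega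
      calc A = 2 ^ (e + 3 * L) * (A / 2 ^ (e + 3 * L)) + ν := h1.symm
        _ = _ := by rw [hν]; rw [h2]; ring
    set V := 2 ^ L * (A / 2 ^ (e + 3 * L)) + u % 2 ^ L with hV
    have hVq : A / 2 ^ t = V := by
      rw [hdecomp, Nat.mul_add_div (by positivity), Nat.div_eq_of_lt hσlt, add_zero]
    rw [hVq]
    have hV2 : V ≡ u [MOD 2 ^ L] := by
      rw [hV]
      have h1 : 2 ^ L * (A / 2 ^ (e + 3 * L)) ≡ 0 [MOD 2 ^ L] :=
        Nat.modEq_zero_iff_dvd.2 (Dvd.intro _ rfl)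
      have h2 := h1.add (Nat.mod_modEq u (2 ^ L))
      simpa using h2
    have hV3 : V ≡ u [MOD 3 ^ L] := by
      have hA3 : A ≡ 0 [MOD 3 ^ L] :=
        Nat.modEq_zero_iff_dvd.2 (Dvd.dvd.mul_left (pow_dvd_pow 3 (by omega)) _)
      have h1 : 2 ^ t * V + (3 ^ L - 1) * (u * 2 ^ t) ≡ 2 ^ t * u + (3 ^ L - 1) * (u * 2 ^ t) [MOD 3 ^ L] := by
        have h2 : 2 ^ t * u + (3 ^ L - 1) * (u * 2 ^ t) = 3 ^ L * (u * 2 ^ t) := by
          obtain ⟨w, hw⟩ : ∃ w, 3 ^ L = w + 1 := ⟨3 ^ L - 1, by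
            have : 0 < 3 ^ L := by positivity
            omega⟩
          rw [hw, Nat.add_sub_cancel]; ring
        rw [h2]
        have h3 : 2 ^ t * V + (3 ^ L - 1) * (u * 2 ^ t) ≡ 2 ^ t * V + σ [MOD 3 ^ L] :=
          (hσ2.symm).add_left _
        refine h3.trans ?_
        rw [← hdecomp]
        exact hA3.trans (Nat.modEq_zero_iff_dvd.2 (Dvd.intro _ rfl)).symm
      have h4 : 2 ^ t * V ≡ 2 ^ t * u [MOD 3 ^ L] := Nat.ModEq.add_right_cancel' _ h1
      exact Nat.ModEq.cancel_left_of_coprime (by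
        show Nat.gcd (3 ^ L) (2 ^ t) = 1
        exact Nat.Coprime.pow _ _ (by norm_num)) h4
    have h6 : (6 : ℕ) ^ L = 2 ^ L * 3 ^ L := by rw [← mul_pow]; norm_num
    have hco3 : Nat.Coprime (2 ^ L) (3 ^ L) := Nat.Coprime.pow _ _ (by norm_num)
    rw [h6]
    exact (Nat.modEq_and_modEq_iff_modEq_mul hco3).1 ⟨hV2, hV3⟩

open Classical in
/-- residues modulo `2^(s+3LK)` containing a bad number -/
noncomputable def S (L u c s T K : ℕ) : Finset ℕ :=
  (Finset.range (2 ^ (s + 3 * L * K))).filter fun r =>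
    ∃ m, m % 2 ^ (s + 3 * L * K) = r ∧ Bad L u c s T m

theorem card_S (L u c s T K : ℕ) (hT : s + 3 * L * K ≤ T) :
    (S L u c s T K).card ≤ 2 ^ s * (2 ^ (3 * L) - 1) ^ K := by
  classical
  induction K with
  | zero =>
    refine (Finset.card_filter_le _ _).trans ?_
    simp
  | succ K ih =>
    set E := s + 3 * L * K with hE
    have hE' : s + 3 * L * (K + 1) = E + 3 * L := by rw [hE]; ring
    rw [hE'] at hT
    replace ih := ih (by omega)
    have hmaps : ∀ r ∈ S L u c s T (K + 1), r % 2 ^ E ∈ S L u c s T K := by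
      intro r hr
      simp only [S, Finset.mem_filter, Finset.mem_range] at hr ⊢
      obtain ⟨hr1, m, hm, hbad⟩ := hr
      refine ⟨Nat.mod_lt _ (by positivity), m, ?_, hbad⟩
      rw [← hm, hE', ← hE]
      rw [Nat.mod_mod_of_dvd]
      exact pow_dvd_pow 2 (by omega)
    have hfib : ∀ r0 ∈ S L u c s T K, ((S L u c s T (K + 1)).filter fun r => r % 2 ^ E = r0).card
        ≤ 2 ^ (3 * L) - 1 := by
      intro r0 hr0
      have hr0lt : r0 < 2 ^ E := by
        simp only [S, Finset.mem_filter, Finset.mem_range] at hr0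
        exact hr0.1
      obtain ⟨b0, hb0, hhit⟩ := hit L u c s E r0 (by omega) hr0lt
      have hsub : ((S L u c s T (K + 1)).filter fun r => r % 2 ^ E = r0) ⊆
          ((Finset.range (2 ^ (3 * L))).erase b0).image fun b => r0 + 2 ^ E * b := by
        intro r hr
        simp only [S, Finset.mem_filter, Finset.mem_range] at hr
        obtain ⟨⟨hr1, m, hm, hbad⟩, hr2⟩ := hr
        rw [hE'] at hr1 hm
        simp only [Finset.mem_image, Finset.mem_erase, Finset.mem_range]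
        have hdec : r0 + 2 ^ E * (r / 2 ^ E) = r := by
          rw [← hr2]; exact Nat.mod_add_div r (2 ^ E)
        refine ⟨r / 2 ^ E, ⟨?_, ?_⟩, hdec⟩
        · intro hcon
          apply hbad (E + 2 * L) (by omega) (by omega)
          apply hhit m
          rw [hm, ← hcon, hdec]
        · rw [Nat.div_lt_iff_lt_mul (by positivity), ← pow_add, add_comm]
          exact hr1
      refine (Finset.card_le_card hsub).trans (Finset.card_image_le.trans ?_)
      rw [Finset.card_erase_of_mem (Finset.mem_range.2 hb0), Finset.card_range]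
    have := Finset.card_le_mul_card_image_of_maps_to hmaps (2 ^ (3 * L) - 1) hfib
    calc (S L u c s T (K + 1)).card ≤ (2 ^ (3 * L) - 1) * (S L u c s T K).card := this
      _ ≤ (2 ^ (3 * L) - 1) * (2 ^ s * (2 ^ (3 * L) - 1) ^ K) := Nat.mul_le_mul_left _ ih
      _ = _ := by rw [pow_succ]; ring

open Classical in
theorem card_bad (L u c s T K M : ℕ) (hT : s + 3 * L * K ≤ T) (hM : 2 ^ (s + 3 * L * K) ≤ M) :
    ((((Finset.range M).filter fun m => Bad L u c s T m).card : ℕ) : ℝ) ≤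
      2 * M * (1 - 1 / 8 ^ L) ^ K := by
  set E := s + 3 * L * K with hE
  have hmaps : ∀ m ∈ (Finset.range M).filter (fun m => Bad L u c s T m), m % 2 ^ E ∈ S L u c s T K := by
    intro m hm
    simp only [Finset.mem_filter, Finset.mem_range] at hm
    simp only [S, Finset.mem_filter, Finset.mem_range]
    exact ⟨Nat.mod_lt _ (by positivity), m, rfl, hm.2⟩
  have hfib : ∀ r ∈ S L u c s T K, (((Finset.range M).filter (fun m => Bad L u c s T m)).filter
      fun m => m % 2 ^ E = r).card ≤ M / 2 ^ E + 1 := by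
    intro r _
    have hsub : (((Finset.range M).filter (fun m => Bad L u c s T m)).filter fun m => m % 2 ^ E = r) ⊆
        (Finset.range (M / 2 ^ E + 1)).image fun b => r + 2 ^ E * b := by
      intro m hm
      simp only [Finset.mem_filter, Finset.mem_range] at hm
      simp only [Finset.mem_image, Finset.mem_range]
      refine ⟨m / 2 ^ E, Nat.lt_succ_of_le (Nat.div_le_div_right hm.1.1.le), ?_⟩
      rw [← hm.2]; exact Nat.mod_add_div m (2 ^ E)
    refine (Finset.card_le_card hsub).trans (Finset.card_image_le.trans ?_)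
    rw [Finset.card_range]
  have h1 := Finset.card_le_mul_card_image_of_maps_to hmaps (M / 2 ^ E + 1) hfib
  have h2 := card_S L u c s T K hT
  have hEpos : (0 : ℝ) < 2 ^ E := by positivity
  have h3 : (((M / 2 ^ E + 1 : ℕ) : ℕ) : ℝ) ≤ 2 * M / 2 ^ E := by
    rw [le_div_iff₀ hEpos]
    have h4 : ((M / 2 ^ E : ℕ) : ℝ) * 2 ^ E ≤ M := by
      exact_mod_cast Nat.div_mul_le_self M (2 ^ E)
    have h5 : (2 : ℝ) ^ E ≤ M := by exact_mod_cast hM
    push_cast
    linarith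
  have h4 : (((2 ^ s * (2 ^ (3 * L) - 1) ^ K : ℕ) : ℕ) : ℝ) = 2 ^ E * (1 - 1 / 8 ^ L) ^ K := by
    have h8 : (2 : ℝ) ^ (3 * L) = 8 ^ L := by rw [pow_mul]; norm_num
    have h5 : ((2 ^ (3 * L) - 1 : ℕ) : ℝ) = 8 ^ L * (1 - 1 / 8 ^ L) := by
      rw [Nat.cast_sub Nat.one_le_two_pow]
      push_cast
      rw [h8]
      field_simp
    have h6 : (2 : ℝ) ^ E = 2 ^ s * (8 ^ L) ^ K := by
      rw [hE, pow_add, pow_mul, h8]
    rw [Nat.cast_mul, Nat.cast_pow, Nat.cast_pow, h5, mul_pow, h6]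
    push_cast
    ring
  have h9 : (0 : ℝ) ≤ 2 * M / 2 ^ E := by positivity
  calc ((((Finset.range M).filter fun m => Bad L u c s T m).card : ℕ) : ℝ)
      ≤ (((M / 2 ^ E + 1) * (S L u c s T K).card : ℕ) : ℝ) := by exact_mod_cast h1
    _ = ((M / 2 ^ E + 1 : ℕ) : ℝ) * ((S L u c s T K).card : ℝ) := by push_cast; ring
    _ ≤ (2 * M / 2 ^ E) * ((2 ^ s * (2 ^ (3 * L) - 1) ^ K : ℕ) : ℝ) := by
        apply mul_le_mul h3 (by exact_mod_cast h2) (by positivity) h9
    _ = 2 * M * (1 - 1 / 8 ^ L) ^ K := by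
        rw [h4]
        field_simp

end Pool.Agent.H145R3.AAC
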