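import Mathlib
import Pool.Agent.H429R2.Auto
import Pool.Agent.H145R3.AAC1

set_option autoImplicit false

/-!
Configurations supported in a window and the automaton: almost all of them show all words.
-/

namespace Pool.Agent.H145R3.AAC

open Pool.Agent.H429R2.Auto

/-- The configuration `x` shows the word `w` starting at position `j`. -/
def Shows (x : Conf) (w : List (Fin 6)) (j : ℤ) : Prop :=
  ∀ (i : ℕ) (h : i < w.length), x (j + i) = w[i]

/-- the number coding the word -/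
def code (w : List (Fin 6)) : ℕ :=
  ∑ r ∈ Finset.range w.length, ((w.getD (w.length - 1 - r) 0 : Fin 6) : ℕ) * 6 ^ r

theorem code_lt (w : List (Fin 6)) : code w < 6 ^ w.length :=
  sum_lt w.length fun r => w.getD (w.length - 1 - r) 0

theorem shows_of {x : Conf} {β : ℝ} (hβ : 0 ≤ β) (hx : Rep x β) (w : List (Fin 6)) (j : ℤ) (n : ℕ)
    (h : ⌊(6 : ℝ) ^ (j + w.length - 1) * ((3 / 2) ^ n * β)⌋₊ % 6 ^ w.length = code w) :
    Shows (F^[n] x) w j := by
  intro i hi
  have h1 := letter (rep_iter hβ hx n) j w.length (w.length - 1 - i) (by omega)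
  rw [h] at h1
  have h2 := digits_sum w.length (fun r => w.getD (w.length - 1 - r) 0) (w.length - 1 - i) (by omega)
  have e1 : j + (w.length : ℤ) - 1 - ((w.length - 1 - i : ℕ) : ℤ) = j + i := by omega
  rw [e1] at h1
  have e2 : w.length - 1 - (w.length - 1 - i) = i := by omega
  unfold code at h1
  rw [h2] at h1
  simp only [e2] at h1
  have h3 : w.getD i 0 = w[i] := by
    rw [List.getD_eq_getElem?_getD, List.getElem?_eq_getElem hi]; rfl
  rw [h3] at h1
  exact Fin.ext h1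

/-- The number written in the window. -/
def num (N : ℕ) (x : Conf) : ℕ := ∑ r ∈ Finset.range (2 * N + 1), (x ((N : ℤ) - r) : ℕ) * 6 ^ r

theorem num_lt (N : ℕ) (x : Conf) : num N x < 6 ^ (2 * N + 1) :=
  sum_lt _ fun r => x ((N : ℤ) - r)

theorem rep_num {N : ℕ} {x : Conf} (hx : ∀ i : ℤ, (N : ℤ) < |i| → x i = 0) :
    Rep x ((num N x : ℝ) / 6 ^ N) := by
  set g : ℕ → Fin 6 := fun l => x ((N : ℤ) - l) with hg
  have hdig : ∀ l : ℕ, num N x / 6 ^ l % 6 = (g l : ℕ) := by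
    intro l
    rcases Nat.lt_or_ge l (2 * N + 1) with h | h
    · exact digits_sum _ g l h
    · have h1 : num N x < 6 ^ l := lt_of_lt_of_le (num_lt N x) (Nat.pow_le_pow_right (by norm_num) h)
      rw [Nat.div_eq_of_lt h1]
      have : g l = 0 := hx _ (by rw [abs_of_neg (by omega)]; omega)
      rw [this]
      simp
  intro i
  rcases le_or_gt i (N : ℤ) with h | h
  · obtain ⟨l, hl⟩ := Int.eq_ofNat_of_zero_le (sub_nonneg.2 h)
    have e : (6 : ℝ) ^ i * ((num N x : ℝ) / 6 ^ N) = (num N x : ℝ) / ((6 ^ l : ℕ) : ℝ) := by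
      have : i = (N : ℤ) - l := by omega
      rw [this, zpow_sub₀ (by norm_num), zpow_natCast, zpow_natCast]
      push_cast
      field_simp
    rw [e, Nat.floor_div_eq_div, hdig]
    show ((x i : Fin 6) : ℕ) = ((x ((N : ℤ) - l) : Fin 6) : ℕ)
    congr 2
    omega
  · obtain ⟨l, hl⟩ := Int.eq_ofNat_of_zero_le (sub_nonneg.2 h.le)
    have hl1 : 0 < l := by omega
    have e : (6 : ℝ) ^ i * ((num N x : ℝ) / 6 ^ N) = ((6 ^ l * num N x : ℕ) : ℝ) := by
      have : i = (N : ℤ) + l := by omega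
      rw [this, zpow_add₀ (by norm_num), zpow_natCast, zpow_natCast]
      push_cast
      field_simp
    rw [e, Nat.floor_natCast]
    have h2 : x i = 0 := hx _ (lt_of_lt_of_le h (le_abs_self i))
    rw [h2]
    obtain ⟨l', rfl⟩ : ∃ l', l = l' + 1 := ⟨l - 1, by omega⟩
    rw [pow_succ', mul_assoc, Nat.mul_mod_right]
    rfl

theorem num_injOn (N : ℕ) : Set.InjOn (num N) {x : Conf | ∀ i : ℤ, (N : ℤ) < |i| → x i = 0} := by
  intro x hx y hy h
  funext i
  have h1 := rep_num hx i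
  have h2 := rep_num hy i
  rw [h] at h1
  exact Fin.ext (h1.trans h2.symm)

theorem value (N m n a t : ℕ) (J : ℤ) (h1 : (n : ℤ) + (N - J) = t) (h2 : (n : ℤ) - (N - J) = a) :
    (6 : ℝ) ^ J * ((3 / 2) ^ n * ((m : ℝ) / 6 ^ N)) = ((m * 3 ^ a : ℕ) : ℝ) / ((2 ^ t : ℕ) : ℝ) := by
  have e3 : (3 : ℝ) ^ a = 3 ^ n / (3 ^ N / (3 : ℝ) ^ J) := by
    rw [← zpow_natCast (3 : ℝ) a, ← h2, zpow_sub₀ (by norm_num), zpow_sub₀ (by norm_num),
      zpow_natCast, zpow_natCast]
  have e2 : (2 : ℝ) ^ t = 2 ^ n * (2 ^ N / (2 : ℝ) ^ J) := by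
    rw [← zpow_natCast (2 : ℝ) t, ← h1, zpow_add₀ (by norm_num), zpow_sub₀ (by norm_num),
      zpow_natCast, zpow_natCast]
  have e6 : (6 : ℝ) ^ J = 2 ^ J * 3 ^ J := by
    rw [show (6 : ℝ) = 2 * 3 by norm_num, mul_zpow]
  have e6' : (6 : ℝ) ^ N = 2 ^ N * 3 ^ N := by
    rw [show (6 : ℝ) = 2 * 3 by norm_num, mul_pow]
  push_cast
  rw [e3, e2, e6, e6', div_pow]
  have hJ2 : (2 : ℝ) ^ J ≠ 0 := by positivity
  have hJ3 : (3 : ℝ) ^ J ≠ 0 := by positivity
  field_simp

/-- the parameters of a position -/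
def sPar (N L : ℕ) (j : ℤ) : ℕ := (2 * ((N : ℤ) - (j + L - 1))).toNat

/-- the parameters of a position -/
def cPar (N L : ℕ) (j : ℤ) : ℕ := ((sPar N L j : ℤ) - 2 * ((N : ℤ) - (j + L - 1))).toNat

theorem bad_of {N R : ℕ} {x : Conf} (hx : ∀ i : ℤ, (N : ℤ) < |i| → x i = 0) (j : ℤ)
    (w : List (Fin 6)) (hL : 1 ≤ w.length) (hj1 : -(N : ℤ) ≤ j) (hj2 : j ≤ R)
    (h : ∀ n : ℕ, n ≤ 3 * N + R + w.length → ¬ Shows (F^[n] x) w j) :
    Bad w.length (code w) (cPar N w.length j) (sPar N w.length j) (sPar N w.length j + N)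
      (num N x) := by
  intro t ht ht2 hEq
  set D : ℤ := (N : ℤ) - (j + w.length - 1) with hD
  have hs : (sPar N w.length j : ℤ) = max (2 * D) 0 := by
    unfold sPar; rw [← hD]; exact Int.toNat_eq_max _
  have hc : (cPar N w.length j : ℤ) = sPar N w.length j - 2 * D := by
    unfold cPar; rw [← hD, Int.toNat_of_nonneg]; omega
  obtain ⟨n, hn⟩ : ∃ n : ℕ, (n : ℤ) = t - D := ⟨(t - D).toNat, by
    rw [Int.toNat_of_nonneg]; omega⟩
  apply h n (by omega)
  apply shows_of (by positivity) (rep_num hx)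
  rw [value N (num N x) n (t - sPar N w.length j + cPar N w.length j) t (j + w.length - 1)
    (by omega) (by push_cast [Nat.cast_sub ht]; omega), Nat.floor_div_eq_div, hEq,
    Nat.mod_eq_of_lt (code_lt w)]

/-- Configurations supported in `[-N, N]` such that some word of length `L` is not shown at some
position of `[-N, R]` by any `F^n(x)`, `n ≤ 3N + R + L`. -/
def Exc (L N R : ℕ) : Set Conf :=
  {x | (∀ i : ℤ, (N : ℤ) < |i| → x i = 0) ∧
    ∃ j : ℤ, -(N : ℤ) ≤ j ∧ j ≤ R ∧ ∃ w : List (Fin 6), w.length = L ∧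
      ∀ n : ℕ, n ≤ 3 * N + R + L → ¬ Shows (F^[n] x) w j}

open Classical in
theorem main (L : ℕ) (hL : 1 ≤ L) (N R : ℕ) : (Exc L N R).Finite ∧
    ((Exc L N R).ncard : ℝ) ≤
      2 * (N + R + 1) * 6 ^ L * (1 - 1 / 8 ^ L) ^ (N / (3 * L)) * 6 ^ (2 * N + 1) := by
  set T : Finset ℕ := (Finset.Icc (-(N : ℤ)) R).biUnion fun j => (Finset.range (6 ^ L)).biUnion
    fun u => (Finset.range (6 ^ (2 * N + 1))).filter fun m =>
      Bad L u (cPar N L j) (sPar N L j) (sPar N L j + N) m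
    with hT
  have hmaps : ∀ x ∈ Exc L N R, num N x ∈ (T : Set ℕ) := by
    rintro x ⟨hx, j, hj1, hj2, w, hw, h⟩
    rw [Finset.mem_coe, hT, Finset.mem_biUnion]
    refine ⟨j, Finset.mem_Icc.2 ⟨hj1, hj2⟩, ?_⟩
    rw [Finset.mem_biUnion]
    refine ⟨code w, Finset.mem_range.2 (hw ▸ code_lt w), ?_⟩
    rw [Finset.mem_filter, Finset.mem_range]
    have := bad_of (R := R) hx j w (hw ▸ hL) hj1 hj2 (hw ▸ h)
    rw [hw] at this
    exact ⟨num_lt N x, this⟩
  have hinj : Set.InjOn (num N) (Exc L N R) := (num_injOn N).mono fun x hx => hx.1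
  refine ⟨Set.Finite.of_injOn hmaps hinj (Finset.finite_toSet T), ?_⟩
  have h1 : (Exc L N R).ncard ≤ T.card := by
    rw [← Set.ncard_coe_finset T]
    exact Set.ncard_le_ncard_of_injOn _ hmaps hinj (Finset.finite_toSet T)
  set M : ℕ := 6 ^ (2 * N + 1) with hM
  set B : ℝ := 2 * M * (1 - 1 / 8 ^ L) ^ (N / (3 * L)) with hB
  have hone : ∀ j ∈ Finset.Icc (-(N : ℤ)) R, ∀ u ∈ Finset.range (6 ^ L),
      ((((Finset.range M).filter fun m =>
        Bad L u (cPar N L j) (sPar N L j) (sPar N L j + N) m).card : ℕ) : ℝ) ≤ B := by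
    intro j hj u _
    have hj' := Finset.mem_Icc.1 hj
    have hs : sPar N L j ≤ 4 * N := by
      unfold sPar
      rw [Int.toNat_le]
      push_cast
      omega
    have hK : 3 * L * (N / (3 * L)) ≤ N := Nat.mul_div_le N (3 * L)
    apply card_bad
    · omega
    calc 2 ^ (sPar N L j + 3 * L * (N / (3 * L))) ≤ 2 ^ (5 * N) :=
          Nat.pow_le_pow_right (by norm_num) (by omega)
      _ = 32 ^ N := by rw [pow_mul]; norm_num
      _ ≤ 36 ^ N := Nat.pow_le_pow_left (by norm_num) N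
      _ = 6 ^ (2 * N) := by rw [pow_mul]; norm_num
      _ ≤ 6 ^ (2 * N + 1) := Nat.pow_le_pow_right (by norm_num) (by omega)
  have hcard : (T.card : ℝ) ≤ ((N + R + 1 : ℕ) : ℝ) * (((6 ^ L : ℕ) : ℝ) * B) := by
    have h2 : T.card ≤ ∑ j ∈ Finset.Icc (-(N : ℤ)) R, ∑ u ∈ Finset.range (6 ^ L),
        ((Finset.range M).filter fun m =>
          Bad L u (cPar N L j) (sPar N L j) (sPar N L j + N) m).card := by
      refine Finset.card_biUnion_le.trans (Finset.sum_le_sum fun j _ => Finset.card_biUnion_le)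
    have h3 : (T.card : ℝ) ≤ ∑ j ∈ Finset.Icc (-(N : ℤ)) R, ∑ u ∈ Finset.range (6 ^ L),
        ((((Finset.range M).filter fun m =>
          Bad L u (cPar N L j) (sPar N L j) (sPar N L j + N) m).card : ℕ) : ℝ) := by
      exact_mod_cast h2
    refine h3.trans ?_
    have h4 : ∀ j ∈ Finset.Icc (-(N : ℤ)) R, ∑ u ∈ Finset.range (6 ^ L),
        ((((Finset.range M).filter fun m =>
          Bad L u (cPar N L j) (sPar N L j) (sPar N L j + N) m).card : ℕ) : ℝ) ≤
          ((6 ^ L : ℕ) : ℝ) * B := by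
      intro j hj
      refine (Finset.sum_le_card_nsmul _ _ B (hone j hj)).trans (le_of_eq ?_)
      rw [Finset.card_range, nsmul_eq_mul]
    refine (Finset.sum_le_card_nsmul _ _ _ h4).trans (le_of_eq ?_)
    rw [Int.card_Icc, nsmul_eq_mul]
    congr 2
    omega
  calc ((Exc L N R).ncard : ℝ) ≤ T.card := by exact_mod_cast h1
    _ ≤ _ := hcard
    _ = _ := by
      rw [hB, hM]; push_cast; ring

/-- Configurations supported in `[-N, N]` correspond to words of length `2N+1`. -/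
def winEquiv (N : ℕ) : {x : Conf // ∀ i : ℤ, (N : ℤ) < |i| → x i = 0} ≃ (Fin (2 * N + 1) → Fin 6) where
  toFun x k := x.1 ((k : ℤ) - N)
  invFun g := ⟨fun i => if h : |i| ≤ N then g ⟨(i + N).toNat, by
      have := abs_le.1 h; omega⟩ else 0, fun i hi => by
    simp only []
    rw [dif_neg (not_le.2 hi)]⟩
  left_inv x := by
    apply Subtype.ext
    funext i
    by_cases h : |i| ≤ N
    · simp only [dif_pos h]
      have := abs_le.1 h
      rw [Int.toNat_of_nonneg (by omega), add_sub_cancel_right]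
    · simp only [dif_neg h]
      exact (x.2 i (not_le.1 h)).symm
  right_inv g := by
    funext k
    have hk := k.isLt
    have h : |((k : ℕ) : ℤ) - N| ≤ N := abs_le.2 ⟨by omega, by omega⟩
    simp only [dif_pos h]
    congr 1
    apply Fin.ext
    simp

theorem win_card (N : ℕ) :
    ({x : Conf | ∀ i : ℤ, (N : ℤ) < |i| → x i = 0} : Set Conf).ncard = 6 ^ (2 * N + 1) := by
  rw [← Nat.card_coe_set_eq]
  exact (Nat.card_congr (winEquiv N)).trans (by simp)

end Pool.Agent.H145R3.AAC
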