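import Mathlib

set_option autoImplicit false
open Polynomial Filter Topology Set

namespace Pool.Agent.H145R3.CC

/-- Existence of a character-like point for a submultiplicative seminorm on complex polynomials. -/
theorem exists_lambda (ρ : RingSeminorm ℂ[X]) (hs : ∀ (c : ℂ) (a : ℂ[X]), ρ (c • a) ≤ ‖c‖ * ρ a)
    (h1 : ρ 1 ≠ 0) : ∃ l : ℂ, ∀ b : ℂ[X], 1 ≤ ρ (1 - (X - C l) * b) := by
  by_contra hcon
  push Not at hcon
  letI i1 : SeminormedCommRing ℂ[X] :=
    { ρ.toSeminormedRing, (inferInstance : CommRing ℂ[X]) with }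
  letI i2 : NormedAlgebra ℂ ℂ[X] :=
    { (inferInstance : Algebra ℂ ℂ[X]) with norm_smul_le := hs }
  have hnorm : ∀ a : ℂ[X], ‖a‖ = ρ a := fun a => rfl
  haveI : Nontrivial (UniformSpace.Completion ℂ[X]) := by
    refine ⟨⟨0, ((1 : ℂ[X]) : UniformSpace.Completion ℂ[X]), ?_⟩⟩
    intro h
    have h2 : ‖((1 : ℂ[X]) : UniformSpace.Completion ℂ[X])‖ = 0 := by rw [← h, norm_zero]
    rw [UniformSpace.Completion.norm_coe, hnorm] at h2
    exact h1 h2
  obtain ⟨l, hl⟩ := spectrum.nonempty ((X : ℂ[X]) : UniformSpace.Completion ℂ[X])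
  obtain ⟨b, hb⟩ := hcon l
  rw [← hnorm, ← UniformSpace.Completion.norm_coe] at hb
  have h3 := isUnit_one_sub_of_norm_lt_one hb
  have h4 : (1 : UniformSpace.Completion ℂ[X]) -
      ((1 - (X - C l) * b : ℂ[X]) : UniformSpace.Completion ℂ[X]) =
      ((X - C l : ℂ[X]) : UniformSpace.Completion ℂ[X]) * (b : UniformSpace.Completion ℂ[X]) := by
    rw [← UniformSpace.Completion.coe_mul, ← UniformSpace.Completion.coe_one,
      ← UniformSpace.Completion.coe_sub]
    congr 1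
    ring
  rw [h4] at h3
  have h5 : IsUnit ((X - C l : ℂ[X]) : UniformSpace.Completion ℂ[X]) :=
    isUnit_of_mul_isUnit_left h3
  apply hl
  have h6 : algebraMap ℂ (UniformSpace.Completion ℂ[X]) l - ((X : ℂ[X]) : UniformSpace.Completion ℂ[X])
      = -((X - C l : ℂ[X]) : UniformSpace.Completion ℂ[X]) := by
    have h7 : algebraMap ℂ (UniformSpace.Completion ℂ[X]) l =
        ((C l : ℂ[X]) : UniformSpace.Completion ℂ[X]) := rfl
    rw [h7, ← UniformSpace.Completion.coe_sub, ← UniformSpace.Completion.coe_neg]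
    congr 1
    ring
  rw [spectrum.mem_resolventSet_iff, h6]
  exact h5.neg

variable {Y : Type*} [NormedAddCommGroup Y] [NormedSpace ℂ Y]

/-- A functional whose real part is at least `-M` (or at most `M`) on a ball is bounded. -/
theorem norm_le_of_ball {φ : Y →L[ℂ] ℂ} {y0 : Y} {r M : ℝ} (hr : 0 < r)
    (h : ∀ v, ‖v‖ ≤ r → (φ (y0 + v)).re ≤ M) (v : Y) : ‖φ v‖ ≤ (M - (φ y0).re) / r * ‖v‖ := by
  rcases eq_or_ne v 0 with rfl | hv
  · simp
  rcases eq_or_ne (φ v) 0 with h0 | h0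
  · rw [h0, norm_zero]
    have h1 := h 0 (by simpa using hr.le)
    rw [add_zero] at h1
    have : 0 ≤ M - (φ y0).re := by linarith
    positivity
  have hvn : 0 < ‖v‖ := norm_pos_iff.2 hv
  have hpn : 0 < ‖φ v‖ := norm_pos_iff.2 h0
  set c : ℂ := ((r / ‖v‖ : ℝ) : ℂ) * (starRingEnd ℂ (φ v) / (‖φ v‖ : ℂ)) with hc
  have hcn : ‖c • v‖ ≤ r := by
    rw [norm_smul, hc, norm_mul, norm_div, Complex.norm_real, Complex.norm_real, RCLike.norm_conj,
      norm_norm, div_self hpn.ne', mul_one, Real.norm_eq_abs, abs_of_pos (by positivity),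
      div_mul_cancel₀ _ hvn.ne']
  have h1 := h _ hcn
  have h2 : (φ (c • v)).re = r / ‖v‖ * ‖φ v‖ := by
    have h3 : φ (c • v) = ((r / ‖v‖ * ‖φ v‖ : ℝ) : ℂ) := by
      rw [map_smul, smul_eq_mul, hc]
      have h4 : starRingEnd ℂ (φ v) * φ v = ((‖φ v‖ : ℝ) : ℂ) ^ 2 := by
        rw [mul_comm, Complex.mul_conj, Complex.normSq_eq_norm_sq]
        push_cast
        ring
      have h5 : (‖φ v‖ : ℂ) ≠ 0 := by exact_mod_cast hpn.ne'
      calc ((r / ‖v‖ : ℝ) : ℂ) * (starRingEnd ℂ (φ v) / (‖φ v‖ : ℂ)) * φ v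
          = ((r / ‖v‖ : ℝ) : ℂ) * (starRingEnd ℂ (φ v) * φ v) / (‖φ v‖ : ℂ) := by ring
        _ = _ := by
          rw [h4]
          push_cast
          field_simp
    rw [h3, Complex.ofReal_re]
  rw [map_add, Complex.add_re, h2] at h1
  have h3 : r / ‖v‖ * ‖φ v‖ ≤ M - (φ y0).re := by linarith
  have h4 : ‖φ v‖ = (r / ‖v‖ * ‖φ v‖) * (‖v‖ / r) := by
    field_simp
  rw [h4]
  calc (r / ‖v‖ * ‖φ v‖) * (‖v‖ / r) ≤ (M - (φ y0).re) * (‖v‖ / r) :=
        mul_le_mul_of_nonneg_right h3 (by positivity)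
    _ = _ := by ring

/-- The span of the orbit is dense as soon as the closed convex hull of the orbit has interior. -/
theorem functional_eq_zero {T : Y →L[ℂ] Y} {x : Y}
    (hint : (interior (closure (convexHull ℝ (Set.range (fun n : ℕ => (T ^ n) x))))).Nonempty)
    {φ : Y →L[ℂ] ℂ} (h : ∀ n : ℕ, φ ((T ^ n) x) = 0) : φ = 0 := by
  obtain ⟨y0, hy0⟩ := hint
  have hC : ∀ v ∈ closure (convexHull ℝ (Set.range (fun n : ℕ => (T ^ n) x))), φ v = 0 := by
    intro v hv
    have hcl : IsClosed {v : Y | φ v = 0} := isClosed_eq φ.continuous continuous_const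
    have hcv : Convex ℝ {v : Y | φ v = 0} := by
      intro a ha b hb s t _ _ _
      have ha' : φ a = 0 := ha
      have hb' : φ b = 0 := hb
      change φ (s • a + t • b) = 0
      rw [map_add, φ.map_smul_of_tower, φ.map_smul_of_tower, ha', hb']
      simp
    exact closure_minimal (convexHull_min (by rintro _ ⟨n, rfl⟩; exact h n) hcv) hcl hv
  obtain ⟨r, hr, hball⟩ := Metric.mem_nhds_iff.1 (mem_interior_iff_mem_nhds.1 hy0)
  ext v
  have h1 : ∀ v, ‖v‖ ≤ r / 2 → (φ (y0 + v)).re ≤ 0 := by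
    intro v hv
    rw [hC (y0 + v) (hball (by
      rw [Metric.mem_ball, dist_eq_norm, add_sub_cancel_left]; linarith))]
    simp
  have h2 := norm_le_of_ball (half_pos hr) h1 v
  rw [hC y0 (hball (Metric.mem_ball_self hr))] at h2
  simpa using h2

end Pool.Agent.H145R3.CC
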