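import Mathlib

set_option autoImplicit false
open Filter Topology Set Finset

namespace Pool.Agent.H145R3.CC

/-- powers of a number larger than one are unbounded -/
theorem false_of_pow_le {q D : ℝ} (hq : 1 < q) (h : ∀ k : ℕ, q ^ k ≤ D) : False := by
  obtain ⟨n, hn⟩ := pow_unbounded_of_one_lt D hq
  exact absurd (h n) (not_le.2 hn)

theorem seq_lemma (a : ℕ → ℝ) (ha : ∀ n, 0 < a n) {M δ : ℝ} (hδ : 0 < δ)
    (h1 : ∀ n, a (n + 1) ≤ M * a n) (h2 : ∀ n, δ * a n ≤ a (n + 1)) {ε : ℝ} (hε : 0 < ε) :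
    ∃ μ : ℝ, 0 < μ ∧ μ ≤ M ∧ ∃ N : ℕ,
      μ * (a 0 + a N / μ ^ N) ≤ ε * ∑ j ∈ range N, a j / μ ^ j := by
  by_contra hcon
  push Not at hcon
  have hM : 0 < M := by
    have := h1 0
    have h3 := ha 0
    have h4 := ha 1
    by_contra hM
    push Not at hM
    have : a (0 + 1) ≤ 0 := this.trans (mul_nonpos_of_nonpos_of_nonneg hM h3.le)
    simp at this
    linarith
  set S : Set ℝ := {μ | 0 < μ ∧ ∃ C, ∀ n, a n ≤ C * μ ^ n} with hS
  have hMS : M ∈ S := by
    refine ⟨hM, a 0, fun n => ?_⟩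
    induction n with
    | zero => simp
    | succ n ih =>
      calc a (n + 1) ≤ M * a n := h1 n
        _ ≤ M * (a 0 * M ^ n) := mul_le_mul_of_nonneg_left ih hM.le
        _ = _ := by ring
  have hlow : ∀ n, a 0 * δ ^ n ≤ a n := by
    intro n
    induction n with
    | zero => simp
    | succ n ih =>
      calc a 0 * δ ^ (n + 1) = δ * (a 0 * δ ^ n) := by ring
        _ ≤ δ * a n := mul_le_mul_of_nonneg_left ih hδ.le
        _ ≤ _ := h2 n
  have hSδ : ∀ μ ∈ S, δ ≤ μ := by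
    rintro μ ⟨hμ, C, hC⟩
    by_contra hlt
    push Not at hlt
    apply false_of_pow_le (q := δ / μ) (D := C / a 0) ((one_lt_div hμ).2 hlt)
    intro k
    rw [div_pow, div_le_div_iff₀ (pow_pos hμ k) (ha 0)]
    have := (hlow k).trans (hC k)
    linarith
  have hbdd : BddBelow S := ⟨δ, hSδ⟩
  set R := sInf S with hR
  have hRδ : δ ≤ R := le_csInf ⟨M, hMS⟩ hSδ
  have hR0 : 0 < R := hδ.trans_le hRδ
  have hRM : R ≤ M := csInf_le hbdd hMS
  set κ : ℝ := min (ε / (2 * M)) 1 with hκ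
  have hκ0 : 0 < κ := by rw [hκ]; positivity
  have hκ1 : κ ≤ 1 := min_le_right _ _
  have hκ2 : κ ≤ ε / (2 * M) := min_le_left _ _
  set η : ℝ := κ / 4 with hη
  have hη0 : 0 < η := by positivity
  set μ : ℝ := R / (1 + η) with hμ
  have hμ0 : 0 < μ := by positivity
  have hμR : μ < R := by
    rw [hμ, div_lt_iff₀ (by positivity)]
    nlinarith
  have hμM : μ ≤ M := hμR.le.trans hRM
  have hμS : μ ∉ S := fun h => absurd (csInf_le hbdd h) (not_le.2 hμR)
  have hunb : ∀ D : ℝ, ∃ n, D * μ ^ n < a n := by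
    intro D
    by_contra hD
    push Not at hD
    exact hμS ⟨hμ0, D, hD⟩
  obtain ⟨μ', ⟨hμ'0, C', hC'⟩, hμ'R⟩ := exists_lt_of_csInf_lt ⟨M, hMS⟩
    (show sInf S < R * (1 + η) by rw [← hR]; nlinarith)
  set s : ℕ → ℝ := fun j => a j / μ ^ j with hs
  have hs0 : ∀ j, 0 < s j := fun j => div_pos (ha j) (pow_pos hμ0 j)
  set PS : ℕ → ℝ := fun N => ∑ j ∈ range N, s j with hPS
  have hmono : Monotone PS := by
    apply monotone_nat_of_le_succ
    intro n
    simp only [hPS, sum_range_succ]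
    linarith [hs0 n]
  obtain ⟨n0, hn0⟩ := hunb (2 * M / ε * a 0)
  have hsn0 : 2 * M / ε * a 0 < s n0 := by
    simp only [hs]
    rwa [lt_div_iff₀ (pow_pos hμ0 n0)]
  have hstep : ∀ N, n0 + 1 ≤ N → κ * PS N ≤ s N := by
    intro N hN
    have h3 : s n0 ≤ PS N := by
      have h4 : PS (n0 + 1) ≤ PS N := hmono hN
      have h5 : s n0 ≤ PS (n0 + 1) := by
        simp only [hPS, sum_range_succ]
        have : 0 ≤ ∑ j ∈ range n0, s j := sum_nonneg fun j _ => (hs0 j).le
        linarith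
      linarith
    have h4 := hcon μ hμ0 hμM N
    have h5 : 2 * M / ε * a 0 < PS N := hsn0.trans_le h3
    have h6 : 2 * M * a 0 < ε * PS N := by
      have := mul_lt_mul_of_pos_left h5 hε
      have h7 : ε * (2 * M / ε * a 0) = 2 * M * a 0 := by field_simp
      linarith
    have h7 : μ * a 0 ≤ M * a 0 := mul_le_mul_of_nonneg_right hμM (ha 0).le
    have h8 : μ * s N ≤ M * s N := mul_le_mul_of_nonneg_right hμM (hs0 N).le
    have h9 : ε * PS N < μ * a 0 + μ * s N := by
      have : μ * (a 0 + a N / μ ^ N) = μ * a 0 + μ * s N := by simp only [hs]; ring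
      rw [← this]
      exact h4
    have h10 : ε / 2 * PS N ≤ M * s N := by linarith
    have hPS0 : 0 ≤ PS N := sum_nonneg fun j _ => (hs0 j).le
    calc κ * PS N ≤ ε / (2 * M) * PS N := mul_le_mul_of_nonneg_right hκ2 hPS0
      _ = (ε / 2 * PS N) / M := by field_simp
      _ ≤ (M * s N) / M := div_le_div_of_nonneg_right h10 hM.le
      _ = s N := by field_simp
  set c := PS (n0 + 1) with hc
  have hc0 : 0 < c := by
    have h5 : s n0 ≤ PS (n0 + 1) := by
      simp only [hPS, sum_range_succ]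
      have : 0 ≤ ∑ j ∈ range n0, s j := sum_nonneg fun j _ => (hs0 j).le
      linarith
    exact (hs0 n0).trans_le h5
  have hgrow : ∀ k, (1 + κ) ^ k * c ≤ PS (n0 + 1 + k) := by
    intro k
    induction k with
    | zero => simp [hc]
    | succ k ih =>
      have h3 := hstep (n0 + 1 + k) (by omega)
      have h4 : PS (n0 + 1 + (k + 1)) = PS (n0 + 1 + k) + s (n0 + 1 + k) := by
        simp only [hPS]
        rw [← add_assoc, sum_range_succ]
      rw [h4]
      calc (1 + κ) ^ (k + 1) * c = (1 + κ) * ((1 + κ) ^ k * c) := by ring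
        _ ≤ (1 + κ) * PS (n0 + 1 + k) := mul_le_mul_of_nonneg_left ih (by positivity)
        _ ≤ _ := by linarith
  have hup : ∀ n, s n ≤ C' * ((1 + η) ^ 2) ^ n := by
    intro n
    have h3 : μ' ≤ (1 + η) ^ 2 * μ := by
      have : (1 + η) ^ 2 * μ = R * (1 + η) := by
        rw [hμ]
        field_simp
      rw [this]
      exact hμ'R.le
    have hC0 : 0 ≤ C' := by
      have := hC' 0
      simp at this
      exact (ha 0).le.trans this
    simp only [hs]
    rw [div_le_iff₀ (pow_pos hμ0 n)]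
    calc a n ≤ C' * μ' ^ n := hC' n
      _ ≤ C' * ((1 + η) ^ 2 * μ) ^ n :=
        mul_le_mul_of_nonneg_left (pow_le_pow_left₀ hμ'0.le h3 n) hC0
      _ = _ := by rw [mul_pow]; ring
  have hq : 1 < (1 + κ) / (1 + η) ^ 2 := by
    rw [one_lt_div (by positivity)]
    nlinarith
  apply false_of_pow_le hq (D := C' * ((1 + η) ^ 2) ^ (n0 + 1) / (κ * c))
  intro k
  have h3 := hstep (n0 + 1 + k) (by omega)
  have h4 := hup (n0 + 1 + k)
  have h5 := hgrow k
  have h6 : κ * ((1 + κ) ^ k * c) ≤ C' * ((1 + η) ^ 2) ^ (n0 + 1 + k) :=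
    (mul_le_mul_of_nonneg_left h5 hκ0.le).trans (h3.trans h4)
  rw [div_pow, div_le_div_iff₀ (by positivity) (by positivity)]
  rw [pow_add] at h6
  linarith

end Pool.Agent.H145R3.CC
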