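import Pool.Agent.H145R3.CC1
import Pool.Agent.H145R3.CC2

set_option autoImplicit false
open Polynomial Filter Topology Set

namespace Pool.Agent.H145R3.CC

variable {Y : Type*} [NormedAddCommGroup Y] [NormedSpace ℂ Y]

/-- The closed convex hull of the orbit. -/
def CH (T : Y →L[ℂ] Y) (x : Y) : Set Y :=
  closure (convexHull ℝ (Set.range (fun n : ℕ => (T ^ n) x)))

theorem CH_min {T : Y →L[ℂ] Y} {x : Y} {S : Set Y} (hc : IsClosed S) (hv : Convex ℝ S)
    (h : ∀ n : ℕ, (T ^ n) x ∈ S) : CH T x ⊆ S :=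
  closure_minimal (convexHull_min (by rintro _ ⟨n, rfl⟩; exact h n) hv) hc

theorem orb_mem (T : Y →L[ℂ] Y) (x : Y) (n : ℕ) : (T ^ n) x ∈ CH T x :=
  subset_closure (subset_convexHull ℝ _ ⟨n, rfl⟩)

theorem CH_convex (T : Y →L[ℂ] Y) (x : Y) : Convex ℝ (CH T x) := (convex_convexHull ℝ _).closure

theorem CH_closed (T : Y →L[ℂ] Y) (x : Y) : IsClosed (CH T x) := isClosed_closure

theorem CH_map (T : Y →L[ℂ] Y) (x : Y) : ∀ v ∈ CH T x, T v ∈ CH T x := by
  have h : CH T x ⊆ T ⁻¹' (CH T x) := by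
    apply CH_min ((CH_closed T x).preimage T.continuous)
    · exact (CH_convex T x).affine_preimage ((T.restrictScalars ℝ : Y →ₗ[ℝ] Y).toAffineMap)
    · intro n
      rw [Set.mem_preimage]
      have : T ((T ^ n) x) = (T ^ (n + 1)) x := by
        rw [pow_succ', ContinuousLinearMap.mul_apply]
      rw [this]
      exact orb_mem T x (n + 1)
  exact h

theorem comp_pow (T : Y →L[ℂ] Y) (φ : Y →L[ℂ] ℂ) (n : ℕ) (v : Y) :
    (φ.comp (T ^ n)) v = φ ((T ^ n) v) := rfl

theorem exists_vanish {M : Submodule ℂ Y} (hM : IsClosed (M : Set Y)) {y : Y} (hy : y ∉ M) :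
    ∃ f : Y →L[ℂ] ℂ, (∀ a ∈ M, f a = 0) ∧ f y ≠ 0 := by
  have hconv : Convex ℝ (M : Set Y) := (M.restrictScalars ℝ).convex
  obtain ⟨f, u, h1, h2⟩ := RCLike.geometric_hahn_banach_closed_point (𝕜 := ℂ) hconv hM hy
  have hu : 0 < u := by
    have := h1 0 M.zero_mem
    simpa using this
  refine ⟨f, fun a ha => ?_, ?_⟩
  · by_contra hne
    have h3 := h1 ((((u : ℝ) : ℂ) / f a) • a) (M.smul_mem _ ha)
    rw [map_smul, smul_eq_mul, div_mul_cancel₀ _ hne] at h3
    simp at h3
  · intro h0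
    rw [h0] at h2
    simp at h2
    linarith

/-- Case `0 ∈ interior C`, `C ≠ univ`. -/
theorem case1 {T : Y →L[ℂ] Y} {x : Y} (h0 : (0 : Y) ∈ interior (CH T x))
    (hne : CH T x ≠ univ) : ∃ (l : ℂ) (φ : Y →L[ℂ] ℂ), φ.comp T = l • φ ∧ φ ≠ 0 := by
  obtain ⟨r₀, hr₀, hball⟩ := Metric.mem_nhds_iff.1 (mem_interior_iff_mem_nhds.1 h0)
  set r := r₀ / 2 with hr
  have hr0 : 0 < r := by positivity
  have hrC : ∀ v : Y, ‖v‖ ≤ r → v ∈ CH T x := fun v hv => hball (by
    rw [Metric.mem_ball, dist_zero_right]; linarith)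
  have h0C : (0 : Y) ∈ CH T x := hrC 0 (by simpa using hr0.le)
  set K : Set (Y →L[ℂ] ℂ) := {φ | ∀ v ∈ CH T x, (φ v).re ≤ 1} with hK
  have hK0 : (0 : Y →L[ℂ] ℂ) ∈ K := fun v _ => by simp
  haveI : Nonempty K := ⟨⟨0, hK0⟩⟩
  have hKT : ∀ φ ∈ K, ∀ n : ℕ, φ.comp (T ^ n) ∈ K := by
    intro φ hφ n
    induction n with
    | zero =>
      intro v hv
      rw [comp_pow]
      simpa using hφ v hv
    | succ n ih =>
      intro v hv
      have h3 := ih (T v) (CH_map T x v hv)
      rw [comp_pow] at h3 ⊢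
      rwa [pow_succ, ContinuousLinearMap.mul_apply]
  have hKb : ∀ φ ∈ K, ∀ v, ‖φ v‖ ≤ 1 / r * ‖v‖ := by
    intro φ hφ v
    have h3 := norm_le_of_ball (φ := φ) (y0 := 0) (M := 1) hr0
      (fun w hw => by rw [zero_add]; exact hφ w (hrC w hw)) v
    simpa using h3
  have hmem : ∀ v : Y, (∀ φ ∈ K, ‖φ v‖ ≤ 1) → v ∈ CH T x := by
    intro v hv
    by_contra hvC
    obtain ⟨f, u, h1, h2⟩ := RCLike.geometric_hahn_banach_closed_point (𝕜 := ℂ)
      (CH_convex T x) (CH_closed T x) hvC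
    have hu : 0 < u := by
      have := h1 0 h0C
      simpa using this
    have hf : (((u⁻¹ : ℝ) : ℂ) • f) ∈ K := by
      intro w hw
      have h3 := h1 w hw
      rw [ContinuousLinearMap.smul_apply, smul_eq_mul, Complex.re_ofReal_mul, inv_mul_le_iff₀ hu,
        mul_one]
      exact h3.le
    have h3 := hv _ hf
    have h4 : (((((u⁻¹ : ℝ) : ℂ) • f) v)).re ≤ 1 := (Complex.re_le_norm _).trans h3
    rw [ContinuousLinearMap.smul_apply, smul_eq_mul, Complex.re_ofReal_mul, inv_mul_le_iff₀ hu,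
      mul_one] at h4
    exact absurd h2 (not_lt.2 h4)
  set E : ℂ[X] → Y := fun a => (aeval T a) x with hE
  set ρ : ℂ[X] → ℝ := fun a => ⨆ φ : K, ‖(φ : Y →L[ℂ] ℂ) (E a)‖ with hρ
  have hbdd : ∀ a, BddAbove (Set.range fun φ : K => ‖(φ : Y →L[ℂ] ℂ) (E a)‖) := by
    intro a
    refine ⟨1 / r * ‖E a‖, ?_⟩
    rintro _ ⟨φ, rfl⟩
    exact hKb φ φ.2 _
  have hle : ∀ a, ∀ φ ∈ K, ‖φ (E a)‖ ≤ ρ a := fun a φ hφ => le_ciSup (hbdd a) (⟨φ, hφ⟩ : K)
  have hge : ∀ a M, (∀ φ ∈ K, ‖φ (E a)‖ ≤ M) → ρ a ≤ M := fun a M h =>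
    ciSup_le fun φ => h φ φ.2
  have hρ0 : ∀ a, 0 ≤ ρ a := fun a => by
    have := hle a 0 hK0
    simpa using this
  have hkey : ∀ a, ∀ v ∈ CH T x, ∀ ψ ∈ K, ‖ψ (aeval T a v)‖ ≤ ρ a := by
    intro a v hv ψ hψ
    have hcl : IsClosed {v : Y | ‖ψ (aeval T a v)‖ ≤ ρ a} :=
      isClosed_le (by fun_prop) continuous_const
    have hcv : Convex ℝ {v : Y | ‖ψ (aeval T a v)‖ ≤ ρ a} := by
      intro v hv w hw s t hs ht hst
      have hv' : ‖ψ (aeval T a v)‖ ≤ ρ a := hv
      have hw' : ‖ψ (aeval T a w)‖ ≤ ρ a := hw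
      change ‖ψ (aeval T a (s • v + t • w))‖ ≤ ρ a
      have h3 : ψ (aeval T a (s • v + t • w)) = (s : ℂ) * ψ (aeval T a v) +
          (t : ℂ) * ψ (aeval T a w) := by
        have h4 : s • v + t • w = (s : ℂ) • v + (t : ℂ) • w := by simp
        rw [h4, map_add, map_smul, map_smul, map_add, map_smul, map_smul, smul_eq_mul, smul_eq_mul]
      rw [h3]
      calc ‖(s : ℂ) * ψ (aeval T a v) + (t : ℂ) * ψ (aeval T a w)‖
          ≤ ‖(s : ℂ) * ψ (aeval T a v)‖ + ‖(t : ℂ) * ψ (aeval T a w)‖ := norm_add_le _ _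
        _ = s * ‖ψ (aeval T a v)‖ + t * ‖ψ (aeval T a w)‖ := by
          rw [norm_mul, norm_mul, Complex.norm_real, Complex.norm_real, Real.norm_of_nonneg hs,
            Real.norm_of_nonneg ht]
        _ ≤ s * ρ a + t * ρ a := by gcongr
        _ = ρ a := by rw [← add_mul, hst, one_mul]
    refine CH_min hcl hcv (fun n => ?_) hv
    have h3 := hle a _ (hKT ψ hψ n)
    rw [comp_pow] at h3
    have h4 : (T ^ n) (E a) = aeval T a ((T ^ n) x) := by
      simp only [hE]
      have h5 : (T ^ n) * (aeval T a) = (aeval T a) * (T ^ n) := by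
        have h6 : (T ^ n) = aeval T (X ^ n : ℂ[X]) := by simp
        rw [h6, ← map_mul, ← map_mul, mul_comm]
      have := congrArg (fun S : Y →L[ℂ] Y => S x) h5
      simpa using this
    rw [h4] at h3
    exact h3
  have hmul : ∀ a b, ρ (a * b) ≤ ρ a * ρ b := by
    intro a b
    apply hge
    intro ψ hψ
    have h3 : E (a * b) = aeval T a (E b) := by
      simp only [hE, map_mul, ContinuousLinearMap.mul_apply]
    rw [h3]
    have h4 : ∀ t : ℝ, ρ b < t → ‖ψ (aeval T a (E b))‖ ≤ ρ a * t := by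
      intro t ht
      have ht0 : 0 < t := (hρ0 b).trans_lt ht
      have h5 : ((t⁻¹ : ℝ) : ℂ) • E b ∈ CH T x := by
        apply hmem
        intro φ hφ
        rw [map_smul, norm_smul, Complex.norm_real, Real.norm_of_nonneg (by positivity),
          inv_mul_le_iff₀ ht0, mul_one]
        exact (hle b φ hφ).trans ht.le
      have h6 := hkey a _ h5 ψ hψ
      rw [map_smul, map_smul, norm_smul, Complex.norm_real, Real.norm_of_nonneg (by positivity),
        inv_mul_le_iff₀ ht0] at h6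
      linarith
    have h5 : ‖ψ (aeval T a (E b))‖ ≤ ρ a * ρ b := by
      apply le_of_forall_pos_le_add
      intro ε hε
      have h6 := h4 (ρ b + ε / (ρ a + 1)) (by
        have := hρ0 a
        have : 0 < ε / (ρ a + 1) := by positivity
        linarith)
      have h7 : ρ a * (ρ b + ε / (ρ a + 1)) ≤ ρ a * ρ b + ε := by
        have h8 := hρ0 a
        have h9 : ρ a * (ε / (ρ a + 1)) ≤ ε := by
          rw [mul_div_assoc', div_le_iff₀ (by linarith)]
          nlinarith
        linarith [mul_add (ρ a) (ρ b) (ε / (ρ a + 1))]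
      linarith
    exact h5
  have hEadd : ∀ a b, E (a + b) = E a + E b := fun a b => by
    simp only [hE, map_add, ContinuousLinearMap.add_apply]
  have hEneg : ∀ a, E (-a) = - E a := fun a => by
    simp only [hE, map_neg, ContinuousLinearMap.neg_apply]
  let ρ' : RingSeminorm ℂ[X] :=
    { toFun := ρ
      map_zero' := by
        apply le_antisymm _ (hρ0 0)
        apply hge
        intro φ _
        simp [hE]
      add_le' := by
        intro a b
        apply hge
        intro φ hφ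
        rw [hEadd, map_add]
        exact (norm_add_le _ _).trans (add_le_add (hle a φ hφ) (hle b φ hφ))
      neg' := by
        intro a
        have h3 : (fun φ : K => ‖(φ : Y →L[ℂ] ℂ) (E (-a))‖) =
            (fun φ : K => ‖(φ : Y →L[ℂ] ℂ) (E a)‖) := by
          funext φ
          rw [hEneg, map_neg, norm_neg]
        change (⨆ φ : K, ‖(φ : Y →L[ℂ] ℂ) (E (-a))‖) = ⨆ φ : K, ‖(φ : Y →L[ℂ] ℂ) (E a)‖
        rw [h3]
      mul_le' := hmul }
  have hsm : ∀ (c : ℂ) (a : ℂ[X]), ρ' (c • a) ≤ ‖c‖ * ρ' a := by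
    intro c a
    apply hge
    intro φ hφ
    have : E (c • a) = c • E a := by simp only [hE, map_smul, ContinuousLinearMap.smul_apply]
    rw [this, map_smul, norm_smul]
    exact mul_le_mul_of_nonneg_left (hle a φ hφ) (norm_nonneg _)
  have hone : ρ' 1 ≠ 0 := by
    intro h1
    have h1' : ρ 1 = 0 := h1
    -- every functional in `K` vanishes on the orbit
    obtain ⟨v, hv⟩ := (Set.ne_univ_iff_exists_notMem _).1 hne
    apply hv
    apply hmem
    intro φ hφ
    have h3 : φ = 0 := by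
      apply functional_eq_zero (T := T) (x := x) ⟨0, h0⟩
      intro n
      have h4 : ρ (X ^ n * 1) ≤ 0 := by
        have := hmul (X ^ n) 1
        rwa [h1', mul_zero] at this
      have h5 := (hle _ φ hφ).trans h4
      have h6 : E (X ^ n * 1) = (T ^ n) x := by simp [hE]
      rw [h6] at h5
      exact norm_le_zero_iff.1 h5
    rw [h3]
    simp
  obtain ⟨l, hl⟩ := exists_lambda ρ' hsm hone
  -- the subspace of all `(T - l) b(T) x`
  let L : ℂ[X] →ₗ[ℂ] Y :=
    { toFun := fun b => E ((X - C l) * b)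
      map_add' := fun a b => by rw [mul_add, hEadd]
      map_smul' := fun c a => by
        simp only [hE, mul_smul_comm, map_smul, ContinuousLinearMap.smul_apply, RingHom.id_apply] }
  have hxM : x ∉ (LinearMap.range L).topologicalClosure := by
    intro hx
    have hx' : x ∈ closure ((LinearMap.range L : Submodule ℂ Y) : Set Y) := hx
    rw [Metric.mem_closure_iff] at hx'
    obtain ⟨_, ⟨b, rfl⟩, hb⟩ := hx' r hr0
    have h3 := hl b
    have h4 : ρ (1 - (X - C l) * b) ≤ 1 / r * ‖x - L b‖ := by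
      apply hge
      intro φ hφ
      have h5 : E (1 - (X - C l) * b) = x - L b := by
        change _ = x - E ((X - C l) * b)
        simp only [hE, map_sub, map_one, ContinuousLinearMap.sub_apply,
          ContinuousLinearMap.one_apply]
      rw [h5]
      exact hKb φ hφ _
    have h5 : (1 : ℝ) ≤ 1 / r * ‖x - L b‖ := h3.trans h4
    rw [dist_eq_norm] at hb
    have h6 : 1 / r * ‖x - L b‖ < 1 := by
      rw [one_div, inv_mul_lt_iff₀ hr0, mul_one]
      exact hb
    linarith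
  obtain ⟨f, hf1, hf2⟩ := exists_vanish (Submodule.isClosed_topologicalClosure _) hxM
  refine ⟨l, f, ?_, ?_⟩
  · have h3 : f.comp T - l • f = 0 := by
      apply functional_eq_zero (T := T) (x := x) ⟨0, h0⟩
      intro n
      have h4 := hf1 (L (X ^ n)) (Submodule.le_topologicalClosure _ ⟨_, rfl⟩)
      have h5 : L (X ^ n) = T ((T ^ n) x) - l • (T ^ n) x := by
        change E ((X - C l) * X ^ n) = _
        simp [hE, map_mul, Algebra.algebraMap_eq_smul_one]
      rw [h5, map_sub, map_smul] at h4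
      simpa using h4
    exact sub_eq_zero.1 h3
  · intro h3
    apply hf2
    rw [h3]
    simp

/-- Case `0 ∉ interior C`. -/
theorem case2 {T : Y →L[ℂ] Y} {x : Y} (h0 : (0 : Y) ∉ interior (CH T x))
    (hint : (interior (CH T x)).Nonempty)
    (hT : ∀ (c : ℂ) (φ : Y →L[ℂ] ℂ), φ.comp T = c • φ → φ = 0) : False := by
  obtain ⟨f, hf0, hf⟩ := RCLike.geometric_hahn_banach_of_nonempty_interior_point (𝕜 := ℂ)
    (CH_convex T x) h0 hint
  obtain ⟨y0, hy0⟩ := hint
  obtain ⟨r₀, hr₀, hball⟩ := Metric.mem_nhds_iff.1 (mem_interior_iff_mem_nhds.1 hy0)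
  set r := r₀ / 2 with hr
  have hr0 : 0 < r := by positivity
  have hrC : ∀ v : Y, ‖v‖ ≤ r → y0 + v ∈ CH T x := fun v hv => hball (by
    rw [Metric.mem_ball, dist_eq_norm, add_sub_cancel_left]; linarith)
  have hy0C : y0 ∈ CH T x := interior_subset hy0
  set P : Set (Y →L[ℂ] ℂ) := {φ | ∀ v ∈ CH T x, 0 ≤ (φ v).re} with hP
  have hPb : ∀ φ ∈ P, ∀ v, ‖φ v‖ ≤ 1 / r * (φ y0).re * ‖v‖ := by
    intro φ hφ v
    have h3 := norm_le_of_ball (φ := -φ) (y0 := y0) (M := 0) hr0
      (fun w hw => by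
        have h := hφ _ (hrC w hw)
        rw [ContinuousLinearMap.neg_apply, Complex.neg_re]
        linarith) v
    have h4 : ‖φ v‖ ≤ (φ y0).re / r * ‖v‖ := by simpa using h3
    calc _ ≤ _ := h4
      _ = _ := by ring
  set g : ℕ → (Y →L[ℂ] ℂ) := fun n => (-f).comp (T ^ n) with hg
  have hgP : ∀ n, g n ∈ P := by
    intro n
    induction n with
    | zero =>
      intro v hv
      have h3 := hf v hv
      simp only [map_zero] at h3
      simp only [hg, comp_pow, pow_zero]
      change 0 ≤ (-(f v)).re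
      have h4 : (f v).re ≤ 0 := by simpa using h3
      simpa using h4
    | succ n ih =>
      intro v hv
      have h3 := ih (T v) (CH_map T x v hv)
      simp only [hg, comp_pow] at h3 ⊢
      rwa [pow_succ, ContinuousLinearMap.mul_apply]
  have hgs : ∀ n v, g (n + 1) v = g n (T v) := by
    intro n v
    simp only [hg, comp_pow]
    rw [pow_succ, ContinuousLinearMap.mul_apply]
  have hg0 : ∀ n, g n ≠ 0 := by
    intro n
    induction n with
    | zero =>
      intro h
      apply hf0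
      ext v
      have h3 := congrArg (fun S : Y →L[ℂ] ℂ => S v) h
      simpa [hg] using h3
    | succ n ih =>
      intro h
      apply ih
      apply hT 0
      ext v
      have h3 := congrArg (fun S : Y →L[ℂ] ℂ => S v) h
      simp only [ContinuousLinearMap.zero_apply] at h3
      rw [hgs] at h3
      simpa using h3
  set a : ℕ → ℝ := fun n => (g n y0).re with ha
  have ha0 : ∀ n, 0 < a n := by
    intro n
    have h3 : 0 ≤ a n := hgP n y0 hy0C
    rcases h3.lt_or_eq with h4 | h4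
    · exact h4
    · exfalso
      apply hg0 n
      ext v
      have h5 := hPb _ (hgP n) v
      have h6 : (g n y0).re = 0 := h4.symm
      rw [h6] at h5
      simpa using h5
  set M : ℝ := 1 / r * ‖T y0‖ + 1 with hM
  have hM0 : 0 < M := by positivity
  have ha1 : ∀ n, a (n + 1) ≤ M * a n := by
    intro n
    have h3 := hPb _ (hgP n) (T y0)
    have h4 : a (n + 1) ≤ ‖g n (T y0)‖ := by
      simp only [ha]
      rw [hgs]
      exact Complex.re_le_norm _
    have h5 := ha0 n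
    have h6 : 1 / r * (g n y0).re * ‖T y0‖ = 1 / r * ‖T y0‖ * a n := by
      simp only [ha]; ring
    rw [h6] at h3
    calc a (n + 1) ≤ 1 / r * ‖T y0‖ * a n := h4.trans h3
      _ ≤ M * a n := by
        apply mul_le_mul_of_nonneg_right _ h5.le
        rw [hM]; linarith
  -- approximate eigenvectors
  have happ : ∀ ε : ℝ, 0 < ε → ∃ h ∈ P, (h y0).re = 1 ∧ ∃ μ : ℝ, 0 ≤ μ ∧ μ ≤ M ∧
      ∀ v, ‖h (T v) - (μ : ℂ) * h v‖ ≤ ε * ‖v‖ := by
    intro ε hε
    by_cases hA : ∃ m, a (m + 1) ≤ (ε * r) * a m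
    · obtain ⟨m, hm⟩ := hA
      refine ⟨(((a m)⁻¹ : ℝ) : ℂ) • g m, ?_, ?_, 0, le_refl _, hM0.le, ?_⟩
      · intro v hv
        rw [ContinuousLinearMap.smul_apply, smul_eq_mul, Complex.re_ofReal_mul]
        exact mul_nonneg (inv_nonneg.2 (ha0 m).le) (hgP m v hv)
      · rw [ContinuousLinearMap.smul_apply, smul_eq_mul, Complex.re_ofReal_mul]
        exact inv_mul_cancel₀ (ha0 m).ne'
      · intro v
        rw [Complex.ofReal_zero, zero_mul, sub_zero, ContinuousLinearMap.smul_apply, norm_smul,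
          Complex.norm_real, Real.norm_of_nonneg (inv_nonneg.2 (ha0 m).le), ← hgs,
          inv_mul_le_iff₀ (ha0 m)]
        calc ‖g (m + 1) v‖ ≤ 1 / r * a (m + 1) * ‖v‖ := hPb _ (hgP (m + 1)) v
          _ ≤ 1 / r * ((ε * r) * a m) * ‖v‖ := by gcongr
          _ = _ := by field_simp
    · push Not at hA
      obtain ⟨μ, hμ0, hμM, N, hN⟩ := seq_lemma a ha0 (δ := ε * r) (by positivity) ha1
        (fun n => (hA n).le) (ε := ε * r) (by positivity)
      set S : ℝ := ∑ j ∈ Finset.range N, a j / μ ^ j with hS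
      have hS0 : 0 < S := by
        have h3 : 0 < μ * (a 0 + a N / μ ^ N) :=
          mul_pos hμ0 (add_pos (ha0 0) (div_pos (ha0 N) (pow_pos hμ0 N)))
        have h4 : 0 < (ε * r) * S := h3.trans_le hN
        exact pos_of_mul_pos_right h4 (by positivity)
      set F : Y →L[ℂ] ℂ := ∑ j ∈ Finset.range N, (((μ ^ j)⁻¹ : ℝ) : ℂ) • g j with hF
      have hFv : ∀ v, F v = ∑ j ∈ Finset.range N, (((μ ^ j)⁻¹ : ℝ) : ℂ) * g j v := by
        intro v
        rw [hF, ContinuousLinearMap.sum_apply]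
        rfl
      have hFre : ∀ v, (F v).re = ∑ j ∈ Finset.range N, (μ ^ j)⁻¹ * (g j v).re := by
        intro v
        rw [hFv, Complex.re_sum]
        apply Finset.sum_congr rfl
        intro j _
        rw [Complex.re_ofReal_mul]
      have hFy : (F y0).re = S := by
        rw [hFre, hS]
        apply Finset.sum_congr rfl
        intro j _
        rw [div_eq_inv_mul]
      have hFT : ∀ v, F (T v) - (μ : ℂ) * F v = (μ : ℂ) * ((((μ ^ N)⁻¹ : ℝ) : ℂ) * g N v - g 0 v) := by
        intro v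
        have hμC : (μ : ℂ) ≠ 0 := by exact_mod_cast hμ0.ne'
        have h3 : F (T v) = (μ : ℂ) * ∑ j ∈ Finset.range N, (((μ ^ (j + 1))⁻¹ : ℝ) : ℂ) * g (j + 1) v := by
          rw [hFv, Finset.mul_sum]
          apply Finset.sum_congr rfl
          intro j _
          rw [hgs]
          push_cast
          rw [pow_succ]
          field_simp
        have h4 : F v + (((μ ^ N)⁻¹ : ℝ) : ℂ) * g N v = g 0 v +
            ∑ j ∈ Finset.range N, (((μ ^ (j + 1))⁻¹ : ℝ) : ℂ) * g (j + 1) v := by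
          rw [hFv, ← Finset.sum_range_succ (fun j => (((μ ^ j)⁻¹ : ℝ) : ℂ) * g j v) N,
            Finset.sum_range_succ' (fun j => (((μ ^ j)⁻¹ : ℝ) : ℂ) * g j v) N]
          simp
          ring
        rw [h3]
        linear_combination (-(μ : ℂ)) * h4
      refine ⟨((S⁻¹ : ℝ) : ℂ) • F, ?_, ?_, μ, hμ0.le, hμM, ?_⟩
      · intro v hv
        rw [ContinuousLinearMap.smul_apply, smul_eq_mul, Complex.re_ofReal_mul, hFre]
        apply mul_nonneg (inv_nonneg.2 hS0.le)
        apply Finset.sum_nonneg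
        intro j _
        exact mul_nonneg (inv_nonneg.2 (pow_nonneg hμ0.le j)) (hgP j v hv)
      · rw [ContinuousLinearMap.smul_apply, smul_eq_mul, Complex.re_ofReal_mul, hFy]
        exact inv_mul_cancel₀ hS0.ne'
      · intro v
        have h3 : (((S⁻¹ : ℝ) : ℂ) • F) (T v) - (μ : ℂ) * (((S⁻¹ : ℝ) : ℂ) • F) v =
            ((S⁻¹ : ℝ) : ℂ) * (F (T v) - (μ : ℂ) * F v) := by
          rw [ContinuousLinearMap.smul_apply, ContinuousLinearMap.smul_apply, smul_eq_mul,
            smul_eq_mul]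
          ring
        rw [h3, norm_mul, Complex.norm_real, Real.norm_of_nonneg (inv_nonneg.2 hS0.le),
          inv_mul_le_iff₀ hS0, hFT, norm_mul, Complex.norm_real, Real.norm_of_nonneg hμ0.le]
        have h4 : ‖(((μ ^ N)⁻¹ : ℝ) : ℂ) * g N v - g 0 v‖ ≤
            (μ ^ N)⁻¹ * (1 / r * a N * ‖v‖) + 1 / r * a 0 * ‖v‖ := by
          refine (norm_sub_le _ _).trans (add_le_add ?_ (hPb _ (hgP 0) v))
          rw [norm_mul, Complex.norm_real, Real.norm_of_nonneg (by positivity)]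
          exact mul_le_mul_of_nonneg_left (hPb _ (hgP N) v) (by positivity)
        calc μ * ‖(((μ ^ N)⁻¹ : ℝ) : ℂ) * g N v - g 0 v‖
            ≤ μ * ((μ ^ N)⁻¹ * (1 / r * a N * ‖v‖) + 1 / r * a 0 * ‖v‖) :=
              mul_le_mul_of_nonneg_left h4 hμ0.le
          _ = (μ * (a 0 + a N / μ ^ N)) * (1 / r * ‖v‖) := by
              field_simp
              ring
          _ ≤ (ε * r * S) * (1 / r * ‖v‖) := mul_le_mul_of_nonneg_right hN (by positivity)
          _ = S * (ε * ‖v‖) := by field_simp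
  -- pass to the limit
  choose h hhP hh1 μ hμ0 hμM hh using fun k : ℕ => happ (1 / ((k : ℝ) + 1)) (by positivity)
  have hcomp : IsCompact ((WeakDual.toStrongDual ⁻¹' Metric.closedBall (0 : StrongDual ℂ Y) (1 / r))
      ×ˢ (Icc (0 : ℝ) M)) :=
    (WeakDual.isCompact_closedBall (𝕜 := ℂ) (0 : StrongDual ℂ Y) (1 / r)).prod isCompact_Icc
  let z : ℕ → WeakDual ℂ Y × ℝ := fun k => (StrongDual.toWeakDual (h k), μ k)
  have hz : ∀ k, z k ∈ ((WeakDual.toStrongDual ⁻¹' Metric.closedBall (0 : StrongDual ℂ Y) (1 / r))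
      ×ˢ (Icc (0 : ℝ) M)) := by
    intro k
    refine ⟨?_, hμ0 k, hμM k⟩
    rw [Set.mem_preimage, Metric.mem_closedBall, dist_zero_right]
    refine ContinuousLinearMap.opNorm_le_bound _ (by positivity) fun v => ?_
    have h3 := hPb _ (hhP k) v
    rw [hh1, mul_one] at h3
    exact h3
  have hmap : Filter.map z (Filter.hyperfilter ℕ : Filter ℕ) ≤
      𝓟 ((WeakDual.toStrongDual ⁻¹' Metric.closedBall (0 : StrongDual ℂ Y) (1 / r))
      ×ˢ (Icc (0 : ℝ) M)) := by
    rw [Filter.le_principal_iff, Filter.mem_map]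
    exact Filter.univ_mem' hz
  obtain ⟨⟨φ, m⟩, -, hlim⟩ := hcomp.ultrafilter_le_nhds ((Filter.hyperfilter ℕ).map z) hmap
  have hlim' : Tendsto z (Filter.hyperfilter ℕ : Filter ℕ) (𝓝 (φ, m)) := hlim
  rw [nhds_prod_eq] at hlim'
  have hl1 : Tendsto (fun k => StrongDual.toWeakDual (h k)) (Filter.hyperfilter ℕ : Filter ℕ) (𝓝 φ) :=
    hlim'.fst
  have hl2 : Tendsto μ (Filter.hyperfilter ℕ : Filter ℕ) (𝓝 m) := hlim'.snd
  have hl3 : ∀ v : Y, Tendsto (fun k => h k v) (Filter.hyperfilter ℕ : Filter ℕ) (𝓝 (φ v)) :=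
    fun v => ((WeakDual.eval_continuous v).tendsto φ).comp hl1
  have hle : (Filter.hyperfilter ℕ : Filter ℕ) ≤ atTop := by
    rw [← Nat.cofinite_eq_atTop]
    exact Filter.hyperfilter_le_cofinite
  have h3 : ∀ v, φ (T v) - (m : ℂ) * φ v = 0 := by
    intro v
    have h4 : Tendsto (fun k => h k (T v) - (μ k : ℂ) * h k v) (Filter.hyperfilter ℕ : Filter ℕ)
        (𝓝 (φ (T v) - (m : ℂ) * φ v)) :=
      (hl3 (T v)).sub (((Complex.continuous_ofReal.tendsto m).comp hl2).mul (hl3 v))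
    have h5 : Tendsto (fun k : ℕ => 1 / ((k : ℝ) + 1) * ‖v‖) (Filter.hyperfilter ℕ : Filter ℕ)
        (𝓝 (0 * ‖v‖)) :=
      (tendsto_one_div_add_atTop_nhds_zero_nat.mono_left hle).mul_const _
    rw [zero_mul] at h5
    have h6 : Tendsto (fun k => h k (T v) - (μ k : ℂ) * h k v) (Filter.hyperfilter ℕ : Filter ℕ)
        (𝓝 0) := squeeze_zero_norm (fun k => hh k v) h5
    exact tendsto_nhds_unique h4 h6
  have h4 : (WeakDual.toStrongDual φ) = 0 := by
    apply hT (m : ℂ)
    ext v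
    have h5 := h3 v
    simp only [ContinuousLinearMap.comp_apply, ContinuousLinearMap.smul_apply, smul_eq_mul]
    exact sub_eq_zero.1 h5
  have h5 : Tendsto (fun k => (h k y0).re) (Filter.hyperfilter ℕ : Filter ℕ) (𝓝 (φ y0).re) :=
    (Complex.continuous_re.tendsto _).comp (hl3 y0)
  simp only [hh1] at h5
  have h6 : (1 : ℝ) = (φ y0).re := tendsto_nhds_unique tendsto_const_nhds h5
  have h7 : φ y0 = 0 := by
    have := congrArg (fun S : StrongDual ℂ Y => S y0) h4
    exact this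
  rw [h7] at h6
  simp at h6

theorem main (T : Y →L[ℂ] Y)
    (hT : ∀ (c : ℂ) (φ : Y →L[ℂ] ℂ), φ.comp T = c • φ → φ = 0) (x : Y)
    (hint : (interior (CH T x)).Nonempty) : CH T x = univ := by
  by_contra hne
  by_cases h0 : (0 : Y) ∈ interior (CH T x)
  · obtain ⟨l, φ, h1, h2⟩ := case1 h0 hne
    exact h2 (hT l φ h1)
  · exact case2 h0 hint hT

end Pool.Agent.H145R3.CC
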