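import Mathlib

set_option autoImplicit false
open Equiv Finset

namespace Pool.Agent.H145R3.CL

variable {𝔄 : Type*} [Ring 𝔄] {d : ℕ}

/-- The ordered product `∏ (R * G (f i))`. -/
def W (R : 𝔄) (G : Fin d → 𝔄) {k : ℕ} (f : Fin k → Fin d) : 𝔄 :=
  (List.ofFn fun i => R * G (f i)).prod

theorem W_zero (R : 𝔄) (G : Fin d → 𝔄) (f : Fin 0 → Fin d) : W R G f = 1 := by simp [W]

theorem W_succ (R : 𝔄) (G : Fin d → 𝔄) {k : ℕ} (f : Fin (k + 1) → Fin d) :
    W R G f = R * G (f 0) * W R G (fun i => f i.succ) := by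
  simp [W, List.ofFn_succ]

theorem W_last (R : 𝔄) (G : Fin d → 𝔄) {k : ℕ} (f : Fin (k + 1) → Fin d) :
    W R G f = W R G (fun i => f i.castSucc) * (R * G (f (Fin.last k))) := by
  rw [W, List.ofFn_succ', List.concat_eq_append, List.prod_append]
  simp [W]

theorem W_cons (R : 𝔄) (G : Fin d → 𝔄) {k : ℕ} (a : Fin d) (f : Fin k → Fin d) :
    W R G (Fin.cons a f : Fin (k + 1) → Fin d) = R * G a * W R G f := by
  rw [W_succ]
  simp

variable {B : Type*} [AddCommGroup B] [Module ℚ B]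

/-- Cyclic invariance. -/
theorem trace_rot (τ : 𝔄 →+ B) (hτ : ∀ a b, τ (a * b) = τ (b * a)) {Γ R : 𝔄} {G : Fin d → 𝔄}
    (hΓ : ∀ j, Γ * (R * G j) = R * G j * Γ) {k : ℕ} (f : Fin (k + 1) → Fin d) :
    τ (Γ * W R G f) = τ (Γ * W R G (f ∘ finRotate (k + 1))) := by
  have h1 : W R G (f ∘ finRotate (k + 1)) = W R G (fun i => f i.succ) * (R * G (f 0)) := by
    rw [W_last]
    congr 2
    · congr 1
      funext i
      simp only [Function.comp_apply]
      congr 1
      rw [finRotate_succ_apply]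
      exact Fin.coeSucc_eq_succ
    · simp only [Function.comp_apply, finRotate_last]
  have h2 := hΓ (f 0)
  rw [h1, W_succ]
  generalize R * G (f 0) = a at *
  generalize W R G (fun i => f i.succ) = M
  rw [← mul_assoc, h2, mul_assoc, hτ, mul_assoc]

theorem alt_zero (τ : 𝔄 →+ B) (hτ : ∀ a b, τ (a * b) = τ (b * a)) {e : ℕ} (he : Odd e) {Γ R : 𝔄}
    {G : Fin (e + 1) → 𝔄} (hΓ : ∀ j, Γ * (R * G j) = R * G j * Γ) :
    ∑ σ : Perm (Fin (e + 1)), (Perm.sign σ : ℤ) • τ (Γ * W R G σ) = 0 := by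
  set S := ∑ σ : Perm (Fin (e + 1)), (Perm.sign σ : ℤ) • τ (Γ * W R G σ) with hS
  have h1 : S = -S := by
    calc S = ∑ σ : Perm (Fin (e + 1)), (Perm.sign σ : ℤ) • τ (Γ * W R G (σ * finRotate (e + 1) : Perm (Fin (e + 1)))) := by
          rw [hS]
          apply Finset.sum_congr rfl
          intro σ _
          rw [trace_rot τ hτ hΓ]
          rfl
      _ = ∑ σ : Perm (Fin (e + 1)), -((Perm.sign (σ * finRotate (e + 1)) : ℤ) • τ (Γ * W R G (σ * finRotate (e + 1) : Perm (Fin (e + 1))))) := by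
          apply Finset.sum_congr rfl
          intro σ _
          rw [Perm.sign_mul, sign_finRotate, Nat.add_sub_cancel, he.neg_one_pow]
          simp
      _ = -S := by
          rw [Finset.sum_neg_distrib]
          congr 1
          exact Fintype.sum_equiv (Equiv.mulRight (finRotate (e + 1))) _ _ (fun σ => rfl)
  have h2 : (2 : ℚ) • S = 0 := by
    rw [two_smul]
    nth_rewrite 1 [h1]
    simp
  exact (smul_eq_zero.1 h2).resolve_left (by norm_num)

/-- The closedness identity. -/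
theorem closed (τ : 𝔄 →+ B) (hτ : ∀ a b, τ (a * b) = τ (b * a)) {e : ℕ} (he : Odd e) {Γ R : 𝔄}
    {G : Fin (e + 1) → 𝔄} (hΓ : ∀ j, Γ * (R * G j) = R * G j * Γ) :
    ∑ σ : Perm (Fin (e + 1)), (Perm.sign σ : ℤ) •
      τ (Γ * ∑ k : Fin e, W R G (k.castSucc.insertNth (σ 0) (fun i => σ i.succ))) = 0 := by
  have h1 : ∀ σ : Perm (Fin (e + 1)), ∀ k : Fin e,
      (k.castSucc.insertNth (σ 0) (fun i => σ i.succ) : Fin (e + 1) → Fin (e + 1)) =
        (σ * Fin.cycleRange k.castSucc : Perm (Fin (e + 1))) := by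
    intro σ k
    have h3 := Fin.cons_comp_cycleRange (σ 0) (fun i : Fin e => σ i.succ) k.castSucc
    rw [← h3]
    funext i
    simp only [Function.comp_apply, Perm.mul_apply]
    generalize Fin.cycleRange k.castSucc i = j
    refine Fin.cases ?_ (fun j => ?_) j <;> simp
  simp_rw [Finset.mul_sum, map_sum, Finset.smul_sum]
  rw [Finset.sum_comm]
  apply Finset.sum_eq_zero
  intro k _
  have h2 : ∀ σ : Perm (Fin (e + 1)), (Perm.sign σ : ℤ) •
      τ (Γ * W R G (k.castSucc.insertNth (σ 0) (fun i => σ i.succ))) =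
      ((-1 : ℤ) ^ (k : ℕ)) • ((Perm.sign (σ * Fin.cycleRange k.castSucc) : ℤ) •
      τ (Γ * W R G (σ * Fin.cycleRange k.castSucc : Perm (Fin (e + 1))))) := by
    intro σ
    rw [h1, Perm.sign_mul, Fin.sign_cycleRange, smul_smul]
    congr 1
    push_cast
    have : ((-1 : ℤ) ^ (k : ℕ)) * ((-1 : ℤ) ^ (k : ℕ)) = 1 := by
      rw [← mul_pow]; simp
    rw [mul_comm ((Perm.sign σ : ℤ)), ← mul_assoc]
    simp [this]
  simp_rw [h2]
  rw [← Finset.smul_sum]
  have h3 : ∑ σ : Perm (Fin (e + 1)), ((Perm.sign (σ * Fin.cycleRange k.castSucc) : ℤ) •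
      τ (Γ * W R G (σ * Fin.cycleRange k.castSucc : Perm (Fin (e + 1))))) = 0 := by
    rw [← alt_zero τ hτ he hΓ]
    exact Fintype.sum_equiv (Equiv.mulRight (Fin.cycleRange k.castSucc)) _ _ (fun σ => rfl)
  rw [h3, smul_zero]

end Pool.Agent.H145R3.CL
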