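import Pool.Agent.H145R3.CL1

set_option autoImplicit false
open Equiv Finset

namespace Pool.Agent.H145R3.CL

section prodlemma
variable {𝔄 : Type*} [Ring 𝔄] {d : ℕ}

theorem W_swap {G : Fin d → 𝔄} (hG : ∀ j k, j ≠ k → G j * G k = -(G k * G j)) :
    ∀ (n : ℕ) (i : Fin n) (f : Fin (n + 1) → Fin d), Function.Injective f →
      W 1 G (f ∘ swap i.castSucc i.succ) = -W 1 G f := by
  intro n
  induction n with
  | zero => intro i; exact i.elim0
  | succ n ih =>
    intro i
    refine Fin.cases ?_ (fun j => ?_) i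
    · intro f hf
      rw [W_succ, W_succ, W_succ 1 G f, W_succ 1 G (fun i => f i.succ)]
      simp only [one_mul, Function.comp_apply, Fin.castSucc_zero, swap_apply_left]
      have h1 : (Fin.succ (0 : Fin (n + 1))) = (1 : Fin (n + 2)) := rfl
      rw [h1, swap_apply_right]
      have h2 : (fun i : Fin n => f ((swap (0 : Fin (n + 2)) 1) i.succ.succ)) =
          (fun i : Fin n => f i.succ.succ) := by
        funext i
        rw [swap_apply_of_ne_of_ne (Fin.succ_ne_zero _)]
        rw [← h1]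
        intro h
        exact Fin.succ_ne_zero _ (Fin.succ_injective _ h)
      rw [h2, ← mul_assoc, ← mul_assoc, hG (f 1) (f 0)
        (fun h => by have := hf h; exact absurd this (by simp)), neg_mul]
    · intro f hf
      rw [W_succ, W_succ 1 G f]
      have h1 : (f ∘ swap j.succ.castSucc j.succ.succ) 0 = f 0 := by
        simp only [Function.comp_apply]
        rw [swap_apply_of_ne_of_ne]
        · exact (Fin.succ_ne_zero j.castSucc).symm
        · exact (Fin.succ_ne_zero _).symm
      have h2 : (fun i : Fin (n + 1) => (f ∘ swap j.succ.castSucc j.succ.succ) i.succ) =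
          (fun i : Fin (n + 1) => f i.succ) ∘ swap j.castSucc j.succ := by
        funext i
        simp only [Function.comp_apply]
        congr 1
        have h3 : j.succ.castSucc = j.castSucc.succ := rfl
        rw [h3]
        exact (Fin.succ_injective _).swap_apply _ _ _
      rw [h1, h2, ih j (fun i => f i.succ) (fun a b h => Fin.succ_injective _ (hf h)), mul_neg]

theorem W_perm {G : Fin d → 𝔄} (hG : ∀ j k, j ≠ k → G j * G k = -(G k * G j)) {n : ℕ}
    (σ : Perm (Fin (n + 1))) : ∀ f : Fin (n + 1) → Fin d, Function.Injective f →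
      W 1 G (f ∘ σ) = (Perm.sign σ : ℤ) • W 1 G f := by
  have hσ : σ ∈ Submonoid.closure (Set.range fun i : Fin n ↦ swap i.castSucc i.succ) := by
    rw [Perm.mclosure_swap_castSucc_succ]; trivial
  induction hσ using Submonoid.closure_induction with
  | mem x hx =>
    obtain ⟨i, rfl⟩ := hx
    intro f hf
    have h1 : (swap i.castSucc i.succ : Perm (Fin (n + 1))).sign = -1 :=
      Perm.sign_swap (Fin.castSucc_lt_succ).ne
    rw [W_swap hG n i f hf, h1]
    simp
  | one => intro f _; simp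
  | mul x y _ _ hx hy =>
    intro f hf
    have h1 : (f ∘ (x * y : Perm (Fin (n + 1)))) = (f ∘ x) ∘ y := rfl
    rw [h1, hy _ (hf.comp x.injective), hx f hf, smul_smul, Perm.sign_mul]
    push_cast
    rw [mul_comm]

end prodlemma

section HT
variable {𝔄 : Type*} [Ring 𝔄] {d : ℕ}

def H (X : 𝔄) (G : Fin d → 𝔄) (g : ℕ → Fin d) : ℕ → 𝔄
  | 0 => 1
  | i + 1 => H X G g i * (X * G (g i))

def T (G : Fin d → 𝔄) (g : ℕ → Fin d) : ℕ → ℕ → 𝔄
  | _, 0 => 1
  | i, l + 1 => G (g i) * T G g (i + 1) l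

theorem H_congr (X : 𝔄) (G : Fin d → 𝔄) {g g' : ℕ → Fin d} : ∀ i, (∀ j, j < i → g j = g' j) →
    H X G g i = H X G g' i := by
  intro i
  induction i with
  | zero => intro _; rfl
  | succ i ih =>
    intro h
    simp only [H]
    rw [ih (fun j hj => h j (by omega)), h i (by omega)]

theorem T_congr (G : Fin d → 𝔄) {g g' : ℕ → Fin d} : ∀ l i, (∀ j, i ≤ j → g j = g' j) →
    T G g i l = T G g' i l := by
  intro l
  induction l with
  | zero => intro i _; rfl
  | succ l ih =>
    intro i h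
    simp only [T]
    rw [ih (i + 1) (fun j hj => h j (by omega)), h i (le_refl i)]

theorem H_eq (X : 𝔄) (G : Fin d → 𝔄) (g : ℕ → Fin d) (k : ℕ) :
    H X G g k = W X G (fun i : Fin k => g i) := by
  induction k with
  | zero => simp [H, W_zero]
  | succ k ih =>
    rw [W_last]
    simp only [H]
    rw [ih]
    simp

theorem T_eq (G : Fin d → 𝔄) (g : ℕ → Fin d) (l : ℕ) : ∀ i,
    T G g i l = W 1 G (fun k : Fin l => g (i + k)) := by
  induction l with
  | zero => intro i; simp [T, W_zero]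
  | succ l ih =>
    intro i
    rw [W_succ]
    simp only [T, one_mul, Fin.val_zero, add_zero]
    rw [ih]
    congr 2
    funext k
    congr 1
    simp only [Fin.val_succ]
    ring

end HT

section eval
variable {𝔄 : Type*} [Ring 𝔄] [Algebra ℂ 𝔄] {e : ℕ}

/-- the entries of `σ` after the first one, as a sequence -/
def gs (σ : Perm (Fin (e + 1))) (i : ℕ) : Fin (e + 1) := σ (Fin.ofNat (e + 1) (i + 1))

theorem gs_fin (σ : Perm (Fin (e + 1))) (i : Fin e) : gs σ i = σ i.succ := by
  unfold gs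
  congr 1
  apply Fin.ext
  simp only [Fin.ofNat, Fin.val_succ]
  exact Nat.mod_eq_of_lt (by have := i.2; omega)

/-- antisymmetrised sum -/
def S (x : Fin (e + 1) → ℂ) (F : Perm (Fin (e + 1)) → ℂ) : ℂ :=
  ∑ σ : Perm (Fin (e + 1)), ((Perm.sign σ : ℤ) : ℂ) * (x (σ 0) * F σ)

theorem S_swap (x : Fin (e + 1) → ℂ) (F : Perm (Fin (e + 1)) → ℂ) (k : Fin (e + 1)) (hk : k ≠ 0)
    (hF : ∀ σ, F (σ * swap 0 k) = F σ) : S x (fun σ => x (σ k) * F σ) = 0 := by
  have h1 : S x (fun σ => x (σ k) * F σ) = - S x (fun σ => x (σ k) * F σ) := by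
    unfold S
    rw [← Finset.sum_neg_distrib]
    refine Fintype.sum_equiv (Equiv.mulRight (swap 0 k)) _ _ (fun σ => ?_)
    simp only [Equiv.coe_mulRight, Perm.mul_apply, swap_apply_left, swap_apply_right, hF,
      Perm.sign_mul, Perm.sign_swap hk.symm]
    push_cast
    ring
  linear_combination (1 / 2 : ℂ) * h1

variable {X : 𝔄} {G : Fin (e + 1) → 𝔄} {x : Fin (e + 1) → ℂ} {q : ℂ}

theorem step (τ : 𝔄 →ₗ[ℂ] ℂ) (Γ : 𝔄) (hX : ∀ j, X * G j * X = (2 * x j) • X - q • G j)
    (i l : ℕ) (hil : i + 2 + l = e) :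
    S x (fun σ => τ (Γ * (H X G (gs σ) (i + 2) * T G (gs σ) (i + 2) l))) =
      -q * S x (fun σ => τ (Γ * (H X G (gs σ) i * T G (gs σ) i (l + 2)))) := by
  have h1 : ∀ σ : Perm (Fin (e + 1)),
      τ (Γ * (H X G (gs σ) (i + 2) * T G (gs σ) (i + 2) l)) =
      x (gs σ i) * (2 * τ (Γ * (H X G (gs σ) i * (X * G (gs σ (i + 1)) * T G (gs σ) (i + 2) l)))) +
        -q * τ (Γ * (H X G (gs σ) i * T G (gs σ) i (l + 2))) := by
    intro σ
    have h2 : H X G (gs σ) (i + 2) * T G (gs σ) (i + 2) l =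
        (2 * x (gs σ i)) • (H X G (gs σ) i * (X * G (gs σ (i + 1)) * T G (gs σ) (i + 2) l)) -
        q • (H X G (gs σ) i * T G (gs σ) i (l + 2)) := by
      have h3 : H X G (gs σ) (i + 2) = H X G (gs σ) i * (X * G (gs σ i)) * (X * G (gs σ (i + 1))) := rfl
      have h4 : T G (gs σ) i (l + 2) = G (gs σ i) * (G (gs σ (i + 1)) * T G (gs σ) (i + 2) l) := rfl
      rw [h3, h4]
      generalize T G (gs σ) (i + 2) l = t
      generalize H X G (gs σ) i = h
      generalize G (gs σ (i + 1)) = b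
      have h5 := hX (gs σ i)
      generalize G (gs σ i) = a at h5 ⊢
      calc h * (X * a) * (X * b) * t = h * ((X * a * X) * (b * t)) := by noncomm_ring
        _ = _ := by
          rw [h5, sub_mul, mul_sub, smul_mul_assoc, smul_mul_assoc, mul_smul_comm, mul_smul_comm]
          simp only [mul_assoc]
    rw [h2, mul_sub, map_sub, mul_smul_comm, mul_smul_comm, map_smul, map_smul, smul_eq_mul,
      smul_eq_mul]
    ring
  have h2 : S x (fun σ => τ (Γ * (H X G (gs σ) (i + 2) * T G (gs σ) (i + 2) l))) =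
      S x (fun σ => x (gs σ i) * (2 * τ (Γ * (H X G (gs σ) i * (X * G (gs σ (i + 1)) * T G (gs σ) (i + 2) l))))) +
      -q * S x (fun σ => τ (Γ * (H X G (gs σ) i * T G (gs σ) i (l + 2)))) := by
    unfold S
    rw [Finset.mul_sum, ← Finset.sum_add_distrib]
    apply Finset.sum_congr rfl
    intro σ _
    simp only [h1]
    ring
  rw [h2]
  have hval : ∀ j, j < e → ((Fin.ofNat (e + 1) (j + 1) : Fin (e + 1)) : ℕ) = j + 1 := by
    intro j hj
    exact Nat.mod_eq_of_lt (by omega)
  have hk : (Fin.ofNat (e + 1) (i + 1) : Fin (e + 1)) ≠ 0 := by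
    intro h
    have := congrArg Fin.val h
    rw [hval i (by omega)] at this
    simp at this
  have h3 : S x (fun σ => x (gs σ i) * (2 * τ (Γ * (H X G (gs σ) i * (X * G (gs σ (i + 1)) * T G (gs σ) (i + 2) l))))) = 0 := by
    apply S_swap x _ (Fin.ofNat (e + 1) (i + 1)) hk
    intro σ
    have hne : ∀ j, j < e → j ≠ i → gs (σ * swap 0 (Fin.ofNat (e + 1) (i + 1))) j = gs σ j := by
      intro j hj hji
      unfold gs
      rw [Perm.mul_apply, swap_apply_of_ne_of_ne]
      · intro h
        have := congrArg Fin.val h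
        rw [hval j hj] at this
        simp at this
      · intro h
        have := congrArg Fin.val h
        rw [hval j hj, hval i (by omega)] at this
        omega
    have e1 : H X G (gs (σ * swap 0 (Fin.ofNat (e + 1) (i + 1)))) i = H X G (gs σ) i :=
      H_congr X G i (fun j hj => hne j (by omega) (by omega))
    have e2 : gs (σ * swap 0 (Fin.ofNat (e + 1) (i + 1))) (i + 1) = gs σ (i + 1) :=
      hne (i + 1) (by omega) (by omega)
    have e3 : T G (gs (σ * swap 0 (Fin.ofNat (e + 1) (i + 1)))) (i + 2) l = T G (gs σ) (i + 2) l := by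
      rw [T_eq, T_eq]
      congr 1
      funext k
      exact hne _ (by have := k.2; omega) (by omega)
    rw [e1, e2, e3]
  rw [h3, zero_add]

theorem S_H (τ : 𝔄 →ₗ[ℂ] ℂ) (Γ : 𝔄) (hX : ∀ j, X * G j * X = (2 * x j) • X - q • G j)
    (r : ℕ) (he : e = 2 * r + 1) : ∀ m, m ≤ r →
    S x (fun σ => τ (Γ * (H X G (gs σ) (2 * m + 1) * T G (gs σ) (2 * m + 1) (e - (2 * m + 1))))) =
      (-q) ^ m * S x (fun σ => τ (Γ * (H X G (gs σ) 1 * T G (gs σ) 1 (e - 1)))) := by
  intro m
  induction m with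
  | zero => intro _; simp
  | succ m ih =>
    intro hm
    have h1 := step (x := x) τ Γ hX (2 * m + 1) (e - (2 * (m + 1) + 1)) (by omega)
    have e1 : 2 * (m + 1) + 1 = 2 * m + 1 + 2 := by ring
    have e2 : e - (2 * (m + 1) + 1) + 2 = e - (2 * m + 1) := by omega
    rw [e2] at h1
    rw [e1] at h1 ⊢
    rw [h1, ih (by omega), pow_succ]
    ring

theorem sum_perm_zero (F : Fin (e + 1) → ℂ) :
    ∑ σ : Perm (Fin (e + 1)), F (σ 0) = (e.factorial : ℂ) * ∑ j, F j := by
  rw [← Equiv.sum_comp (Perm.decomposeFin (n := e)).symm (fun σ => F (σ 0)), Fintype.sum_prod_type]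
  simp only [Perm.decomposeFin_symm_apply_zero, Finset.sum_const, Finset.card_univ,
    Fintype.card_perm, Fintype.card_fin, nsmul_eq_mul]
  rw [Finset.mul_sum]

theorem eval_main (τ : 𝔄 →ₗ[ℂ] ℂ) (Γ : 𝔄) (hG : ∀ j k, j ≠ k → G j * G k = -(G k * G j))
    (hG2 : ∀ j, G j * G j = 1) (hXdef : X = ∑ j, x j • G j) (hq : q = ∑ j, x j ^ 2)
    (r : ℕ) (he : e = 2 * r + 1) :
    S x (fun σ => τ (Γ * W X G (fun i : Fin e => σ i.succ))) =
      (-q) ^ r * ((e.factorial : ℂ) * (q * τ (Γ * W 1 G (fun i => i)))) := by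
  have hXG : ∀ j, X * G j = (2 * x j) • (1 : 𝔄) - G j * X := by
    intro j
    rw [hXdef, Finset.sum_mul, Finset.mul_sum, eq_sub_iff_add_eq, ← Finset.sum_add_distrib]
    rw [Finset.sum_eq_single j]
    · rw [smul_mul_assoc, mul_smul_comm, hG2, ← add_smul]
      congr 1
      ring
    · intro k _ hkj
      rw [smul_mul_assoc, mul_smul_comm, hG k j hkj, smul_neg]
      simp
    · intro h; exact absurd (Finset.mem_univ j) h
  have hXX : X * X = q • (1 : 𝔄) := by
    have h1 : X * X = ∑ j, x j • (X * G j) := by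
      nth_rewrite 2 [hXdef]
      rw [Finset.mul_sum]
      simp only [mul_smul_comm]
    have h2 : X * X = ∑ j, x j • (G j * X) := by
      nth_rewrite 1 [hXdef]
      rw [Finset.sum_mul]
      simp only [smul_mul_assoc]
    have h3 : X * X + X * X = (2 * q) • (1 : 𝔄) := by
      nth_rewrite 1 [h1]
      rw [h2, ← Finset.sum_add_distrib, hq, Finset.mul_sum, Finset.sum_smul]
      apply Finset.sum_congr rfl
      intro j _
      rw [hXG, ← smul_add, sub_add_cancel, smul_smul]
      congr 1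
      ring
    have h4 : (2 : ℂ) • (X * X) = (2 : ℂ) • (q • (1 : 𝔄)) := by
      rw [two_smul, h3, smul_smul]
    have h5 := congrArg (fun z => (2⁻¹ : ℂ) • z) h4
    simpa [smul_smul] using h5
  have hX : ∀ j, X * G j * X = (2 * x j) • X - q • G j := by
    intro j
    rw [hXG, sub_mul, smul_mul_assoc, one_mul, mul_assoc, hXX, mul_smul_comm, mul_one]
  have h1 := S_H (x := x) τ Γ hX r he r le_rfl
  have e1 : 2 * r + 1 = e := he.symm
  have e2 : e - (2 * r + 1) = 0 := by omega
  rw [e2, e1] at h1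
  have h2 : S x (fun σ => τ (Γ * W X G (fun i : Fin e => σ i.succ))) =
      S x (fun σ => τ (Γ * (H X G (gs σ) e * T G (gs σ) e 0))) := by
    congr 1
    funext σ
    rw [H_eq]
    simp only [T, mul_one]
    congr 3
    funext i
    exact (gs_fin σ i).symm
  rw [h2, h1]
  congr 1
  have h3 : ∀ σ : Perm (Fin (e + 1)), ((Perm.sign σ : ℤ) : ℂ) * (x (σ 0) *
      τ (Γ * (H X G (gs σ) 1 * T G (gs σ) 1 (e - 1)))) =
      x (σ 0) * τ (Γ * (X * G (σ 0) * W 1 G (fun i => i))) := by
    intro σ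
    have h4 : H X G (gs σ) 1 * T G (gs σ) 1 (e - 1) = X * W 1 G (fun i : Fin e => σ i.succ) := by
      have h5 : W 1 G (fun i : Fin e => σ i.succ) = T G (gs σ) 0 e := by
        rw [T_eq]
        congr 1
        funext i
        rw [zero_add]
        exact (gs_fin σ i).symm
      have h6 : e = (e - 1) + 1 := by omega
      have h7 : T G (gs σ) 0 e = T G (gs σ) 0 ((e - 1) + 1) := congrArg (T G (gs σ) 0) h6
      rw [h5, h7]
      simp only [H, T, one_mul, zero_add, mul_assoc]
    have h5 : W 1 G σ = ((Perm.sign σ : ℤ)) • W 1 G (fun i => i) :=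
      W_perm hG σ (fun i => i) (fun a b h => h)
    have h6 : W 1 G σ = G (σ 0) * W 1 G (fun i : Fin e => σ i.succ) := by
      rw [W_succ, one_mul]
    have h7 : W 1 G (fun i : Fin e => σ i.succ) =
        ((Perm.sign σ : ℤ) : ℂ) • (G (σ 0) * W 1 G (fun i => i)) := by
      have h8 : G (σ 0) * (G (σ 0) * W 1 G (fun i : Fin e => σ i.succ)) =
          W 1 G (fun i : Fin e => σ i.succ) := by
        rw [← mul_assoc, hG2, one_mul]
      rw [← h8, ← h6, h5, mul_smul_comm, ← Int.cast_smul_eq_zsmul ℂ]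
    rw [h4, h7, mul_smul_comm, mul_smul_comm, map_smul, smul_eq_mul, ← mul_assoc X]
    have h9 : ((Perm.sign σ : ℤ) : ℂ) * ((Perm.sign σ : ℤ) : ℂ) = 1 := by
      rw [← Int.cast_mul, ← Units.val_mul, Int.units_mul_self]
      simp
    linear_combination (x (σ 0) * τ (Γ * (X * G (σ 0) * W 1 G (fun i => i)))) * h9
  unfold S
  rw [Finset.sum_congr rfl (fun σ _ => h3 σ),
    sum_perm_zero (fun j => x j * τ (Γ * (X * G j * W 1 G (fun i => i))))]
  congr 1
  have h4 : ∑ j, x j * τ (Γ * (X * G j * W 1 G (fun i => i))) =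
      τ (Γ * (X * X * W 1 G (fun i => i))) := by
    nth_rewrite 3 [hXdef]
    rw [Finset.mul_sum, Finset.sum_mul, Finset.mul_sum, map_sum]
    apply Finset.sum_congr rfl
    intro j _
    rw [mul_smul_comm, smul_mul_assoc, mul_smul_comm, map_smul, smul_eq_mul]
  rw [h4, hXX, smul_mul_assoc, mul_smul_comm, map_smul, one_mul, smul_eq_mul]

end eval

end Pool.Agent.H145R3.CL
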