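import Pool.Agent.H145R3.CL2

set_option autoImplicit false
open Equiv Finset MeasureTheory Filter Topology

namespace Pool.Agent.H145R3.CL

/-- `psi k u = ∫_u^∞ s^k e^(-s) ds` -/
noncomputable def psi : ℕ → ℝ → ℝ
  | 0, u => Real.exp (-u)
  | k + 1, u => u ^ (k + 1) * Real.exp (-u) + ((k : ℝ) + 1) * psi k u

theorem hasDerivAt_psi (k : ℕ) (u : ℝ) : HasDerivAt (psi k) (-(u ^ k * Real.exp (-u))) u := by
  have h0 : HasDerivAt (fun u : ℝ => Real.exp (-u)) (-Real.exp (-u)) u := by
    have := (hasDerivAt_neg u).exp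
    simpa using this
  induction k with
  | zero => simpa [psi] using h0
  | succ k ih =>
    have h1 : HasDerivAt (fun u : ℝ => u ^ (k + 1) * Real.exp (-u) + ((k : ℝ) + 1) * psi k u)
        (((k + 1 : ℕ) : ℝ) * u ^ (k + 1 - 1) * Real.exp (-u) + u ^ (k + 1) * (-Real.exp (-u)) +
          ((k : ℝ) + 1) * (-(u ^ k * Real.exp (-u)))) u := by
      have h2 := (hasDerivAt_pow (k + 1) u).mul h0
      have h3 := h2.add (ih.const_mul ((k : ℝ) + 1))
      exact h3
    have h2 : psi (k + 1) = fun u : ℝ => u ^ (k + 1) * Real.exp (-u) + ((k : ℝ) + 1) * psi k u := by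
      funext u; rfl
    rw [h2]
    refine h1.congr_deriv ?_
    rw [Nat.add_sub_cancel]
    push_cast
    ring

theorem pow_exp_le (m : ℕ) {u : ℝ} (hu : 0 ≤ u) :
    u ^ m * Real.exp (-u) ≤ (2 ^ m * m.factorial) * Real.exp (-(u / 2)) := by
  have h1 := Real.pow_div_factorial_le_exp (x := u / 2) (by positivity) m
  rw [div_le_iff₀ (by positivity), div_pow, div_le_iff₀ (by positivity)] at h1
  have h2 : Real.exp (-u) = Real.exp (-(u / 2)) * Real.exp (-(u / 2)) := by
    rw [← Real.exp_add]; congr 1; ring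
  have h3 : Real.exp (u / 2) * Real.exp (-(u / 2)) = 1 := by
    rw [← Real.exp_add]; simp
  calc u ^ m * Real.exp (-u) ≤ (Real.exp (u / 2) * m.factorial * 2 ^ m) * Real.exp (-u) :=
        mul_le_mul_of_nonneg_right h1 (Real.exp_pos _).le
    _ = (2 ^ m * m.factorial) * Real.exp (-(u / 2)) * (Real.exp (u / 2) * Real.exp (-(u / 2))) := by
        rw [h2]; ring
    _ = _ := by rw [h3, mul_one]

theorem psi_nonneg (k : ℕ) {u : ℝ} (hu : 0 ≤ u) : 0 ≤ psi k u := by
  induction k with
  | zero => exact (Real.exp_pos _).le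
  | succ k ih =>
    simp only [psi]
    positivity

theorem psi_le (k : ℕ) : ∃ C : ℝ, 0 ≤ C ∧ ∀ u : ℝ, 0 ≤ u → psi k u ≤ C * Real.exp (-(u / 2)) := by
  induction k with
  | zero =>
    refine ⟨1, by norm_num, fun u hu => ?_⟩
    simp only [psi, one_mul]
    apply Real.exp_le_exp.2
    linarith
  | succ k ih =>
    obtain ⟨C, hC0, hC⟩ := ih
    refine ⟨2 ^ (k + 1) * (k + 1).factorial + ((k : ℝ) + 1) * C, by positivity, fun u hu => ?_⟩
    simp only [psi]
    have h1 := pow_exp_le (k + 1) hu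
    have h2 := mul_le_mul_of_nonneg_left (hC u hu) (show (0 : ℝ) ≤ (k : ℝ) + 1 by positivity)
    calc _ ≤ _ := add_le_add h1 h2
      _ = _ := by ring

variable {V : Type*} [NormedAddCommGroup V] [InnerProductSpace ℝ V] [FiniteDimensional ℝ V]
  [MeasurableSpace V] [BorelSpace V]

theorem integrable_half : Integrable (fun x : V => Real.exp (-(‖x‖ ^ 2 / 2))) := by
  have h := GaussianFourier.integrable_cexp_neg_mul_sq_norm_add (V := V) (b := (1 / 2 : ℂ))
    (by norm_num) 0 0
  have h2 := h.norm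
  refine h2.congr (Filter.Eventually.of_forall fun x => ?_)
  simp only [Complex.norm_exp]
  congr 1
  have : (-(1 / 2 : ℂ) * (‖x‖ : ℂ) ^ 2 + 0 * ((inner ℝ (0 : V) x : ℝ) : ℂ)) =
    ((-(‖x‖ ^ 2 / 2) : ℝ) : ℂ) := by push_cast; ring
  rw [this, Complex.ofReal_re]

theorem integrable_pow_exp (m : ℕ) :
    Integrable (fun x : V => ‖x‖ ^ m * Real.exp (-(‖x‖ ^ 2))) := by
  refine Integrable.mono' ((integrable_half (V := V)).const_mul (1 + 2 ^ m * m.factorial)) ?_ ?_
  · exact Continuous.aestronglyMeasurable (by fun_prop)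
  · refine Filter.Eventually.of_forall fun x => ?_
    rw [Real.norm_of_nonneg (by positivity)]
    have h1 := pow_exp_le m (u := ‖x‖ ^ 2) (by positivity)
    have h2 := pow_exp_le 0 (u := ‖x‖ ^ 2) (by positivity)
    have h3 : ‖x‖ ^ m ≤ 1 + (‖x‖ ^ 2) ^ m := by
      rcases le_total ‖x‖ 1 with h | h
      · have : ‖x‖ ^ m ≤ 1 := pow_le_one₀ (norm_nonneg _) h
        have : 0 ≤ (‖x‖ ^ 2) ^ m := by positivity
        linarith
      · have : ‖x‖ ^ m ≤ (‖x‖ ^ 2) ^ m := by
          apply pow_le_pow_left₀ (norm_nonneg _)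
          nlinarith
        linarith
    calc ‖x‖ ^ m * Real.exp (-(‖x‖ ^ 2)) ≤ (1 + (‖x‖ ^ 2) ^ m) * Real.exp (-(‖x‖ ^ 2)) :=
          mul_le_mul_of_nonneg_right h3 (Real.exp_pos _).le
      _ = (‖x‖ ^ 2) ^ 0 * Real.exp (-(‖x‖ ^ 2)) + (‖x‖ ^ 2) ^ m * Real.exp (-(‖x‖ ^ 2)) := by
          ring
      _ ≤ (2 ^ 0 * (Nat.factorial 0 : ℝ)) * Real.exp (-(‖x‖ ^ 2 / 2)) +
          (2 ^ m * m.factorial) * Real.exp (-(‖x‖ ^ 2 / 2)) := add_le_add h2 h1
      _ = _ := by simp; ring

theorem integrable_psi (k : ℕ) : Integrable (fun x : V => psi k (‖x‖ ^ 2)) := by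
  obtain ⟨C, hC0, hC⟩ := psi_le k
  refine Integrable.mono' ((integrable_half (V := V)).const_mul C) ?_ ?_
  · have : Continuous (psi k) := continuous_iff_continuousAt.2 fun u => (hasDerivAt_psi k u).continuousAt
    exact Continuous.aestronglyMeasurable (by fun_prop)
  · refine Filter.Eventually.of_forall fun x => ?_
    rw [Real.norm_of_nonneg (psi_nonneg k (by positivity))]
    exact hC _ (by positivity)

section line
variable {𝔄 : Type*} [NormedRing 𝔄] [NormedAlgebra ℂ 𝔄] {d : ℕ}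

/-- derivative of the ordered product along a path of resolvents -/
theorem hasDerivAt_W {R : ℝ → 𝔄} {G : Fin d → 𝔄} {j : Fin d} {t : ℝ}
    (hR : HasDerivAt R (R t * G j * R t) t) : ∀ (e : ℕ) (f : Fin e → Fin d),
    HasDerivAt (fun s => W (R s) G f)
      (∑ k : Fin e, W (R t) G (k.castSucc.insertNth j f : Fin (e + 1) → Fin d)) t := by
  intro e
  induction e with
  | zero =>
    intro f
    simp only [W_zero, Finset.univ_eq_empty, Finset.sum_empty]
    exact hasDerivAt_const _ _
  | succ e ih =>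
    intro f
    have h1 : (fun s => W (R s) G f) = fun s => (R s * G (f 0)) * W (R s) G (fun i => f i.succ) := by
      funext s; rw [W_succ]
    rw [h1]
    have h2 := (hR.mul_const (G (f 0))).mul (ih (fun i => f i.succ))
    refine HasDerivAt.congr_deriv h2 ?_
    rw [Fin.sum_univ_succ]
    congr 1
    · rw [Fin.castSucc_zero, Fin.insertNth_zero', W_cons, W_succ]
      simp only [mul_assoc]
    · rw [Finset.mul_sum]
      apply Finset.sum_congr rfl
      intro k _
      have h3 : f = (Fin.cons (f 0) (fun i => f i.succ) : Fin (e + 1) → Fin d) := by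
        funext i
        refine Fin.cases ?_ (fun j => ?_) i <;> simp
      have h4 : (k.succ.castSucc.insertNth j f : Fin (e + 2) → Fin d) =
          (Fin.cons (f 0) (k.castSucc.insertNth j (fun i => f i.succ) : Fin (e + 1) → Fin d) : Fin (e + 2) → Fin d) := by
        conv_lhs => rw [h3]
        rw [← Fin.succ_castSucc]
        exact Fin.insertNth_succ_cons _ _ _ _
      rw [h4, W_cons]

end line

end Pool.Agent.H145R3.CL
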