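import Pool.Agent.H145R3.CL3

set_option autoImplicit false
open Equiv Finset MeasureTheory Filter Topology

namespace Pool.Agent.H145R3.CL

section alg
variable {𝔄 : Type*} [Ring 𝔄] [Algebra ℂ 𝔄] {d : ℕ}

theorem clifford_sq {G : Fin d → 𝔄} (hG : ∀ j k, j ≠ k → G j * G k = -(G k * G j))
    (hG2 : ∀ j, G j * G j = 1) (x : Fin d → ℂ) :
    (∑ j, x j • G j) * (∑ j, x j • G j) = (∑ j, x j ^ 2) • (1 : 𝔄) := by
  set X := ∑ j, x j • G j with hXdef
  have hXG : ∀ j, X * G j = (2 * x j) • (1 : 𝔄) - G j * X := by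
    intro j
    rw [hXdef, Finset.sum_mul, Finset.mul_sum, eq_sub_iff_add_eq, ← Finset.sum_add_distrib]
    rw [Finset.sum_eq_single j]
    · rw [smul_mul_assoc, mul_smul_comm, hG2, ← add_smul]
      congr 1
      ring
    · intro k _ hkj
      rw [smul_mul_assoc, mul_smul_comm, hG k j hkj, smul_neg]
      simp
    · intro h; exact absurd (Finset.mem_univ j) h
  have h1 : X * X = ∑ j, x j • (X * G j) := by
    nth_rewrite 2 [hXdef]
    rw [Finset.mul_sum]
    simp only [mul_smul_comm]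
  have h2 : X * X = ∑ j, x j • (G j * X) := by
    nth_rewrite 1 [hXdef]
    rw [Finset.sum_mul]
    simp only [smul_mul_assoc]
  have h3 : X * X + X * X = (2 * ∑ j, x j ^ 2) • (1 : 𝔄) := by
    nth_rewrite 1 [h1]
    rw [h2, ← Finset.sum_add_distrib, Finset.mul_sum, Finset.sum_smul]
    apply Finset.sum_congr rfl
    intro j _
    rw [hXG, ← smul_add, sub_add_cancel, smul_smul]
    congr 1
    ring
  have h4 : (2 : ℂ) • (X * X) = (2 : ℂ) • ((∑ j, x j ^ 2) • (1 : 𝔄)) := by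
    rw [two_smul, h3, smul_smul]
  have h5 := congrArg (fun z => (2⁻¹ : ℂ) • z) h4
  simpa [smul_smul] using h5

theorem W_smul (c : ℂ) (X : 𝔄) (G : Fin d → 𝔄) : ∀ (k : ℕ) (f : Fin k → Fin d),
    W (c • X) G f = c ^ k • W X G f := by
  intro k
  induction k with
  | zero => intro f; simp [W_zero]
  | succ k ih =>
    intro f
    rw [W_succ, W_succ, ih, smul_mul_assoc, smul_mul_assoc, mul_smul_comm, smul_smul, pow_succ']

end alg

section normed
variable {𝔄 : Type*} [NormedRing 𝔄] {d : ℕ}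

theorem norm_W_le {R : 𝔄} {G : Fin d → 𝔄} {c : ℝ} (hc : ∀ j, ‖G j‖ ≤ c) : ∀ (k : ℕ)
    (f : Fin k → Fin d), ‖W R G f‖ ≤ ‖(1 : 𝔄)‖ * (‖R‖ * c) ^ k := by
  intro k
  induction k with
  | zero => intro f; simp [W_zero]
  | succ k ih =>
    intro f
    rw [W_succ]
    have hc0 : 0 ≤ c := (norm_nonneg _).trans (hc (f 0))
    calc ‖R * G (f 0) * W R G (fun i => f i.succ)‖ ≤ (‖R‖ * ‖G (f 0)‖) * ‖W R G (fun i => f i.succ)‖ :=
          (norm_mul_le _ _).trans (mul_le_mul_of_nonneg_right (norm_mul_le _ _) (norm_nonneg _))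
      _ ≤ (‖R‖ * c) * (‖(1 : 𝔄)‖ * (‖R‖ * c) ^ k) := by
          apply mul_le_mul _ (ih _) (norm_nonneg _) (by positivity)
          exact mul_le_mul_of_nonneg_left (hc _) (norm_nonneg _)
      _ = _ := by ring

end normed

section main
variable {𝔄 : Type*} [NormedRing 𝔄] [NormedAlgebra ℂ 𝔄] [CompleteSpace 𝔄] {e : ℕ}

/-- the Clifford element of a real vector -/
noncomputable def XX (G : Fin (e + 1) → 𝔄) (x : EuclideanSpace ℝ (Fin (e + 1))) : 𝔄 :=
  ∑ j, ((x j : ℝ) : ℂ) • G j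

noncomputable def RR (A : 𝔄) (G : Fin (e + 1) → 𝔄) (x : EuclideanSpace ℝ (Fin (e + 1))) : 𝔄 :=
  Ring.inverse (A - XX G x)

omit [CompleteSpace 𝔄] in
theorem XX_continuous (G : Fin (e + 1) → 𝔄) : Continuous (XX G) := by
  unfold XX
  fun_prop

omit [CompleteSpace 𝔄] in
theorem XX_add (G : Fin (e + 1) → 𝔄) (x : EuclideanSpace ℝ (Fin (e + 1))) (j : Fin (e + 1)) (t : ℝ) :
    XX G (x + t • EuclideanSpace.single j (1 : ℝ)) = XX G x + (t : ℂ) • G j := by
  unfold XX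
  have h1 : ∀ k, (((x + t • EuclideanSpace.single j (1 : ℝ)) k : ℝ) : ℂ) • G k =
      ((x k : ℝ) : ℂ) • G k + (if k = j then (t : ℂ) • G k else 0) := by
    intro k
    by_cases h : k = j
    · subst h
      simp [add_smul]
    · simp [h]
  rw [Finset.sum_congr rfl (fun k _ => h1 k), Finset.sum_add_distrib]
  simp

omit [CompleteSpace 𝔄] in
theorem XX_norm_le {G : Fin (e + 1) → 𝔄} (x : EuclideanSpace ℝ (Fin (e + 1))) :
    ‖XX G x‖ ≤ (∑ j, ‖G j‖) * ‖x‖ := by
  unfold XX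
  rw [Finset.sum_mul]
  refine (norm_sum_le _ _).trans (Finset.sum_le_sum fun j _ => ?_)
  rw [norm_smul, Complex.norm_real, mul_comm]
  exact mul_le_mul_of_nonneg_left (PiLp.norm_apply_le x j) (norm_nonneg _)

omit [CompleteSpace 𝔄] in
theorem XX_sq {G : Fin (e + 1) → 𝔄} (hG : ∀ j k, j ≠ k → G j * G k = -(G k * G j))
    (hG2 : ∀ j, G j * G j = 1) (x : EuclideanSpace ℝ (Fin (e + 1))) :
    XX G x * XX G x = ((‖x‖ ^ 2 : ℝ) : ℂ) • (1 : 𝔄) := by
  unfold XX
  rw [clifford_sq hG hG2, EuclideanSpace.norm_sq_eq]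
  push_cast
  congr 1
  apply Finset.sum_congr rfl
  intro j _
  rw [← Complex.ofReal_pow, ← Complex.ofReal_pow, Real.norm_eq_abs, sq_abs]

theorem RR_continuous {A : 𝔄} {G : Fin (e + 1) → 𝔄} (hinv : ∀ x, IsUnit (A - XX G x)) :
    Continuous (RR A G) := by
  rw [continuous_iff_continuousAt]
  intro x
  obtain ⟨u, hu⟩ := hinv x
  have h1 : ContinuousAt Ring.inverse (A - XX G x) := by
    rw [← hu]; exact NormedRing.inverse_continuousAt u
  have h2 : ContinuousAt (fun x => A - XX G x) x :=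
    (continuous_const.sub (XX_continuous G)).continuousAt
  exact ContinuousAt.comp (f := fun x => A - XX G x) h1 h2

theorem RR_hasDerivAt {A : 𝔄} {G : Fin (e + 1) → 𝔄} (hinv : ∀ x, IsUnit (A - XX G x))
    (x : EuclideanSpace ℝ (Fin (e + 1))) (j : Fin (e + 1)) :
    HasDerivAt (fun t : ℝ => RR A G (x + t • EuclideanSpace.single j (1 : ℝ)))
      (RR A G (x + (0 : ℝ) • EuclideanSpace.single j (1 : ℝ)) * G j *
        RR A G (x + (0 : ℝ) • EuclideanSpace.single j (1 : ℝ))) 0 := by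
  rw [zero_smul, add_zero]
  obtain ⟨u, hu⟩ := hinv x
  have h1 : HasFDerivAt (𝕜 := ℝ) Ring.inverse (-ContinuousLinearMap.mulLeftRight ℝ 𝔄 ↑u⁻¹ ↑u⁻¹) (u : 𝔄) :=
    hasFDerivAt_ringInverse u
  have h2 : HasDerivAt (fun t : ℝ => (A - XX G x) - (t : ℂ) • G j) (-((1 : ℂ) • G j)) 0 := by
    have h3 : HasDerivAt (fun t : ℝ => (t : ℂ)) 1 0 := Complex.ofRealCLM.hasDerivAt
    have h4 := (h3.smul_const (G j)).const_sub (A - XX G x)
    exact h4
  have h5 : (A - XX G x) - ((0 : ℝ) : ℂ) • G j = u := by simp [hu]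
  have h6 := HasFDerivAt.comp_hasDerivAt (0 : ℝ) (f := fun t : ℝ => (A - XX G x) - (t : ℂ) • G j)
    (by rw [h5]; exact h1) h2
  have h7 : (fun t : ℝ => RR A G (x + t • EuclideanSpace.single j (1 : ℝ))) =
      Ring.inverse ∘ (fun t : ℝ => (A - XX G x) - (t : ℂ) • G j) := by
    funext t
    simp only [RR, Function.comp_apply, XX_add, sub_add_eq_sub_sub]
  rw [h7]
  refine h6.congr_deriv ?_
  have h8 : RR A G x = ↑u⁻¹ := by
    unfold RR
    rw [← hu, Ring.inverse_unit]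
  rw [h8]
  simp

end main

end Pool.Agent.H145R3.CL
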