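import Pool.Agent.H145R3.CL4

set_option autoImplicit false
open Equiv Finset MeasureTheory Filter Topology

namespace Pool.Agent.H145R3.CL

variable {𝔄 : Type*} [NormedRing 𝔄] [NormedAlgebra ℂ 𝔄] [CompleteSpace 𝔄] {e : ℕ}

theorem RR_mul {A : 𝔄} {G : Fin (e + 1) → 𝔄} (hinv : ∀ x, IsUnit (A - XX G x))
    (x : EuclideanSpace ℝ (Fin (e + 1))) : RR A G x * (A - XX G x) = 1 :=
  Ring.inverse_mul_cancel _ (hinv x)

theorem mul_RR {A : 𝔄} {G : Fin (e + 1) → 𝔄} (hinv : ∀ x, IsUnit (A - XX G x))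
    (x : EuclideanSpace ℝ (Fin (e + 1))) : (A - XX G x) * RR A G x = 1 :=
  Ring.mul_inverse_cancel _ (hinv x)

/-- `R = (R A - 1) X / |x|²` -/
theorem RR_eq {A : 𝔄} {G : Fin (e + 1) → 𝔄} (hG : ∀ j k, j ≠ k → G j * G k = -(G k * G j))
    (hG2 : ∀ j, G j * G j = 1) (hinv : ∀ x, IsUnit (A - XX G x))
    (x : EuclideanSpace ℝ (Fin (e + 1))) (hx : x ≠ 0) :
    RR A G x = (((‖x‖ ^ 2)⁻¹ : ℝ) : ℂ) • ((RR A G x * A - 1) * XX G x) := by
  have h1 := RR_mul hinv x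
  have h2 : RR A G x * XX G x = RR A G x * A - 1 := by
    rw [mul_sub] at h1
    rw [← h1]; abel
  rw [← h2, mul_assoc, XX_sq hG hG2, mul_smul_comm, mul_one, smul_smul, ← Complex.ofReal_mul,
    inv_mul_cancel₀ (by positivity)]
  simp

theorem RR_bound {A : 𝔄} {G : Fin (e + 1) → 𝔄} (hG : ∀ j k, j ≠ k → G j * G k = -(G k * G j))
    (hG2 : ∀ j, G j * G j = 1) (hinv : ∀ x, IsUnit (A - XX G x)) :
    ∃ C : ℝ, 0 ≤ C ∧ ∀ x, ‖RR A G x‖ ≤ C ∧ ‖RR A G x‖ * ‖x‖ ≤ C := by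
  set c : ℝ := ∑ j, ‖G j‖ with hc
  have hc0 : 0 ≤ c := Finset.sum_nonneg fun j _ => norm_nonneg _
  set ρ : ℝ := 2 * c * ‖A‖ + 1 with hρ
  have hρ1 : 1 ≤ ρ := by
    have : 0 ≤ 2 * c * ‖A‖ := by positivity
    linarith
  obtain ⟨C1, hC1⟩ := (isCompact_closedBall (0 : EuclideanSpace ℝ (Fin (e + 1))) ρ).exists_bound_of_continuousOn
    (RR_continuous hinv).continuousOn
  have hC10 : 0 ≤ C1 := (norm_nonneg _).trans (hC1 0 (by simp; linarith))
  have hlarge : ∀ x : EuclideanSpace ℝ (Fin (e + 1)), ρ ≤ ‖x‖ → ‖RR A G x‖ * ‖x‖ ≤ 2 * ‖(1 : 𝔄)‖ * c := by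
    intro x hx
    have hx0 : 0 < ‖x‖ := by linarith
    have hxne : x ≠ 0 := norm_pos_iff.1 hx0
    have h1 : ‖RR A G x‖ ≤ (‖x‖ ^ 2)⁻¹ * ((‖RR A G x‖ * ‖A‖ + ‖(1 : 𝔄)‖) * (c * ‖x‖)) := by
      calc ‖RR A G x‖ = ‖(((‖x‖ ^ 2)⁻¹ : ℝ) : ℂ) • ((RR A G x * A - 1) * XX G x)‖ :=
            congrArg norm (RR_eq hG hG2 hinv x hxne)
        _ = (‖x‖ ^ 2)⁻¹ * ‖(RR A G x * A - 1) * XX G x‖ := by
            rw [norm_smul, Complex.norm_real, Real.norm_of_nonneg (by positivity)]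
        _ ≤ _ := by
            apply mul_le_mul_of_nonneg_left _ (by positivity)
            refine (norm_mul_le _ _).trans ?_
            apply mul_le_mul _ (XX_norm_le x) (norm_nonneg _) (by positivity)
            exact (norm_sub_le _ _).trans (add_le_add (norm_mul_le _ _) le_rfl)
    have h2 : ‖RR A G x‖ * ‖x‖ ≤ (‖RR A G x‖ * ‖A‖ + ‖(1 : 𝔄)‖) * c := by
      have h3 := mul_le_mul_of_nonneg_right h1 hx0.le
      have h4 : (‖x‖ ^ 2)⁻¹ * ((‖RR A G x‖ * ‖A‖ + ‖(1 : 𝔄)‖) * (c * ‖x‖)) * ‖x‖ =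
          (‖RR A G x‖ * ‖A‖ + ‖(1 : 𝔄)‖) * c := by
        field_simp
      rw [h4] at h3
      exact h3
    have h3 : ‖RR A G x‖ * ‖A‖ * c ≤ ‖RR A G x‖ * ‖x‖ / 2 := by
      have h4 : 2 * c * ‖A‖ ≤ ‖x‖ := by linarith
      have h5 := mul_le_mul_of_nonneg_left h4 (norm_nonneg (RR A G x))
      linarith
    linarith
  refine ⟨max (max C1 (C1 * ρ)) (2 * ‖(1 : 𝔄)‖ * c), ?_, fun x => ?_⟩
  · exact le_max_of_le_left (le_max_of_le_left hC10)
  · rcases le_total ‖x‖ ρ with h | h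
    · have h1 : ‖RR A G x‖ ≤ C1 := hC1 x (by simpa using h)
      refine ⟨le_max_of_le_left (le_max_of_le_left h1), le_max_of_le_left (le_max_of_le_right ?_)⟩
      exact mul_le_mul h1 h (norm_nonneg _) hC10
    · have h1 := hlarge x h
      refine ⟨le_max_of_le_right (le_trans ?_ h1), le_max_of_le_right h1⟩
      have : 1 ≤ ‖x‖ := hρ1.trans h
      nlinarith [norm_nonneg (RR A G x)]

/-- the weight `|x|^(2e) exp(-|x|²)` -/
noncomputable def wt (e : ℕ) (x : EuclideanSpace ℝ (Fin (e + 1))) : ℝ :=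
  (‖x‖ ^ 2) ^ e * Real.exp (-(‖x‖ ^ 2))

theorem W_continuous {R : EuclideanSpace ℝ (Fin (e + 1)) → 𝔄} (hR : Continuous R)
    (G : Fin (e + 1) → 𝔄) : ∀ (k : ℕ) (f : Fin k → Fin (e + 1)), Continuous (fun x => W (R x) G f) := by
  intro k
  induction k with
  | zero => intro f; simp only [W_zero]; exact continuous_const
  | succ k ih =>
    intro f
    simp only [W_succ]
    exact (hR.mul continuous_const).mul (ih _)

theorem ibp {A : 𝔄} {G : Fin (e + 1) → 𝔄} (hG : ∀ j k, j ≠ k → G j * G k = -(G k * G j))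
    (hG2 : ∀ j, G j * G j = 1) (hinv : ∀ x, IsUnit (A - XX G x)) (τ : 𝔄 →L[ℂ] ℂ) (Γ : 𝔄)
    (j : Fin (e + 1)) (a : Fin e → Fin (e + 1)) :
    Integrable (fun x : EuclideanSpace ℝ (Fin (e + 1)) => psi e (‖x‖ ^ 2) •
      τ (Γ * ∑ k : Fin e, W (RR A G x) G (k.castSucc.insertNth j a))) ∧
    Integrable (fun x : EuclideanSpace ℝ (Fin (e + 1)) => (wt e x * (2 * x j)) • τ (Γ * W (RR A G x) G a)) ∧
    ∫ x : EuclideanSpace ℝ (Fin (e + 1)), psi e (‖x‖ ^ 2) •
      τ (Γ * ∑ k : Fin e, W (RR A G x) G (k.castSucc.insertNth j a)) =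
    ∫ x : EuclideanSpace ℝ (Fin (e + 1)), (wt e x * (2 * x j)) • τ (Γ * W (RR A G x) G a) := by
  obtain ⟨C, hC0, hC⟩ := RR_bound hG hG2 hinv
  set c : ℝ := ∑ j, ‖G j‖ with hc
  have hc0 : 0 ≤ c := Finset.sum_nonneg fun j _ => norm_nonneg _
  have hGc : ∀ j, ‖G j‖ ≤ c := fun j =>
    Finset.single_le_sum (f := fun j => ‖G j‖) (fun _ _ => norm_nonneg _) (Finset.mem_univ j)
  have hWb : ∀ (k : ℕ) (f : Fin k → Fin (e + 1)) x, ‖W (RR A G x) G f‖ ≤ ‖(1 : 𝔄)‖ * (C * c) ^ k := by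
    intro k f x
    refine (norm_W_le hGc k f).trans ?_
    apply mul_le_mul_of_nonneg_left _ (norm_nonneg _)
    apply pow_le_pow_left₀ (by positivity)
    exact mul_le_mul_of_nonneg_right (hC x).1 hc0
  have hg1 : Continuous fun x => τ (Γ * W (RR A G x) G a) :=
    τ.continuous.comp (continuous_const.mul (W_continuous (RR_continuous hinv) G _ _))
  have hg2 : Continuous fun x => τ (Γ * ∑ k : Fin e, W (RR A G x) G (k.castSucc.insertNth j a)) :=
    τ.continuous.comp (continuous_const.mul (continuous_finsetSum _ fun k _ =>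
      W_continuous (RR_continuous hinv) G _ _))
  have hb1 : ∀ x, ‖τ (Γ * W (RR A G x) G a)‖ ≤ ‖τ‖ * (‖Γ‖ * (‖(1 : 𝔄)‖ * (C * c) ^ e)) := by
    intro x
    refine (τ.le_opNorm _).trans (mul_le_mul_of_nonneg_left ?_ (norm_nonneg _))
    exact (norm_mul_le _ _).trans (mul_le_mul_of_nonneg_left (hWb _ _ _) (norm_nonneg _))
  have hb2 : ∀ x, ‖τ (Γ * ∑ k : Fin e, W (RR A G x) G (k.castSucc.insertNth j a))‖ ≤
      ‖τ‖ * (‖Γ‖ * (e * (‖(1 : 𝔄)‖ * (C * c) ^ (e + 1)))) := by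
    intro x
    refine (τ.le_opNorm _).trans (mul_le_mul_of_nonneg_left ?_ (norm_nonneg _))
    refine (norm_mul_le _ _).trans (mul_le_mul_of_nonneg_left ?_ (norm_nonneg _))
    refine (norm_sum_le _ _).trans ((Finset.sum_le_sum fun k _ => hWb _ _ x).trans ?_)
    simp
  have hpsic : Continuous (psi e) := continuous_iff_continuousAt.2 fun u => (hasDerivAt_psi e u).continuousAt
  have hwtc : Continuous (wt e) := by unfold wt; fun_prop
  have hwt0 : ∀ x, 0 ≤ wt e x := fun x => by unfold wt; positivity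
  have hI1 : Integrable (fun x : EuclideanSpace ℝ (Fin (e + 1)) => psi e (‖x‖ ^ 2) •
      τ (Γ * ∑ k : Fin e, W (RR A G x) G (k.castSucc.insertNth j a))) := by
    refine Integrable.mono' ((integrable_psi e).mul_const
      (‖τ‖ * (‖Γ‖ * (e * (‖(1 : 𝔄)‖ * (C * c) ^ (e + 1)))))) ?_ ?_
    · exact Continuous.aestronglyMeasurable ((hpsic.comp (by fun_prop)).smul hg2)
    · refine Filter.Eventually.of_forall fun x => ?_
      rw [norm_smul, Real.norm_of_nonneg (psi_nonneg e (by positivity))]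
      exact mul_le_mul_of_nonneg_left (hb2 x) (psi_nonneg e (by positivity))
  have hI2 : Integrable (fun x : EuclideanSpace ℝ (Fin (e + 1)) => psi e (‖x‖ ^ 2) •
      τ (Γ * W (RR A G x) G a)) := by
    refine Integrable.mono' ((integrable_psi e).mul_const
      (‖τ‖ * (‖Γ‖ * (‖(1 : 𝔄)‖ * (C * c) ^ e)))) ?_ ?_
    · exact Continuous.aestronglyMeasurable ((hpsic.comp (by fun_prop)).smul hg1)
    · refine Filter.Eventually.of_forall fun x => ?_
      rw [norm_smul, Real.norm_of_nonneg (psi_nonneg e (by positivity))]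
      exact mul_le_mul_of_nonneg_left (hb1 x) (psi_nonneg e (by positivity))
  have hI3 : Integrable (fun x : EuclideanSpace ℝ (Fin (e + 1)) => (wt e x * (2 * x j)) • τ (Γ * W (RR A G x) G a)) := by
    refine Integrable.mono' (((integrable_pow_exp (2 * e + 1)).const_mul 2).mul_const
      (‖τ‖ * (‖Γ‖ * (‖(1 : 𝔄)‖ * (C * c) ^ e)))) ?_ ?_
    · exact Continuous.aestronglyMeasurable ((hwtc.mul (by fun_prop)).smul hg1)
    · refine Filter.Eventually.of_forall fun x => ?_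
      rw [norm_smul]
      apply mul_le_mul _ (hb1 x) (norm_nonneg _) (by positivity)
      rw [norm_mul, Real.norm_of_nonneg (hwt0 x), norm_mul, Real.norm_two]
      unfold wt
      have := PiLp.norm_apply_le x j
      calc (‖x‖ ^ 2) ^ e * Real.exp (-(‖x‖ ^ 2)) * (2 * ‖x j‖)
          ≤ (‖x‖ ^ 2) ^ e * Real.exp (-(‖x‖ ^ 2)) * (2 * ‖x‖) := by gcongr
        _ = _ := by ring
  refine ⟨hI1, hI3, ?_⟩
  have hχ : ∀ x : EuclideanSpace ℝ (Fin (e + 1)), HasLineDerivAt ℝ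
      (fun x : EuclideanSpace ℝ (Fin (e + 1)) => psi e (‖x‖ ^ 2)) (-(wt e x * (2 * x j))) x
      (EuclideanSpace.single j (1 : ℝ)) := by
    intro x
    unfold HasLineDerivAt
    have h1 : HasDerivAt (fun t : ℝ => x + t • EuclideanSpace.single j (1 : ℝ))
        (EuclideanSpace.single j (1 : ℝ)) 0 := by
      have h2 := ((hasDerivAt_id (0 : ℝ)).smul_const (EuclideanSpace.single j (1 : ℝ))).const_add x
      simpa using h2
    have h2 := h1.norm_sq
    have h3 := (hasDerivAt_psi e (‖x + (0 : ℝ) • EuclideanSpace.single j (1 : ℝ)‖ ^ 2)).comp (0 : ℝ) h2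
    refine h3.congr_deriv ?_
    rw [zero_smul, add_zero, EuclideanSpace.inner_single_right]
    unfold wt
    simp
  have hg : ∀ x : EuclideanSpace ℝ (Fin (e + 1)), HasLineDerivAt ℝ
      (fun x => τ (Γ * W (RR A G x) G a))
      (τ (Γ * ∑ k : Fin e, W (RR A G x) G (k.castSucc.insertNth j a))) x
      (EuclideanSpace.single j (1 : ℝ)) := by
    intro x
    unfold HasLineDerivAt
    have h1 := hasDerivAt_W (RR_hasDerivAt hinv x j) e a
    have h2 := h1.const_mul Γ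
    have h3 := (τ.restrictScalars ℝ).hasFDerivAt.comp_hasDerivAt (0 : ℝ) h2
    refine HasDerivAt.congr_deriv h3 ?_
    simp
  have h1 := integral_bilinear_hasLineDerivAt_right_eq_neg_left_of_integrable
    (μ := (volume : Measure (EuclideanSpace ℝ (Fin (e + 1)))))
    (f := fun x : EuclideanSpace ℝ (Fin (e + 1)) => psi e (‖x‖ ^ 2))
    (f' := fun x => -(wt e x * (2 * x j)))
    (g := fun x => τ (Γ * W (RR A G x) G a))
    (g' := fun x => τ (Γ * ∑ k : Fin e, W (RR A G x) G (k.castSucc.insertNth j a)))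
    (v := EuclideanSpace.single j (1 : ℝ)) (B := ContinuousLinearMap.lsmul ℝ ℝ)
    (by simpa using hI3.neg) hI1 hI2 (fun x _ => hχ x) (fun x _ => hg x)
  simp only [ContinuousLinearMap.lsmul_apply] at h1
  rw [h1, ← integral_neg]
  congr 1
  funext x
  rw [neg_smul, neg_neg]

/-- The flux identity. -/
theorem flux {A : 𝔄} {G : Fin (e + 1) → 𝔄} (he : Odd e)
    (hG : ∀ j k, j ≠ k → G j * G k = -(G k * G j))
    (hG2 : ∀ j, G j * G j = 1) (hinv : ∀ x, IsUnit (A - XX G x)) (τ : 𝔄 →L[ℂ] ℂ)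
    (hτ : ∀ a b, τ (a * b) = τ (b * a)) (Γ : 𝔄) (hΓG : ∀ j, Γ * G j = -(G j * Γ))
    (hΓA : Γ * A = -(A * Γ)) :
    ∫ x : EuclideanSpace ℝ (Fin (e + 1)), (wt e x : ℂ) *
      S (fun j => ((x j : ℝ) : ℂ)) (fun σ => τ (Γ * W (RR A G x) G (fun i : Fin e => σ i.succ))) = 0 := by
  have hcomm : ∀ x j, Γ * (RR A G x * G j) = RR A G x * G j * Γ := by
    intro x j
    have h1 : Γ * (A - XX G x) = -((A - XX G x) * Γ) := by
      have h2 : Γ * XX G x = -(XX G x * Γ) := by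
        unfold XX
        rw [Finset.mul_sum, Finset.sum_mul, ← Finset.sum_neg_distrib]
        apply Finset.sum_congr rfl
        intro k _
        rw [mul_smul_comm, hΓG, smul_mul_assoc, smul_neg]
      rw [mul_sub, hΓA, h2, sub_mul]
      abel
    have h2 : RR A G x * Γ = -(Γ * RR A G x) := by
      calc RR A G x * Γ = RR A G x * Γ * ((A - XX G x) * RR A G x) := by rw [mul_RR hinv, mul_one]
        _ = RR A G x * (Γ * (A - XX G x)) * RR A G x := by noncomm_ring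
        _ = -((RR A G x * (A - XX G x)) * Γ * RR A G x) := by rw [h1]; noncomm_ring
        _ = _ := by rw [RR_mul hinv, one_mul]
    have h3 : Γ * RR A G x = -(RR A G x * Γ) := by rw [h2, neg_neg]
    rw [← mul_assoc, h3, neg_mul, mul_assoc, hΓG, mul_neg, neg_neg, mul_assoc]
  have h1 : ∀ σ : Perm (Fin (e + 1)), _ := fun σ =>
    ibp hG hG2 hinv τ Γ (σ 0) (fun i : Fin e => σ i.succ)
  have h2 : ∀ x : EuclideanSpace ℝ (Fin (e + 1)), (wt e x : ℂ) *
      S (fun j => ((x j : ℝ) : ℂ)) (fun σ => τ (Γ * W (RR A G x) G (fun i : Fin e => σ i.succ))) =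
      ∑ σ : Perm (Fin (e + 1)), (((Perm.sign σ : ℤ) : ℂ) * (1 / 2)) * ((wt e x * (2 * x (σ 0))) •
        τ (Γ * W (RR A G x) G (fun i : Fin e => σ i.succ))) := by
    intro x
    unfold S
    rw [Finset.mul_sum]
    apply Finset.sum_congr rfl
    intro σ _
    rw [Complex.real_smul]
    push_cast
    ring
  simp_rw [h2]
  rw [integral_finset_sum _ (fun σ _ => ((h1 σ).2.1.const_mul _))]
  simp_rw [integral_const_mul]
  have h3 : ∀ σ : Perm (Fin (e + 1)), ∫ x : EuclideanSpace ℝ (Fin (e + 1)), (wt e x * (2 * x (σ 0))) •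
        τ (Γ * W (RR A G x) G (fun i : Fin e => σ i.succ)) =
      ∫ x : EuclideanSpace ℝ (Fin (e + 1)), psi e (‖x‖ ^ 2) •
      τ (Γ * ∑ k : Fin e, W (RR A G x) G (k.castSucc.insertNth (σ 0) (fun i : Fin e => σ i.succ))) :=
    fun σ => (h1 σ).2.2.symm
  simp_rw [h3]
  simp_rw [← integral_const_mul]
  rw [← integral_finset_sum _ (fun σ _ => ((h1 σ).1.const_mul _))]
  have h4 : ∀ x : EuclideanSpace ℝ (Fin (e + 1)), ∑ σ : Perm (Fin (e + 1)), (((Perm.sign σ : ℤ) : ℂ) * (1 / 2)) *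
      (psi e (‖x‖ ^ 2) • τ (Γ * ∑ k : Fin e, W (RR A G x) G (k.castSucc.insertNth (σ 0) (fun i : Fin e => σ i.succ)))) = 0 := by
    intro x
    have h5 := closed (B := ℂ) (τ : 𝔄 →+ ℂ) hτ he (hcomm x)
    have h6 : ∑ σ : Perm (Fin (e + 1)), (((Perm.sign σ : ℤ) : ℂ) * (1 / 2)) *
      (psi e (‖x‖ ^ 2) • τ (Γ * ∑ k : Fin e, W (RR A G x) G (k.castSucc.insertNth (σ 0) (fun i : Fin e => σ i.succ)))) =
      (1 / 2 * (psi e (‖x‖ ^ 2) : ℂ)) * ∑ σ : Perm (Fin (e + 1)), (Perm.sign σ : ℤ) •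
      (τ : 𝔄 →+ ℂ) (Γ * ∑ k : Fin e, W (RR A G x) G (k.castSucc.insertNth (σ 0) (fun i => σ i.succ))) := by
      rw [Finset.mul_sum]
      apply Finset.sum_congr rfl
      intro σ _
      rw [Complex.real_smul, zsmul_eq_mul]
      change _ = _ * (_ * τ _)
      ring
    rw [h6, h5, mul_zero]
  simp_rw [h4]
  simp

end Pool.Agent.H145R3.CL
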