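import Pool.Agent.H145R3.CL5

set_option autoImplicit false
open Equiv Finset MeasureTheory Filter Topology

namespace Pool.Agent.H145R3.CL

variable {𝔄 : Type*} [NormedRing 𝔄] [NormedAlgebra ℂ 𝔄] [CompleteSpace 𝔄] {e : ℕ}

omit [CompleteSpace 𝔄] in
theorem XX_smul (G : Fin (e + 1) → 𝔄) (s : ℝ) (x : EuclideanSpace ℝ (Fin (e + 1))) :
    XX G (s • x) = (s : ℂ) • XX G x := by
  unfold XX
  rw [Finset.smul_sum]
  apply Finset.sum_congr rfl
  intro j _
  rw [smul_smul]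
  simp

omit [CompleteSpace 𝔄] in
theorem unit_scale {A : 𝔄} {G : Fin (e + 1) → 𝔄} (hinv : ∀ x, IsUnit (A - XX G x)) {t : ℝ}
    (ht : t ≠ 0) (x : EuclideanSpace ℝ (Fin (e + 1))) : IsUnit ((t : ℂ) • A - XX G x) ∧
      RR ((t : ℂ) • A) G x = ((t⁻¹ : ℝ) : ℂ) • RR A G (t⁻¹ • x) := by
  have h1 : (t : ℂ) • A - XX G x = (t : ℂ) • (A - XX G (t⁻¹ • x)) := by
    rw [XX_smul, smul_sub, smul_smul, ← Complex.ofReal_mul, mul_inv_cancel₀ ht]
    simp
  have htC : (t : ℂ) * ((t⁻¹ : ℝ) : ℂ) = 1 := by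
    rw [← Complex.ofReal_mul, mul_inv_cancel₀ ht]; simp
  have h2 : ((t : ℂ) • A - XX G x) * (((t⁻¹ : ℝ) : ℂ) • RR A G (t⁻¹ • x)) = 1 := by
    rw [h1, smul_mul_assoc, mul_smul_comm, smul_smul, htC, one_smul]
    exact Ring.mul_inverse_cancel _ (hinv _)
  have h3 : (((t⁻¹ : ℝ) : ℂ) • RR A G (t⁻¹ • x)) * ((t : ℂ) • A - XX G x) = 1 := by
    rw [h1, smul_mul_assoc, mul_smul_comm, smul_smul, mul_comm, htC, one_smul]
    exact Ring.inverse_mul_cancel _ (hinv _)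
  refine ⟨⟨⟨_, _, h2, h3⟩, rfl⟩, ?_⟩
  have h4 : (t : ℂ) • A - XX G x = ((⟨_, _, h2, h3⟩ : 𝔄ˣ) : 𝔄) := rfl
  unfold RR at h2 h3 h4 ⊢
  rw [h4, Ring.inverse_unit]
  rfl

theorem S_norm_le (x : Fin (e + 1) → ℂ) (F : Perm (Fin (e + 1)) → ℂ) {a b : ℝ}
    (hx : ∀ j, ‖x j‖ ≤ a) (hF : ∀ σ, ‖F σ‖ ≤ b) (hb : 0 ≤ b) :
    ‖S x F‖ ≤ ((e + 1).factorial : ℝ) * (a * b) := by
  unfold S
  refine (norm_sum_le _ _).trans ?_
  have h1 : ∀ σ ∈ (Finset.univ : Finset (Perm (Fin (e + 1)))),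
      ‖((Perm.sign σ : ℤ) : ℂ) * (x (σ 0) * F σ)‖ ≤ a * b := by
    intro σ _
    have h2 : ‖((Perm.sign σ : ℤ) : ℂ)‖ = 1 := by
      rcases Int.units_eq_one_or (Perm.sign σ) with h | h <;> simp [h]
    rw [norm_mul, h2, one_mul, norm_mul]
    exact mul_le_mul (hx _) (hF σ) (norm_nonneg _) ((norm_nonneg _).trans (hx 0))
  refine (Finset.sum_le_sum h1).trans ?_
  simp [Fintype.card_perm]

theorem S_tendsto {x : Fin (e + 1) → ℂ} {F : ℕ → Perm (Fin (e + 1)) → ℂ}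
    {F' : Perm (Fin (e + 1)) → ℂ} (h : ∀ σ, Tendsto (fun k => F k σ) atTop (𝓝 (F' σ))) :
    Tendsto (fun k => S x (F k)) atTop (𝓝 (S x F')) := by
  unfold S
  exact tendsto_finset_sum _ fun σ _ => (tendsto_const_nhds.mul (tendsto_const_nhds.mul (h σ)))

theorem W_tendsto {R : ℕ → 𝔄} {R' : 𝔄} (h : Tendsto R atTop (𝓝 R')) (G : Fin (e + 1) → 𝔄) :
    ∀ (k : ℕ) (f : Fin k → Fin (e + 1)), Tendsto (fun n => W (R n) G f) atTop (𝓝 (W R' G f)) := by
  intro k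
  induction k with
  | zero => intro f; simp only [W_zero]; exact tendsto_const_nhds
  | succ k ih =>
    intro f
    simp only [W_succ]
    exact (h.mul tendsto_const_nhds).mul (ih _)

/-- Main theorem: a Clifford-affine family over `ℝ^d`, `d` even, cannot be invertible everywhere if
the top Clifford trace is nonzero. -/
theorem top_trace_zero {A : 𝔄} {G : Fin (e + 1) → 𝔄} (r : ℕ) (her : e = 2 * r + 1)
    (hG : ∀ j k, j ≠ k → G j * G k = -(G k * G j))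
    (hG2 : ∀ j, G j * G j = 1) (hinv : ∀ x, IsUnit (A - XX G x)) (τ : 𝔄 →L[ℂ] ℂ)
    (hτ : ∀ a b, τ (a * b) = τ (b * a)) (Γ : 𝔄) (hΓG : ∀ j, Γ * G j = -(G j * Γ))
    (hΓA : Γ * A = -(A * Γ)) : τ (Γ * W 1 G (fun i => i)) = 0 := by
  have he : Odd e := ⟨r, her⟩
  obtain ⟨C, hC0, hC⟩ := RR_bound hG hG2 hinv
  set c : ℝ := ∑ j, ‖G j‖ with hc
  have hc0 : 0 ≤ c := Finset.sum_nonneg fun j _ => norm_nonneg _
  have hGc : ∀ j, ‖G j‖ ≤ c := fun j =>
    Finset.single_le_sum (f := fun j => ‖G j‖) (fun _ _ => norm_nonneg _) (Finset.mem_univ j)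
  let t : ℕ → ℝ := fun k => 1 / ((k : ℝ) + 1)
  have ht0 : ∀ k, 0 < t k := fun k => by positivity
  have htlim : Tendsto t atTop (𝓝 0) := tendsto_one_div_add_atTop_nhds_zero_nat
  have hinvt : ∀ k x, IsUnit (((t k : ℝ) : ℂ) • A - XX G x) := fun k x =>
    (unit_scale hinv (ht0 k).ne' x).1
  have hRt : ∀ k x, ‖RR (((t k : ℝ) : ℂ) • A) G x‖ * ‖x‖ ≤ C := by
    intro k x
    rw [(unit_scale hinv (ht0 k).ne' x).2, norm_smul, Complex.norm_real,
      Real.norm_of_nonneg (inv_pos.2 (ht0 k)).le]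
    have h1 := (hC ((t k)⁻¹ • x)).2
    rw [norm_smul, Real.norm_of_nonneg (inv_pos.2 (ht0 k)).le] at h1
    calc _ = ‖RR A G ((t k)⁻¹ • x)‖ * ((t k)⁻¹ * ‖x‖) := by ring
      _ ≤ C := h1
  set F : ℕ → EuclideanSpace ℝ (Fin (e + 1)) → ℂ := fun k x => (wt e x : ℂ) *
      S (fun j => ((x j : ℝ) : ℂ))
        (fun σ => τ (Γ * W (RR (((t k : ℝ) : ℂ) • A) G x) G (fun i : Fin e => σ i.succ))) with hF
  set K : ℂ := (-1) ^ (r + 1) * (e.factorial : ℂ) * τ (Γ * W 1 G (fun i => i)) with hK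
  set F' : EuclideanSpace ℝ (Fin (e + 1)) → ℂ := fun x =>
    (((‖x‖ ^ 2) ^ (r + 1) * Real.exp (-(‖x‖ ^ 2)) : ℝ) : ℂ) * K with hF'
  have hΓtA : ∀ k, Γ * (((t k : ℝ) : ℂ) • A) = -((((t k : ℝ) : ℂ) • A) * Γ) := by
    intro k
    rw [mul_smul_comm, hΓA, smul_mul_assoc, smul_neg]
  have hint : ∀ k, ∫ x, F k x = 0 := fun k => flux he hG hG2 (hinvt k) τ hτ Γ hΓG (hΓtA k)
  have hcont : ∀ k, Continuous (F k) := by
    intro k
    have h1 : Continuous (wt e) := by unfold wt; fun_prop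
    simp only [hF, S]
    refine (Complex.continuous_ofReal.comp h1).mul (continuous_finsetSum _ fun σ _ => ?_)
    refine continuous_const.mul ((Continuous.comp Complex.continuous_ofReal (by fun_prop)).mul ?_)
    exact τ.continuous.comp (continuous_const.mul (W_continuous (RR_continuous (hinvt k)) G _ _))
  have hbound : ∀ k x, ‖F k x‖ ≤ ((e + 1).factorial : ℝ) * (‖τ‖ * (‖Γ‖ * (‖(1 : 𝔄)‖ * (C * c) ^ e))) *
      (‖x‖ ^ (e + 1) * Real.exp (-(‖x‖ ^ 2))) := by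
    intro k x
    simp only [hF]
    rw [norm_mul, Complex.norm_real, Real.norm_of_nonneg (by unfold wt; positivity)]
    have h1 : ∀ σ : Perm (Fin (e + 1)), ‖τ (Γ * W (RR (((t k : ℝ) : ℂ) • A) G x) G (fun i : Fin e => σ i.succ))‖ ≤
        ‖τ‖ * (‖Γ‖ * (‖(1 : 𝔄)‖ * (‖RR (((t k : ℝ) : ℂ) • A) G x‖ * c) ^ e)) := by
      intro σ
      refine (τ.le_opNorm _).trans (mul_le_mul_of_nonneg_left ?_ (norm_nonneg _))
      exact (norm_mul_le _ _).trans (mul_le_mul_of_nonneg_left (norm_W_le hGc _ _) (norm_nonneg _))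
    have h2 := S_norm_le (fun j => ((x j : ℝ) : ℂ))
      (fun σ => τ (Γ * W (RR (((t k : ℝ) : ℂ) • A) G x) G (fun i : Fin e => σ i.succ)))
      (a := ‖x‖) (fun j => by rw [Complex.norm_real]; exact PiLp.norm_apply_le x j) h1
      (by positivity)
    have h3 : (‖RR (((t k : ℝ) : ℂ) • A) G x‖ * ‖x‖) ^ e ≤ C ^ e :=
      pow_le_pow_left₀ (by positivity) (hRt k x) e
    unfold wt
    generalize hSS : S (fun j => ((x j : ℝ) : ℂ))
        (fun σ => τ (Γ * W (RR (((t k : ℝ) : ℂ) • A) G x) G (fun i : Fin e => σ i.succ))) = SS at h2 ⊢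
    calc (‖x‖ ^ 2) ^ e * Real.exp (-(‖x‖ ^ 2)) * ‖SS‖
        ≤ (‖x‖ ^ 2) ^ e * Real.exp (-(‖x‖ ^ 2)) * (((e + 1).factorial : ℝ) * (‖x‖ *
          (‖τ‖ * (‖Γ‖ * (‖(1 : 𝔄)‖ * (‖RR (((t k : ℝ) : ℂ) • A) G x‖ * c) ^ e))))) :=
          mul_le_mul_of_nonneg_left h2 (by positivity)
      _ = (((e + 1).factorial : ℝ) * (‖τ‖ * (‖Γ‖ * (‖(1 : 𝔄)‖ * c ^ e)))) *
          (‖RR (((t k : ℝ) : ℂ) • A) G x‖ * ‖x‖) ^ e * (‖x‖ ^ (e + 1) * Real.exp (-(‖x‖ ^ 2))) := by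
          rw [mul_pow, mul_pow]; ring
      _ ≤ (((e + 1).factorial : ℝ) * (‖τ‖ * (‖Γ‖ * (‖(1 : 𝔄)‖ * c ^ e)))) *
          C ^ e * (‖x‖ ^ (e + 1) * Real.exp (-(‖x‖ ^ 2))) := by gcongr
      _ = _ := by rw [mul_pow]; ring
  have hpt : ∀ x, Tendsto (fun k => F k x) atTop (𝓝 (F' x)) := by
    intro x
    rcases eq_or_ne x 0 with rfl | hx
    · have h1 : ∀ k, F k 0 = 0 := by
        intro k
        have h2 : wt e (0 : EuclideanSpace ℝ (Fin (e + 1))) = 0 := by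
          unfold wt
          rw [norm_zero, her]
          simp
        simp only [hF, h2]
        simp
      have h2 : F' 0 = 0 := by simp [hF']
      simp only [h1, h2]
      exact tendsto_const_nhds
    · have hx0 : 0 < ‖x‖ := norm_pos_iff.2 hx
      set q : ℝ := ‖x‖ ^ 2 with hq
      have hq0 : 0 < q := by positivity
      have h1 : Tendsto (fun k => RR (((t k : ℝ) : ℂ) • A) G x) atTop
          (𝓝 ((-((q⁻¹ : ℝ) : ℂ)) • XX G x)) := by
        rw [tendsto_iff_norm_sub_tendsto_zero]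
        have h2 : ∀ k, ‖RR (((t k : ℝ) : ℂ) • A) G x - (-((q⁻¹ : ℝ) : ℂ)) • XX G x‖ ≤
            t k * (q⁻¹ * ((C / ‖x‖) * ‖A‖ * ‖XX G x‖)) := by
          intro k
          have h3 := RR_eq hG hG2 (hinvt k) x hx
          have h4 : RR (((t k : ℝ) : ℂ) • A) G x - (-((q⁻¹ : ℝ) : ℂ)) • XX G x =
              ((q⁻¹ : ℝ) : ℂ) • (RR (((t k : ℝ) : ℂ) • A) G x * (((t k : ℝ) : ℂ) • A) * XX G x) := by
            conv_lhs => rw [h3]
            rw [sub_mul, one_mul, smul_sub, neg_smul]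
            abel
          rw [h4, norm_smul, Complex.norm_real, Real.norm_of_nonneg (by positivity)]
          have h5 : ‖RR (((t k : ℝ) : ℂ) • A) G x‖ ≤ C / ‖x‖ := by
            rw [le_div_iff₀ hx0]; exact hRt k x
          have h6 : ‖RR (((t k : ℝ) : ℂ) • A) G x * (((t k : ℝ) : ℂ) • A) * XX G x‖ ≤
              (C / ‖x‖) * (t k * ‖A‖) * ‖XX G x‖ := by
            refine (norm_mul_le _ _).trans (mul_le_mul_of_nonneg_right ?_ (norm_nonneg _))
            refine (norm_mul_le _ _).trans ?_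
            have h7 : ‖((t k : ℝ) : ℂ) • A‖ = t k * ‖A‖ := by
              rw [norm_smul, Complex.norm_real, Real.norm_of_nonneg (ht0 k).le]
            rw [h7]
            exact mul_le_mul_of_nonneg_right h5 (by have := ht0 k; positivity)
          calc q⁻¹ * _ ≤ q⁻¹ * ((C / ‖x‖) * (t k * ‖A‖) * ‖XX G x‖) :=
                mul_le_mul_of_nonneg_left h6 (by positivity)
            _ = _ := by ring
        have h3 : Tendsto (fun k => t k * (q⁻¹ * ((C / ‖x‖) * ‖A‖ * ‖XX G x‖))) atTop (𝓝 0) := by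
          have := htlim.mul_const (q⁻¹ * ((C / ‖x‖) * ‖A‖ * ‖XX G x‖))
          rwa [zero_mul] at this
        exact squeeze_zero (fun k => norm_nonneg _) h2 h3
      have h2 : Tendsto (fun k => F k x) atTop (𝓝 ((wt e x : ℂ) * S (fun j => ((x j : ℝ) : ℂ))
        (fun σ => τ (Γ * W ((-((q⁻¹ : ℝ) : ℂ)) • XX G x) G (fun i : Fin e => σ i.succ))))) := by
        refine tendsto_const_nhds.mul (S_tendsto fun σ => ?_)
        exact (τ.continuous.tendsto _).comp (tendsto_const_nhds.mul (W_tendsto h1 G _ _))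
      convert h2 using 2
      have h3 : S (fun j => ((x j : ℝ) : ℂ))
        (fun σ => τ (Γ * W ((-((q⁻¹ : ℝ) : ℂ)) • XX G x) G (fun i : Fin e => σ i.succ))) =
        (-((q⁻¹ : ℝ) : ℂ)) ^ e * S (fun j => ((x j : ℝ) : ℂ))
        (fun σ => τ (Γ * W (XX G x) G (fun i : Fin e => σ i.succ))) := by
        unfold S
        rw [Finset.mul_sum]
        apply Finset.sum_congr rfl
        intro σ _
        simp only [W_smul, mul_smul_comm, map_smul, smul_eq_mul]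
        ring
      have h4 := eval_main (X := XX G x) (x := fun j => ((x j : ℝ) : ℂ)) (q := (q : ℂ))
        (τ : 𝔄 →ₗ[ℂ] ℂ) Γ hG hG2 rfl (by
          rw [hq, EuclideanSpace.norm_sq_eq]
          push_cast
          apply Finset.sum_congr rfl
          intro j _
          rw [← Complex.ofReal_pow, ← Complex.ofReal_pow, Real.norm_eq_abs, sq_abs]) r her
      have h5 : S (fun j => ((x j : ℝ) : ℂ))
        (fun σ => τ (Γ * W (XX G x) G (fun i : Fin e => σ i.succ))) =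
        (-(q : ℂ)) ^ r * ((e.factorial : ℂ) * ((q : ℂ) * τ (Γ * W 1 G (fun i => i)))) := h4
      rw [h3, h5]
      simp only [hF', hK, wt, ← hq]
      have hqC : (q : ℂ) ≠ 0 := by exact_mod_cast hq0.ne'
      have h6 : (-((q⁻¹ : ℝ) : ℂ)) ^ e * (q : ℂ) ^ e = (-1) ^ e := by
        rw [← mul_pow]
        congr 1
        push_cast
        field_simp
      have h7 : ((-1 : ℂ)) ^ e = -1 := he.neg_one_pow
      push_cast at h6 ⊢
      rw [h7] at h6
      have h8 : (-(q : ℂ)) ^ r = (-1) ^ r * (q : ℂ) ^ r := by rw [← mul_pow]; congr 1; ring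
      rw [h8]
      have h9 : ((-1 : ℂ)) ^ (r + 1) = -((-1) ^ r) := by rw [pow_succ]; ring
      rw [h9, pow_succ (q : ℂ) r]
      linear_combination (-((-1 : ℂ) ^ r * (q : ℂ) ^ r * (q : ℂ) * (e.factorial : ℂ) *
        τ (Γ * W 1 G (fun i => i)) * Complex.exp (-(q : ℂ)))) * h6
  have hlim := tendsto_integral_of_dominated_convergence
    (fun x => ((e + 1).factorial : ℝ) * (‖τ‖ * (‖Γ‖ * (‖(1 : 𝔄)‖ * (C * c) ^ e))) *
      (‖x‖ ^ (e + 1) * Real.exp (-(‖x‖ ^ 2))))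
    (fun k => (hcont k).aestronglyMeasurable)
    ((integrable_pow_exp (V := EuclideanSpace ℝ (Fin (e + 1))) (e + 1)).const_mul _)
    (fun k => Filter.Eventually.of_forall (hbound k)) (Filter.Eventually.of_forall hpt)
  simp only [hint] at hlim
  have h0 : ∫ x, F' x = 0 := tendsto_nhds_unique hlim tendsto_const_nhds |>.symm ▸ rfl
  have h1 : ∫ x, F' x = ((∫ x : EuclideanSpace ℝ (Fin (e + 1)), (‖x‖ ^ 2) ^ (r + 1) * Real.exp (-(‖x‖ ^ 2)) : ℝ) : ℂ) * K := by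
    simp only [hF']
    rw [integral_mul_const]
    exact congrArg (· * K) integral_ofReal
  rw [h1] at h0
  have hint2 : Integrable (fun x : EuclideanSpace ℝ (Fin (e + 1)) => (‖x‖ ^ 2) ^ (r + 1) * Real.exp (-(‖x‖ ^ 2))) := by
    refine (integrable_pow_exp (V := EuclideanSpace ℝ (Fin (e + 1))) (2 * (r + 1))).congr
      (Filter.Eventually.of_forall fun x => ?_)
    simp only [pow_mul]
  have h2 : 0 < ∫ x : EuclideanSpace ℝ (Fin (e + 1)), (‖x‖ ^ 2) ^ (r + 1) * Real.exp (-(‖x‖ ^ 2)) := by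
    rw [integral_pos_iff_support_of_nonneg (fun x => by positivity) hint2]
    have hop : IsOpen (Function.support fun x : EuclideanSpace ℝ (Fin (e + 1)) =>
        (‖x‖ ^ 2) ^ (r + 1) * Real.exp (-(‖x‖ ^ 2))) :=
      (isOpen_compl_singleton (x := (0 : ℝ))).preimage (f := fun x : EuclideanSpace ℝ (Fin (e + 1)) =>
        (‖x‖ ^ 2) ^ (r + 1) * Real.exp (-(‖x‖ ^ 2))) (by fun_prop)
    refine hop.measure_pos _ ⟨EuclideanSpace.single 0 (1 : ℝ), ?_⟩
    rw [Function.mem_support]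
    simp
  have h3 : K = 0 := by
    rcases mul_eq_zero.1 h0 with h | h
    · exact absurd (by exact_mod_cast h) h2.ne'
    · exact h
  rw [hK] at h3
  have h4 : ((-1 : ℂ)) ^ (r + 1) * (e.factorial : ℂ) ≠ 0 := by
    apply mul_ne_zero
    · exact pow_ne_zero _ (by norm_num)
    · exact_mod_cast (Nat.factorial_pos e).ne'
  exact (mul_eq_zero.1 h3).resolve_left h4

end Pool.Agent.H145R3.CL
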