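import Pool.Agent.H145R3.CL6

set_option autoImplicit false
open Equiv Finset MeasureTheory Filter Topology
open scoped Kronecker

namespace Pool.Agent.H145R3.CL

section alg2
variable {𝔄 : Type*} [Ring 𝔄] {d : ℕ} {G : Fin d → 𝔄}

theorem W_comm_notMem (hG : ∀ j k, j ≠ k → G j * G k = -(G k * G j)) (j : Fin d) :
    ∀ (n : ℕ) (f : Fin n → Fin d), (∀ i, f i ≠ j) → W 1 G f * G j = (-1) ^ n * (G j * W 1 G f) := by
  intro n
  induction n with
  | zero => intro f _; simp [W_zero]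
  | succ n ih =>
    intro f hf
    rw [W_succ, one_mul, mul_assoc, ih _ (fun i => hf i.succ)]
    have h1 := hG (f 0) j (hf 0)
    have h2 : Commute ((-1 : 𝔄) ^ n) (G (f 0)) := (Commute.neg_one_left _).pow_left n
    calc G (f 0) * ((-1) ^ n * (G j * W 1 G fun i => f i.succ))
        = (G (f 0) * (-1) ^ n) * (G j * W 1 G fun i => f i.succ) := by rw [mul_assoc]
      _ = (-1) ^ n * (G (f 0) * G j) * (W 1 G fun i => f i.succ) := by
        rw [← h2.eq]; simp only [mul_assoc]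
      _ = _ := by rw [h1, pow_succ]; noncomm_ring

theorem W_comm_mem (hG : ∀ j k, j ≠ k → G j * G k = -(G k * G j)) (j : Fin d) :
    ∀ (n : ℕ) (f : Fin (n + 1) → Fin d), Function.Injective f → (∃ i, f i = j) →
      W 1 G f * G j = (-1) ^ n * (G j * W 1 G f) := by
  intro n
  induction n with
  | zero =>
    rintro f _ ⟨i, rfl⟩
    have : i = 0 := Fin.ext (by have := i.2; simp only [Fin.val_zero]; omega)
    subst this
    simp [W_succ, W_zero]
  | succ n ih =>
    rintro f hf ⟨i, hi⟩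
    by_cases h0 : f 0 = j
    · rw [W_succ, one_mul, mul_assoc, W_comm_notMem hG j (n + 1) _ (fun k hk => by
        rw [← h0] at hk
        exact Fin.succ_ne_zero k (hf hk)), h0]
      have h2 : Commute ((-1 : 𝔄) ^ (n + 1)) (G j) := (Commute.neg_one_left _).pow_left _
      rw [← mul_assoc, ← h2.eq, mul_assoc]
    · have hi0 : i ≠ 0 := fun h => h0 (h ▸ hi)
      obtain ⟨k, rfl⟩ := Fin.exists_succ_eq.2 hi0
      rw [W_succ, one_mul, mul_assoc, ih (fun i => f i.succ)
        (fun a b h => Fin.succ_injective _ (hf h)) ⟨k, hi⟩]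
      have h1 := hG (f 0) j h0
      have h2 : Commute ((-1 : 𝔄) ^ n) (G (f 0)) := (Commute.neg_one_left _).pow_left n
      calc G (f 0) * ((-1) ^ n * (G j * W 1 G fun i => f i.succ))
          = (G (f 0) * (-1) ^ n) * (G j * W 1 G fun i => f i.succ) := by rw [mul_assoc]
        _ = (-1) ^ n * (G (f 0) * G j) * (W 1 G fun i => f i.succ) := by
          rw [← h2.eq]; simp only [mul_assoc]
        _ = _ := by rw [h1, pow_succ]; noncomm_ring

theorem W_unit (hG2 : ∀ j, G j * G j = 1) : ∀ (n : ℕ) (f : Fin n → Fin d), IsUnit (W 1 G f) := by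
  intro n
  induction n with
  | zero => intro f; rw [W_zero]; exact isUnit_one
  | succ n ih =>
    intro f
    rw [W_succ, one_mul]
    exact IsUnit.mul ⟨⟨G (f 0), G (f 0), hG2 _, hG2 _⟩, rfl⟩ (ih _)

theorem W_commute {a : 𝔄} (ha : ∀ j, Commute a (G j)) : ∀ (n : ℕ) (f : Fin n → Fin d),
    Commute a (W 1 G f) := by
  intro n
  induction n with
  | zero => intro f; rw [W_zero]; exact Commute.one_right _
  | succ n ih =>
    intro f
    rw [W_succ, one_mul]
    exact (ha _).mul_right (ih _)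

end alg2

section matrices

attribute [local instance] Matrix.linftyOpNormedRing Matrix.linftyOpNormedAlgebra

variable {ι κ : Type} [Fintype ι] [DecidableEq ι] [Nonempty ι] [Fintype κ] [DecidableEq κ] [Nonempty κ]

theorem even_case {e : ℕ} (r : ℕ) (her : e = 2 * r + 1) (A : Fin (e + 1) → Matrix ι ι ℂ)
    (γ : Fin (e + 1) → Matrix κ κ ℂ) (h2 : ∀ j, γ j * γ j = 1)
    (hanti : ∀ j k, j ≠ k → γ j * γ k = -(γ k * γ j)) :
    ∃ x : Fin (e + 1) → ℝ, (∑ j, Matrix.kronecker (A j - ((x j : ℂ)) • (1 : Matrix ι ι ℂ)) (γ j)).det = 0 := by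
  by_contra hcon
  push Not at hcon
  haveI : CompleteSpace (Matrix (ι × κ) (ι × κ) ℂ) := FiniteDimensional.complete ℂ _
  set G : Fin (e + 1) → Matrix (ι × κ) (ι × κ) ℂ := fun j => Matrix.kronecker (1 : Matrix ι ι ℂ) (γ j) with hGdef
  set M : Matrix (ι × κ) (ι × κ) ℂ := ∑ j, Matrix.kronecker (A j) (γ j) with hM
  have hkm : ∀ (a b : Matrix ι ι ℂ) (c d : Matrix κ κ ℂ),
      Matrix.kronecker a c * Matrix.kronecker b d = Matrix.kronecker (a * b) (c * d) :=
    fun a b c d => (Matrix.mul_kronecker_mul a b c d).symm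
  have hG : ∀ j k, j ≠ k → G j * G k = -(G k * G j) := by
    intro j k hjk
    simp only [hGdef, hkm, hanti j k hjk]
    ext ⟨a, b⟩ ⟨c, d⟩
    simp [Matrix.kronecker]
  have hG2 : ∀ j, G j * G j = 1 := by
    intro j
    simp only [hGdef, hkm, h2, one_mul]
    exact Matrix.one_kronecker_one
  have hL : ∀ x : EuclideanSpace ℝ (Fin (e + 1)), M - XX G x =
      ∑ j, Matrix.kronecker (A j - (((x j : ℝ) : ℂ)) • (1 : Matrix ι ι ℂ)) (γ j) := by
    intro x
    unfold XX
    rw [hM, ← Finset.sum_sub_distrib]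
    apply Finset.sum_congr rfl
    intro j _
    ext ⟨a, b⟩ ⟨c, d⟩
    simp only [hGdef, Matrix.kronecker, Matrix.kroneckerMap_apply, Matrix.sub_apply,
      Matrix.smul_apply, smul_eq_mul]
    ring
  have hinv : ∀ x : EuclideanSpace ℝ (Fin (e + 1)), IsUnit (M - XX G x) := by
    intro x
    rw [Matrix.isUnit_iff_isUnit_det, isUnit_iff_ne_zero, hL]
    exact hcon (fun j => x j)
  set P := W 1 G (fun i : Fin (e + 1) => i) with hP
  obtain ⟨u, hu⟩ := W_unit hG2 (e + 1) (fun i : Fin (e + 1) => i)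
  have hPG : ∀ j, P * G j = -(G j * P) := by
    intro j
    have h3 := W_comm_mem hG j e (fun i : Fin (e + 1) => i) (fun a b h => h) ⟨j, rfl⟩
    rw [← hP, her, pow_succ, pow_mul] at h3
    rw [h3]
    simp
  have hPA : P * M = -(M * P) := by
    rw [hM, Finset.mul_sum, Finset.sum_mul, ← Finset.sum_neg_distrib]
    apply Finset.sum_congr rfl
    intro j _
    have h3 : Matrix.kronecker (A j) (γ j) = Matrix.kronecker (A j) (1 : Matrix κ κ ℂ) * G j := by
      simp only [hGdef, hkm, mul_one, one_mul]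
    have h4 : Commute (Matrix.kronecker (A j) (1 : Matrix κ κ ℂ)) P := by
      apply W_commute
      intro k
      change _ * _ = _ * _
      simp only [hGdef, hkm, mul_one, one_mul]
    rw [h3, ← mul_assoc, ← h4.eq, mul_assoc, hPG, mul_neg, mul_assoc]
  set Γ : Matrix (ι × κ) (ι × κ) ℂ := ↑u⁻¹ with hΓ
  have hΓP : Γ * P = 1 := by rw [hΓ, hP, ← hu]; exact u.inv_mul
  have hPΓ : P * Γ = 1 := by rw [hΓ, hP, ← hu]; exact u.mul_inv
  have hconj : ∀ a, P * a = -(a * P) → Γ * a = -(a * Γ) := by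
    intro a ha
    calc Γ * a = Γ * a * (P * Γ) := by rw [hPΓ, mul_one]
      _ = Γ * (a * P) * Γ := by simp only [mul_assoc]
      _ = Γ * (-(P * a)) * Γ := by rw [ha, neg_neg]
      _ = -((Γ * P) * a * Γ) := by noncomm_ring
      _ = _ := by rw [hΓP, one_mul]
  let τ : Matrix (ι × κ) (ι × κ) ℂ →L[ℂ] ℂ :=
    LinearMap.toContinuousLinearMap (Matrix.traceLinearMap (ι × κ) ℂ ℂ)
  have hτ : ∀ a b, τ (a * b) = τ (b * a) := fun a b => Matrix.trace_mul_comm a b
  have h5 := top_trace_zero r her hG hG2 hinv τ hτ Γ (fun j => hconj _ (hPG j)) (hconj _ hPA)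
  rw [← hP, hΓP] at h5
  have h6 : τ 1 = ((Fintype.card (ι × κ) : ℕ) : ℂ) := Matrix.trace_one
  have h8 : ((Fintype.card (ι × κ) : ℕ) : ℂ) = 0 := h6.symm.trans h5
  have h7 : Fintype.card (ι × κ) ≠ 0 := Fintype.card_ne_zero
  exact h7 (by exact_mod_cast h8)

end matrices

section odd

variable {n m : ℕ}

theorem odd_case {d : ℕ} (r : ℕ) (hd : d = 2 * r + 1) (hn : 0 < n) (hm : 0 < m)
    (A : Fin d → Matrix (Fin n) (Fin n) ℂ) (γ : Fin d → Matrix (Fin m) (Fin m) ℂ)
    (hA : ∀ j, (A j).IsHermitian) (hγ : ∀ j, (γ j).IsHermitian) (h2 : ∀ j, γ j * γ j = 1)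
    (hanti : ∀ j k, j ≠ k → γ j * γ k = -(γ k * γ j)) :
    ∃ x : Fin d → ℝ, (∑ j, Matrix.kronecker (A j - ((x j : ℂ)) • (1 : Matrix (Fin n) (Fin n) ℂ)) (γ j)).det = 0 := by
  haveI : Nonempty (Fin n) := ⟨⟨0, hn⟩⟩
  haveI : Nonempty (Fin m) := ⟨⟨0, hm⟩⟩
  let A' : Fin (d + 1) → Matrix (Fin n) (Fin n) ℂ := Fin.snoc (α := fun _ => Matrix (Fin n) (Fin n) ℂ) A 0
  let γ' : Fin (d + 1) → Matrix (Fin m ⊕ Fin m) (Fin m ⊕ Fin m) ℂ :=
    Fin.snoc (α := fun _ => Matrix (Fin m ⊕ Fin m) (Fin m ⊕ Fin m) ℂ)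
      (fun j => Matrix.fromBlocks 0 (γ j) (γ j) 0) (Matrix.fromBlocks 1 0 0 (-1))
  have hγc : ∀ j : Fin d, γ' j.castSucc = Matrix.fromBlocks 0 (γ j) (γ j) 0 := fun j => by
    simp [γ']
  have hγl : γ' (Fin.last d) = Matrix.fromBlocks 1 0 0 (-1) := by simp [γ']
  have hAc : ∀ j : Fin d, A' j.castSucc = A j := fun j => by simp [A']
  have hAl : A' (Fin.last d) = 0 := by simp [A']
  have h2' : ∀ j, γ' j * γ' j = 1 := by
    intro j
    refine Fin.lastCases ?_ (fun j => ?_) j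
    · rw [hγl, Matrix.fromBlocks_multiply]
      simp
    · rw [hγc, Matrix.fromBlocks_multiply]
      simp [h2]
  have hanti' : ∀ j k, j ≠ k → γ' j * γ' k = -(γ' k * γ' j) := by
    intro j k
    refine Fin.lastCases ?_ (fun j => ?_) j
    · refine Fin.lastCases ?_ (fun k => ?_) k
      · intro h; exact absurd rfl h
      · intro _
        rw [hγl, hγc, Matrix.fromBlocks_multiply, Matrix.fromBlocks_multiply, Matrix.fromBlocks_neg]
        simp
    · refine Fin.lastCases ?_ (fun k => ?_) k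
      · intro _
        rw [hγl, hγc, Matrix.fromBlocks_multiply, Matrix.fromBlocks_multiply, Matrix.fromBlocks_neg]
        simp
      · intro h
        have h' : j ≠ k := fun h'' => h (by rw [h''])
        rw [hγc, hγc, Matrix.fromBlocks_multiply, Matrix.fromBlocks_multiply, Matrix.fromBlocks_neg]
        simp [hanti j k h']
  obtain ⟨x, hx⟩ := even_case r hd A' γ' h2' hanti'
  refine ⟨fun j => x j.castSucc, ?_⟩
  set s : ℝ := x (Fin.last d) with hs
  set B : Fin d → Matrix (Fin n) (Fin n) ℂ := fun j => A j - ((x j.castSucc : ℂ)) • 1 with hB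
  have hBH : ∀ j, (B j).IsHermitian := by
    intro j
    simp only [hB]
    refine (hA j).sub ?_
    unfold Matrix.IsHermitian
    rw [Matrix.conjTranspose_smul, Matrix.conjTranspose_one]
    simp
  set L' : Matrix (Fin n × (Fin m ⊕ Fin m)) (Fin n × (Fin m ⊕ Fin m)) ℂ :=
    ∑ j, Matrix.kronecker (B j) (Matrix.fromBlocks 0 (γ j) (γ j) 0) with hL'
  set Z : Matrix (Fin n × (Fin m ⊕ Fin m)) (Fin n × (Fin m ⊕ Fin m)) ℂ :=
    Matrix.kronecker (1 : Matrix (Fin n) (Fin n) ℂ) (Matrix.fromBlocks 1 0 0 (-1)) with hZ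
  have hkm : ∀ (a b : Matrix (Fin n) (Fin n) ℂ) (c d : Matrix (Fin m ⊕ Fin m) (Fin m ⊕ Fin m) ℂ),
      Matrix.kronecker a c * Matrix.kronecker b d = Matrix.kronecker (a * b) (c * d) :=
    fun a b c d => (Matrix.mul_kronecker_mul a b c d).symm
  have hMeq : (∑ j, Matrix.kronecker (A' j - ((x j : ℂ)) • (1 : Matrix (Fin n) (Fin n) ℂ)) (γ' j)) =
      L' - (s : ℂ) • Z := by
    have e2 : Matrix.kronecker (0 - ((x (Fin.last d) : ℝ) : ℂ) • (1 : Matrix (Fin n) (Fin n) ℂ))
        (Matrix.fromBlocks 1 0 0 (-1) : Matrix (Fin m ⊕ Fin m) (Fin m ⊕ Fin m) ℂ) = -((s : ℂ) • Z) := by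
      ext ⟨a, b⟩ ⟨c, d⟩
      simp only [hZ, Matrix.kronecker, Matrix.kroneckerMap_apply, Matrix.sub_apply, Matrix.zero_apply,
        Matrix.smul_apply, smul_eq_mul, Matrix.neg_apply, hs]
      ring
    rw [Fin.sum_univ_castSucc, hγl, hAl, e2, sub_eq_add_neg]
    congr 1
    rw [hL']
    apply Finset.sum_congr rfl
    intro j _
    rw [hγc, hAc]
  have hkH : ∀ (a : Matrix (Fin n) (Fin n) ℂ) (b : Matrix (Fin m ⊕ Fin m) (Fin m ⊕ Fin m) ℂ),
      a.IsHermitian → b.IsHermitian → (Matrix.kronecker a b).IsHermitian := by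
    intro a b ha hb
    unfold Matrix.IsHermitian at *
    have := Matrix.conjTranspose_kronecker a b
    rw [ha, hb] at this
    exact this
  have hL'H : L'.IsHermitian := by
    rw [hL']
    unfold Matrix.IsHermitian
    rw [Matrix.conjTranspose_sum]
    apply Finset.sum_congr rfl
    intro j _
    apply hkH _ _ (hBH j)
    unfold Matrix.IsHermitian
    rw [Matrix.fromBlocks_conjTranspose, hγ j]
    simp
  have hZZ : Z * Z = 1 := by
    rw [hZ, hkm, Matrix.fromBlocks_multiply]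
    simp only [mul_one, Matrix.mul_zero, add_zero, Matrix.zero_mul, neg_mul_neg, zero_add, mul_neg,
      one_mul, neg_zero, neg_neg]
    rw [Matrix.fromBlocks_one]
    exact Matrix.one_kronecker_one
  have hLZ : L' * Z + Z * L' = 0 := by
    rw [hL', hZ, Finset.sum_mul, Finset.mul_sum, ← Finset.sum_add_distrib]
    apply Finset.sum_eq_zero
    intro j _
    rw [hkm, hkm, Matrix.fromBlocks_multiply, Matrix.fromBlocks_multiply, mul_one, one_mul]
    ext ⟨a, b⟩ ⟨c, d⟩
    simp only [Matrix.kronecker, Matrix.kroneckerMap_apply, Matrix.add_apply, Matrix.zero_apply]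
    rcases b with b | b <;> rcases d with d | d <;> simp
  rw [hMeq] at hx
  obtain ⟨v, hv0, hv⟩ := Matrix.exists_mulVec_eq_zero_iff.2 hx
  have hMM : (L' - (s : ℂ) • Z) * (L' - (s : ℂ) • Z) = L' * L' + ((s : ℂ) ^ 2) • 1 := by
    have h1 : (L' - (s : ℂ) • Z) * (L' - (s : ℂ) • Z) =
        L' * L' - (s : ℂ) • (L' * Z + Z * L') + ((s : ℂ) * s) • (Z * Z) := by
      rw [sub_mul, mul_sub, mul_sub, smul_mul_assoc, smul_mul_assoc, mul_smul_comm, mul_smul_comm,
        smul_smul, smul_add]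
      abel
    rw [h1, hLZ, hZZ, smul_zero, sub_zero, sq]
  set w := L'.mulVec v with hw
  have h3 : (L' * L').mulVec v + ((s : ℂ) ^ 2) • v = 0 := by
    have h4 : ((L' - (s : ℂ) • Z) * (L' - (s : ℂ) • Z)).mulVec v = 0 := by
      rw [← Matrix.mulVec_mulVec, hv, Matrix.mulVec_zero]
    rw [hMM, Matrix.add_mulVec, Matrix.smul_mulVec, Matrix.one_mulVec] at h4
    exact h4
  have h4 : star v ⬝ᵥ ((L' * L').mulVec v) = star w ⬝ᵥ w := by
    rw [hw, ← Matrix.mulVec_mulVec, Matrix.star_mulVec, hL'H, Matrix.dotProduct_mulVec]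
  have h5 : star w ⬝ᵥ w + ((s : ℂ) ^ 2) * (star v ⬝ᵥ v) = 0 := by
    have h6 := congrArg (fun z => star v ⬝ᵥ z) h3
    simp only [dotProduct_add, dotProduct_smul, dotProduct_zero, h4, smul_eq_mul] at h6
    exact h6
  have hself : ∀ u : Fin n × (Fin m ⊕ Fin m) → ℂ, star u ⬝ᵥ u = ((∑ i, ‖u i‖ ^ 2 : ℝ) : ℂ) := by
    intro u
    simp only [dotProduct, Pi.star_apply]
    push_cast
    apply Finset.sum_congr rfl
    intro i _
    have := Complex.conj_mul' (u i)
    simpa using this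
  rw [hself, hself] at h5
  have h6 : ∑ i, ‖w i‖ ^ 2 + s ^ 2 * ∑ i, ‖v i‖ ^ 2 = 0 := by exact_mod_cast h5
  have h7 : 0 ≤ ∑ i, ‖w i‖ ^ 2 := Finset.sum_nonneg fun i _ => by positivity
  have h8 : 0 ≤ s ^ 2 * ∑ i, ‖v i‖ ^ 2 :=
    mul_nonneg (sq_nonneg _) (Finset.sum_nonneg fun i _ => by positivity)
  have h9 : ∑ i, ‖w i‖ ^ 2 = 0 := by linarith
  have hw0 : ∀ i, w i = 0 := by
    intro i
    have := (Finset.sum_eq_zero_iff_of_nonneg (fun i _ => by positivity)).1 h9 i (Finset.mem_univ i)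
    simpa using this
  set L : Matrix (Fin n × Fin m) (Fin n × Fin m) ℂ := ∑ j, Matrix.kronecker (B j) (γ j) with hL
  have ent1 : ∀ i k i' k', L' (i, Sum.inl k) (i', Sum.inr k') = L (i, k) (i', k') := by
    intro i k i' k'
    simp [hL', hL, Matrix.sum_apply, Matrix.kronecker]
  have ent2 : ∀ i k i' k', L' (i, Sum.inr k) (i', Sum.inl k') = L (i, k) (i', k') := by
    intro i k i' k'
    simp [hL', hL, Matrix.sum_apply, Matrix.kronecker]
  have ent3 : ∀ i k i' k', L' (i, Sum.inl k) (i', Sum.inl k') = 0 := by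
    intro i k i' k'
    simp [hL', Matrix.sum_apply, Matrix.kronecker]
  have ent4 : ∀ i k i' k', L' (i, Sum.inr k) (i', Sum.inr k') = 0 := by
    intro i k i' k'
    simp [hL', Matrix.sum_apply, Matrix.kronecker]
  have k1 : L.mulVec (fun p => v (p.1, Sum.inr p.2)) = 0 := by
    funext ⟨i, k⟩
    have := hw0 (i, Sum.inl k)
    rw [hw] at this
    simp only [Matrix.mulVec, dotProduct, Fintype.sum_prod_type, Fintype.sum_sum_type, ent1, ent3,
      zero_mul, Finset.sum_const_zero, zero_add] at this ⊢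
    exact this
  have k2 : L.mulVec (fun p => v (p.1, Sum.inl p.2)) = 0 := by
    funext ⟨i, k⟩
    have := hw0 (i, Sum.inr k)
    rw [hw] at this
    simp only [Matrix.mulVec, dotProduct, Fintype.sum_prod_type, Fintype.sum_sum_type, ent2, ent4,
      zero_mul, Finset.sum_const_zero, add_zero] at this ⊢
    exact this
  apply Matrix.exists_mulVec_eq_zero_iff.1
  by_cases hv1 : (fun p : Fin n × Fin m => v (p.1, Sum.inr p.2)) = 0
  · refine ⟨_, ?_, k2⟩
    intro hv2
    apply hv0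
    funext ⟨i, k⟩
    rcases k with k | k
    · exact congrFun hv2 (i, k)
    · exact congrFun hv1 (i, k)
  · exact ⟨_, hv1, k1⟩

theorem main (n d m : ℕ) (hn : 0 < n) (hm : 0 < m)
    (A : Fin d → Matrix (Fin n) (Fin n) ℂ) (γ : Fin d → Matrix (Fin m) (Fin m) ℂ)
    (hA : ∀ j, (A j).IsHermitian) (hγ : ∀ j, (γ j).IsHermitian) (h2 : ∀ j, γ j * γ j = 1)
    (hanti : ∀ j k, j ≠ k → γ j * γ k = -(γ k * γ j)) :
    ∃ x : Fin d → ℝ, (∑ j, Matrix.kronecker (A j - ((x j : ℂ)) • (1 : Matrix (Fin n) (Fin n) ℂ)) (γ j)).det = 0 := by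
  haveI : Nonempty (Fin n) := ⟨⟨0, hn⟩⟩
  haveI : Nonempty (Fin m) := ⟨⟨0, hm⟩⟩
  rcases Nat.even_or_odd' d with ⟨k, hk | hk⟩
  · rcases Nat.eq_zero_or_pos k with h0 | h0
    · have hd : d = 0 := by omega
      subst hd
      refine ⟨fun _ => 0, ?_⟩
      rw [Finset.univ_eq_empty, Finset.sum_empty]
      exact Matrix.det_zero
    · obtain ⟨r, rfl⟩ : ∃ r, k = r + 1 := ⟨k - 1, by omega⟩
      obtain ⟨e, rfl⟩ : ∃ e, d = e + 1 := ⟨d - 1, by omega⟩
      exact even_case r (by omega) A γ h2 hanti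
  · exact odd_case k hk hn hm A γ hA hγ h2 hanti

end odd

end Pool.Agent.H145R3.CL
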