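import Mathlib

set_option autoImplicit false

open Filter Topology Polynomial

namespace Pool.Agent.H145R3.CV

/-- positivity preserving step on sequences -/
def AA (h : ℕ → ℝ) : ℕ → ℝ := fun n => h (n + 2) + 100 * h n

lemma AA_nonneg (h : ℕ → ℝ) (hh : ∀ n, 0 ≤ h n) (m : ℕ) : ∀ n, 0 ≤ (AA^[m] h) n := by
  induction m generalizing h with
  | zero => exact hh
  | succ m ih =>
    rw [Function.iterate_succ_apply]
    apply ih
    intro n
    have := hh n
    have := hh (n + 2)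
    simp only [AA]
    positivity

lemma AA_lower (h : ℕ → ℝ) (hh : ∀ n, 0 ≤ h n) (m : ℕ) : ∀ n, 100 ^ m * h n ≤ (AA^[m] h) n ∧
    (m : ℝ) * 100 ^ m * h (n + 2) ≤ 100 * (AA^[m] h) n := by
  induction m with
  | zero =>
    intro n
    simp only [pow_zero, Function.iterate_zero, id]
    have := hh n
    constructor
    · linarith
    · push_cast; linarith
  | succ m ih =>
    intro n
    rw [Function.iterate_succ_apply']
    simp only [AA]
    obtain ⟨h1, h2⟩ := ih n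
    obtain ⟨h3, h4⟩ := ih (n + 2)
    have h5 := AA_nonneg h hh m (n + 2)
    constructor
    · rw [pow_succ]; nlinarith
    · push_cast
      have e : ((m : ℝ) + 1) * 100 ^ (m + 1) * h (n + 2) = 100 * ((m : ℝ) * 100 ^ m * h (n + 2)) + 100 * (100 ^ m * h (n + 2)) := by
        rw [pow_succ]; ring
      rw [e]
      linarith

lemma AA_iter (h : ℕ → ℝ) (hh : ∀ n, 0 ≤ h n) (j : ℕ) : ∀ n,
    ((100 : ℝ) ^ 100) ^ j * h (n + 2 * j) ≤ (AA^[100 * j] h) n := by
  induction j with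
  | zero => intro n; simp
  | succ j ih =>
    intro n
    have e : 100 * (j + 1) = 100 + 100 * j := by ring
    rw [e, Function.iterate_add_apply]
    have h1 := (AA_lower (AA^[100 * j] h) (AA_nonneg h hh _) 100 n).2
    have h2 := ih (n + 2)
    have e2 : n + 2 + 2 * j = n + 2 * (j + 1) := by ring
    rw [e2] at h2
    have h3 : (100 : ℝ) ^ 100 * (AA^[100 * j] h) (n + 2) ≤ (AA^[100] (AA^[100 * j] h)) n := by
      have : ((100 : ℕ) : ℝ) = 100 := by norm_num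
      rw [this, mul_assoc] at h1
      linarith
    refine le_trans ?_ h3
    rw [pow_succ, mul_comm (((100 : ℝ) ^ 100) ^ j), mul_assoc]
    exact mul_le_mul_of_nonneg_left h2 (by positivity)

lemma growth (h : ℕ → ℝ) (hh : ∀ n, 0 ≤ h n) (D : ℝ) (n : ℕ)
    (hD : ∀ m, (AA^[m] h) n ≤ D * 101 ^ m) (j : ℕ) : h (n + 2 * j) ≤ D * 3 ^ j := by
  have hD0 : 0 ≤ D := by
    have h1 := hD 0
    have h2 := hh n
    simp only [Function.iterate_zero, id, pow_zero, mul_one] at h1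
    linarith
  have h1 := (AA_iter h hh j n).trans (hD (100 * j))
  rw [pow_mul] at h1
  have h2 : ((101 : ℝ) ^ 100) ^ j ≤ ((100 : ℝ) ^ 100) ^ j * 3 ^ j := by
    rw [← mul_pow]
    exact pow_le_pow_left₀ (by positivity) (by norm_num) j
  have h3 : (0 : ℝ) < ((100 : ℝ) ^ 100) ^ j := by positivity
  have h4 : ((100 : ℝ) ^ 100) ^ j * h (n + 2 * j) ≤ ((100 : ℝ) ^ 100) ^ j * (D * 3 ^ j) := by
    calc ((100 : ℝ) ^ 100) ^ j * h (n + 2 * j) ≤ D * ((101 : ℝ) ^ 100) ^ j := h1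
      _ ≤ D * (((100 : ℝ) ^ 100) ^ j * 3 ^ j) := mul_le_mul_of_nonneg_left h2 hD0
      _ = _ := by ring
  exact le_of_mul_le_mul_left h4 h3

/-- coefficientwise majorization -/
def Maj (q : ℂ[X]) (P : ℝ[X]) : Prop := ∀ j, ‖q.coeff j‖ ≤ P.coeff j

lemma Maj.add {p q : ℂ[X]} {P Q : ℝ[X]} (hp : Maj p P) (hq : Maj q Q) : Maj (p + q) (P + Q) := by
  intro j
  rw [coeff_add, coeff_add]
  exact (norm_add_le _ _).trans (add_le_add (hp j) (hq j))

lemma Maj.mul {p q : ℂ[X]} {P Q : ℝ[X]} (hp : Maj p P) (hq : Maj q Q) : Maj (p * q) (P * Q) := by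
  intro j
  rw [coeff_mul, coeff_mul]
  refine (norm_sum_le _ _).trans (Finset.sum_le_sum (fun x _ => ?_))
  rw [norm_mul]
  exact mul_le_mul (hp _) (hq _) (norm_nonneg _) ((norm_nonneg _).trans (hp _))

lemma Maj.C {c : ℂ} {r : ℝ} (h : ‖c‖ ≤ r) : Maj (C c) (C r) := by
  intro j
  rw [coeff_C, coeff_C]
  split_ifs
  · exact h
  · simp

lemma Maj.Xpow (k : ℕ) : Maj (X ^ k) (X ^ k) := by
  intro j
  rw [coeff_X_pow, coeff_X_pow]
  split_ifs <;> simp

lemma Maj.pow {p : ℂ[X]} {P : ℝ[X]} (hp : Maj p P) (k : ℕ) : Maj (p ^ k) (P ^ k) := by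
  induction k with
  | zero =>
    rw [pow_zero, pow_zero]
    have := Maj.Xpow 0
    simpa using this
  | succ k ih => rw [pow_succ, pow_succ]; exact ih.mul hp

noncomputable def ee : ℕ → ℂ[X]
  | 0 => C (-1 / 200 : ℂ) * (X ^ 2 + C (10 * Complex.I) * X ^ 1)
  | k + 1 => C 3 * ee k ^ 2 + C (-2) * ee k ^ 3

noncomputable def gg : ℕ → ℂ[X]
  | 0 => C (-1 / 200 : ℂ) * (X ^ 2 + C (-10 * Complex.I) * X ^ 1)
  | k + 1 => C 3 * gg k ^ 2 + C (-2) * gg k ^ 3

noncomputable def PP : ℕ → ℝ[X]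
  | 0 => C (1 / 200 : ℝ) * (X ^ 2 + C 10 * X ^ 1)
  | k + 1 => C 3 * PP k ^ 2 + C 2 * PP k ^ 3

lemma ee_maj (k : ℕ) : Maj (ee k) (PP k) := by
  induction k with
  | zero =>
    refine Maj.mul (Maj.C ?_) (Maj.add (Maj.Xpow 2) (Maj.mul (Maj.C ?_) (Maj.Xpow 1)))
    · norm_num
    · simp
  | succ k ih =>
    refine Maj.add (Maj.mul (Maj.C ?_) (ih.pow 2)) (Maj.mul (Maj.C ?_) (ih.pow 3))
    · norm_num
    · norm_num

lemma gg_eq (k : ℕ) : gg k = (ee k).map (starRingEnd ℂ) := by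
  induction k with
  | zero =>
    simp only [gg, ee, Polynomial.map_mul, Polynomial.map_add, Polynomial.map_pow, map_C, map_X]
    congr 2
    · rw [map_div₀, map_neg, map_one, map_ofNat]
    · congr 2
      rw [map_mul, map_ofNat, Complex.conj_I]
      ring
  | succ k ih =>
    simp only [gg, ee, Polynomial.map_mul, Polynomial.map_add, Polynomial.map_pow, map_C, ih]
    have h1 : (starRingEnd ℂ) 3 = 3 := map_ofNat _ 3
    have h2 : (starRingEnd ℂ) (-2) = -2 := by rw [map_neg, map_ofNat]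
    rw [h1, h2]

noncomputable def xx : ℕ → ℝ := fun k => (1 / 5) * (17 / 25) ^ k

lemma xx_pos (k : ℕ) : 0 < xx k := by unfold xx; positivity
lemma xx_le (k : ℕ) : xx k ≤ 1 / 5 := by
  unfold xx
  have : (17 / 25 : ℝ) ^ k ≤ 1 := pow_le_one₀ (by norm_num) (by norm_num)
  linarith
lemma xx_succ (k : ℕ) : xx (k + 1) = 17 / 25 * xx k := by unfold xx; rw [pow_succ]; ring

lemma xx_step (k : ℕ) (y : ℝ) (hy0 : 0 ≤ y) (hy : y ≤ xx k) : y ^ 2 * (3 + 2 * y) ≤ xx (k + 1) := by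
  rw [xx_succ]
  have h1 := xx_le k
  have h2 : y ≤ 1 / 5 := hy.trans h1
  have h3 : y * (3 + 2 * y) ≤ 17 / 25 := by nlinarith
  calc y ^ 2 * (3 + 2 * y) = (y * (3 + 2 * y)) * y := by ring
    _ ≤ (17 / 25) * y := mul_le_mul_of_nonneg_right h3 hy0
    _ ≤ _ := mul_le_mul_of_nonneg_left hy (by norm_num)

lemma xx_tendsto : Tendsto xx atTop (𝓝 0) := by
  have := (tendsto_pow_atTop_nhds_zero_of_lt_one (r := (17 / 25 : ℝ)) (by norm_num) (by norm_num)).const_mul (1 / 5)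
  rw [mul_zero] at this
  exact this

lemma PP_nonneg (k : ℕ) : 0 ≤ (PP k).eval (7 / 4) := by
  induction k with
  | zero => simp only [PP, eval_mul, eval_add, eval_pow, eval_C, eval_X]; norm_num
  | succ k ih => simp only [PP, eval_mul, eval_add, eval_pow, eval_C]; positivity

lemma PP_le (k : ℕ) : (PP k).eval (7 / 4) ≤ xx k := by
  induction k with
  | zero => simp only [PP, eval_mul, eval_add, eval_pow, eval_C, eval_X, xx]; norm_num
  | succ k ih =>
    have := xx_step k _ (PP_nonneg k) ih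
    simp only [PP, eval_mul, eval_add, eval_pow, eval_C]
    refine le_trans (le_of_eq ?_) this
    ring

variable {R : Type*} [NormedRing R] [NormedAlgebra ℂ R] [NormOneClass R]

lemma iter_small (k : ℕ) (E : R) (h : ‖E‖ ≤ xx k) : ‖3 * E ^ 2 - 2 * E ^ 3‖ ≤ xx (k + 1) := by
  refine le_trans ?_ (xx_step k _ (norm_nonneg E) h)
  have h3 : ‖(3 : R)‖ ≤ 3 := by
    have := Nat.norm_cast_le (α := R) 3
    simpa using this
  have h2 : ‖(2 : R)‖ ≤ 2 := by
    have := Nat.norm_cast_le (α := R) 2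
    simpa using this
  have e1 : ‖E ^ 2‖ ≤ ‖E‖ ^ 2 := norm_pow_le E 2
  have e2 : ‖E ^ 3‖ ≤ ‖E‖ ^ 3 := norm_pow_le E 3
  calc ‖3 * E ^ 2 - 2 * E ^ 3‖ ≤ ‖3 * E ^ 2‖ + ‖2 * E ^ 3‖ := norm_sub_le _ _
    _ ≤ 3 * ‖E‖ ^ 2 + 2 * ‖E‖ ^ 3 := add_le_add
        ((norm_mul_le _ _).trans (mul_le_mul h3 e1 (norm_nonneg _) (by norm_num)))
        ((norm_mul_le _ _).trans (mul_le_mul h2 e2 (norm_nonneg _) (by norm_num)))
    _ = _ := by ring

end Pool.Agent.H145R3.CV
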