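import Mathlib
import Pool.Agent.H145R3.CV1

set_option autoImplicit false

open scoped InnerProductSpace
open Filter Topology Polynomial ContinuousLinearMap

namespace Pool.Agent.H145R3.CV

variable {H : Type*} [NormedAddCommGroup H] [InnerProductSpace ℂ H] [CompleteSpace H]

/-- Data of a unilateral shift with its cyclic vector. -/
structure Shift (b : ℕ → H) (S : H →L[ℂ] H) : Prop where
  bn : ∀ i j, ⟪b i, b j⟫_ℂ = if i = j then 1 else 0
  sb : ∀ k, S (b k) = b (k + 1)
  iso : ∀ x y, ⟪S x, S y⟫_ℂ = ⟪x, y⟫_ℂ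
  orth : ∀ x, ⟪b 0, S x⟫_ℂ = 0
  dense : Dense (Submodule.span ℂ (Set.range b) : Set H)

/-- The operator. -/
noncomputable def TT (S : H →L[ℂ] H) : H →L[ℂ] H := (10 * Complex.I) • (1 : H →L[ℂ] H) + S

variable {b : ℕ → H} {S : H →L[ℂ] H}

lemma S_norm (hS : Shift b S) : ‖S‖ ≤ 1 := by
  refine opNorm_le_bound _ zero_le_one (fun x => ?_)
  have h := hS.iso x x
  have h1 := inner_self_eq_norm_sq_to_K (𝕜 := ℂ) (S x)
  have h2 := inner_self_eq_norm_sq_to_K (𝕜 := ℂ) x
  rw [h, h2] at h1
  have h3 : ‖x‖ ^ 2 = ‖S x‖ ^ 2 := by exact_mod_cast h1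
  have h4 := (pow_left_inj₀ (norm_nonneg _) (norm_nonneg _) two_ne_zero).1 h3
  rw [h4, one_mul]

lemma smul_one_norm (c : ℂ) : ‖c • (1 : H →L[ℂ] H)‖ ≤ ‖c‖ := by
  rw [norm_smul]; exact mul_le_of_le_one_right (norm_nonneg _) norm_id_le

lemma TT_norm (hS : Shift b S) : ‖TT S‖ ≤ 11 := by
  unfold TT
  refine (norm_add_le _ _).trans ?_
  have h1 := smul_one_norm (H := H) (10 * Complex.I)
  have h2 := S_norm hS
  have h3 : ‖(10 * Complex.I : ℂ)‖ = 10 := by simp
  linarith

lemma sq_norm (hS : Shift b S) : ‖TT S ^ 2 + (100 : ℂ) • (1 : H →L[ℂ] H)‖ ≤ 21 := by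
  have e : TT S ^ 2 + (100 : ℂ) • (1 : H →L[ℂ] H) = S * ((20 * Complex.I) • (1 : H →L[ℂ] H) + S) := by
    unfold TT
    rw [pow_two]
    simp only [add_mul, mul_add, smul_mul_assoc, mul_smul_comm, one_mul, mul_one, smul_add]
    rw [smul_smul]
    have : (10 * Complex.I * (10 * Complex.I) : ℂ) = -100 := by ring_nf; rw [Complex.I_sq]; ring
    rw [this]
    have h20 : (20 * Complex.I : ℂ) = 10 * Complex.I + 10 * Complex.I := by ring
    rw [h20, add_smul, neg_smul]
    abel
  rw [e]
  refine (norm_mul_le _ _).trans ?_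
  have h1 := smul_one_norm (H := H) (20 * Complex.I)
  have h2 := S_norm hS
  have h3 : ‖(20 * Complex.I : ℂ)‖ = 20 := by simp
  have h4 : ‖(20 * Complex.I) • (1 : H →L[ℂ] H) + S‖ ≤ 21 := (norm_add_le _ _).trans (by linarith)
  nlinarith [norm_nonneg S, norm_nonneg ((20 * Complex.I) • (1 : H →L[ℂ] H) + S)]

lemma ee_norm (hS : Shift b S) (k : ℕ) : ‖1 - aeval (TT S) (ee k)‖ ≤ xx k ∧ ‖aeval (TT S) (gg k)‖ ≤ xx k := by
  have hnt : Nontrivial H := by
    refine ⟨b 0, 0, fun h => ?_⟩
    have := hS.bn 0 0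
    rw [h] at this
    simp at this
  have hSn := S_norm hS
  have hTn := TT_norm hS
  induction k with
  | zero =>
    constructor
    · have e : 1 - aeval (TT S) (ee 0) = (1 / 200 : ℂ) • (S * ((30 * Complex.I) • (1 : H →L[ℂ] H) + S)) := by
        simp only [ee, map_mul, map_add, map_pow, aeval_C, aeval_X, Algebra.algebraMap_eq_smul_one, pow_one, smul_mul_assoc, one_mul]
        unfold TT
        rw [pow_two]
        simp only [add_mul, mul_add, smul_mul_assoc, mul_smul_comm, one_mul, mul_one, smul_add, smul_smul]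
        have h1 : (1 : H →L[ℂ] H) = (1 : ℂ) • (1 : H →L[ℂ] H) := by rw [one_smul]
        have h2 : S = (1 : ℂ) • S := by rw [one_smul]
        have h3 : (10 * Complex.I * (10 * Complex.I) : ℂ) = -100 := by ring_nf; rw [Complex.I_sq]; ring
        match_scalars
        · ring_nf; rw [Complex.I_sq]; ring
        · ring
        · ring
      rw [e, norm_smul]
      have h1 := smul_one_norm (H := H) (30 * Complex.I)
      have h3 : ‖(30 * Complex.I : ℂ)‖ = 30 := by simp
      have h4 : ‖(30 * Complex.I) • (1 : H →L[ℂ] H) + S‖ ≤ 31 := (norm_add_le _ _).trans (by linarith)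
      have h5 : ‖S * ((30 * Complex.I) • (1 : H →L[ℂ] H) + S)‖ ≤ 31 := by
        refine (norm_mul_le _ _).trans ?_
        nlinarith [norm_nonneg S, norm_nonneg ((30 * Complex.I) • (1 : H →L[ℂ] H) + S)]
      have h6 : ‖(1 / 200 : ℂ)‖ = 1 / 200 := by norm_num
      rw [h6]
      unfold xx
      linarith
    · have e : aeval (TT S) (gg 0) = (-1 / 200 : ℂ) • (TT S * S) := by
        simp only [gg, map_mul, map_add, map_pow, aeval_C, aeval_X, Algebra.algebraMap_eq_smul_one, pow_one, smul_mul_assoc, one_mul]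
        unfold TT
        rw [pow_two]
        simp only [add_mul, mul_add, smul_mul_assoc, mul_smul_comm, one_mul, mul_one, smul_add, smul_smul]
        match_scalars
        · ring
        · ring
        · ring
      rw [e, norm_smul]
      have h5 : ‖TT S * S‖ ≤ 11 := by
        refine (norm_mul_le _ _).trans ?_
        nlinarith [norm_nonneg S, norm_nonneg (TT S)]
      have h6 : ‖(-1 / 200 : ℂ)‖ = 1 / 200 := by norm_num
      rw [h6]
      unfold xx
      linarith
  | succ k ih =>
    constructor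
    · have h := iter_small k _ ih.1
      have e : 1 - aeval (TT S) (ee (k + 1)) = 3 * (1 - aeval (TT S) (ee k)) ^ 2 - 2 * (1 - aeval (TT S) (ee k)) ^ 3 := by
        simp only [ee, map_mul, map_add, map_pow, aeval_C]
        have h3 : (algebraMap ℂ (H →L[ℂ] H)) 3 = 3 := map_ofNat _ 3
        have h2 : (algebraMap ℂ (H →L[ℂ] H)) (-2) = -2 := by rw [map_neg, map_ofNat]
        rw [h3, h2]
        generalize (aeval (TT S)) (ee k) = E
        noncomm_ring
      rw [e]
      exact h
    · have h := iter_small k _ ih.2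
      have e : aeval (TT S) (gg (k + 1)) = 3 * (aeval (TT S) (gg k)) ^ 2 - 2 * (aeval (TT S) (gg k)) ^ 3 := by
        simp only [gg, map_mul, map_add, map_pow, aeval_C]
        have h3 : (algebraMap ℂ (H →L[ℂ] H)) 3 = 3 := map_ofNat _ 3
        have h2 : (algebraMap ℂ (H →L[ℂ] H)) (-2) = -2 := by rw [map_neg, map_ofNat]
        rw [h3, h2]
        noncomm_ring
      rw [e]
      exact h

end Pool.Agent.H145R3.CV
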