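import Mathlib

set_option autoImplicit false

open scoped InnerProductSpace
open Filter Topology

namespace Pool.Agent.H145R3.NO

variable {H : Type*} [NormedAddCommGroup H] [InnerProductSpace ℂ H] [CompleteSpace H]

/-- Row isometries. -/
structure Cuntz (N : ℕ) (S : Fin N → (H →L[ℂ] H)) : Prop where
  ort : ∀ i j, star (S i) * S j = if i = j then 1 else 0
  tot : ∑ j, S j * star (S j) = 1

lemma inner_star (A : H →L[ℂ] H) (x y : H) : ⟪A x, y⟫_ℂ = ⟪x, (star A) y⟫_ℂ := by
  rw [ContinuousLinearMap.star_eq_adjoint, ContinuousLinearMap.adjoint_inner_right]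

lemma pyth {N : ℕ} {S : Fin N → (H →L[ℂ] H)} (hS : Cuntz N S) (y : Fin N → H) :
    ‖∑ j, S j (y j)‖ ^ 2 = ∑ j, ‖y j‖ ^ 2 := by
  have h : ⟪∑ j, S j (y j), ∑ j, S j (y j)⟫_ℂ = ∑ j, ⟪y j, y j⟫_ℂ := by
    rw [sum_inner]
    refine Finset.sum_congr rfl (fun i _ => ?_)
    rw [inner_sum, Finset.sum_eq_single i]
    · rw [inner_star, ← mul_apply_eq_comp, hS.ort, if_pos rfl]; rfl
    · intro j _ hj
      rw [inner_star, ← mul_apply_eq_comp, hS.ort, if_neg (Ne.symm hj)]
      simp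
    · intro h; exact absurd (Finset.mem_univ i) h
  have h2 : ((‖∑ j, S j (y j)‖ ^ 2 : ℝ) : ℂ) = ((∑ j, ‖y j‖ ^ 2 : ℝ) : ℂ) := by
    push_cast
    have e := inner_self_eq_norm_sq_to_K (𝕜 := ℂ) (∑ j, S j (y j))
    rw [h] at e
    refine e.symm.trans ?_
    refine Finset.sum_congr rfl (fun i _ => ?_)
    exact inner_self_eq_norm_sq_to_K (𝕜 := ℂ) (y i)
  exact_mod_cast h2

lemma decomp {N : ℕ} {S : Fin N → (H →L[ℂ] H)} (hS : Cuntz N S) (x : H) :
    ∑ j, S j ((star (S j)) x) = x := by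
  have := congrArg (fun A : H →L[ℂ] H => A x) hS.tot
  simpa [sum_apply] using this

lemma pyth' {N : ℕ} {S : Fin N → (H →L[ℂ] H)} (hS : Cuntz N S) (x : H) :
    ∑ j, ‖(star (S j)) x‖ ^ 2 = ‖x‖ ^ 2 := by
  rw [← pyth hS, decomp hS]

/-- Ampliation. -/
noncomputable def amp {N : ℕ} (S : Fin N → (H →L[ℂ] H)) (A : H →L[ℂ] H) : H →L[ℂ] H :=
  ∑ j, S j * A * star (S j)

lemma amp_one {N : ℕ} {S : Fin N → (H →L[ℂ] H)} (hS : Cuntz N S) : amp S 1 = 1 := by
  simp [amp, hS.tot]

lemma amp_smul {N : ℕ} {S : Fin N → (H →L[ℂ] H)} (c : ℂ) (A : H →L[ℂ] H) :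
    amp S (c • A) = c • amp S A := by
  simp [amp, Finset.smul_sum]

lemma amp_mul {N : ℕ} {S : Fin N → (H →L[ℂ] H)} (hS : Cuntz N S) (A B : H →L[ℂ] H) :
    amp S (A * B) = amp S A * amp S B := by
  unfold amp
  rw [Finset.sum_mul]
  refine Finset.sum_congr rfl (fun i _ => ?_)
  rw [Finset.mul_sum, Finset.sum_eq_single i]
  · rw [show S i * A * star (S i) * (S i * B * star (S i)) = S i * A * (star (S i) * S i) * B * star (S i) by
      simp only [mul_assoc], hS.ort, if_pos rfl]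
    simp only [mul_assoc, mul_one, one_mul]
  · intro j _ hj
    rw [show S i * A * star (S i) * (S j * B * star (S j)) = S i * A * (star (S i) * S j) * B * star (S j) by
      simp only [mul_assoc], hS.ort, if_neg (Ne.symm hj)]
    simp
  · intro h; exact absurd (Finset.mem_univ i) h

lemma amp_pow {N : ℕ} {S : Fin N → (H →L[ℂ] H)} (hS : Cuntz N S) (A : H →L[ℂ] H) (m : ℕ) :
    amp S (A ^ m) = (amp S A) ^ m := by
  induction m with
  | zero => simp [amp_one hS]
  | succ m ih => rw [pow_succ, amp_mul hS, ih, pow_succ]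

lemma amp_norm {N : ℕ} {S : Fin N → (H →L[ℂ] H)} (hS : Cuntz N S) (A : H →L[ℂ] H) :
    ‖amp S A‖ ≤ ‖A‖ := by
  refine ContinuousLinearMap.opNorm_le_bound _ (norm_nonneg _) (fun x => ?_)
  have h1 : amp S A x = ∑ j, S j (A ((star (S j)) x)) := by
    simp [amp]
  rw [← abs_of_nonneg (norm_nonneg (amp S A x)), ← abs_of_nonneg (mul_nonneg (norm_nonneg A) (norm_nonneg x))]
  apply sq_le_sq.1
  rw [h1, pyth hS, mul_pow, ← pyth' hS, Finset.mul_sum]
  refine Finset.sum_le_sum (fun j _ => ?_)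
  rw [← mul_pow]
  exact pow_le_pow_left₀ (norm_nonneg _) (A.le_opNorm _) 2

/-- Weighted cyclic shift. -/
noncomputable def sh {N : ℕ} [NeZero N] (S : Fin N → (H →L[ℂ] H)) (v : Fin N → ℂ) : H →L[ℂ] H :=
  ∑ j, v j • (S (j + 1) * star (S j))

lemma sh_norm {N : ℕ} [NeZero N] {S : Fin N → (H →L[ℂ] H)} (hS : Cuntz N S) (v : Fin N → ℂ) (ρ : ℝ)
    (hρ : 0 ≤ ρ) (hv : ∀ j, ‖v j‖ ≤ ρ) :
    ‖sh S v‖ ≤ ρ := by
  refine ContinuousLinearMap.opNorm_le_bound _ hρ (fun x => ?_)
  have h1 : sh S v x = ∑ j, S j (v (j - 1) • (star (S (j - 1))) x) := by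
    have : sh S v x = ∑ j, S (j + 1) (v j • (star (S j)) x) := by
      simp [sh]
    rw [this]
    rw [← Equiv.sum_comp (Equiv.addRight (1 : Fin N)) (fun j => S j (v (j - 1) • (star (S (j - 1))) x))]
    simp
  rw [← abs_of_nonneg (norm_nonneg (sh S v x)), ← abs_of_nonneg (mul_nonneg hρ (norm_nonneg x))]
  apply sq_le_sq.1
  rw [h1, pyth hS, mul_pow, ← pyth' hS, Finset.mul_sum]
  rw [← Equiv.sum_comp (Equiv.subRight (1 : Fin N)) (fun j => ρ ^ 2 * ‖(star (S j)) x‖ ^ 2)]
  refine Finset.sum_le_sum (fun j _ => ?_)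
  rw [← mul_pow, norm_smul]
  simp only [Equiv.subRight_apply]
  exact pow_le_pow_left₀ (by positivity) (mul_le_mul_of_nonneg_right (hv _) (norm_nonneg _)) 2

lemma sh_comm {N : ℕ} [NeZero N] {S : Fin N → (H →L[ℂ] H)} (hS : Cuntz N S) (v : Fin N → ℂ)
    (A : H →L[ℂ] H) : sh S v * amp S A = amp S A * sh S v := by
  have h1 : sh S v * amp S A = ∑ j, v j • (S (j + 1) * A * star (S j)) := by
    unfold sh amp
    rw [Finset.sum_mul]
    refine Finset.sum_congr rfl (fun i _ => ?_)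
    rw [Finset.mul_sum, Finset.sum_eq_single i]
    · rw [smul_mul_assoc, show S (i + 1) * star (S i) * (S i * A * star (S i)) =
        S (i + 1) * (star (S i) * S i) * A * star (S i) by simp only [mul_assoc], hS.ort, if_pos rfl]
      simp only [mul_one]
    · intro j _ hj
      rw [smul_mul_assoc, show S (i + 1) * star (S i) * (S j * A * star (S j)) =
        S (i + 1) * (star (S i) * S j) * A * star (S j) by simp only [mul_assoc], hS.ort, if_neg (Ne.symm hj)]
      simp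
    · intro h; exact absurd (Finset.mem_univ i) h
  have h2 : amp S A * sh S v = ∑ j, v j • (S (j + 1) * A * star (S j)) := by
    unfold sh amp
    rw [Finset.mul_sum]
    refine Finset.sum_congr rfl (fun i _ => ?_)
    rw [Finset.sum_mul, Finset.sum_eq_single (i + 1)]
    · rw [mul_smul_comm, show S (i + 1) * A * star (S (i + 1)) * (S (i + 1) * star (S i)) =
        S (i + 1) * A * (star (S (i + 1)) * S (i + 1)) * star (S i) by simp only [mul_assoc],
        hS.ort, if_pos rfl]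
      simp only [mul_one]
    · intro j _ hj
      rw [mul_smul_comm, show S j * A * star (S j) * (S (i + 1) * star (S i)) =
        S j * A * (star (S j) * S (i + 1)) * star (S i) by simp only [mul_assoc],
        hS.ort, if_neg hj]
      simp
    · intro h; exact absurd (Finset.mem_univ _) h
  rw [h1, h2]

lemma ofNat_succ' (N : ℕ) [NeZero N] (m : ℕ) : Fin.ofNat N (m + 1) = Fin.ofNat N m + 1 := by
  apply Fin.ext
  simp [Fin.ofNat, Fin.add_def, Nat.add_mod]

lemma sh_pow {N : ℕ} [NeZero N] {S : Fin N → (H →L[ℂ] H)} (hS : Cuntz N S) (v : Fin N → ℂ) (m : ℕ) :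
    (sh S v) ^ m = ∑ j : Fin N, (∏ i ∈ Finset.range m, v (j + Fin.ofNat N i)) •
      (S (j + Fin.ofNat N m) * star (S j)) := by
  induction m with
  | zero => 
    have : Fin.ofNat N 0 = 0 := by apply Fin.ext; simp [Fin.ofNat]
    simp [hS.tot, this]
  | succ m ih =>
    rw [pow_succ', ih, Finset.mul_sum]
    refine Finset.sum_congr rfl (fun i _ => ?_)
    unfold sh
    rw [Finset.sum_mul, Finset.sum_eq_single (i + Fin.ofNat N m)]
    · rw [mul_smul_comm, smul_mul_assoc, show S (i + Fin.ofNat N m + 1) * star (S (i + Fin.ofNat N m)) * (S (i + Fin.ofNat N m) * star (S i)) =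
        S (i + Fin.ofNat N m + 1) * (star (S (i + Fin.ofNat N m)) * S (i + Fin.ofNat N m)) * star (S i) by simp only [mul_assoc],
        hS.ort, if_pos rfl, Finset.prod_range_succ, smul_smul, mul_one, ofNat_succ', add_assoc]
    · intro j _ hj
      rw [mul_smul_comm, smul_mul_assoc, show S (j + 1) * star (S j) * (S (i + Fin.ofNat N m) * star (S i)) =
        S (j + 1) * (star (S j) * S (i + Fin.ofNat N m)) * star (S i) by simp only [mul_assoc],
        hS.ort, if_neg hj]
      simp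
    · intro h; exact absurd (Finset.mem_univ _) h

lemma sh_pow_N {N : ℕ} [NeZero N] {S : Fin N → (H →L[ℂ] H)} (hS : Cuntz N S) (v : Fin N → ℂ) :
    (sh S v) ^ N = (∏ j, v j) • (1 : H →L[ℂ] H) := by
  rw [sh_pow hS, ← hS.tot, Finset.smul_sum]
  refine Finset.sum_congr rfl (fun j _ => ?_)
  have h1 : ∏ i ∈ Finset.range N, v (j + Fin.ofNat N i) = ∏ j, v j := by
    rw [← Fin.prod_univ_eq_prod_range (fun i => v (j + Fin.ofNat N i)) N]
    rw [← Equiv.prod_comp (Equiv.addLeft j) v]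
    refine Finset.prod_congr rfl (fun i _ => ?_)
    simp
  rw [h1]
  have : Fin.ofNat N N = 0 := by apply Fin.ext; simp [Fin.ofNat]
  simp [this]

end Pool.Agent.H145R3.NO
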