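import Mathlib

set_option autoImplicit false

open Filter Topology

namespace Pool.Agent.H145R3.NO

/-- size constant -/
noncomputable def mm (w : ℂ) : ℝ := max 1 (max ‖w‖ ‖w‖⁻¹)

noncomputable def RR (w : ℂ) : ℝ := 4 * mm w ^ 2

lemma mm_one (w : ℂ) : 1 ≤ mm w := le_max_left _ _
lemma mm_a (w : ℂ) : ‖w‖ ≤ mm w := le_trans (le_max_left _ _) (le_max_right _ _)
lemma mm_b (w : ℂ) : ‖w‖⁻¹ ≤ mm w := le_trans (le_max_right _ _) (le_max_right _ _)
lemma RR_one (w : ℂ) : 1 ≤ RR w := by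
  unfold RR; nlinarith [mm_one w]

lemma weights (n : ℕ) (hn : 1 ≤ n) (w w' : ℂ) (hw : w ≠ 0) (hw' : w' ≠ 0) (ε : ℝ) (hε : 0 < ε)
    (N₀ : ℕ) : ∃ s : ℕ, N₀ ≤ s ∧ 1 ≤ s ∧ ∃ v b : Fin (2 * s * n) → ℂ, 
      (∀ j, ‖v j‖ ≤ Real.exp (Real.log (RR w) / n)) ∧ (∏ j, v j = w' / w ^ (2 * s)) ∧
      (∑ j, ‖b j‖ ^ 2 = 1) ∧ (∀ h : NeZero (2 * s * n), ∃ j₀ : Fin (2 * s * n),
        (∀ j ≠ j₀, v j * b j = b (j + 1)) ∧ ‖v j₀ * b j₀ - b (j₀ + 1)‖ ≤ ε) := by
  -- choose s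
  obtain ⟨s, hs0, hs1, hsε, hsw⟩ : ∃ s : ℕ, N₀ ≤ s ∧ 1 ≤ s ∧
      (‖w'‖ + 1 + ‖w'‖⁻¹ ≤ ε * 4 ^ s) ∧ (‖w'‖ + 1 + ‖w'‖⁻¹ ≤ 4 ^ s) := by
    have h1 : Tendsto (fun s : ℕ => ε * (4 : ℝ) ^ s) atTop atTop :=
      Tendsto.const_mul_atTop hε (tendsto_pow_atTop_atTop_of_one_lt (by norm_num))
    have h2 : Tendsto (fun s : ℕ => (4 : ℝ) ^ s) atTop atTop :=
      (tendsto_pow_atTop_atTop_of_one_lt (by norm_num))
    obtain ⟨s, h⟩ := ((eventually_ge_atTop N₀).and ((eventually_ge_atTop 1).and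
      ((h1.eventually_ge_atTop (‖w'‖ + 1 + ‖w'‖⁻¹)).and (h2.eventually_ge_atTop (‖w'‖ + 1 + ‖w'‖⁻¹))))).exists
    exact ⟨s, h.1, h.2.1, h.2.2.1, h.2.2.2⟩
  have hnw : 0 < ‖w‖ := norm_pos_iff.2 hw
  have hnw' : 0 < ‖w'‖ := norm_pos_iff.2 hw'
  have hm1 := mm_one w
  have hma := mm_a w
  have hmb := mm_b w
  refine ⟨s, hs0, hs1, ?_⟩
  set N : ℕ := 2 * s * n with hN
  set ρ : ℝ := Real.exp (Real.log (RR w) / n) with hρdef
  set p : ℂ := w' / w ^ (2 * s) with hp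
  have hρ0 : 0 < ρ := Real.exp_pos _
  have hRR0 : 0 < RR w := lt_of_lt_of_le one_pos (RR_one w)
  have hnR : (n : ℝ) ≠ 0 := by positivity
  have hρn : ρ ^ n = RR w := by
    rw [hρdef, ← Real.exp_nat_mul, mul_div_cancel₀ _ hnR, Real.exp_log hRR0]
  have hρsn : ρ ^ (s * n) = 4 ^ s * (mm w) ^ (2 * s) := by
    rw [mul_comm, pow_mul, hρn, RR, mul_pow, ← pow_mul]
  have hρN : ρ ^ N = (4 ^ s * (mm w) ^ (2 * s)) * (4 ^ s * (mm w) ^ (2 * s)) := by
    rw [← hρsn, ← pow_add]; congr 1; rw [hN]; ring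
  have hp0 : 0 < ‖p‖ := norm_pos_iff.2 (div_ne_zero hw' (pow_ne_zero _ hw))
  have hpne : p ≠ 0 := norm_pos_iff.1 hp0
  have hpa : ‖p‖ ≤ ‖w'‖ * (mm w) ^ (2 * s) := by
    rw [hp, norm_div, div_eq_mul_inv, norm_pow, ← inv_pow]
    exact mul_le_mul_of_nonneg_left (pow_le_pow_left₀ (by positivity) hmb _) hnw'.le
  have hpb : ‖p‖⁻¹ ≤ ‖w'‖⁻¹ * (mm w) ^ (2 * s) := by
    rw [hp, norm_div, inv_div, div_eq_mul_inv, norm_pow, mul_comm]
    exact mul_le_mul_of_nonneg_left (pow_le_pow_left₀ (by positivity) hma _) (by positivity)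
  have hM1 : 1 ≤ (mm w) ^ (2 * s) := one_le_pow₀ hm1
  have h41 : (1 : ℝ) ≤ 4 ^ s := one_le_pow₀ (by norm_num)
  have hwi : 0 < ‖w'‖⁻¹ := by positivity
  -- basic inequalities
  have e1 : ‖p‖ ≤ ρ ^ N := by
    rw [hρN]
    calc ‖p‖ ≤ ‖w'‖ * (mm w) ^ (2 * s) := hpa
      _ ≤ 4 ^ s * (mm w) ^ (2 * s) := mul_le_mul_of_nonneg_right (by linarith) (by positivity)
      _ ≤ _ := le_mul_of_one_le_left (by positivity) (by nlinarith)
  have e2 : 1 ≤ ‖p‖ * ρ ^ N := by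
    have : ‖p‖⁻¹ ≤ ρ ^ N := by
      rw [hρN]
      calc ‖p‖⁻¹ ≤ ‖w'‖⁻¹ * (mm w) ^ (2 * s) := hpb
        _ ≤ 4 ^ s * (mm w) ^ (2 * s) := mul_le_mul_of_nonneg_right (by linarith) (by positivity)
        _ ≤ _ := le_mul_of_one_le_left (by positivity) (by nlinarith)
    calc (1 : ℝ) = ‖p‖ * ‖p‖⁻¹ := by rw [mul_inv_cancel₀ hp0.ne']
      _ ≤ _ := mul_le_mul_of_nonneg_left this hp0.le
  have e3 : ‖p‖ + 1 ≤ ε * ρ ^ (s * n) := by
    rw [hρsn]
    calc ‖p‖ + 1 ≤ (‖w'‖ + 1) * (mm w) ^ (2 * s) := by nlinarith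
      _ ≤ (ε * 4 ^ s) * (mm w) ^ (2 * s) := mul_le_mul_of_nonneg_right (by linarith) (by positivity)
      _ = _ := by ring
  have e4 : ‖p‖ + 1 ≤ ε * (‖p‖ * ρ ^ (s * n)) := by
    have : 1 + ‖p‖⁻¹ ≤ ε * ρ ^ (s * n) := by
      rw [hρsn]
      calc 1 + ‖p‖⁻¹ ≤ (1 + ‖w'‖⁻¹) * (mm w) ^ (2 * s) := by nlinarith
        _ ≤ (ε * 4 ^ s) * (mm w) ^ (2 * s) := mul_le_mul_of_nonneg_right (by linarith) (by positivity)
        _ = _ := by ring
    calc ‖p‖ + 1 = ‖p‖ * (1 + ‖p‖⁻¹) := by field_simp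
      _ ≤ ‖p‖ * (ε * ρ ^ (s * n)) := mul_le_mul_of_nonneg_left this hp0.le
      _ = _ := by ring
  have hρ1 : 1 ≤ ρ := by
    rw [hρdef]; apply Real.one_le_exp; exact div_nonneg (Real.log_nonneg (RR_one w)) (by positivity)
  have hNpos : 0 < N := by rw [hN]; positivity
  -- weights
  let a : ℕ → ℝ := fun j => min (ρ ^ j) (‖p‖ * ρ ^ (N - j))
  have ha0 : a 0 = 1 := by simp only [a, pow_zero, Nat.sub_zero]; exact min_eq_left e2
  have haN : a N = ‖p‖ := by simp only [a, Nat.sub_self, pow_zero, mul_one]; exact min_eq_right e1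
  have hapos : ∀ j, 0 < a j := fun j => lt_min (by positivity) (by positivity)
  have hastep : ∀ j, j < N → a (j + 1) ≤ ρ * a j := by
    intro j hj
    simp only [a]
    rw [mul_min_of_nonneg _ _ hρ0.le]
    refine min_le_min ?_ ?_
    · rw [pow_succ']
    · have : ρ ^ (N - j) = ρ * ρ ^ (N - (j + 1)) := by rw [← pow_succ']; congr 1; omega
      rw [this]
      have h0 : 0 < ‖p‖ * ρ ^ (N - (j + 1)) := by positivity
      calc ‖p‖ * ρ ^ (N - (j + 1)) ≤ (ρ * ρ) * (‖p‖ * ρ ^ (N - (j + 1))) :=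
            le_mul_of_one_le_left h0.le (by nlinarith)
        _ = _ := by ring
  have hamid : ‖p‖ + 1 ≤ ε * a (s * n) := by
    simp only [a]
    have : N - s * n = s * n := by
      have : N = s * n + s * n := by rw [hN]; ring
      omega
    rw [this, mul_min_of_nonneg _ _ hε.le]
    exact le_min e3 e4
  set L : ℝ := Real.sqrt (∑ j : Fin N, a j ^ 2) with hL
  have hLa : ∀ j, j < N → a j ≤ L := by
    intro j hj
    rw [hL]
    apply Real.le_sqrt_of_sq_le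
    exact Finset.single_le_sum (f := fun j : Fin N => a j ^ 2) (fun i _ => by positivity) (Finset.mem_univ (⟨j, hj⟩ : Fin N))
  have hL0 : 0 < L := lt_of_lt_of_le (hapos 0) (hLa 0 hNpos)
  have hLsq : L ^ 2 = ∑ j : Fin N, a j ^ 2 := by
    rw [hL, Real.sq_sqrt]; exact Finset.sum_nonneg (fun i _ => by positivity)
  have hsnN : s * n < N := by rw [hN]; nlinarith [Nat.mul_pos hs1 hn]
  refine ⟨fun j => (if (j : ℕ) + 1 = N then p / (‖p‖ : ℂ) else 1) * ((a (j + 1) / a j : ℝ) : ℂ),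
    fun j => ((a j / L : ℝ) : ℂ), ?_, ?_, ?_, ?_⟩
  · intro j
    have h1 : ‖(if (j : ℕ) + 1 = N then p / (‖p‖ : ℂ) else 1)‖ = 1 := by
      split_ifs
      · rw [norm_div, Complex.norm_real, norm_norm, div_self hp0.ne']
      · simp
    rw [norm_mul, h1, one_mul, Complex.norm_real, Real.norm_of_nonneg (div_nonneg (hapos _).le (hapos _).le),
      div_le_iff₀ (hapos _)]
    exact hastep j j.2
  · have h1 : ∏ j : Fin N, (if (j : ℕ) + 1 = N then p / (‖p‖ : ℂ) else 1) = p / (‖p‖ : ℂ) := by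
      rw [Finset.prod_eq_single (⟨N - 1, by omega⟩ : Fin N)]
      · rw [if_pos]; simp only; omega
      · intro j _ hj
        rw [if_neg]
        intro h
        apply hj
        apply Fin.ext
        simp only
        omega
      · intro h; exact absurd (Finset.mem_univ _) h
    have h2 : ∏ j : Fin N, ((a (j + 1) / a j : ℝ) : ℂ) = ((‖p‖ : ℝ) : ℂ) := by
      rw [← Complex.ofReal_prod]
      congr 1
      have htel : ∀ m : ℕ, ∏ i ∈ Finset.range m, (a (i + 1) / a i) = a m / a 0 := by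
        intro m
        induction m with
        | zero => simp [(hapos 0).ne']
        | succ m ih =>
          rw [Finset.prod_range_succ, ih]
          have h1 := (hapos m).ne'
          have h2 := (hapos 0).ne'
          field_simp
      rw [Fin.prod_univ_eq_prod_range (fun j => a (j + 1) / a j) N, htel, haN, ha0, div_one]
    rw [Finset.prod_mul_distrib, h1, h2]
    have : ((‖p‖ : ℝ) : ℂ) ≠ 0 := by exact_mod_cast hp0.ne'
    field_simp
  · have : ∀ j : Fin N, ‖((a j / L : ℝ) : ℂ)‖ ^ 2 = a j ^ 2 / L ^ 2 := by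
      intro j
      rw [Complex.norm_real, Real.norm_eq_abs, sq_abs, div_pow]
    simp only [this]
    rw [← Finset.sum_div, ← hLsq, div_self (by positivity)]
  · intro hNZ
    refine ⟨⟨N - 1, by omega⟩, ?_, ?_⟩
    · intro j hj
      have hj' : (j : ℕ) + 1 ≠ N := by
        intro h
        apply hj
        apply Fin.ext
        simp only
        omega
      have hj2 : (j : ℕ) + 1 < N := lt_of_le_of_ne j.2 hj'
      have hv : ((j + 1 : Fin N) : ℕ) = (j : ℕ) + 1 := by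
        rw [Fin.val_add, Fin.val_one', Nat.mod_eq_of_lt (a := 1) (by omega), Nat.mod_eq_of_lt hj2]
      simp only [if_neg hj', one_mul, hv]
      rw [← Complex.ofReal_mul]
      congr 1
      have := (hapos j).ne'
      field_simp
    · have hv : (((⟨N - 1, by omega⟩ : Fin N) + 1 : Fin N) : ℕ) = 0 := by
        rw [Fin.val_add, Fin.val_one']
        simp only [Nat.add_mod_mod]
        rw [show N - 1 + 1 = N by omega, Nat.mod_self]
      simp only [hv]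
      rw [show N - 1 + 1 = N by omega, if_pos rfl, haN, ha0]
      have hne : ((‖p‖ : ℝ) : ℂ) ≠ 0 := by exact_mod_cast hp0.ne'
      have hLne : ((L : ℝ) : ℂ) ≠ 0 := by exact_mod_cast hL0.ne'
      have hane : ((a (N - 1) : ℝ) : ℂ) ≠ 0 := by exact_mod_cast (hapos _).ne'
      have : p / (‖p‖ : ℂ) * ((‖p‖ / a (N - 1) : ℝ) : ℂ) * ((a (N - 1) / L : ℝ) : ℂ) - ((1 / L : ℝ) : ℂ) = (p - 1) / L := by
        push_cast
        field_simp
      rw [this, norm_div, Complex.norm_real, Real.norm_of_nonneg hL0.le, div_le_iff₀ hL0]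
      calc ‖p - 1‖ ≤ ‖p‖ + 1 := by
            have := norm_sub_le p 1
            simpa using this
        _ ≤ ε * a (s * n) := hamid
        _ ≤ ε * L := mul_le_mul_of_nonneg_left (hLa _ hsnN) hε.le

end Pool.Agent.H145R3.NO
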