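import Mathlib
import Pool.Agent.H145R3.NO1
import Pool.Agent.H145R3.NO2

set_option autoImplicit false

open scoped InnerProductSpace
open Filter Topology ContinuousLinearMap

namespace Pool.Agent.H145R3.NO

variable {H : Type*} [NormedAddCommGroup H] [InnerProductSpace ℂ H] [CompleteSpace H]

lemma unitary_ext (ι : H →ₗᵢ[ℂ] H) (F : Submodule ℂ H) [FiniteDimensional ℂ F] :
    ∃ W : H →L[ℂ] H, star W * W = 1 ∧ W * star W = 1 ∧ ∀ h ∈ F, (star W) h = ι h := by
  let V : Submodule ℂ H := F ⊔ F.map ι.toLinearMap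
  have : FiniteDimensional ℂ V := by infer_instance
  have hFV : F ≤ V := le_sup_left
  have hιV : ∀ h ∈ F, ι h ∈ V := fun h hh => (le_sup_right : F.map ι.toLinearMap ≤ V) ⟨h, hh, rfl⟩
  let S : Submodule ℂ V := F.comap V.subtype
  let L : S →ₗᵢ[ℂ] V :=
    { toFun := fun s => ⟨ι s.1.1, hιV _ s.2⟩
      map_add' := by intro a b; apply Subtype.ext; simp
      map_smul' := by intro c a; apply Subtype.ext; simp
      norm_map' := by intro a; simp }
  let e : V ≃ₗᵢ[ℂ] V := L.extend.toLinearIsometryEquiv rfl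
  have he : ∀ s : S, e s = L s := by
    intro s
    simp only [e, LinearIsometry.toLinearIsometryEquiv_apply]
    exact LinearIsometry.extend_apply L s
  let E : V →L[ℂ] H := V.subtypeL
  have hEE : adjoint E ∘L E = 1 := by
    rw [← norm_map_iff_adjoint_comp_self]; intro x; rfl
  let eC : V →L[ℂ] V := (e : V →L[ℂ] V)
  have he1 : adjoint eC ∘L eC = 1 := by
    rw [← norm_map_iff_adjoint_comp_self]; intro x; exact e.norm_map x
  have he2 : eC ∘L adjoint eC = 1 := by
    have : adjoint eC = (e.symm : V →L[ℂ] V) := e.adjoint_eq_symm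
    rw [this]; ext x; simp [eC]
  let U : H →L[ℂ] H := E ∘L eC ∘L adjoint E + (1 - E ∘L adjoint E)
  have hU : star U = E ∘L adjoint eC ∘L adjoint E + (1 - E ∘L adjoint E) := by
    simp only [U, star_add, star_sub, star_eq_adjoint, adjoint_comp, adjoint_adjoint, adjoint_one]
    rfl
  have q : ∀ x : H, (adjoint E) x - (adjoint E) (E ((adjoint E) x)) = 0 := by
    intro x
    have := congrArg (fun A : V →L[ℂ] V => A ((adjoint E) x)) hEE
    simp only [comp_apply, one_apply_eq_self] at this
    rw [this]; simp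
  have hEE' : ∀ y : V, (adjoint E) (E y) = y := fun y => congrArg (fun A : V →L[ℂ] V => A y) hEE
  have he1' : ∀ y : V, (adjoint eC) (eC y) = y := fun y => congrArg (fun A : V →L[ℂ] V => A y) he1
  have he2' : ∀ y : V, eC ((adjoint eC) y) = y := fun y => congrArg (fun A : V →L[ℂ] V => A y) he2
  have hU1 : star U * U = 1 := by
    rw [hU]
    ext x
    simp only [U, mul_apply_eq_comp, comp_apply, add_apply, sub_apply, one_apply_eq_self, map_add, map_sub, hEE', he1']
    abel
  have hU2 : U * star U = 1 := by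
    rw [hU]
    ext x
    simp only [U, mul_apply_eq_comp, comp_apply, add_apply, sub_apply, one_apply_eq_self, map_add, map_sub, hEE', he2']
    abel
  refine ⟨star U, ?_, ?_, ?_⟩
  · rw [star_star]; exact hU2
  · rw [star_star]; exact hU1
  · intro h hh
    rw [star_star]
    have h1 : h = E ⟨h, hFV hh⟩ := rfl
    have h2 : (adjoint E) h = ⟨h, hFV hh⟩ := hEE' ⟨h, hFV hh⟩
    simp only [U, comp_apply, add_apply, sub_apply, one_apply_eq_self, h2]
    have h3 : eC ⟨h, hFV hh⟩ = ⟨ι h, hιV h hh⟩ := he ⟨⟨h, hFV hh⟩, hh⟩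
    rw [h3]
    simp [E]

end Pool.Agent.H145R3.NO
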