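import Mathlib
import Pool.Agent.H145R3.NO3

set_option autoImplicit false

open scoped InnerProductSpace
open Filter Topology ContinuousLinearMap

namespace Pool.Agent.H145R3.NO

variable {H : Type*} [NormedAddCommGroup H] [InnerProductSpace ℂ H] [CompleteSpace H]

lemma clm_ext (b : HilbertBasis ℕ ℂ H) (A B : H →L[ℂ] H) (h : ∀ k, A (b k) = B (b k)) : A = B := by
  apply ContinuousLinearMap.ext_on (s := Set.range b)
  · have := b.dense_span
    rw [← Submodule.dense_iff_topologicalClosure_eq_top] at this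
    exact this
  · rintro _ ⟨k, rfl⟩
    exact h k

lemma vec_ext (b : HilbertBasis ℕ ℂ H) (x y : H) (h : ∀ k, ⟪b k, x⟫_ℂ = ⟪b k, y⟫_ℂ) : x = y := by
  apply b.repr.injective
  ext k
  rw [b.repr_apply_apply, b.repr_apply_apply]
  exact h k

lemma cuntz_exists (b : HilbertBasis ℕ ℂ H) (N : ℕ) [NeZero N] :
    ∃ S : Fin N → (H →L[ℂ] H), Cuntz N S := by
  have hN : 0 < N := Nat.pos_of_ne_zero (NeZero.ne N)
  have hinj : ∀ j : Fin N, Function.Injective (fun k : ℕ => N * k + (j : ℕ)) := by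
    intro j k l h
    simp only at h
    have : N * k = N * l := by omega
    exact Nat.eq_of_mul_eq_mul_left hN this
  have key : ∀ (i j : Fin N) (k l : ℕ), N * k + (i : ℕ) = N * l + (j : ℕ) ↔ (i = j ∧ k = l) := by
    intro i j k l
    constructor
    · intro h
      have h1 : (N * k + (i : ℕ)) % N = (N * l + (j : ℕ)) % N := by rw [h]
      rw [Nat.mul_add_mod, Nat.mul_add_mod, Nat.mod_eq_of_lt i.2, Nat.mod_eq_of_lt j.2] at h1
      refine ⟨Fin.ext h1, ?_⟩
      have : N * k = N * l := by omega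
      exact Nat.eq_of_mul_eq_mul_left hN this
    · rintro ⟨rfl, rfl⟩; rfl
  let S : Fin N → (H →L[ℂ] H) := fun j =>
    (((b.orthonormal.comp (fun k : ℕ => N * k + (j : ℕ)) (hinj j)).orthogonalFamily.linearIsometry).comp
      b.repr.toLinearIsometry).toContinuousLinearMap
  have hS : ∀ j k, S j (b k) = b (N * k + (j : ℕ)) := by
    intro j k
    change ((b.orthonormal.comp (fun k : ℕ => N * k + (j : ℕ)) (hinj j)).orthogonalFamily.linearIsometry) (b.repr (b k)) = _
    rw [b.repr_self, OrthogonalFamily.linearIsometry_apply_single]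
    simp
  have hSs : ∀ (i j : Fin N) (k : ℕ), (star (S i)) (b (N * k + (j : ℕ))) = if i = j then b k else 0 := by
    intro i j k
    apply vec_ext b
    intro l
    rw [← inner_star, hS]
    have ho := orthonormal_iff_ite.1 b.orthonormal
    rw [ho]
    by_cases hij : i = j
    · rw [if_pos hij, ho]
      by_cases hkl : l = k
      · rw [if_pos ((key _ _ _ _).2 ⟨hij, hkl⟩), if_pos hkl]
      · rw [if_neg, if_neg hkl]
        intro h
        exact hkl ((key _ _ _ _).1 h).2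
    · rw [if_neg hij, if_neg, inner_zero_right]
      intro h
      exact hij ((key _ _ _ _).1 h).1
  refine ⟨S, ?_, ?_⟩
  · intro i j
    apply clm_ext b
    intro k
    rw [mul_apply_eq_comp, hS, hSs]
    split_ifs <;> simp
  · apply clm_ext b
    intro m
    obtain ⟨k, j, rfl⟩ : ∃ (k : ℕ) (j : Fin N), m = N * k + (j : ℕ) :=
      ⟨m / N, ⟨m % N, Nat.mod_lt _ hN⟩, (Nat.div_add_mod m N).symm⟩
    rw [sum_apply, Finset.sum_eq_single j]
    · rw [mul_apply_eq_comp, hSs, if_pos rfl, hS]; simp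
    · intro i _ hi
      rw [mul_apply_eq_comp, hSs, if_neg hi]; simp
    · intro h; exact absurd (Finset.mem_univ _) h

/-- One step of the construction. -/
lemma stage (b : HilbertBasis ℕ ℂ H) (A : H →L[ℂ] H) (n : ℕ) (hn : 1 ≤ n) (w w' : ℂ) (hw : w ≠ 0)
    (hw' : w' ≠ 0) (hA : A ^ n = w • (1 : H →L[ℂ] H)) (ε : ℝ) (hε : 0 < ε) (N₀ K : ℕ) :
    ∃ (N : ℕ) (B : H →L[ℂ] H), N₀ ≤ N ∧ 1 ≤ N ∧ B ^ N = w' • (1 : H →L[ℂ] H) ∧
      (∀ m : ℕ, ‖B ^ m‖ ≤ Real.exp (m * (Real.log (RR w) / n)) * ‖A ^ m‖) ∧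
      (∀ i ≤ K, ∀ m ≤ n, ‖(B ^ m) (b i) - (A ^ m) (b i)‖ ≤ ε) := by
  -- the finite-dimensional space
  set ρ : ℝ := Real.exp (Real.log (RR w) / n) with hρ
  have hρ0 : 0 < ρ := Real.exp_pos _
  have hρ1 : 1 ≤ ρ := by
    rw [hρ]; apply Real.one_le_exp; exact div_nonneg (Real.log_nonneg (RR_one w)) (by positivity)
  set C : ℝ := (‖A‖ + 1) ^ n * (n * ρ ^ n) with hC
  have hC0 : 0 < C := by
    have : 0 < (n : ℝ) := by exact_mod_cast hn
    positivity
  obtain ⟨s, hs0, hs1, v, β, hv, hprod, hβ, hj⟩ := weights n hn w w' hw hw' (ε / C) (by positivity) N₀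
  have hN1 : 1 ≤ 2 * s * n := by
    have := Nat.mul_pos hs1 hn
    nlinarith
  have : NeZero (2 * s * n) := ⟨by omega⟩
  obtain ⟨j₀, hj1, hj2⟩ := hj inferInstance
  obtain ⟨S, hS⟩ := cuntz_exists b (2 * s * n)
  let F : Submodule ℂ H := Submodule.span ℂ (Set.range (fun q : Fin (K + 1) × Fin (n + 1) => (A ^ (q.2 : ℕ)) (b (q.1 : ℕ))))
  have : FiniteDimensional ℂ F := FiniteDimensional.span_of_finite ℂ (Set.finite_range _)
  let ι : H →ₗᵢ[ℂ] H :=
    { toLinearMap := ((∑ j, β j • S j : H →L[ℂ] H) : H →ₗ[ℂ] H)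
      norm_map' := by
        intro x
        have h1 : ((∑ j, β j • S j : H →L[ℂ] H) : H →ₗ[ℂ] H) x = ∑ j, S j (β j • x) := by
          simp [sum_apply]
        rw [h1]
        have h2 := pyth hS (fun j => β j • x)
        have h3 : ∑ j, ‖β j • x‖ ^ 2 = ‖x‖ ^ 2 := by
          simp only [norm_smul, mul_pow]
          rw [← Finset.sum_mul, hβ, one_mul]
        rw [h3] at h2
        exact (pow_left_inj₀ (norm_nonneg _) (norm_nonneg _) two_ne_zero).1 h2 }
  have hι : ∀ x, ι x = ∑ j, S j (β j • x) := by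
    intro x
    change ((∑ j, β j • S j : H →L[ℂ] H) : H →ₗ[ℂ] H) x = _
    simp [sum_apply]
  obtain ⟨W, hW1, hW2, hW3⟩ := unitary_ext ι F
  have hWn : ∀ x, ‖W x‖ = ‖x‖ := by
    intro x
    have := (norm_map_iff_adjoint_comp_self W).2 hW1
    exact this x
  have hWs : ∀ x, ‖(star W) x‖ = ‖x‖ := by
    intro x
    have := (norm_map_iff_adjoint_comp_self (star W)).2 (by rw [← star_eq_adjoint, star_star]; exact hW2)
    exact this x
  -- S j star
  have hSS : ∀ i j x, (star (S i)) (S j x) = if i = j then x else 0 := by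
    intro i j x
    have := congrArg (fun T : H →L[ℂ] H => T x) (hS.ort i j)
    simp only [mul_apply_eq_comp] at this
    rw [this]; split_ifs <;> simp
  -- amp and iota
  have hampι : ∀ (T : H →L[ℂ] H) x, amp S T (ι x) = ι (T x) := by
    intro T x
    rw [hι, hι]
    simp only [amp, sum_apply, mul_apply_eq_comp, map_sum, hSS]
    refine Finset.sum_congr rfl (fun i _ => ?_)
    rw [Finset.sum_eq_single i]
    · simp
    · intro j _ hj; rw [if_neg hj]; simp
    · intro h; exact absurd (Finset.mem_univ _) h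
  -- shift and iota
  have hshι : ∀ x, ‖sh S v (ι x) - ι x‖ ≤ ε / C * ‖x‖ := by
    intro x
    have e1 : sh S v (ι x) = ∑ j, S (j + 1) ((v j * β j) • x) := by
      rw [hι]
      simp only [sh, sum_apply, smul_apply, mul_apply_eq_comp, map_sum, hSS]
      refine Finset.sum_congr rfl (fun i _ => ?_)
      rw [Finset.sum_eq_single i]
      · simp [smul_smul]
      · intro j _ hj; rw [if_neg hj]; simp
      · intro h; exact absurd (Finset.mem_univ _) h
    have e2 : ι x = ∑ j, S (j + 1) (β (j + 1) • x) := by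
      rw [hι, ← Equiv.sum_comp (Equiv.addRight (1 : Fin (2 * s * n))) (fun j => S j (β j • x))]
      simp
    have e3 : sh S v (ι x) - ι x = S (j₀ + 1) ((v j₀ * β j₀ - β (j₀ + 1)) • x) := by
      rw [e1, e2, ← Finset.sum_sub_distrib, Finset.sum_eq_single j₀]
      · rw [← map_sub, ← sub_smul]
      · intro j _ hj
        rw [hj1 j hj, sub_self]
      · intro h; exact absurd (Finset.mem_univ _) h
    have e4 : ∀ j x, ‖S j x‖ = ‖x‖ := by
      intro j x
      have := (norm_map_iff_adjoint_comp_self (S j)).2 (by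
        have := hS.ort j j
        rw [if_pos rfl] at this
        exact this)
      exact this x
    rw [e3, e4, norm_smul]
    exact mul_le_mul_of_nonneg_right hj2 (norm_nonneg _)
  have hVn : ‖sh S v‖ ≤ ρ := sh_norm hS v ρ hρ0.le hv
  have hshpow : ∀ (m : ℕ) x, ‖((sh S v) ^ m) (ι x) - ι x‖ ≤ (m * ρ ^ m) * (ε / C * ‖x‖) := by
    intro m x
    induction m with
    | zero => simp
    | succ m ih =>
      have e1 : ((sh S v) ^ (m + 1)) (ι x) - ι x = (sh S v) (((sh S v) ^ m) (ι x) - ι x) + (sh S v (ι x) - ι x) := by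
        rw [pow_succ', mul_apply_eq_comp, map_sub]; abel
      rw [e1]
      have hq : 0 ≤ ε / C * ‖x‖ := by positivity
      calc ‖(sh S v) (((sh S v) ^ m) (ι x) - ι x) + (sh S v (ι x) - ι x)‖
          ≤ ‖(sh S v) (((sh S v) ^ m) (ι x) - ι x)‖ + ‖sh S v (ι x) - ι x‖ := norm_add_le _ _
        _ ≤ ρ * ((m * ρ ^ m) * (ε / C * ‖x‖)) + ε / C * ‖x‖ := by
            refine add_le_add ?_ (hshι x)
            refine ((sh S v).le_opNorm _).trans ?_
            exact mul_le_mul hVn ih (norm_nonneg _) hρ0.le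
        _ ≤ ρ * ((m * ρ ^ m) * (ε / C * ‖x‖)) + ρ ^ (m + 1) * (ε / C * ‖x‖) := by
            have : 1 ≤ ρ ^ (m + 1) := one_le_pow₀ hρ1
            nlinarith
        _ = _ := by push_cast; ring
  let B : H →L[ℂ] H := W * (amp S A * sh S v) * star W
  have hBpow : ∀ m, B ^ m = W * (amp S (A ^ m) * (sh S v) ^ m) * star W := by
    intro m
    have hc : Commute (amp S A) (sh S v) := (sh_comm hS v A).symm
    induction m with
    | zero => simp [amp_one hS, hW2]
    | succ m ih =>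
      rw [pow_succ, ih]
      calc W * (amp S (A ^ m) * (sh S v) ^ m) * star W * (W * (amp S A * sh S v) * star W)
          = W * (amp S (A ^ m) * (sh S v) ^ m) * (star W * W) * (amp S A * sh S v) * star W := by
            simp only [mul_assoc]
        _ = W * ((amp S A) ^ m * (sh S v) ^ m * (amp S A * sh S v)) * star W := by
            rw [hW1, amp_pow hS]; simp only [mul_assoc, mul_one, one_mul]
        _ = W * (amp S (A ^ (m + 1)) * (sh S v) ^ (m + 1)) * star W := by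
            rw [amp_pow hS, ← hc.mul_pow, ← hc.mul_pow, pow_succ]
  refine ⟨2 * s * n, B, ?_, hN1, ?_, ?_, ?_⟩
  · have : s ≤ 2 * s * n := by nlinarith
    omega
  · rw [hBpow, sh_pow_N hS, hprod]
    have h1 : A ^ (2 * s * n) = (w ^ (2 * s)) • (1 : H →L[ℂ] H) := by
      rw [mul_comm (2 * s) n, pow_mul, hA, smul_pow, one_pow]
    rw [h1, amp_smul, amp_one hS]
    rw [mul_smul_comm, smul_mul_assoc, smul_smul, mul_one, mul_smul_comm, smul_mul_assoc, mul_one, hW2]
    congr 1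
    have : w ^ (2 * s) ≠ 0 := pow_ne_zero _ hw
    field_simp
  · intro m
    rw [hBpow]
    have h1 : ‖W‖ ≤ 1 := opNorm_le_bound _ zero_le_one (fun x => by rw [hWn, one_mul])
    have h2 : ‖star W‖ ≤ 1 := opNorm_le_bound _ zero_le_one (fun x => by rw [hWs, one_mul])
    have h3 : ‖(sh S v) ^ m‖ ≤ ρ ^ m := by
      rcases Nat.eq_zero_or_pos m with h0 | h0
      · subst h0
        rw [pow_zero, pow_zero]
        exact norm_id_le
      · exact (norm_pow_le' _ h0).trans (pow_le_pow_left₀ (norm_nonneg _) hVn m)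
    have h4 : ρ ^ m = Real.exp (m * (Real.log (RR w) / n)) := by
      rw [hρ, ← Real.exp_nat_mul]
    calc ‖W * (amp S (A ^ m) * (sh S v) ^ m) * star W‖ ≤ ‖W * (amp S (A ^ m) * (sh S v) ^ m)‖ * ‖star W‖ := norm_mul_le _ _
      _ ≤ ‖W * (amp S (A ^ m) * (sh S v) ^ m)‖ * 1 := mul_le_mul_of_nonneg_left h2 (norm_nonneg _)
      _ = ‖W * (amp S (A ^ m) * (sh S v) ^ m)‖ := mul_one _
      _ ≤ ‖W‖ * ‖amp S (A ^ m) * (sh S v) ^ m‖ := norm_mul_le _ _
      _ ≤ 1 * ‖amp S (A ^ m) * (sh S v) ^ m‖ := mul_le_mul_of_nonneg_right h1 (norm_nonneg _)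
      _ = ‖amp S (A ^ m) * (sh S v) ^ m‖ := one_mul _
      _ ≤ ‖amp S (A ^ m)‖ * ‖(sh S v) ^ m‖ := norm_mul_le _ _
      _ ≤ ‖A ^ m‖ * ρ ^ m := mul_le_mul (amp_norm hS _) h3 (norm_nonneg _) (norm_nonneg _)
      _ = _ := by rw [h4, mul_comm]
  · intro i hi m hm
    have hF : ∀ i ≤ K, ∀ m ≤ n, (A ^ m) (b i) ∈ F := by
      intro i hi m hm
      exact Submodule.subset_span ⟨(⟨i, by omega⟩, ⟨m, by omega⟩), rfl⟩
    have e0 : b i ∈ F := by simpa using hF i hi 0 (Nat.zero_le _)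
    have e1 : (A ^ m) (b i) = W (ι ((A ^ m) (b i))) := by
      rw [← hW3 _ (hF i hi m hm)]
      have := congrArg (fun T : H →L[ℂ] H => T ((A ^ m) (b i))) hW2
      simp only [mul_apply_eq_comp, one_apply_eq_self] at this
      exact this.symm
    have e2 : (B ^ m) (b i) = W (amp S (A ^ m) (((sh S v) ^ m) (ι (b i)))) := by
      rw [hBpow, ← hW3 _ e0]; rfl
    have e3 : (B ^ m) (b i) - (A ^ m) (b i) = W (amp S (A ^ m) (((sh S v) ^ m) (ι (b i)) - ι (b i))) := by
      rw [e2, map_sub, map_sub, hampι, ← e1]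
    rw [e3, hWn]
    have hbn : ‖b i‖ = 1 := b.orthonormal.1 i
    have hAm : ‖A ^ m‖ ≤ (‖A‖ + 1) ^ n := by
      rcases Nat.eq_zero_or_pos m with h0 | h0
      · subst h0
        rw [pow_zero]
        refine norm_id_le.trans (one_le_pow₀ (by linarith [norm_nonneg A]))
      · calc ‖A ^ m‖ ≤ ‖A‖ ^ m := norm_pow_le' _ h0
          _ ≤ (‖A‖ + 1) ^ m := pow_le_pow_left₀ (norm_nonneg _) (by linarith) m
          _ ≤ (‖A‖ + 1) ^ n := pow_le_pow_right₀ (by linarith [norm_nonneg A]) hm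
    calc ‖amp S (A ^ m) (((sh S v) ^ m) (ι (b i)) - ι (b i))‖ ≤ ‖amp S (A ^ m)‖ * ‖((sh S v) ^ m) (ι (b i)) - ι (b i)‖ := le_opNorm _ _
      _ ≤ (‖A‖ + 1) ^ n * ((m * ρ ^ m) * (ε / C * ‖b i‖)) :=
          mul_le_mul ((amp_norm hS _).trans hAm) (hshpow m _) (norm_nonneg _) (by positivity)
      _ ≤ (‖A‖ + 1) ^ n * ((n * ρ ^ n) * (ε / C * ‖b i‖)) := by
          have h1 : (m : ℝ) ≤ n := by exact_mod_cast hm
          have h2 : ρ ^ m ≤ ρ ^ n := pow_le_pow_right₀ hρ1 hm
          have h3 : (m : ℝ) * ρ ^ m ≤ n * ρ ^ n := mul_le_mul h1 h2 (by positivity) (by positivity)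
          have h4 : 0 ≤ ε / C * ‖b i‖ := by positivity
          exact mul_le_mul_of_nonneg_left (mul_le_mul_of_nonneg_right h3 h4) (by positivity)
      _ = C * (ε / C) := by rw [hbn, hC]; ring
      _ = ε := by field_simp

end Pool.Agent.H145R3.NO
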