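import Mathlib
import Pool.Agent.H145R3.CV3
import Pool.Agent.H145R3.NO4

set_option autoImplicit false

open scoped InnerProductSpace
open Filter Topology Polynomial ContinuousLinearMap

namespace Pool.Agent.H145R3.CV

variable {H : Type*} [NormedAddCommGroup H] [InnerProductSpace ℂ H] [CompleteSpace H]
variable {b : ℕ → H} {S : H →L[ℂ] H}

lemma S_isom (hS : Shift b S) (x : H) : ‖S x‖ = ‖x‖ := by
  have h := hS.iso x x
  have h1 := inner_self_eq_norm_sq_to_K (𝕜 := ℂ) (S x)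
  have h2 := inner_self_eq_norm_sq_to_K (𝕜 := ℂ) x
  rw [h, h2] at h1
  have h3 : ‖x‖ ^ 2 = ‖S x‖ ^ 2 := by exact_mod_cast h1
  exact ((pow_left_inj₀ (norm_nonneg _) (norm_nonneg _) two_ne_zero).1 h3).symm

lemma kernel_exists (hS : Shift b S) (ζ : ℂ) (hζ : ‖ζ‖ ≤ 1 / 2) :
    ∃ k : H, k = b 0 + (starRingEnd ℂ) ζ • S k := by
  have hc : ‖(starRingEnd ℂ) ζ • S‖ < 1 := by
    rw [norm_smul, RCLike.norm_conj]
    have := S_norm hS
    nlinarith [norm_nonneg S, norm_nonneg ζ]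
  refine ⟨(∑' n : ℕ, ((starRingEnd ℂ) ζ • S) ^ n) (b 0), ?_⟩
  have h := mul_neg_geom_series ((starRingEnd ℂ) ζ • S) hc
  have h1 := congrArg (fun A : H →L[ℂ] H => A (b 0)) h
  simp only [mul_apply_eq_comp, sub_apply, one_apply_eq_self, smul_apply] at h1
  rw [sub_eq_iff_eq_add] at h1
  exact h1

noncomputable def kk (hS : Shift b S) (ζ : ℂ) : H :=
  if h : ‖ζ‖ ≤ 1 / 2 then Classical.choose (kernel_exists hS ζ h) else 0

lemma kk_spec (hS : Shift b S) (ζ : ℂ) (h : ‖ζ‖ ≤ 1 / 2) :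
    kk hS ζ = b 0 + (starRingEnd ℂ) ζ • S (kk hS ζ) := by
  unfold kk
  rw [dif_pos h]
  exact Classical.choose_spec (kernel_exists hS ζ h)

lemma b_norm (hS : Shift b S) (j : ℕ) : ‖b j‖ = 1 := by
  have h := hS.bn j j
  rw [if_pos rfl] at h
  have h1 := inner_self_eq_norm_sq_to_K (𝕜 := ℂ) (b j)
  rw [h] at h1
  have h2 : ((1 : ℝ) : ℂ) = ((‖b j‖ ^ 2 : ℝ) : ℂ) := by push_cast; exact h1
  have h3 : (1 : ℝ) = ‖b j‖ ^ 2 := Complex.ofReal_injective h2
  nlinarith [norm_nonneg (b j)]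

lemma kk_norm (hS : Shift b S) (ζ : ℂ) (h : ‖ζ‖ ≤ 1 / 2) : ‖kk hS ζ‖ ≤ 2 := by
  have e := congrArg norm (kk_spec hS ζ h)
  have h1 : ‖b 0 + (starRingEnd ℂ) ζ • S (kk hS ζ)‖ ≤ 1 + 1 / 2 * ‖kk hS ζ‖ := by
    refine (norm_add_le _ _).trans (add_le_add (b_norm hS 0).le ?_)
    rw [norm_smul, RCLike.norm_conj, S_isom hS]
    exact mul_le_mul_of_nonneg_right h (norm_nonneg _)
  rw [← e] at h1
  linarith

lemma kk_lip (hS : Shift b S) (ζ η : ℂ) (h : ‖ζ‖ ≤ 1 / 2) (h' : ‖η‖ ≤ 1 / 2) :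
    ‖kk hS ζ - kk hS η‖ ≤ 4 * ‖ζ - η‖ := by
  have e : kk hS ζ - kk hS η = (starRingEnd ℂ) ζ • S (kk hS ζ - kk hS η) + (starRingEnd ℂ) (ζ - η) • S (kk hS η) := by
    conv_lhs => rw [kk_spec hS ζ h, kk_spec hS η h']
    rw [map_sub, map_sub, smul_sub, sub_smul]
    abel
  have h1 : ‖kk hS ζ - kk hS η‖ ≤ 1 / 2 * ‖kk hS ζ - kk hS η‖ + ‖ζ - η‖ * 2 := by
    conv_lhs => rw [e]
    refine (norm_add_le _ _).trans (add_le_add ?_ ?_)
    · rw [norm_smul, RCLike.norm_conj, S_isom hS]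
      exact mul_le_mul_of_nonneg_right h (norm_nonneg _)
    · rw [norm_smul, RCLike.norm_conj, S_isom hS]
      exact mul_le_mul_of_nonneg_left (kk_norm hS η h') (norm_nonneg _)
  linarith

lemma kk_S (hS : Shift b S) (ζ : ℂ) (h : ‖ζ‖ ≤ 1 / 2) (x : H) :
    ⟪kk hS ζ, S x⟫_ℂ = ζ * ⟪kk hS ζ, x⟫_ℂ := by
  conv_lhs => rw [kk_spec hS ζ h]
  rw [inner_add_left, hS.orth, inner_smul_left, hS.iso, zero_add]
  simp

lemma kk_b0 (hS : Shift b S) (ζ : ℂ) (h : ‖ζ‖ ≤ 1 / 2) : ⟪kk hS ζ, b 0⟫_ℂ = 1 := by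
  rw [kk_spec hS ζ h, inner_add_left, hS.bn, if_pos rfl, inner_smul_left, ← inner_conj_symm, hS.orth]
  simp

lemma kk_b1 (hS : Shift b S) (ζ : ℂ) (h : ‖ζ‖ ≤ 1 / 2) : ⟪kk hS ζ, b 1⟫_ℂ = ζ := by
  have : b 1 = S (b 0) := by rw [hS.sb]
  rw [this, kk_S hS ζ h, kk_b0 hS ζ h, mul_one]

/-- Near the second basis vector some evaluation vanishes. -/
lemma exists_zero (hS : Shift b S) (v : H) (hv : ‖v - b 1‖ ≤ 1 / 8) :
    ∃ ζ : ℂ, ‖ζ‖ ≤ 1 / 2 ∧ ⟪kk hS ζ, v⟫_ℂ = 0 := by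
  set u := v - b 1 with hu
  let g : ℂ → ℂ := fun ζ => -⟪kk hS ζ, u⟫_ℂ
  have hmaps : Set.MapsTo g (Metric.closedBall 0 (1 / 2)) (Metric.closedBall 0 (1 / 2)) := by
    intro ζ hζ
    rw [mem_closedBall_zero_iff] at hζ ⊢
    simp only [g, norm_neg]
    refine (norm_inner_le_norm _ _).trans ?_
    nlinarith [kk_norm hS ζ hζ, norm_nonneg u, norm_nonneg (kk hS ζ)]
  have hlip : ContractingWith (1 / 2 : NNReal) (hmaps.restrict g _ _) := by
    refine ⟨by norm_num, ?_⟩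
    apply LipschitzWith.of_dist_le_mul
    rintro ⟨ζ, hζ⟩ ⟨η, hη⟩
    rw [mem_closedBall_zero_iff] at hζ hη
    change dist (g ζ) (g η) ≤ _ * dist ζ η
    simp only [g]
    rw [dist_neg_neg, dist_eq_norm, dist_eq_norm, ← inner_sub_left]
    refine (norm_inner_le_norm _ _).trans ?_
    have h1 := kk_lip hS ζ η hζ hη
    have h2 : ((1 / 2 : NNReal) : ℝ) = 1 / 2 := by norm_num
    rw [h2]
    nlinarith [norm_nonneg u, norm_nonneg (kk hS ζ - kk hS η), norm_nonneg (ζ - η)]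
  obtain ⟨ζ, hζ, hfix, -, -⟩ := ContractingWith.exists_fixedPoint' (s := Metric.closedBall (0 : ℂ) (1 / 2))
    (Metric.isClosed_closedBall.isComplete) hmaps hlip (x := 0) (by simp) (edist_ne_top _ _)
  rw [mem_closedBall_zero_iff] at hζ
  refine ⟨ζ, hζ, ?_⟩
  have e : v = b 1 + u := by rw [hu]; abel
  have hfix' : -⟪kk hS ζ, u⟫_ℂ = ζ := hfix
  rw [e, inner_add_right, kk_b1 hS ζ hζ]
  have : ⟪kk hS ζ, u⟫_ℂ = -ζ := neg_eq_iff_eq_neg.1 hfix'
  rw [this]; ring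

lemma not_cc (hS : Shift b S) (v : H) (hv : ‖v - b 1‖ ≤ 1 / 8) :
    ¬ Dense (convexHull ℝ (Set.range (fun n : ℕ => (TT S ^ n) v))) := by
  obtain ⟨ζ, hζ, h0⟩ := exists_zero hS v hv
  intro hd
  have h1 : ∀ n : ℕ, ⟪kk hS ζ, (TT S ^ n) v⟫_ℂ = 0 := by
    intro n
    induction n with
    | zero => simpa using h0
    | succ n ih =>
      rw [pow_succ', mul_apply_eq_comp]
      simp only [TT, add_apply, smul_apply, one_apply_eq_self]
      rw [inner_add_right, inner_smul_right, kk_S hS ζ hζ]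
      have : ⟪kk hS ζ, (TT S ^ n) v⟫_ℂ = 0 := ih
      unfold TT at this
      rw [this]; simp
  have h2 : convexHull ℝ (Set.range (fun n : ℕ => (TT S ^ n) v)) ⊆ {x | ⟪kk hS ζ, x⟫_ℂ = 0} := by
    apply convexHull_min
    · rintro _ ⟨n, rfl⟩; exact h1 n
    · intro x hx y hy s t _ _ _
      simp only [Set.mem_setOf_eq] at hx hy ⊢
      have e1 : (s : ℝ) • x = ((s : ℝ) : ℂ) • x := rfl
      have e2 : (t : ℝ) • y = ((t : ℝ) : ℂ) • y := rfl
      rw [e1, e2, inner_add_right, inner_smul_right, inner_smul_right, hx, hy]; simp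
  have h3 : IsClosed {x | ⟪kk hS ζ, x⟫_ℂ = 0} := isClosed_eq (by fun_prop) continuous_const
  have h4 := (hd.mono h2).closure_eq
  rw [h3.closure_eq] at h4
  have h5 : b 0 ∈ {x | ⟪kk hS ζ, x⟫_ℂ = 0} := by rw [h4]; trivial
  have h6 := kk_b0 hS ζ hζ
  rw [Set.mem_setOf_eq] at h5
  rw [h5] at h6
  exact zero_ne_one h6

lemma shift_exists (b : HilbertBasis ℕ ℂ H) : ∃ S : H →L[ℂ] H, Shift b S := by
  have hinj : Function.Injective (fun k : ℕ => k + 1) := fun k l h => by simpa using h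
  let S' : H →ₗᵢ[ℂ] H := ((b.orthonormal.comp (fun k : ℕ => k + 1) hinj).orthogonalFamily.linearIsometry).comp
      b.repr.toLinearIsometry
  have hsb : ∀ k, S' (b k) = b (k + 1) := by
    intro k
    change ((b.orthonormal.comp (fun k : ℕ => k + 1) hinj).orthogonalFamily.linearIsometry) (b.repr (b k)) = _
    rw [b.repr_self, OrthogonalFamily.linearIsometry_apply_single]
    simp
  have hd : Dense (Submodule.span ℂ (Set.range b) : Set H) := by
    have := b.dense_span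
    rw [← Submodule.dense_iff_topologicalClosure_eq_top] at this
    exact this
  refine ⟨S'.toContinuousLinearMap, ?_, hsb, ?_, ?_, hd⟩
  · intro i j
    exact orthonormal_iff_ite.1 b.orthonormal i j
  · intro x y
    exact S'.inner_map_map x y
  · have h1 : (innerSL ℂ (b 0)) ∘L S'.toContinuousLinearMap = 0 := by
      apply ContinuousLinearMap.ext_on hd
      rintro _ ⟨k, rfl⟩
      have := orthonormal_iff_ite.1 b.orthonormal 0 (k + 1)
      simp only [comp_apply, innerSL_apply_apply]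
      change ⟪b 0, S' (b k)⟫_ℂ = _
      rw [hsb, this]
      simp
    intro x
    have := congrArg (fun A : H →L[ℂ] ℂ => A x) h1
    simpa using this

end Pool.Agent.H145R3.CV
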