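import Mathlib
import Pool.Agent.H145R3.NO4

set_option autoImplicit false

open scoped InnerProductSpace
open Filter Topology ContinuousLinearMap

namespace Pool.Agent.H145R3.NO

variable {H : Type*} [NormedAddCommGroup H] [InnerProductSpace ℂ H] [CompleteSpace H]

lemma dens (b : HilbertBasis ℕ ℂ H) {ι : Type*} (l : Filter ι) (D : ι → (H →L[ℂ] H)) (C : ℝ)
    (hC : ∀ᶠ k in l, ‖D k‖ ≤ C) (hb : ∀ i, Tendsto (fun k => D k (b i)) l (𝓝 0)) (x : H) :
    Tendsto (fun k => D k x) l (𝓝 0) := by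
  let P : Submodule ℂ H :=
    { carrier := {x | Tendsto (fun k => D k x) l (𝓝 0)}
      add_mem' := by
        intro x y hx hy
        have := Tendsto.add hx hy
        simpa using this
      zero_mem' := by
        simp only [Set.mem_setOf_eq, map_zero]
        exact tendsto_const_nhds
      smul_mem' := by
        intro c x hx
        have := Tendsto.const_smul hx c
        simpa using this }
  have hP : Submodule.span ℂ (Set.range b) ≤ P := by
    rw [Submodule.span_le]
    rintro _ ⟨i, rfl⟩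
    exact hb i
  have hd : Dense (Submodule.span ℂ (Set.range b) : Set H) := by
    have := b.dense_span
    rw [← Submodule.dense_iff_topologicalClosure_eq_top] at this
    exact this
  rw [Metric.tendsto_nhds]
  intro ε hε
  obtain ⟨y, hy, hxy⟩ := Metric.dense_iff.1 hd x (ε / (2 * (|C| + 1))) (by positivity)
  have hyP : Tendsto (fun k => D k y) l (𝓝 0) := hP hxy
  rw [Metric.tendsto_nhds] at hyP
  filter_upwards [hC, hyP (ε / 2) (by positivity)] with k h1 h2
  rw [dist_zero_right] at h2 ⊢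
  rw [Metric.mem_ball, dist_comm, dist_eq_norm] at hy
  have e : D k x = D k (x - y) + D k y := by rw [← map_add]; congr 1; abel
  rw [e]
  have h3 : ‖D k (x - y)‖ ≤ |C| * ‖x - y‖ :=
    ((D k).le_opNorm _).trans (mul_le_mul_of_nonneg_right (h1.trans (le_abs_self C)) (norm_nonneg _))
  have h4 : |C| * ‖x - y‖ ≤ (|C| + 1) * (ε / (2 * (|C| + 1))) :=
    mul_le_mul (by linarith) hy.le (norm_nonneg _) (by positivity)
  have h5 : (|C| + 1) * (ε / (2 * (|C| + 1))) = ε / 2 := by
    have : |C| + 1 ≠ 0 := by positivity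
    field_simp
  calc ‖D k (x - y) + D k y‖ ≤ ‖D k (x - y)‖ + ‖D k y‖ := norm_add_le _ _
    _ < ε := by linarith

theorem main_aux (b : HilbertBasis ℕ ℂ H) (w : ℕ → ℂ) (hw : ∀ k, w k ≠ 0) :
    ∃ (T : H →L[ℂ] H) (n : ℕ → ℕ), ∀ c : ℂ, ∀ x : H,
      Tendsto (fun k => (T ^ (n k)) x - c • x) (atTop ⊓ 𝓟 {k | w k = c}) (𝓝 0) := by
  have step : ∀ (k : ℕ) (σ : {p : ℕ × (H →L[ℂ] H) // 1 ≤ p.1 ∧ p.2 ^ p.1 = w k • (1 : H →L[ℂ] H)}),
      ∃ σ' : {p : ℕ × (H →L[ℂ] H) // 1 ≤ p.1 ∧ p.2 ^ p.1 = w (k + 1) • (1 : H →L[ℂ] H)},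
        σ.1.1 ≤ σ'.1.1 ∧ 2 ^ (k + 1) * (Real.log (RR (w (k + 1)))) * σ.1.1 ≤ σ'.1.1 ∧
        (∀ m : ℕ, ‖σ'.1.2 ^ m‖ ≤ Real.exp (m * (Real.log (RR (w k)) / σ.1.1)) * ‖σ.1.2 ^ m‖) ∧
        (∀ i ≤ k, ∀ m ≤ σ.1.1, ‖(σ'.1.2 ^ m) (b i) - (σ.1.2 ^ m) (b i)‖ ≤ (1 / 2) ^ k) := by
    intro k σ
    obtain ⟨N, B, h1, h2, h3, h4, h5⟩ := stage b σ.1.2 σ.1.1 σ.2.1 (w k) (w (k + 1)) (hw k) (hw (k + 1)) σ.2.2
      ((1 / 2) ^ k) (by positivity) (σ.1.1 + ⌈2 ^ (k + 1) * (Real.log (RR (w (k + 1)))) * σ.1.1⌉₊) k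
    refine ⟨⟨(N, B), h2, h3⟩, ?_, ?_, h4, h5⟩
    · simp only; omega
    · simp only
      have e1 := Nat.le_ceil (2 ^ (k + 1) * (Real.log (RR (w (k + 1)))) * (σ.1.1 : ℝ))
      refine e1.trans ?_
      exact_mod_cast (by omega : ⌈2 ^ (k + 1) * (Real.log (RR (w (k + 1)))) * (σ.1.1 : ℝ)⌉₊ ≤ N)
  choose f hf using step
  let σ : (k : ℕ) → {p : ℕ × (H →L[ℂ] H) // 1 ≤ p.1 ∧ p.2 ^ p.1 = w k • (1 : H →L[ℂ] H)} :=
    fun k => Nat.rec ⟨(1, w 0 • (1 : H →L[ℂ] H)), le_refl 1, pow_one _⟩ (fun k s => f k s) k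
  have hσ : ∀ k, σ (k + 1) = f k (σ k) := fun k => rfl
  let n : ℕ → ℕ := fun k => (σ k).1.1
  let A : ℕ → (H →L[ℂ] H) := fun k => (σ k).1.2
  have hn1 : ∀ k, 1 ≤ n k := fun k => (σ k).2.1
  have hAn : ∀ k, A k ^ n k = w k • (1 : H →L[ℂ] H) := fun k => (σ k).2.2
  have ha : ∀ k, n k ≤ n (k + 1) := fun k => by have := (hf k (σ k)).1; exact this
  have hb : ∀ k, 2 ^ (k + 1) * (Real.log (RR (w (k + 1)))) * n k ≤ n (k + 1) := fun k => (hf k (σ k)).2.1
  have hc : ∀ k (m : ℕ), ‖A (k + 1) ^ m‖ ≤ Real.exp (m * (Real.log (RR (w k)) / n k)) * ‖A k ^ m‖ :=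
    fun k => (hf k (σ k)).2.2.1
  have hd : ∀ k, ∀ i ≤ k, ∀ m ≤ n k, ‖(A (k + 1) ^ m) (b i) - (A k ^ m) (b i)‖ ≤ (1 / 2) ^ k :=
    fun k => (hf k (σ k)).2.2.2
  clear_value n A
  have hmono : Monotone n := monotone_nat_of_le_succ ha
  let r : ℕ → ℝ := fun k => Real.log (RR (w k)) / n k
  have hlog : ∀ k, 0 ≤ Real.log (RR (w k)) := fun k => Real.log_nonneg (RR_one _)
  have hr0 : ∀ k, 0 ≤ r k := fun k => div_nonneg (hlog k) (by positivity)
  have hc' : ∀ k l (m : ℕ), k ≤ l → ‖A l ^ m‖ ≤ Real.exp (m * ∑ i ∈ Finset.Ico k l, r i) * ‖A k ^ m‖ := by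
    intro k l m hkl
    induction l, hkl using Nat.le_induction with
    | base => simp
    | succ l hkl ih =>
      rw [Finset.sum_Ico_succ_top hkl, mul_add, Real.exp_add, mul_comm (Real.exp _) (Real.exp _), mul_assoc]
      exact (hc l m).trans (mul_le_mul_of_nonneg_left ih (Real.exp_pos _).le)
  have hsum : ∀ k l, k ≤ l → (n k : ℝ) * ∑ i ∈ Finset.Ico k l, r i ≤ Real.log (RR (w k)) + 2 := by
    intro k l hkl
    have hnk : (0 : ℝ) < n k := by exact_mod_cast hn1 k
    rcases Nat.eq_or_lt_of_le hkl with h | h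
    · subst h; simp only [Finset.Ico_self, Finset.sum_empty, mul_zero]; linarith [hlog k]
    · rw [Finset.sum_eq_sum_Ico_succ_bot h, mul_add]
      have h1 : (n k : ℝ) * r k = Real.log (RR (w k)) := by simp only [r]; field_simp
      have h2 : (n k : ℝ) * ∑ i ∈ Finset.Ico (k + 1) l, r i ≤ ∑ i ∈ Finset.Ico (k + 1) l, (1 / 2 : ℝ) ^ i := by
        rw [Finset.mul_sum]
        refine Finset.sum_le_sum (fun i hi => ?_)
        rw [Finset.mem_Ico] at hi
        obtain ⟨j, rfl⟩ : ∃ j, i = j + 1 := ⟨i - 1, by omega⟩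
        have h3 : n k ≤ n j := hmono (by omega)
        have h3' : (n k : ℝ) ≤ n j := by exact_mod_cast h3
        have h4 : (0 : ℝ) < n (j + 1) := by exact_mod_cast hn1 (j + 1)
        simp only [r]
        rw [← mul_div_assoc, div_le_iff₀ h4]
        have h5 := hb j
        have h6 : Real.log (RR (w (j + 1))) * n j ≤ (1 / 2) ^ (j + 1) * n (j + 1) := by
          have h7 : (0 : ℝ) < (1 / 2) ^ (j + 1) := by positivity
          have h8 := mul_le_mul_of_nonneg_left h5 h7.le
          have h9 : (1 / 2 : ℝ) ^ (j + 1) * (2 ^ (j + 1) * Real.log (RR (w (j + 1))) * n j) =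
              Real.log (RR (w (j + 1))) * n j := by
            rw [mul_assoc (2 ^ (j + 1)), ← mul_assoc, ← mul_pow]; norm_num
          rw [h9] at h8
          exact h8
        calc (n k : ℝ) * Real.log (RR (w (j + 1))) ≤ n j * Real.log (RR (w (j + 1))) :=
              mul_le_mul_of_nonneg_right h3' (hlog _)
          _ = Real.log (RR (w (j + 1))) * n j := mul_comm _ _
          _ ≤ _ := h6
      have h3 : ∑ i ∈ Finset.Ico (k + 1) l, (1 / 2 : ℝ) ^ i ≤ 2 := by
        refine le_trans ?_ (sum_geometric_two_le l)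
        apply Finset.sum_le_sum_of_subset_of_nonneg
        · intro i hi
          rw [Finset.mem_Ico] at hi
          exact Finset.mem_range.2 hi.2
        · intro i _ _; positivity
      linarith
  let M : ℂ → ℝ := fun c => Real.exp (Real.log (RR c) + 2) * ‖c‖
  have hM : ∀ k l, k ≤ l → ‖A l ^ n k‖ ≤ M (w k) := by
    intro k l hkl
    refine (hc' k l (n k) hkl).trans ?_
    refine mul_le_mul (Real.exp_le_exp.2 (hsum k l hkl)) ?_ (norm_nonneg _) (Real.exp_pos _).le
    rw [hAn, norm_smul]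
    exact mul_le_of_le_one_right (norm_nonneg _) norm_id_le
  obtain ⟨C, hC⟩ : ∃ C : ℝ, ∀ l, ‖A l‖ ≤ C := by
    refine ⟨Real.exp (Real.log (RR (w 0)) + 2) * ‖A 0‖, fun l => ?_⟩
    have h1 := hc' 0 l 1 (Nat.zero_le _)
    rw [pow_one, pow_one] at h1
    refine h1.trans (mul_le_mul_of_nonneg_right (Real.exp_le_exp.2 ?_) (norm_nonneg _))
    refine le_trans ?_ (hsum 0 l (Nat.zero_le _))
    have h2 : (1 : ℝ) ≤ n 0 := by exact_mod_cast hn1 0
    have h3 : 0 ≤ ∑ i ∈ Finset.Ico 0 l, r i := Finset.sum_nonneg (fun i _ => hr0 i)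
    push_cast
    exact mul_le_mul_of_nonneg_right h2 h3
  have hC0 : 0 ≤ C := (norm_nonneg _).trans (hC 0)
  -- powers differences
  have hdiff : ∀ k l, k ≤ l → ∀ i ≤ k, ∀ m ≤ n k,
      ‖(A l ^ m) (b i) - (A k ^ m) (b i)‖ ≤ 2 * (1 / 2) ^ k - 2 * (1 / 2) ^ l := by
    intro k l hkl i hi m hm
    induction l, hkl using Nat.le_induction with
    | base => simp
    | succ l hkl ih =>
      have h1 := hd l i (hi.trans hkl) m (hm.trans (hmono hkl))
      have e : (A (l + 1) ^ m) (b i) - (A k ^ m) (b i) =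
        ((A (l + 1) ^ m) (b i) - (A l ^ m) (b i)) + ((A l ^ m) (b i) - (A k ^ m) (b i)) := by abel
      rw [e]
      refine (norm_add_le _ _).trans ?_
      have : (1 / 2 : ℝ) ^ (l + 1) = (1 / 2) ^ l / 2 := by rw [pow_succ]; ring
      rw [this]
      linarith
  have hpow0 : Tendsto (fun k : ℕ => 2 * (1 / 2 : ℝ) ^ k) atTop (𝓝 0) := by
    have := (tendsto_pow_atTop_nhds_zero_of_lt_one (r := (1 / 2 : ℝ)) (by norm_num) (by norm_num)).const_mul 2
    simpa using this
  have hcauchy : ∀ x, CauchySeq (fun k => A k x) := by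
    intro x
    rw [cauchySeq_iff_tendsto_dist_atTop_0]
    have key := dens b (atTop : Filter (ℕ × ℕ)) (fun p => A p.1 - A p.2) (C + C)
      (Eventually.of_forall (fun p => (norm_sub_le _ _).trans (add_le_add (hC _) (hC _)))) ?_ x
    · have := key.norm
      simpa [dist_eq_norm] using this
    · intro i
      have hcs : CauchySeq (fun k => A k (b i)) := by
        apply cauchySeq_of_le_tendsto_0' (fun k => if i ≤ k then 2 * (1 / 2 : ℝ) ^ k else C + C)
        · intro k l hkl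
          split_ifs with h
          · rw [dist_comm, dist_eq_norm]
            have := hdiff k l hkl i h 1 (hn1 k)
            rw [pow_one, pow_one] at this
            have h0 : (0 : ℝ) < 2 * (1 / 2) ^ l := by positivity
            linarith
          · rw [dist_eq_norm]
            have hbn : ‖b i‖ = 1 := b.orthonormal.1 i
            refine (norm_sub_le _ _).trans (add_le_add ?_ ?_)
            · refine ((A k).le_opNorm _).trans ?_
              rw [hbn, mul_one]; exact hC k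
            · refine ((A l).le_opNorm _).trans ?_
              rw [hbn, mul_one]; exact hC l
        · refine hpow0.congr' ?_
          filter_upwards [eventually_ge_atTop i] with k hk
          rw [if_pos hk]
      have h2 := cauchySeq_iff_tendsto_dist_atTop_0.1 hcs
      rw [tendsto_zero_iff_norm_tendsto_zero]
      simpa [dist_eq_norm] using h2
  choose g hg using fun x => cauchySeq_tendsto_of_complete (hcauchy x)
  let T : H →L[ℂ] H := continuousLinearMapOfTendsto A (tendsto_pi_nhds.2 hg)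
  have hT : ∀ x, Tendsto (fun k => A k x) atTop (𝓝 (T x)) := hg
  clear_value T
  have hTp : ∀ (m : ℕ) x, Tendsto (fun k => (A k ^ m) x) atTop (𝓝 ((T ^ m) x)) := by
    intro m
    induction m with
    | zero => intro x; simp
    | succ m ih =>
      intro x
      have e : ∀ k, (A k ^ (m + 1)) x = A k ((A k ^ m) x - (T ^ m) x) + A k ((T ^ m) x) := by
        intro k
        rw [← map_add, pow_succ', mul_apply_eq_comp]; congr 1; abel
      simp only [e]
      have e2 : (T ^ (m + 1)) x = 0 + T ((T ^ m) x) := by rw [zero_add, pow_succ', mul_apply_eq_comp]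
      rw [e2]
      refine Tendsto.add ?_ (hT _)
      have h1 : Tendsto (fun k => C * ‖(A k ^ m) x - (T ^ m) x‖) atTop (𝓝 0) := by
        have := (tendsto_iff_norm_sub_tendsto_zero.1 (ih x)).const_mul C
        simpa using this
      refine squeeze_zero_norm (fun k => ?_) h1
      exact ((A k).le_opNorm _).trans (mul_le_mul_of_nonneg_right (hC k) (norm_nonneg _))
  have hTM : ∀ k, ‖T ^ n k‖ ≤ M (w k) := by
    intro k
    refine opNorm_le_bound _ (by positivity) (fun x => ?_)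
    refine le_of_tendsto (hTp (n k) x).norm ?_
    filter_upwards [eventually_ge_atTop k] with l hl
    exact ((A l ^ n k).le_opNorm _).trans (mul_le_mul_of_nonneg_right (hM k l hl) (norm_nonneg _))
  have hTb : ∀ k, ∀ i ≤ k, ‖(T ^ n k) (b i) - w k • b i‖ ≤ 2 * (1 / 2) ^ k := by
    intro k i hi
    have h1 : Tendsto (fun l => ‖(A l ^ n k) (b i) - w k • b i‖) atTop (𝓝 ‖(T ^ n k) (b i) - w k • b i‖) :=
      ((hTp (n k) (b i)).sub_const _).norm
    refine le_of_tendsto h1 ?_
    filter_upwards [eventually_ge_atTop k] with l hl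
    have h2 := hdiff k l hl i hi (n k) le_rfl
    rw [hAn] at h2
    have h3 : (w k • (1 : H →L[ℂ] H)) (b i) = w k • b i := by simp
    rw [h3] at h2
    have h0 : (0 : ℝ) < 2 * (1 / 2) ^ l := by positivity
    linarith
  refine ⟨T, n, fun c x => ?_⟩
  have key := dens b (atTop ⊓ 𝓟 {k | w k = c}) (fun k => T ^ n k - c • (1 : H →L[ℂ] H)) (M c + ‖c‖) ?_ ?_ x
  · simpa using key
  · rw [eventually_inf_principal]
    refine Eventually.of_forall (fun k hk => ?_)
    have hk' : w k = c := hk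
    refine (norm_sub_le _ _).trans (add_le_add ?_ ?_)
    · rw [← hk']; exact hTM k
    · rw [norm_smul]; exact mul_le_of_le_one_right (norm_nonneg _) norm_id_le
  · intro i
    have h1 : Tendsto (fun k : ℕ => 2 * (1 / 2 : ℝ) ^ k) (atTop ⊓ 𝓟 {k | w k = c}) (𝓝 0) :=
      hpow0.mono_left inf_le_left
    refine squeeze_zero_norm' ?_ h1
    rw [eventually_inf_principal]
    filter_upwards [eventually_ge_atTop i] with k hk hkc
    have hk' : w k = c := hkc
    have := hTb k i hk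
    rw [hk'] at this
    simpa using this

theorem main (b : HilbertBasis ℕ ℂ H) : ∃ T : H →L[ℂ] H,
    ∀ x : H, ‖x‖ = 1 → Dense (Set.range (fun n : ℕ => ⟪x, (T ^ n) x⟫_ℂ)) := by
  let q : ℕ → ℂ := TopologicalSpace.denseSeq ℂ
  let d : ℕ → ℂ := fun i => if q i = 0 then 1 else q i
  have hd0 : ∀ i, d i ≠ 0 := by
    intro i
    simp only [d]
    split_ifs with h
    · exact one_ne_zero
    · exact h
  let w : ℕ → ℂ := fun k => d (Nat.unpair k).1
  obtain ⟨T, n, hT⟩ := main_aux b w (fun k => hd0 _)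
  refine ⟨T, fun x hx => ?_⟩
  have hdense : Dense (Set.range q \ {0}) :=
    (TopologicalSpace.denseRange_denseSeq ℂ).diff_singleton 0
  have hsub : Set.range q \ {0} ⊆ closure (Set.range (fun n : ℕ => ⟪x, (T ^ n) x⟫_ℂ)) := by
    rintro _ ⟨⟨i, rfl⟩, hi⟩
    have hi' : q i ≠ 0 := hi
    have hdi : d i = q i := by simp only [d]; rw [if_neg hi']
    have hne : (atTop ⊓ 𝓟 {k | w k = q i}).NeBot := by
      rw [Filter.inf_principal_neBot_iff]
      intro U hU
      obtain ⟨a, ha⟩ := mem_atTop_sets.1 hU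
      refine ⟨Nat.pair i a, ha _ (Nat.right_le_pair i a), ?_⟩
      simp only [Set.mem_setOf_eq, w, Nat.unpair_pair, hdi]
    have h1 := hT (q i) x
    have h2 : Tendsto (fun k => ⟪x, (T ^ (n k)) x⟫_ℂ) (atTop ⊓ 𝓟 {k | w k = q i}) (𝓝 (q i)) := by
      have h3 : Tendsto (fun k => ⟪x, (T ^ (n k)) x - q i • x⟫_ℂ + q i) (atTop ⊓ 𝓟 {k | w k = q i}) (𝓝 (⟪x, (0 : H)⟫_ℂ + q i)) :=
        ((tendsto_const_nhds (x := x)).inner h1).add_const _
      rw [inner_zero_right, zero_add] at h3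
      refine h3.congr (fun k => ?_)
      rw [inner_sub_right, inner_smul_right, inner_self_eq_norm_sq_to_K, hx]
      simp
    exact mem_closure_of_tendsto h2 (Eventually.of_forall (fun k => ⟨n k, rfl⟩))
  have := hdense.mono hsub
  rw [dense_iff_closure_eq, closure_closure] at this
  exact dense_iff_closure_eq.2 this

end Pool.Agent.H145R3.NO
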