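import Mathlib

set_option autoImplicit false

open scoped InnerProductSpace
open Filter Topology ContinuousLinearMap

namespace Pool.Agent.H145R3.WV

variable {H : Type*} [NormedAddCommGroup H] [InnerProductSpace ℂ H] [CompleteSpace H]

/-- Bessel families with constant `C`. -/
def Bes {ι : Type*} (C : ℝ) (ξ : ι → H) : Prop :=
  ∀ (s : Finset ι) (g : H), ∑ x ∈ s, ‖⟪ξ x, g⟫_ℂ‖ ^ 2 ≤ C ^ 2 * ‖g‖ ^ 2

lemma inner_star (A : H →L[ℂ] H) (x y : H) : ⟪A x, y⟫_ℂ = ⟪x, (star A) y⟫_ℂ := by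
  rw [ContinuousLinearMap.star_eq_adjoint, ContinuousLinearMap.adjoint_inner_right]

lemma Bes.norm_le {ι : Type*} {C : ℝ} (hC : 0 ≤ C) {ξ : ι → H} (h : Bes C ξ) (x : ι) : ‖ξ x‖ ≤ C := by
  have h1 := h {x} (ξ x)
  rw [Finset.sum_singleton] at h1
  have h2 : ‖⟪ξ x, ξ x⟫_ℂ‖ = ‖ξ x‖ ^ 2 := by
    rw [inner_self_eq_norm_sq_to_K, norm_pow]; simp
  rw [h2] at h1
  by_contra hcon
  push Not at hcon
  have h3 : 0 < ‖ξ x‖ ^ 2 := by
    have : 0 < ‖ξ x‖ := lt_of_le_of_lt hC hcon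
    positivity
  have h4 : C ^ 2 < ‖ξ x‖ ^ 2 := by nlinarith
  nlinarith

lemma Bes.comp_op {ι : Type*} {C : ℝ} {ξ : ι → H} (h : Bes C ξ) (R : H →L[ℂ] H) :
    Bes (‖R‖ * C) (fun x => R (ξ x)) := by
  intro s g
  have h1 := h s ((star R) g)
  have h2 : ∀ x, ⟪R (ξ x), g⟫_ℂ = ⟪ξ x, (star R) g⟫_ℂ := fun x => inner_star R _ _
  simp only [h2]
  refine h1.trans ?_
  have h3 : ‖(star R) g‖ ≤ ‖R‖ * ‖g‖ := by
    have := (star R).le_opNorm g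
    rwa [norm_star] at this
  have h4 : ‖(star R) g‖ ^ 2 ≤ (‖R‖ * ‖g‖) ^ 2 := pow_le_pow_left₀ (norm_nonneg _) h3 2
  calc C ^ 2 * ‖(star R) g‖ ^ 2 ≤ C ^ 2 * (‖R‖ * ‖g‖) ^ 2 := mul_le_mul_of_nonneg_left h4 (sq_nonneg _)
    _ = _ := by ring

lemma Bes.comp_inj {ι κ : Type*} {C : ℝ} {ξ : ι → H} (h : Bes C ξ) (j : κ → ι) (hj : Function.Injective j) :
    Bes C (fun x => ξ (j x)) := by
  intro s g
  have := h (s.map ⟨j, hj⟩) g
  rwa [Finset.sum_map] at this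

lemma Bes.mono {ι : Type*} {C C' : ℝ} {ξ : ι → H} (h : Bes C ξ) (hC : 0 ≤ C) (hCC : C ≤ C') : Bes C' ξ := by
  intro s g
  refine (h s g).trans ?_
  have : C ^ 2 ≤ C' ^ 2 := pow_le_pow_left₀ hC hCC 2
  exact mul_le_mul_of_nonneg_right this (sq_nonneg _)

/-- finite rank -/
def FR (F : H →L[ℂ] H) : Prop := FiniteDimensional ℂ (LinearMap.range (F : H →ₗ[ℂ] H))

/-- explicit representation of a finite rank operator -/
lemma fr_rep (F : H →L[ℂ] H) (hF : FR F) :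
    ∃ (f e : Fin (Module.finrank ℂ (LinearMap.range (F : H →ₗ[ℂ] H))) → H),
      (∀ i, ‖f i‖ ≤ ‖F‖) ∧ (∀ i, ‖e i‖ = 1) ∧ ∀ x y : H, ⟪y, F x⟫_ℂ = ∑ i, ⟪f i, x⟫_ℂ * ⟪y, e i⟫_ℂ := by
  have : FiniteDimensional ℂ (LinearMap.range (F : H →ₗ[ℂ] H)) := hF
  let o := stdOrthonormalBasis ℂ (LinearMap.range (F : H →ₗ[ℂ] H))
  refine ⟨fun i => (star F) (o i : H), fun i => (o i : H), ?_, ?_, ?_⟩
  · intro i
    have h1 := (star F).le_opNorm (o i : H)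
    have h2 : ‖(o i : H)‖ = 1 := o.orthonormal.1 i
    rw [h2, norm_star, mul_one] at h1
    exact h1
  · intro i; exact o.orthonormal.1 i
  · intro x y
    have h1 := o.sum_repr' ⟨F x, LinearMap.mem_range_self _ x⟩
    have h2 := congrArg (fun z : LinearMap.range (F : H →ₗ[ℂ] H) => (z : H)) h1
    simp only [Submodule.coe_sum, Submodule.coe_smul, Submodule.coe_inner] at h2
    conv_lhs => rw [← h2]
    rw [inner_sum]
    refine Finset.sum_congr rfl (fun i _ => ?_)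
    rw [inner_smul_right]
    congr 1
    rw [← inner_conj_symm ((star F) (o i : H)) x, ← inner_star, inner_conj_symm]

lemma cs_sum {ι : Type*} (s : Finset ι) (a b : ι → ℝ) (A B : ℝ) (hA : 0 ≤ A) (hB : 0 ≤ B)
    (h1 : ∑ x ∈ s, a x ^ 2 ≤ A ^ 2) (h2 : ∑ x ∈ s, b x ^ 2 ≤ B ^ 2) : ∑ x ∈ s, a x * b x ≤ A * B := by
  have h := Finset.sum_mul_sq_le_sq_mul_sq s a b
  have h3 : (∑ x ∈ s, a x * b x) ^ 2 ≤ (A * B) ^ 2 := by
    rw [mul_pow]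
    refine h.trans (mul_le_mul h1 h2 (Finset.sum_nonneg (fun i _ => sq_nonneg _)) (sq_nonneg _))
  exact (abs_le_of_sq_le_sq' h3 (mul_nonneg hA hB)).2

lemma rank_bound (F : H →L[ℂ] H) (hF : FR F) (r : ℕ)
    (hr : Module.finrank ℂ (LinearMap.range (F : H →ₗ[ℂ] H)) ≤ r) {ι : Type*} (ξ η : ι → H) (C C' : ℝ)
    (hC : 0 ≤ C) (hC' : 0 ≤ C') (hξ : Bes C ξ) (hη : Bes C' η) (s : Finset ι) :
    ∑ x ∈ s, ‖⟪η x, F (ξ x)⟫_ℂ‖ ≤ (r * ‖F‖) * (C * C') := by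
  obtain ⟨f, e, hf, he, hrep⟩ := fr_rep F hF
  have h1 : ∀ x, ‖⟪η x, F (ξ x)⟫_ℂ‖ ≤ ∑ i, ‖⟪ξ x, f i⟫_ℂ‖ * ‖⟪η x, e i⟫_ℂ‖ := by
    intro x
    rw [hrep]
    refine (norm_sum_le _ _).trans (Finset.sum_le_sum (fun i _ => ?_))
    rw [norm_mul, norm_inner_symm]
  calc ∑ x ∈ s, ‖⟪η x, F (ξ x)⟫_ℂ‖ ≤ ∑ x ∈ s, ∑ i, ‖⟪ξ x, f i⟫_ℂ‖ * ‖⟪η x, e i⟫_ℂ‖ :=
        Finset.sum_le_sum (fun x _ => h1 x)
    _ = ∑ i, ∑ x ∈ s, ‖⟪ξ x, f i⟫_ℂ‖ * ‖⟪η x, e i⟫_ℂ‖ := Finset.sum_comm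
    _ ≤ ∑ i : Fin (Module.finrank ℂ (LinearMap.range (F : H →ₗ[ℂ] H))), (C * ‖F‖) * C' := by
        refine Finset.sum_le_sum (fun i _ => ?_)
        refine cs_sum s _ _ _ _ (by positivity) hC' ?_ ?_
        · refine (hξ s (f i)).trans ?_
          rw [mul_pow]
          exact mul_le_mul_of_nonneg_left (pow_le_pow_left₀ (norm_nonneg _) (hf i) 2) (sq_nonneg _)
        · have := hη s (e i)
          rwa [he, one_pow, mul_one] at this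
    _ = (Module.finrank ℂ (LinearMap.range (F : H →ₗ[ℂ] H)) : ℝ) * ((C * ‖F‖) * C') := by
        rw [Finset.sum_const, Finset.card_univ, Fintype.card_fin, nsmul_eq_mul]
    _ ≤ (r : ℝ) * ((C * ‖F‖) * C') := by
        apply mul_le_mul_of_nonneg_right _ (by positivity)
        exact_mod_cast hr
    _ = _ := by ring

lemma sup_bound (F : H →L[ℂ] H) {ι : Type*} (ξ η : ι → H) (C C' : ℝ)
    (hC : 0 ≤ C) (hC' : 0 ≤ C') (hξ : Bes C ξ) (hη : Bes C' η) (x : ι) :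
    ‖⟪η x, F (ξ x)⟫_ℂ‖ ≤ ‖F‖ * (C * C') := by
  refine (norm_inner_le_norm _ _).trans ?_
  have h1 := hη.norm_le hC' x
  have h2 := hξ.norm_le hC x
  have h3 : ‖F (ξ x)‖ ≤ ‖F‖ * C := (F.le_opNorm _).trans (mul_le_mul_of_nonneg_left h2 (norm_nonneg _))
  calc ‖η x‖ * ‖F (ξ x)‖ ≤ C' * (‖F‖ * C) := mul_le_mul h1 h3 (norm_nonneg _) hC'
    _ = _ := by ring

/-- dyadic boxes -/
def box (k : ℕ) : Finset (ℕ × ℕ) := Finset.range (2 ^ k) ×ˢ Finset.range (2 ^ k)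

lemma box_card (k : ℕ) : (box k).card = 4 ^ k := by
  unfold box
  rw [Finset.card_product, Finset.card_range, ← mul_pow]
  norm_num

noncomputable def WS (N : ℕ) (T : H →L[ℂ] H) (ξ η : ℕ × ℕ → H) : ℝ :=
  ∑ k ∈ Finset.range N, (1 / 2 : ℝ) ^ k * ∑ y ∈ box k, ‖⟪η y, T (ξ y)⟫_ℂ‖

/-- weighted summation bound -/
def LZ (γ : ℝ) (T : H →L[ℂ] H) : Prop :=
  ∀ (ξ η : ℕ × ℕ → H) (C C' : ℝ), 0 ≤ C → 0 ≤ C' → Bes C ξ → Bes C' η → ∀ N, WS N T ξ η ≤ γ * (C * C')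

lemma geom_sum_half_le (N : ℕ) : ∑ k ∈ Finset.range N, (1 / 2 : ℝ) ^ k ≤ 2 := sum_geometric_two_le N

lemma LZ.add {γ γ' : ℝ} {T T' : H →L[ℂ] H} (h : LZ γ T) (h' : LZ γ' T') : LZ (γ + γ') (T + T') := by
  intro ξ η C C' hC hC' hξ hη N
  have h1 := h ξ η C C' hC hC' hξ hη N
  have h2 := h' ξ η C C' hC hC' hξ hη N
  have h3 : WS N (T + T') ξ η ≤ WS N T ξ η + WS N T' ξ η := by
    unfold WS
    rw [← Finset.sum_add_distrib]
    refine Finset.sum_le_sum (fun k _ => ?_)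
    rw [← mul_add, ← Finset.sum_add_distrib]
    refine mul_le_mul_of_nonneg_left (Finset.sum_le_sum (fun y _ => ?_)) (by positivity)
    rw [add_apply, inner_add_right]
    exact norm_add_le _ _
  rw [add_mul]
  linarith

lemma LZ.zero : LZ 0 (0 : H →L[ℂ] H) := by
  intro ξ η C C' hC hC' hξ hη N
  simp [WS]

lemma LZ.neg {γ : ℝ} {T : H →L[ℂ] H} (h : LZ γ T) : LZ γ (-T) := by
  intro ξ η C C' hC hC' hξ hη N
  have h1 := h ξ η C C' hC hC' hξ hη N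
  simpa [WS] using h1

lemma LZ.mono {γ γ' : ℝ} {T : H →L[ℂ] H} (h : LZ γ T) (hg : γ ≤ γ') : LZ γ' T := by
  intro ξ η C C' hC hC' hξ hη N
  exact (h ξ η C C' hC hC' hξ hη N).trans (mul_le_mul_of_nonneg_right hg (mul_nonneg hC hC'))

lemma LZ.conj {γ : ℝ} {T : H →L[ℂ] H} (h : LZ γ T) (L R : H →L[ℂ] H) : LZ (‖L‖ * γ * ‖R‖) (L * T * R) := by
  intro ξ η C C' hC hC' hξ hη N
  have h1 := h (fun y => R (ξ y)) (fun y => (star L) (η y)) (‖R‖ * C) (‖star L‖ * C')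
    (by positivity) (by positivity) (hξ.comp_op R) (hη.comp_op (star L)) N
  have h2 : WS N (L * T * R) ξ η = WS N T (fun y => R (ξ y)) (fun y => (star L) (η y)) := by
    unfold WS
    refine Finset.sum_congr rfl (fun k _ => ?_)
    congr 1
    refine Finset.sum_congr rfl (fun y _ => ?_)
    rw [inner_star, star_star]
    rfl
  rw [h2]
  refine h1.trans (le_of_eq ?_)
  rw [norm_star]
  ring

lemma LZ.smul {γ : ℝ} {T : H →L[ℂ] H} (h : LZ γ T) (c : ℂ) : LZ (‖c‖ * γ) (c • T) := by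
  intro ξ η C C' hC hC' hξ hη N
  have h1 := h ξ η C C' hC hC' hξ hη N
  have h2 : WS N (c • T) ξ η = ‖c‖ * WS N T ξ η := by
    unfold WS
    rw [Finset.mul_sum]
    refine Finset.sum_congr rfl (fun k _ => ?_)
    rw [mul_left_comm]
    congr 1
    rw [Finset.mul_sum]
    refine Finset.sum_congr rfl (fun y _ => ?_)
    rw [smul_apply, inner_smul_right, norm_mul]
  rw [h2, mul_assoc]
  exact mul_le_mul_of_nonneg_left h1 (norm_nonneg _)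

lemma WS_tendsto {ι : Type*} {l : Filter ι} {T : ι → (H →L[ℂ] H)} {T' : H →L[ℂ] H} (h : Tendsto T l (𝓝 T'))
    (ξ η : ℕ × ℕ → H) (N : ℕ) : Tendsto (fun i => WS N (T i) ξ η) l (𝓝 (WS N T' ξ η)) := by
  unfold WS
  refine tendsto_finsetSum _ (fun k _ => Tendsto.const_mul _ (tendsto_finsetSum _ (fun y _ => ?_)))
  refine Tendsto.norm (Tendsto.inner tendsto_const_nhds ?_)
  exact ((ContinuousLinearMap.apply ℂ H (ξ y)).continuous.tendsto T').comp h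

lemma LZ.sum {γ : ℕ → ℝ} {T : ℕ → (H →L[ℂ] H)} (h : ∀ n, LZ (γ n) (T n)) (M : ℕ) :
    LZ (∑ n ∈ Finset.range M, γ n) (∑ n ∈ Finset.range M, T n) := by
  induction M with
  | zero => simpa using LZ.zero
  | succ M ih => rw [Finset.sum_range_succ, Finset.sum_range_succ]; exact ih.add (h M)

lemma LZ.tsum {γ : ℕ → ℝ} {T : ℕ → (H →L[ℂ] H)} {T' : H →L[ℂ] H} (h : ∀ n, LZ (γ n) (T n))
    (hγ : ∀ n, 0 ≤ γ n) (hs : Summable γ) (hT : HasSum T T') : LZ (∑' n, γ n) T' := by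
  intro ξ η C C' hC hC' hξ hη N
  refine le_of_tendsto (WS_tendsto hT.tendsto_sum_nat ξ η N) (Eventually.of_forall (fun M => ?_))
  refine (LZ.sum h M ξ η C C' hC hC' hξ hη N).trans ?_
  exact mul_le_mul_of_nonneg_right (hs.sum_le_tsum _ (fun n _ => hγ n)) (mul_nonneg hC hC')

/-- crude bound for finite rank operators -/
lemma LZ.fr (F : H →L[ℂ] H) (hF : FR F) :
    LZ (2 * (Module.finrank ℂ (LinearMap.range (F : H →ₗ[ℂ] H)) * ‖F‖)) F := by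
  intro ξ η C C' hC hC' hξ hη N
  unfold WS
  set r := Module.finrank ℂ (LinearMap.range (F : H →ₗ[ℂ] H)) with hr
  calc ∑ k ∈ Finset.range N, (1 / 2 : ℝ) ^ k * ∑ y ∈ box k, ‖⟪η y, F (ξ y)⟫_ℂ‖
      ≤ ∑ k ∈ Finset.range N, (1 / 2 : ℝ) ^ k * ((r * ‖F‖) * (C * C')) := by
        refine Finset.sum_le_sum (fun k _ => ?_)
        exact mul_le_mul_of_nonneg_left (rank_bound F hF r le_rfl ξ η C C' hC hC' hξ hη _) (by positivity)
    _ = (∑ k ∈ Finset.range N, (1 / 2 : ℝ) ^ k) * ((r * ‖F‖) * (C * C')) := by rw [Finset.sum_mul]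
    _ ≤ 2 * ((r * ‖F‖) * (C * C')) := mul_le_mul_of_nonneg_right (geom_sum_half_le N) (by positivity)
    _ = _ := by ring

/-- refined bound for rank at most `5 * 4 ^ m` -/
lemma LZ.fr' (F : H →L[ℂ] H) (hF : FR F) (m : ℕ)
    (hr : Module.finrank ℂ (LinearMap.range (F : H →ₗ[ℂ] H)) ≤ 5 * 4 ^ m) :
    LZ (12 * 2 ^ m * ‖F‖) F := by
  intro ξ η C C' hC hC' hξ hη N
  have hb : ∀ k, (1 / 2 : ℝ) ^ k * ∑ y ∈ box k, ‖⟪η y, F (ξ y)⟫_ℂ‖ ≤
      (if k < m + 1 then (2 : ℝ) ^ k else 10 * 2 ^ m * (1 / 2 : ℝ) ^ (k - m)) * (‖F‖ * (C * C')) := by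
    intro k
    split_ifs with hk
    · have h1 : ∑ y ∈ box k, ‖⟪η y, F (ξ y)⟫_ℂ‖ ≤ 4 ^ k * (‖F‖ * (C * C')) := by
        calc ∑ y ∈ box k, ‖⟪η y, F (ξ y)⟫_ℂ‖ ≤ ∑ y ∈ box k, ‖F‖ * (C * C') :=
              Finset.sum_le_sum (fun y _ => sup_bound F ξ η C C' hC hC' hξ hη y)
          _ = _ := by rw [Finset.sum_const, box_card, nsmul_eq_mul]; push_cast; ring
      calc (1 / 2 : ℝ) ^ k * ∑ y ∈ box k, ‖⟪η y, F (ξ y)⟫_ℂ‖ ≤ (1 / 2 : ℝ) ^ k * (4 ^ k * (‖F‖ * (C * C'))) :=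
            mul_le_mul_of_nonneg_left h1 (by positivity)
        _ = ((1 / 2 : ℝ) * 4) ^ k * (‖F‖ * (C * C')) := by rw [mul_pow]; ring
        _ = _ := by norm_num
    · have h1 := rank_bound F hF (5 * 4 ^ m) hr ξ η C C' hC hC' hξ hη (box k)
      have hk' : k = m + (k - m) := by omega
      calc (1 / 2 : ℝ) ^ k * ∑ y ∈ box k, ‖⟪η y, F (ξ y)⟫_ℂ‖
          ≤ (1 / 2 : ℝ) ^ k * (((5 * 4 ^ m : ℕ) : ℝ) * ‖F‖ * (C * C')) := mul_le_mul_of_nonneg_left h1 (by positivity)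
        _ = (5 * ((1 / 2 : ℝ) ^ m * 4 ^ m) * (1 / 2 : ℝ) ^ (k - m)) * (‖F‖ * (C * C')) := by
            conv_lhs => rw [hk', pow_add]
            push_cast; ring
        _ = (5 * 2 ^ m * (1 / 2 : ℝ) ^ (k - m)) * (‖F‖ * (C * C')) := by
            rw [← mul_pow]; norm_num
        _ ≤ _ := by
            refine mul_le_mul_of_nonneg_right ?_ (by positivity)
            have : (0 : ℝ) ≤ 2 ^ m * (1 / 2 : ℝ) ^ (k - m) := by positivity
            nlinarith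
  have hsum : ∀ N, ∑ k ∈ Finset.range N, (if k < m + 1 then (2 : ℝ) ^ k else 10 * 2 ^ m * (1 / 2 : ℝ) ^ (k - m)) ≤
      12 * 2 ^ m := by
    intro N
    have h1 : ∀ k, 0 ≤ (if k < m + 1 then (2 : ℝ) ^ k else 10 * 2 ^ m * (1 / 2 : ℝ) ^ (k - m)) := by
      intro k; split_ifs <;> positivity
    have h2 : ∑ k ∈ Finset.range N, (if k < m + 1 then (2 : ℝ) ^ k else 10 * 2 ^ m * (1 / 2 : ℝ) ^ (k - m)) ≤
        ∑ k ∈ Finset.range ((m + 1) + N), (if k < m + 1 then (2 : ℝ) ^ k else 10 * 2 ^ m * (1 / 2 : ℝ) ^ (k - m)) := by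
      refine Finset.sum_le_sum_of_subset_of_nonneg ?_ (fun i _ _ => h1 i)
      intro i hi
      rw [Finset.mem_range] at hi ⊢
      omega
    refine h2.trans ?_
    rw [Finset.sum_range_add]
    have h3 : ∑ k ∈ Finset.range (m + 1), (if k < m + 1 then (2 : ℝ) ^ k else 10 * 2 ^ m * (1 / 2 : ℝ) ^ (k - m)) =
        2 ^ (m + 1) - 1 := by
      have : ∀ n : ℕ, ∑ k ∈ Finset.range n, (2 : ℝ) ^ k = 2 ^ n - 1 := by
        intro n
        induction n with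
        | zero => simp
        | succ n ih => rw [Finset.sum_range_succ, ih, pow_succ]; ring
      rw [← this (m + 1)]
      refine Finset.sum_congr rfl (fun k hk => ?_)
      rw [if_pos (Finset.mem_range.1 hk)]
    have h4 : ∑ k ∈ Finset.range N, (if (m + 1) + k < m + 1 then (2 : ℝ) ^ ((m + 1) + k) else 10 * 2 ^ m * (1 / 2 : ℝ) ^ ((m + 1) + k - m)) ≤
        10 * 2 ^ m := by
      have : ∀ k ∈ Finset.range N, (if (m + 1) + k < m + 1 then (2 : ℝ) ^ ((m + 1) + k) else 10 * 2 ^ m * (1 / 2 : ℝ) ^ ((m + 1) + k - m)) =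
          (5 * 2 ^ m) * (1 / 2 : ℝ) ^ k := by
        intro k _
        rw [if_neg (by omega), show (m + 1) + k - m = k + 1 by omega, pow_succ]
        ring
      rw [Finset.sum_congr rfl this, ← Finset.mul_sum]
      have h5 := geom_sum_half_le N
      have h6 : (0 : ℝ) < 5 * 2 ^ m := by positivity
      nlinarith
    rw [h3, pow_succ]
    linarith
  unfold WS
  calc ∑ k ∈ Finset.range N, (1 / 2 : ℝ) ^ k * ∑ y ∈ box k, ‖⟪η y, F (ξ y)⟫_ℂ‖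
      ≤ ∑ k ∈ Finset.range N, (if k < m + 1 then (2 : ℝ) ^ k else 10 * 2 ^ m * (1 / 2 : ℝ) ^ (k - m)) * (‖F‖ * (C * C')) :=
        Finset.sum_le_sum (fun k _ => hb k)
    _ = (∑ k ∈ Finset.range N, (if k < m + 1 then (2 : ℝ) ^ k else 10 * 2 ^ m * (1 / 2 : ℝ) ^ (k - m))) * (‖F‖ * (C * C')) := by
        rw [Finset.sum_mul]
    _ ≤ (12 * 2 ^ m) * (‖F‖ * (C * C')) := mul_le_mul_of_nonneg_right (hsum N) (by positivity)
    _ = _ := by ring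

end Pool.Agent.H145R3.WV
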