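import Mathlib
import Pool.Agent.H145R3.WV1

set_option autoImplicit false

open scoped InnerProductSpace
open Filter Topology ContinuousLinearMap

namespace Pool.Agent.H145R3.WV

variable {H : Type*} [NormedAddCommGroup H] [InnerProductSpace ℂ H] [CompleteSpace H]

/-- closure of the finite rank operators in the weighted summation sense -/
def LL (T : H →L[ℂ] H) : Prop := ∀ ε > 0, ∃ F : H →L[ℂ] H, FR F ∧ LZ ε (T - F)

lemma FR.zero : FR (0 : H →L[ℂ] H) := by
  unfold FR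
  have : LinearMap.range ((0 : H →L[ℂ] H) : H →ₗ[ℂ] H) = ⊥ := by
    simp
  rw [this]
  infer_instance

lemma FR.add {F G : H →L[ℂ] H} (hF : FR F) (hG : FR G) : FR (F + G) := by
  unfold FR at *
  have h : LinearMap.range ((F + G : H →L[ℂ] H) : H →ₗ[ℂ] H) ≤
      LinearMap.range (F : H →ₗ[ℂ] H) ⊔ LinearMap.range (G : H →ₗ[ℂ] H) := by
    rintro _ ⟨x, rfl⟩
    exact Submodule.add_mem_sup ⟨x, rfl⟩ ⟨x, rfl⟩
  exact Submodule.finiteDimensional_of_le h

lemma FR.conj {F : H →L[ℂ] H} (hF : FR F) (L R : H →L[ℂ] H) : FR (L * F * R) := by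
  unfold FR at *
  have h : LinearMap.range ((L * F * R : H →L[ℂ] H) : H →ₗ[ℂ] H) ≤
      (LinearMap.range (F : H →ₗ[ℂ] H)).map (L : H →ₗ[ℂ] H) := by
    rintro _ ⟨x, rfl⟩
    exact ⟨F (R x), ⟨R x, rfl⟩, rfl⟩
  exact Submodule.finiteDimensional_of_le h

lemma FR.neg {F : H →L[ℂ] H} (hF : FR F) : FR (-F) := by
  have := hF.conj (-1) 1
  simpa using this

lemma LL.of_fr {F : H →L[ℂ] H} (hF : FR F) : LL F := by
  intro ε hε
  refine ⟨F, hF, ?_⟩
  rw [sub_self]
  exact LZ.zero.mono hε.le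

lemma LL.zero : LL (0 : H →L[ℂ] H) := LL.of_fr FR.zero

lemma LL.add {T T' : H →L[ℂ] H} (h : LL T) (h' : LL T') : LL (T + T') := by
  intro ε hε
  obtain ⟨F, hF, h1⟩ := h (ε / 2) (by positivity)
  obtain ⟨F', hF', h2⟩ := h' (ε / 2) (by positivity)
  refine ⟨F + F', hF.add hF', ?_⟩
  have := h1.add h2
  rw [add_halves] at this
  convert this using 1
  abel

lemma LL.conj {T : H →L[ℂ] H} (h : LL T) (L R : H →L[ℂ] H) : LL (L * T * R) := by
  intro ε hε
  obtain ⟨F, hF, h1⟩ := h (ε / (‖L‖ * ‖R‖ + 1)) (by positivity)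
  refine ⟨L * F * R, hF.conj L R, ?_⟩
  have h2 := h1.conj L R
  have e : L * (T - F) * R = L * T * R - L * F * R := by noncomm_ring
  rw [e] at h2
  refine h2.mono ?_
  rw [mul_div_assoc', div_mul_eq_mul_div, div_le_iff₀ (by positivity)]
  nlinarith [mul_nonneg (norm_nonneg L) (norm_nonneg R)]

lemma LL.neg {T : H →L[ℂ] H} (h : LL T) : LL (-T) := by
  have := h.conj (-1) 1
  simpa using this

lemma LL.smul {T : H →L[ℂ] H} (h : LL T) (c : ℂ) : LL (c • T) := by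
  have := h.conj (c • 1) 1
  simpa using this

lemma LL.sum {T : ℕ → (H →L[ℂ] H)} (h : ∀ n, LL (T n)) (M : ℕ) : LL (∑ n ∈ Finset.range M, T n) := by
  induction M with
  | zero => simpa using LL.zero
  | succ M ih => rw [Finset.sum_range_succ]; exact ih.add (h M)

lemma LL.tsum {γ : ℕ → ℝ} {T : ℕ → (H →L[ℂ] H)} {T' : H →L[ℂ] H} (h : ∀ n, LZ (γ n) (T n))
    (hL : ∀ n, LL (T n)) (hγ : ∀ n, 0 ≤ γ n) (hs : Summable γ) (hT : HasSum T T') : LL T' := by
  intro ε hε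
  obtain ⟨M, hM⟩ : ∃ M, ∑' n, γ (n + M) < ε / 2 := by
    have := tendsto_sum_nat_add γ
    exact (this.eventually_lt_const (half_pos hε)).exists
  obtain ⟨F, hF, h1⟩ := LL.sum hL M (ε / 2) (by positivity)
  refine ⟨F, hF, ?_⟩
  have h2 : HasSum (fun n => T (n + M)) (T' - ∑ n ∈ Finset.range M, T n) :=
    (hasSum_nat_add_iff' M).2 hT
  have h3 : LZ (∑' n, γ (n + M)) (T' - ∑ n ∈ Finset.range M, T n) :=
    LZ.tsum (fun n => h (n + M)) (fun n => hγ _) ((summable_nat_add_iff M).2 hs) h2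
  have h4 := (h3.mono hM.le).add h1
  rw [add_halves] at h4
  convert h4 using 1
  abel

/-- a single-entry consequence: operator norm bound -/
lemma LZ.entry {γ : ℝ} {T : H →L[ℂ] H} (h : LZ γ T) (ξ η : ℕ × ℕ → H) (C C' : ℝ) (hC : 0 ≤ C) (hC' : 0 ≤ C')
    (hξ : Bes C ξ) (hη : Bes C' η) (y : ℕ × ℕ) : ‖⟪η y, T (ξ y)⟫_ℂ‖ ≤ γ * (C * C') := by
  -- use the families with one nonzero entry placed at the origin
  have key : ∀ (C : ℝ) (hC : 0 ≤ C) (ξ : ℕ × ℕ → H) (hξ : Bes C ξ),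
      Bes C (fun z : ℕ × ℕ => if z = (0, 0) then ξ y else 0) := by
    intro C hC ξ hξ s g
    have h1 := hξ {y} g
    rw [Finset.sum_singleton] at h1
    have h2 : ∑ x ∈ s, ‖⟪(if x = (0, 0) then ξ y else 0), g⟫_ℂ‖ ^ 2 ≤ ‖⟪ξ y, g⟫_ℂ‖ ^ 2 := by
      have : ∀ x ∈ s, ‖⟪(if x = (0, 0) then ξ y else 0), g⟫_ℂ‖ ^ 2 = if x = (0, 0) then ‖⟪ξ y, g⟫_ℂ‖ ^ 2 else 0 := by
        intro x _
        split_ifs <;> simp
      rw [Finset.sum_congr rfl this, Finset.sum_ite_eq' s (0, 0)]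
      split_ifs
      · exact le_rfl
      · positivity
    exact h2.trans h1
  have h1 := h _ _ C C' hC hC' (key C hC ξ hξ) (key C' hC' η hη) 1
  unfold WS at h1
  simp only [Finset.sum_range_one, pow_zero, one_mul] at h1
  have h2 : box 0 = {(0, 0)} := by unfold box; simp
  rw [h2, Finset.sum_singleton, if_pos rfl, if_pos rfl] at h1
  exact h1

/-- averages over boxes vanish -/
lemma avg_zero {T : H →L[ℂ] H} (h : LL T) (ξ η : ℕ × ℕ → H) (C C' : ℝ) (hC : 0 ≤ C) (hC' : 0 ≤ C')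
    (hξ : Bes C ξ) (hη : Bes C' η) :
    Tendsto (fun N : ℕ => (1 / 4 : ℝ) ^ N * ∑ y ∈ box N, ‖⟪η y, T (ξ y)⟫_ℂ‖) atTop (𝓝 0) := by
  rw [Metric.tendsto_atTop]
  intro ε hε
  obtain ⟨F, hF, h1⟩ := h (ε / (2 * (C * C' + 1))) (by positivity)
  set r := Module.finrank ℂ (LinearMap.range (F : H →ₗ[ℂ] H)) with hr
  have h2 : Tendsto (fun N : ℕ => (1 / 4 : ℝ) ^ N * ((r * ‖F‖) * (C * C'))) atTop (𝓝 0) := by
    have := (tendsto_pow_atTop_nhds_zero_of_lt_one (r := (1 / 4 : ℝ)) (by norm_num) (by norm_num)).mul_const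
      ((r * ‖F‖) * (C * C'))
    rwa [zero_mul] at this
  obtain ⟨N₀, hN₀⟩ := Metric.tendsto_atTop.1 h2 (ε / 2) (by positivity)
  refine ⟨N₀, fun N hN => ?_⟩
  have h3 := hN₀ N hN
  rw [dist_zero_right, Real.norm_of_nonneg (by positivity)] at h3 ⊢
  have h4 : ∀ y, ‖⟪η y, T (ξ y)⟫_ℂ‖ ≤ ‖⟪η y, F (ξ y)⟫_ℂ‖ + ε / (2 * (C * C' + 1)) * (C * C') := by
    intro y
    have e : T (ξ y) = F (ξ y) + (T - F) (ξ y) := by rw [sub_apply]; abel
    rw [e, inner_add_right]
    exact (norm_add_le _ _).trans (add_le_add le_rfl (h1.entry ξ η C C' hC hC' hξ hη y))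
  calc (1 / 4 : ℝ) ^ N * ∑ y ∈ box N, ‖⟪η y, T (ξ y)⟫_ℂ‖
      ≤ (1 / 4 : ℝ) ^ N * ∑ y ∈ box N, (‖⟪η y, F (ξ y)⟫_ℂ‖ + ε / (2 * (C * C' + 1)) * (C * C')) :=
        mul_le_mul_of_nonneg_left (Finset.sum_le_sum (fun y _ => h4 y)) (by positivity)
    _ = (1 / 4 : ℝ) ^ N * ∑ y ∈ box N, ‖⟪η y, F (ξ y)⟫_ℂ‖ + ε / (2 * (C * C' + 1)) * (C * C') := by
        rw [Finset.sum_add_distrib, mul_add, Finset.sum_const, box_card, nsmul_eq_mul]
        push_cast
        rw [← mul_assoc ((1 / 4 : ℝ) ^ N), ← mul_pow]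
        norm_num
    _ ≤ (1 / 4 : ℝ) ^ N * ((r * ‖F‖) * (C * C')) + ε / (2 * (C * C' + 1)) * (C * C') := by
        have := rank_bound F hF r le_rfl ξ η C C' hC hC' hξ hη (box N)
        have h5 := mul_le_mul_of_nonneg_left this (by positivity : (0 : ℝ) ≤ (1 / 4) ^ N)
        linarith
    _ < ε := by
        have h5 : ε / (2 * (C * C' + 1)) * (C * C') ≤ ε / 2 := by
          rw [div_mul_eq_mul_div, div_le_div_iff₀ (by positivity) (by norm_num)]
          nlinarith [mul_nonneg hC hC']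
        linarith

/-- telescoping of box averages -/
lemma telescope (φ : ℕ × ℕ → ℂ) (g : ℕ × ℕ → ℝ) (L : ℂ) (B : ℝ)
    (h1 : ∀ y : ℕ × ℕ, ‖φ (y.1 + 1, y.2) - φ y‖ ≤ g y) (h2 : ∀ y : ℕ × ℕ, ‖φ (y.1, y.2 + 1) - φ y‖ ≤ g y)
    (hB : ∀ N, ∑ k ∈ Finset.range N, (1 / 2 : ℝ) ^ k * ∑ y ∈ box k, g y ≤ B)
    (hL : Tendsto (fun N : ℕ => (1 / 4 : ℂ) ^ N * ∑ y ∈ box N, φ y) atTop (𝓝 L)) :
    ‖φ (0, 0) - L‖ ≤ 2 * B := by
  have hg : ∀ y, 0 ≤ g y := fun y => (norm_nonneg _).trans (h1 y)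
  set A : ℕ → ℂ := fun N => (1 / 4 : ℂ) ^ N * ∑ y ∈ box N, φ y with hA
  -- one-dimensional increments
  have d1 : ∀ (a c : ℕ) (q : ℕ), ‖φ (a + q, c) - φ (a, c)‖ ≤ ∑ i ∈ Finset.range q, g (a + i, c) := by
    intro a c q
    induction q with
    | zero => simp
    | succ q ih =>
      rw [Finset.sum_range_succ]
      have e : φ (a + (q + 1), c) - φ (a, c) = (φ (a + q, c) - φ (a, c)) + (φ (a + q + 1, c) - φ (a + q, c)) := by
        rw [← add_assoc]; ring
      rw [e]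
      exact (norm_add_le _ _).trans (add_le_add ih (h1 (a + q, c)))
  have d2 : ∀ (a c : ℕ) (q : ℕ), ‖φ (a, c + q) - φ (a, c)‖ ≤ ∑ i ∈ Finset.range q, g (a, c + i) := by
    intro a c q
    induction q with
    | zero => simp
    | succ q ih =>
      rw [Finset.sum_range_succ]
      have e : φ (a, c + (q + 1)) - φ (a, c) = (φ (a, c + q) - φ (a, c)) + (φ (a, c + q + 1) - φ (a, c + q)) := by
        rw [← add_assoc]; ring
      rw [e]
      exact (norm_add_le _ _).trans (add_le_add ih (h2 (a, c + q)))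
  -- sums of g over translates
  have s1 : ∀ (k a c : ℕ), a + 2 ^ k ≤ 2 ^ (k + 1) → c + 2 ^ k ≤ 2 ^ (k + 1) →
      ∑ y ∈ box k, g (y.1 + a, y.2 + c) ≤ ∑ y ∈ box (k + 1), g y := by
    intro k a c ha hc
    have hinj : Function.Injective (fun y : ℕ × ℕ => (y.1 + a, y.2 + c)) := by
      rintro ⟨p, q⟩ ⟨p', q'⟩ h
      simp only [Prod.mk.injEq] at h
      ext <;> simp only <;> omega
    have : ∑ y ∈ box k, g (y.1 + a, y.2 + c) = ∑ y ∈ (box k).map ⟨_, hinj⟩, g y := by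
      rw [Finset.sum_map]; rfl
    rw [this]
    refine Finset.sum_le_sum_of_subset_of_nonneg ?_ (fun i _ _ => hg i)
    intro y hy
    rw [Finset.mem_map] at hy
    obtain ⟨z, hz, rfl⟩ := hy
    unfold box at hz ⊢
    rw [Finset.mem_product, Finset.mem_range, Finset.mem_range] at hz
    simp only [Function.Embedding.coeFn_mk, Finset.mem_product, Finset.mem_range]
    constructor <;> omega
  -- the step
  have step : ∀ k, ‖A (k + 1) - A k‖ ≤ (1 / 2 : ℝ) ^ k * ∑ y ∈ box (k + 1), g y := by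
    intro k
    set q := 2 ^ k with hq
    have hq2 : 2 ^ (k + 1) = q + q := by rw [hq, pow_succ]; ring
    have hsplit : ∑ y ∈ box (k + 1), φ y = ∑ y ∈ box k, (φ y + φ (y.1 + q, y.2) + φ (y.1, y.2 + q) + φ (y.1 + q, y.2 + q)) := by
      unfold box
      rw [hq2, Finset.sum_product, Finset.sum_product, Finset.sum_range_add]
      have hr : ∀ a, ∑ c ∈ Finset.range (q + q), φ (a, c) = ∑ c ∈ Finset.range q, (φ (a, c) + φ (a, c + q)) := by
        intro a
        rw [Finset.sum_range_add, ← Finset.sum_add_distrib]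
        refine Finset.sum_congr rfl (fun c _ => ?_)
        rw [add_comm q c]
      simp only [hr]
      rw [← Finset.sum_add_distrib]
      refine Finset.sum_congr rfl (fun a _ => ?_)
      rw [← Finset.sum_add_distrib]
      refine Finset.sum_congr rfl (fun c _ => ?_)
      rw [add_comm q a]
      ring
    have hdiff : A (k + 1) - A k = (1 / 4 : ℂ) ^ (k + 1) * ∑ y ∈ box k,
        ((φ (y.1 + q, y.2) - φ y) + (φ (y.1, y.2 + q) - φ y) +
          ((φ (y.1 + q, y.2 + q) - φ (y.1 + q, y.2)) + (φ (y.1 + q, y.2) - φ y))) := by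
      simp only [hA]
      rw [hsplit]
      have e : (1 / 4 : ℂ) ^ k = (1 / 4 : ℂ) ^ (k + 1) * 4 := by rw [pow_succ]; ring
      rw [e, mul_assoc, ← mul_sub, Finset.mul_sum, ← Finset.sum_sub_distrib]
      congr 1
      refine Finset.sum_congr rfl (fun y _ => ?_)
      ring
    rw [hdiff, norm_mul, norm_pow]
    have h14 : ‖(1 / 4 : ℂ)‖ = 1 / 4 := by norm_num
    rw [h14]
    have hS : ‖∑ y ∈ box k,
        ((φ (y.1 + q, y.2) - φ y) + (φ (y.1, y.2 + q) - φ y) +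
          ((φ (y.1 + q, y.2 + q) - φ (y.1 + q, y.2)) + (φ (y.1 + q, y.2) - φ y)))‖ ≤
        4 * (q * ∑ y ∈ box (k + 1), g y) := by
      refine (norm_sum_le _ _).trans ?_
      have hp : ∀ y : ℕ × ℕ, ‖((φ (y.1 + q, y.2) - φ y) + (φ (y.1, y.2 + q) - φ y) +
          ((φ (y.1 + q, y.2 + q) - φ (y.1 + q, y.2)) + (φ (y.1 + q, y.2) - φ y)))‖ ≤
          ∑ i ∈ Finset.range q, g (y.1 + i, y.2) + ∑ i ∈ Finset.range q, g (y.1, y.2 + i) +
          (∑ i ∈ Finset.range q, g (y.1 + q, y.2 + i) + ∑ i ∈ Finset.range q, g (y.1 + i, y.2)) := by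
        intro y
        refine (norm_add_le _ _).trans (add_le_add ((norm_add_le _ _).trans (add_le_add (d1 _ _ _) (d2 _ _ _)))
          ((norm_add_le _ _).trans (add_le_add (d2 _ _ _) (d1 _ _ _))))
      refine (Finset.sum_le_sum (fun y _ => hp y)).trans ?_
      simp only [Finset.sum_add_distrib]
      have t1 : ∑ y ∈ box k, ∑ i ∈ Finset.range q, g (y.1 + i, y.2) ≤ q * ∑ y ∈ box (k + 1), g y := by
        rw [Finset.sum_comm]
        calc ∑ i ∈ Finset.range q, ∑ y ∈ box k, g (y.1 + i, y.2) ≤ ∑ i ∈ Finset.range q, ∑ y ∈ box (k + 1), g y := by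
              refine Finset.sum_le_sum (fun i hi => ?_)
              rw [Finset.mem_range] at hi
              have := s1 k i 0 (by rw [hq2, ← hq]; omega) (by rw [hq2, ← hq]; omega)
              simpa using this
          _ = _ := by rw [Finset.sum_const, Finset.card_range, nsmul_eq_mul]
      have t2 : ∑ y ∈ box k, ∑ i ∈ Finset.range q, g (y.1, y.2 + i) ≤ q * ∑ y ∈ box (k + 1), g y := by
        rw [Finset.sum_comm]
        calc ∑ i ∈ Finset.range q, ∑ y ∈ box k, g (y.1, y.2 + i) ≤ ∑ i ∈ Finset.range q, ∑ y ∈ box (k + 1), g y := by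
              refine Finset.sum_le_sum (fun i hi => ?_)
              rw [Finset.mem_range] at hi
              have := s1 k 0 i (by rw [hq2, ← hq]; omega) (by rw [hq2, ← hq]; omega)
              simpa using this
          _ = _ := by rw [Finset.sum_const, Finset.card_range, nsmul_eq_mul]
      have t3 : ∑ y ∈ box k, ∑ i ∈ Finset.range q, g (y.1 + q, y.2 + i) ≤ q * ∑ y ∈ box (k + 1), g y := by
        rw [Finset.sum_comm]
        calc ∑ i ∈ Finset.range q, ∑ y ∈ box k, g (y.1 + q, y.2 + i) ≤ ∑ i ∈ Finset.range q, ∑ y ∈ box (k + 1), g y := by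
              refine Finset.sum_le_sum (fun i hi => ?_)
              rw [Finset.mem_range] at hi
              exact s1 k q i (by rw [hq2, ← hq]) (by rw [hq2, ← hq]; omega)
          _ = _ := by rw [Finset.sum_const, Finset.card_range, nsmul_eq_mul]
      linarith
    have hqR : (q : ℝ) = 2 ^ k := by rw [hq]; push_cast; rfl
    calc (1 / 4 : ℝ) ^ (k + 1) * _ ≤ (1 / 4 : ℝ) ^ (k + 1) * (4 * (q * ∑ y ∈ box (k + 1), g y)) :=
          mul_le_mul_of_nonneg_left hS (by positivity)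
      _ = ((1 / 4 : ℝ) ^ k * 2 ^ k) * ∑ y ∈ box (k + 1), g y := by rw [hqR, pow_succ]; ring
      _ = _ := by rw [← mul_pow]; norm_num
  have hsum : ∀ N, ‖A N - A 0‖ ≤ 2 * B := by
    intro N
    have e : A N - A 0 = ∑ k ∈ Finset.range N, (A (k + 1) - A k) := (Finset.sum_range_sub A N).symm
    rw [e]
    refine (norm_sum_le _ _).trans ?_
    have h3 : ∑ k ∈ Finset.range N, ‖A (k + 1) - A k‖ ≤
        2 * ∑ k ∈ Finset.range N, (1 / 2 : ℝ) ^ (k + 1) * ∑ y ∈ box (k + 1), g y := by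
      rw [Finset.mul_sum]
      refine Finset.sum_le_sum (fun k _ => (step k).trans (le_of_eq ?_))
      rw [pow_succ]; ring
    refine h3.trans (mul_le_mul_of_nonneg_left ?_ (by norm_num))
    refine le_trans ?_ (hB (N + 1))
    rw [Finset.sum_range_succ']
    have : 0 ≤ (1 / 2 : ℝ) ^ 0 * ∑ y ∈ box 0, g y := mul_nonneg (by positivity) (Finset.sum_nonneg (fun y _ => hg y))
    linarith
  have hA0 : A 0 = φ (0, 0) := by
    simp only [hA, pow_zero, one_mul]
    have : box 0 = {(0, 0)} := by unfold box; simp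
    rw [this, Finset.sum_singleton]
  rw [← hA0, norm_sub_rev]
  refine le_of_tendsto (hL.sub_const (A 0)).norm (Eventually.of_forall (fun N => hsum N))

end Pool.Agent.H145R3.WV
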