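import Mathlib
import Pool.Agent.H145R3.WV2

set_option autoImplicit false

open scoped InnerProductSpace
open Filter Topology ContinuousLinearMap

namespace Pool.Agent.H145R3.WV

variable {H : Type*} [NormedAddCommGroup H] [InnerProductSpace ℂ H] [CompleteSpace H]

lemma tail_vec {C : ℝ} {Ξ : ℤ × ℤ → H} (hΞ : Bes C Ξ) (v : H) (δ : ℝ) (hδ : 0 < δ) :
    ∃ n₀ : ℕ, ∀ (j : ℕ × ℕ → ℤ × ℤ), Function.Injective j → (∀ y, (n₀ : ℤ) ≤ (j y).1) →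
      ∀ s : Finset (ℕ × ℕ), ∑ y ∈ s, ‖⟪Ξ (j y), v⟫_ℂ‖ ^ 2 ≤ δ ^ 2 := by
  have hs : Summable (fun x => ‖⟪Ξ x, v⟫_ℂ‖ ^ 2) :=
    summable_of_sum_le (fun _ => sq_nonneg _) (fun s => hΞ s v)
  obtain ⟨s₀, hs₀⟩ := summable_iff_vanishing_norm.1 hs (δ ^ 2) (by positivity)
  obtain ⟨n₀, hn₀⟩ : ∃ n₀ : ℕ, ∀ x ∈ s₀, x.1 < (n₀ : ℤ) := by
    refine ⟨(s₀.sup (fun x => x.1.toNat)) + 1, fun x hx => ?_⟩
    have h1 : x.1.toNat ≤ s₀.sup (fun x => x.1.toNat) := Finset.le_sup (f := fun x : ℤ × ℤ => x.1.toNat) hx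
    have h2 := Int.self_le_toNat x.1
    push_cast
    omega
  refine ⟨n₀, fun j hj hjn s => ?_⟩
  have h1 := hs₀ (s.map ⟨j, hj⟩) (by
    rw [Finset.disjoint_left]
    intro x hx hx'
    rw [Finset.mem_map] at hx
    obtain ⟨y, -, rfl⟩ := hx
    have h3 := hn₀ _ hx'
    have h4 := hjn y
    simp only [Function.Embedding.coeFn_mk] at h3
    omega)
  rw [Finset.sum_map, Real.norm_eq_abs] at h1
  exact (le_abs_self _).trans h1.le

lemma fr_rep' (F : H →L[ℂ] H) (hF : FR F) :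
    ∃ (d : ℕ) (f e : Fin d → H),
      (∀ i, ‖f i‖ ≤ ‖F‖) ∧ (∀ i, ‖e i‖ = 1) ∧ ∀ x y : H, ⟪y, F x⟫_ℂ = ∑ i, ⟪f i, x⟫_ℂ * ⟪y, e i⟫_ℂ := by
  obtain ⟨f, e, h⟩ := fr_rep F hF
  exact ⟨_, f, e, h⟩

lemma tail_fr {C : ℝ} {Ξ : ℤ × ℤ → H} (hΞ : Bes C Ξ) (F : H →L[ℂ] H) (hF : FR F) (ε : ℝ) (hε : 0 < ε) :
    ∃ n₀ : ℕ, ∀ (j : ℕ × ℕ → ℤ × ℤ), Function.Injective j → (∀ y, (n₀ : ℤ) ≤ (j y).1) →
      ∀ (η : ℕ × ℕ → H) (C' : ℝ), 0 ≤ C' → Bes C' η → ∀ s : Finset (ℕ × ℕ),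
        ∑ y ∈ s, ‖⟪η y, F (Ξ (j y))⟫_ℂ‖ ≤ ε * C' ∧ ∑ y ∈ s, ‖⟪Ξ (j y), F (η y)⟫_ℂ‖ ≤ ε * C' := by
  obtain ⟨d, f, e, hf, he, hrep⟩ := fr_rep' F hF
  set δ : ℝ := ε / (d * (‖F‖ + 1) + 1) with hδ
  have hδ0 : 0 < δ := by positivity
  choose n1 hn1 using fun i => tail_vec hΞ (f i) δ hδ0
  choose n2 hn2 using fun i => tail_vec hΞ (e i) δ hδ0
  refine ⟨Finset.univ.sup n1 + Finset.univ.sup n2, fun j hj hjn η C' hC' hη s => ?_⟩
  have hj1 : ∀ i, ∀ y, (n1 i : ℤ) ≤ (j y).1 := by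
    intro i y
    have h1 : n1 i ≤ Finset.univ.sup n1 := Finset.le_sup (Finset.mem_univ i)
    have h2 := hjn y
    push_cast at h2
    omega
  have hj2 : ∀ i, ∀ y, (n2 i : ℤ) ≤ (j y).1 := by
    intro i y
    have h1 : n2 i ≤ Finset.univ.sup n2 := Finset.le_sup (Finset.mem_univ i)
    have h2 := hjn y
    push_cast at h2
    omega
  have hfin : (d : ℝ) * (δ * C') * (‖F‖ + 1) ≤ ε * C' := by
    have h1 : (d : ℝ) * (‖F‖ + 1) * δ ≤ ε := by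
      rw [hδ, mul_div_assoc', div_le_iff₀ (by positivity)]
      nlinarith [norm_nonneg F]
    calc (d : ℝ) * (δ * C') * (‖F‖ + 1) = ((d : ℝ) * (‖F‖ + 1) * δ) * C' := by ring
      _ ≤ ε * C' := mul_le_mul_of_nonneg_right h1 hC'
  constructor
  · have h1 : ∀ y, ‖⟪η y, F (Ξ (j y))⟫_ℂ‖ ≤ ∑ i, ‖⟪Ξ (j y), f i⟫_ℂ‖ * ‖⟪η y, e i⟫_ℂ‖ := by
      intro y
      rw [hrep]
      refine (norm_sum_le _ _).trans (Finset.sum_le_sum (fun i _ => ?_))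
      rw [norm_mul, norm_inner_symm]
    calc ∑ y ∈ s, ‖⟪η y, F (Ξ (j y))⟫_ℂ‖ ≤ ∑ y ∈ s, ∑ i, ‖⟪Ξ (j y), f i⟫_ℂ‖ * ‖⟪η y, e i⟫_ℂ‖ :=
          Finset.sum_le_sum (fun y _ => h1 y)
      _ = ∑ i, ∑ y ∈ s, ‖⟪Ξ (j y), f i⟫_ℂ‖ * ‖⟪η y, e i⟫_ℂ‖ := Finset.sum_comm
      _ ≤ ∑ i : Fin d, δ * C' := by
          refine Finset.sum_le_sum (fun i _ => ?_)
          refine cs_sum s _ _ _ _ hδ0.le hC' (hn1 i j hj (hj1 i) s) ?_
          have := hη s (e i)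
          rwa [he, one_pow, mul_one] at this
      _ = (d : ℝ) * (δ * C') := by rw [Finset.sum_const, Finset.card_univ, Fintype.card_fin, nsmul_eq_mul]
      _ ≤ (d : ℝ) * (δ * C') * (‖F‖ + 1) := le_mul_of_one_le_right (by positivity) (by linarith [norm_nonneg F])
      _ ≤ ε * C' := hfin
  · have h1 : ∀ y, ‖⟪Ξ (j y), F (η y)⟫_ℂ‖ ≤ ∑ i, ‖⟪Ξ (j y), e i⟫_ℂ‖ * ‖⟪η y, f i⟫_ℂ‖ := by
      intro y
      rw [hrep]
      refine (norm_sum_le _ _).trans (Finset.sum_le_sum (fun i _ => ?_))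
      rw [norm_mul, norm_inner_symm, mul_comm]
    calc ∑ y ∈ s, ‖⟪Ξ (j y), F (η y)⟫_ℂ‖ ≤ ∑ y ∈ s, ∑ i, ‖⟪Ξ (j y), e i⟫_ℂ‖ * ‖⟪η y, f i⟫_ℂ‖ :=
          Finset.sum_le_sum (fun y _ => h1 y)
      _ = ∑ i, ∑ y ∈ s, ‖⟪Ξ (j y), e i⟫_ℂ‖ * ‖⟪η y, f i⟫_ℂ‖ := Finset.sum_comm
      _ ≤ ∑ i : Fin d, δ * (C' * (‖F‖ + 1)) := by
          refine Finset.sum_le_sum (fun i _ => ?_)
          refine cs_sum s _ _ _ _ hδ0.le (by positivity) (hn2 i j hj (hj2 i) s) ?_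
          refine (hη s (f i)).trans ?_
          rw [mul_pow]
          refine mul_le_mul_of_nonneg_left (pow_le_pow_left₀ (norm_nonneg _) ?_ 2) (sq_nonneg _)
          linarith [hf i]
      _ = (d : ℝ) * (δ * C') * (‖F‖ + 1) := by
          rw [Finset.sum_const, Finset.card_univ, Fintype.card_fin, nsmul_eq_mul]; ring
      _ ≤ ε * C' := hfin

/-- unitary representations of the lattice -/
structure Rep (U : ℤ × ℤ → (H →L[ℂ] H)) : Prop where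
  zero : U 0 = 1
  add : ∀ x y, U (x + y) = U x * U y
  star : ∀ x, star (U x) = U (-x)

lemma Rep.add_apply {U : ℤ × ℤ → (H →L[ℂ] H)} (hU : Rep U) (x y : ℤ × ℤ) (a : H) : U (x + y) a = U x (U y a) := by
  rw [hU.add]; rfl

lemma Rep.comm {U : ℤ × ℤ → (H →L[ℂ] H)} (hU : Rep U) (x y : ℤ × ℤ) (a : H) : U x (U y a) = U y (U x a) := by
  rw [← hU.add_apply, add_comm, hU.add_apply]

lemma Rep.neg_cancel {U : ℤ × ℤ → (H →L[ℂ] H)} (hU : Rep U) (x : ℤ × ℤ) (a : H) : U (-x) (U x a) = a := by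
  rw [← hU.add_apply, neg_add_cancel, hU.zero]; rfl

lemma Rep.inner {U : ℤ × ℤ → (H →L[ℂ] H)} (hU : Rep U) (x : ℤ × ℤ) (a b : H) : ⟪U x a, U x b⟫_ℂ = ⟪a, b⟫_ℂ := by
  rw [inner_star, hU.star, ← mul_apply_eq_comp, ← hU.add, neg_add_cancel, hU.zero]
  rfl

lemma Rep.norm {U : ℤ × ℤ → (H →L[ℂ] H)} (hU : Rep U) (x : ℤ × ℤ) (a : H) : ‖U x a‖ = ‖a‖ := by
  have h := hU.inner x a a
  have h1 := inner_self_eq_norm_sq_to_K (𝕜 := ℂ) (U x a)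
  have h2 := inner_self_eq_norm_sq_to_K (𝕜 := ℂ) a
  rw [h, h2] at h1
  have h3 : ‖a‖ ^ 2 = ‖U x a‖ ^ 2 := by exact_mod_cast h1
  exact ((pow_left_inj₀ (norm_nonneg _) (norm_nonneg _) two_ne_zero).1 h3).symm

lemma Rep.opnorm {U : ℤ × ℤ → (H →L[ℂ] H)} (hU : Rep U) (x : ℤ × ℤ) : ‖U x‖ ≤ 1 :=
  opNorm_le_bound _ zero_le_one (fun a => by rw [hU.norm, one_mul])

lemma WS_le_of_sums (T : H →L[ℂ] H) (ξ η : ℕ × ℕ → H) (M : ℝ)
    (h : ∀ s : Finset (ℕ × ℕ), ∑ y ∈ s, ‖⟪η y, T (ξ y)⟫_ℂ‖ ≤ M) (N : ℕ) : WS N T ξ η ≤ 2 * M := by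
  have hM : 0 ≤ M := by simpa using h ∅
  unfold WS
  calc ∑ k ∈ Finset.range N, (1 / 2 : ℝ) ^ k * ∑ y ∈ box k, ‖⟪η y, T (ξ y)⟫_ℂ‖
      ≤ ∑ k ∈ Finset.range N, (1 / 2 : ℝ) ^ k * M :=
        Finset.sum_le_sum (fun k _ => mul_le_mul_of_nonneg_left (h _) (by positivity))
    _ = (∑ k ∈ Finset.range N, (1 / 2 : ℝ) ^ k) * M := by rw [Finset.sum_mul]
    _ ≤ 2 * M := mul_le_mul_of_nonneg_right (geom_sum_half_le N) hM

lemma WS_add (N : ℕ) (T T' : H →L[ℂ] H) (ξ η : ℕ × ℕ → H) :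
    WS N (T + T') ξ η ≤ WS N T ξ η + WS N T' ξ η := by
  unfold WS
  rw [← Finset.sum_add_distrib]
  refine Finset.sum_le_sum (fun k _ => ?_)
  rw [← mul_add, ← Finset.sum_add_distrib]
  refine mul_le_mul_of_nonneg_left (Finset.sum_le_sum (fun y _ => ?_)) (by positivity)
  rw [add_apply, inner_add_right]
  exact norm_add_le _ _

/-- uniform smallness of the weighted sums for tail families -/
lemma tail_LL {C : ℝ} (hC : 0 ≤ C) {Ξ : ℤ × ℤ → H} (hΞ : Bes C Ξ) (T : H →L[ℂ] H) (hT : LL T) (ε : ℝ) (hε : 0 < ε) :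
    ∃ n₀ : ℕ, ∀ (j : ℕ × ℕ → ℤ × ℤ), Function.Injective j → (∀ y, (n₀ : ℤ) ≤ (j y).1) →
      ∀ (η : ℕ × ℕ → H), Bes C η → ∀ N,
        WS N T (fun y => Ξ (j y)) η ≤ ε ∧ WS N T η (fun y => Ξ (j y)) ≤ ε := by
  obtain ⟨F, hF, hFT⟩ := hT (ε / (2 * (C * C + 1))) (by positivity)
  obtain ⟨n₀, hn₀⟩ := tail_fr hΞ F hF (ε / (4 * (C + 1))) (by positivity)
  refine ⟨n₀, fun j hj hjn η hη N => ?_⟩
  have hΞj : Bes C (fun y => Ξ (j y)) := hΞ.comp_inj j hj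
  have e : T = F + (T - F) := by abel
  have b1 : ε / (2 * (C * C + 1)) * (C * C) ≤ ε / 2 := by
    rw [div_mul_eq_mul_div, div_le_div_iff₀ (by positivity) (by norm_num)]
    nlinarith [mul_nonneg hC hC]
  have b2 : 2 * (ε / (4 * (C + 1)) * C) ≤ ε / 2 := by
    rw [div_mul_eq_mul_div, mul_div_assoc', div_le_div_iff₀ (by positivity) (by norm_num)]
    nlinarith
  constructor
  · have h1 := WS_le_of_sums F (fun y => Ξ (j y)) η _ (fun s => (hn₀ j hj hjn η C hC hη s).1) N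
    have h2 := hFT (fun y => Ξ (j y)) η C C hC hC hΞj hη N
    have h3 := WS_add N F (T - F) (fun y => Ξ (j y)) η
    rw [← e] at h3
    linarith
  · have h1 := WS_le_of_sums F η (fun y => Ξ (j y)) _ (fun s => (hn₀ j hj hjn η C hC hη s).2) N
    have h2 := hFT η (fun y => Ξ (j y)) C C hC hC hη hΞj N
    have h3 := WS_add N F (T - F) η (fun y => Ξ (j y))
    rw [← e] at h3
    linarith

theorem cauchy_main (U V : ℤ × ℤ → (H →L[ℂ] H)) (hU : Rep U) (hV : Rep V) (hΔ : ∀ x, LL (U x - V x))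
    (h : H) (C : ℝ) (hC : 0 ≤ C) (hB : Bes C (fun x => U x h)) :
    CauchySeq (fun n : ℕ => V (-((n : ℤ), 0)) (U ((n : ℤ), 0) h)) := by
  set w : ℕ → H := fun n => V (-((n : ℤ), 0)) (U ((n : ℤ), 0) h) with hw
  have hwn : ∀ n, ‖w n‖ = ‖h‖ := fun n => by simp only [hw]; rw [hV.norm, hU.norm]
  -- main claim
  have claim : ∀ ε > 0, ∃ n₀ : ℕ, ∀ n ≥ n₀, ∀ m ≥ n₀, ‖⟪w m, w n⟫_ℂ - ((‖h‖ ^ 2 : ℝ) : ℂ)‖ ≤ ε := by
    intro ε hε
    obtain ⟨n1, hn1⟩ := tail_LL hC hB (U (1, 0) - V (1, 0)) (hΔ _) (ε / 8) (by positivity)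
    obtain ⟨n2, hn2⟩ := tail_LL hC hB (U (0, 1) - V (0, 1)) (hΔ _) (ε / 8) (by positivity)
    refine ⟨n1 + n2, fun n hn m hm => ?_⟩
    set xn : ℤ × ℤ := ((n : ℤ), 0) with hxn
    set xm : ℤ × ℤ := ((m : ℤ), 0) with hxm
    set Z : ℤ × ℤ := xm - xn with hZ
    let emb : ℕ × ℕ → ℤ × ℤ := fun y => ((y.1 : ℤ), (y.2 : ℤ))
    let ξ : ℕ × ℕ → H := fun y => U (xn + emb y) h
    let η : ℕ × ℕ → H := fun y => U (xm + emb y) h
    let φ : ℕ × ℕ → ℂ := fun y => ⟪η y, V Z (ξ y)⟫_ℂ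
    have hembinj : ∀ a : ℤ × ℤ, Function.Injective (fun y => a + emb y) := by
      intro a y z hyz
      simp only [emb, Prod.ext_iff, Prod.fst_add, Prod.snd_add] at hyz
      ext <;> omega
    have hξB : Bes C ξ := hB.comp_inj _ (hembinj xn)
    have hηB : Bes C η := hB.comp_inj _ (hembinj xm)
    have hφ0 : φ (0, 0) = ⟪w m, w n⟫_ℂ := by
      simp only [φ, η, ξ, hw, emb, Nat.cast_zero]
      rw [← Prod.zero_eq_mk, add_zero, add_zero, hZ, sub_eq_add_neg, hV.add_apply]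
      have e := hV.inner (-xm) (U xm h) (V xm (V (-xn) (U xn h)))
      rw [← e, hV.neg_cancel]
    -- differences
    have hdiff : ∀ (a : ℤ × ℤ) (y y' : ℕ × ℕ), emb y' = a + emb y →
        φ y' - φ y = ⟪V (-Z) (U a (η y)), (U a - V a) (ξ y)⟫_ℂ - ⟪U a (η y), (U a - V a) (V Z (ξ y))⟫_ℂ := by
      intro a y y' hyy
      have e1 : η y' = U a (η y) := by
        simp only [η]; rw [hyy, ← hU.add_apply]; congr 2; abel
      have e2 : ξ y' = U a (ξ y) := by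
        simp only [ξ]; rw [hyy, ← hU.add_apply]; congr 2; abel
      have e3 : ⟪V (-Z) (U a (η y)), (U a - V a) (ξ y)⟫_ℂ = ⟪U a (η y), V Z ((U a - V a) (ξ y))⟫_ℂ := by
        rw [inner_star, hV.star, neg_neg]
      have e4 : V Z (V a (ξ y)) = V a (V Z (ξ y)) := hV.comm _ _ _
      have e5 : φ y = ⟪U a (η y), U a (V Z (ξ y))⟫_ℂ := by
        simp only [φ]; rw [hU.inner]
      rw [e3, e5]
      simp only [φ]
      rw [e1, e2]
      simp only [sub_apply, map_sub, inner_sub_right]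
      rw [e4]
      ring
    let g1 : ℕ × ℕ → ℝ := fun y => ‖⟪V (-Z) (U (1, 0) (η y)), (U (1, 0) - V (1, 0)) (ξ y)⟫_ℂ‖ +
      ‖⟪U (1, 0) (η y), (U (1, 0) - V (1, 0)) (V Z (ξ y))⟫_ℂ‖
    let g2 : ℕ × ℕ → ℝ := fun y => ‖⟪V (-Z) (U (0, 1) (η y)), (U (0, 1) - V (0, 1)) (ξ y)⟫_ℂ‖ +
      ‖⟪U (0, 1) (η y), (U (0, 1) - V (0, 1)) (V Z (ξ y))⟫_ℂ‖
    have hd1 : ∀ y : ℕ × ℕ, ‖φ (y.1 + 1, y.2) - φ y‖ ≤ g1 y + g2 y := by
      intro y
      rw [hdiff (1, 0) y (y.1 + 1, y.2) (by simp [emb, add_comm])]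
      have h0 : 0 ≤ g2 y := add_nonneg (norm_nonneg _) (norm_nonneg _)
      exact (norm_sub_le _ _).trans (by simp only [g1]; linarith)
    have hd2 : ∀ y : ℕ × ℕ, ‖φ (y.1, y.2 + 1) - φ y‖ ≤ g1 y + g2 y := by
      intro y
      rw [hdiff (0, 1) y (y.1, y.2 + 1) (by simp [emb, add_comm])]
      have h0 : 0 ≤ g1 y := add_nonneg (norm_nonneg _) (norm_nonneg _)
      exact (norm_sub_le _ _).trans (by simp only [g2]; linarith)
    -- Bessel constants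
    have hVle : ∀ (x : ℤ × ℤ) (ζ : ℕ × ℕ → H), Bes C ζ → Bes C (fun y => V x (ζ y)) := by
      intro x ζ hζ
      refine (hζ.comp_op (V x)).mono (by positivity) ?_
      have := hV.opnorm x
      nlinarith
    have hUη : ∀ a : ℤ × ℤ, ∀ y, U a (η y) = U ((a + xm) + emb y) h := by
      intro a y
      simp only [η]; rw [← hU.add_apply]; congr 2; abel
    have hUηB : ∀ a : ℤ × ℤ, Bes C (fun y => U a (η y)) := by
      intro a
      simp only [hUη]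
      exact hB.comp_inj _ (hembinj (a + xm))
    have key : ∀ (a : ℤ × ℤ) (n' : ℕ) (_ : 0 ≤ a.1) (_ : n' ≤ n) (_ : n' ≤ m)
        (_ : ∀ (j : ℕ × ℕ → ℤ × ℤ), Function.Injective j → (∀ y, (n' : ℤ) ≤ (j y).1) →
          ∀ (η : ℕ × ℕ → H), Bes C η → ∀ N,
          WS N (U a - V a) (fun y => U (j y) h) η ≤ ε / 8 ∧ WS N (U a - V a) η (fun y => U (j y) h) ≤ ε / 8),
        ∀ N, ∑ k ∈ Finset.range N, (1 / 2 : ℝ) ^ k * ∑ y ∈ box k,
          (‖⟪V (-Z) (U a (η y)), (U a - V a) (ξ y)⟫_ℂ‖ + ‖⟪U a (η y), (U a - V a) (V Z (ξ y))⟫_ℂ‖) ≤ ε / 4 := by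
      intro a n' ha hn' hm' hws N
      have k1 := (hws (fun y => xn + emb y) (hembinj xn) (by
        intro y
        simp only [xn, emb, Prod.fst_add]
        have : (n' : ℤ) ≤ n := by exact_mod_cast hn'
        omega) (fun y => V (-Z) (U a (η y))) (hVle _ _ (hUηB a)) N).1
      have k2 := (hws (fun y => (a + xm) + emb y) (hembinj (a + xm)) (by
        intro y
        simp only [xm, emb, Prod.fst_add]
        have : (n' : ℤ) ≤ m := by exact_mod_cast hm'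
        omega) (fun y => V Z (ξ y)) (hVle _ _ hξB) N).2
      simp only [← hUη] at k2
      have e : ∑ k ∈ Finset.range N, (1 / 2 : ℝ) ^ k * ∑ y ∈ box k,
          (‖⟪V (-Z) (U a (η y)), (U a - V a) (ξ y)⟫_ℂ‖ + ‖⟪U a (η y), (U a - V a) (V Z (ξ y))⟫_ℂ‖) =
          WS N (U a - V a) (fun y => U (xn + emb y) h) (fun y => V (-Z) (U a (η y))) +
          WS N (U a - V a) (fun y => V Z (ξ y)) (fun y => U a (η y)) := by
        unfold WS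
        rw [← Finset.sum_add_distrib]
        refine Finset.sum_congr rfl (fun k _ => ?_)
        rw [Finset.sum_add_distrib, mul_add]
      rw [e]
      linarith
    have hb1 := key (1, 0) n1 (by norm_num) (by omega) (by omega) hn1
    have hb2 := key (0, 1) n2 (by norm_num) (by omega) (by omega) hn2
    have hBsum : ∀ N, ∑ k ∈ Finset.range N, (1 / 2 : ℝ) ^ k * ∑ y ∈ box k, (g1 y + g2 y) ≤ ε / 2 := by
      intro N
      have e : ∑ k ∈ Finset.range N, (1 / 2 : ℝ) ^ k * ∑ y ∈ box k, (g1 y + g2 y) =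
          ∑ k ∈ Finset.range N, (1 / 2 : ℝ) ^ k * ∑ y ∈ box k, g1 y +
          ∑ k ∈ Finset.range N, (1 / 2 : ℝ) ^ k * ∑ y ∈ box k, g2 y := by
        rw [← Finset.sum_add_distrib]
        refine Finset.sum_congr rfl (fun k _ => ?_)
        rw [Finset.sum_add_distrib, mul_add]
      rw [e]
      have h1 := hb1 N
      have h2 := hb2 N
      simp only [g1, g2]
      linarith
    have hlim : Tendsto (fun N : ℕ => (1 / 4 : ℂ) ^ N * ∑ y ∈ box N, φ y) atTop (𝓝 ((‖h‖ ^ 2 : ℝ) : ℂ)) := by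
      have h0 := avg_zero (hΔ Z) ξ η C C hC hC hξB hηB
      have hφy : ∀ y, φ y = ((‖h‖ ^ 2 : ℝ) : ℂ) - ⟪η y, (U Z - V Z) (ξ y)⟫_ℂ := by
        intro y
        rw [sub_apply, inner_sub_right]
        have e1 : U Z (ξ y) = η y := by
          simp only [ξ, η]; rw [← hU.add_apply]; congr 2; rw [hZ]; abel
        have e2 : ⟪η y, U Z (ξ y)⟫_ℂ = ((‖h‖ ^ 2 : ℝ) : ℂ) := by
          rw [e1]
          simp only [η]
          rw [hU.inner, inner_self_eq_norm_sq_to_K]; norm_num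
        rw [e2]
        simp only [φ]
        ring
      have e : ∀ N, (1 / 4 : ℂ) ^ N * ∑ y ∈ box N, φ y = ((‖h‖ ^ 2 : ℝ) : ℂ) -
          (1 / 4 : ℂ) ^ N * ∑ y ∈ box N, ⟪η y, (U Z - V Z) (ξ y)⟫_ℂ := by
        intro N
        simp only [hφy]
        rw [Finset.sum_sub_distrib, mul_sub, Finset.sum_const, box_card, nsmul_eq_mul]
        congr 1
        push_cast
        rw [← mul_assoc, ← mul_pow]
        norm_num
      simp only [e]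
      have h1 : Tendsto (fun N : ℕ => (1 / 4 : ℂ) ^ N * ∑ y ∈ box N, ⟪η y, (U Z - V Z) (ξ y)⟫_ℂ) atTop (𝓝 0) := by
        refine squeeze_zero_norm (fun N => ?_) h0
        rw [norm_mul, norm_pow]
        have h14 : ‖(1 / 4 : ℂ)‖ = 1 / 4 := by norm_num
        rw [h14]
        exact mul_le_mul_of_nonneg_left (norm_sum_le _ _) (by positivity)
      have := h1.const_sub (((‖h‖ ^ 2 : ℝ) : ℂ))
      rwa [sub_zero] at this
    have := telescope φ (fun y => g1 y + g2 y) _ (ε / 2) hd1 hd2 hBsum hlim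
    rw [hφ0] at this
    linarith
  rw [Metric.cauchySeq_iff]
  intro ε hε
  obtain ⟨n₀, hn₀⟩ := claim (ε ^ 2 / 4) (by positivity)
  refine ⟨n₀, fun m hm n hn => ?_⟩
  have h1 := hn₀ n hn m hm
  have h2 : ‖w m - w n‖ ^ 2 = 2 * (‖h‖ ^ 2 - (⟪w m, w n⟫_ℂ).re) := by
    have := norm_sub_sq (𝕜 := ℂ) (w m) (w n)
    rw [this, hwn, hwn]
    simp only [RCLike.re_to_complex]
    ring
  have h3 : ‖h‖ ^ 2 - (⟪w m, w n⟫_ℂ).re ≤ ε ^ 2 / 4 := by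
    have h4 := Complex.abs_re_le_norm (⟪w m, w n⟫_ℂ - ((‖h‖ ^ 2 : ℝ) : ℂ))
    rw [Complex.sub_re, Complex.ofReal_re] at h4
    have h5 := (abs_le.1 (h4.trans h1)).1
    linarith
  rw [dist_eq_norm]
  have h6 : ‖w m - w n‖ ^ 2 < ε ^ 2 := by
    rw [h2]; nlinarith [sq_nonneg ε, pow_pos hε 2]
  exact lt_of_pow_lt_pow_left₀ 2 hε.le h6

end Pool.Agent.H145R3.WV
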