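import Mathlib
import Pool.Agent.H145R3.WV3

set_option autoImplicit false

open scoped InnerProductSpace
open Filter Topology ContinuousLinearMap

namespace Pool.Agent.H145R3.WV

variable {H : Type*} [NormedAddCommGroup H] [InnerProductSpace ℂ H] [CompleteSpace H]

/-- the set whose infimum is an approximation number -/
def apS (K : H →L[ℂ] H) (k : ℕ) : Set ℝ :=
  {r : ℝ | ∃ F : H →L[ℂ] H, Module.rank ℂ (LinearMap.range (F : H →ₗ[ℂ] H)) ≤ (k : Cardinal) ∧ r = ‖K - F‖}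

lemma apS_nonempty (K : H →L[ℂ] H) (k : ℕ) : (apS K k).Nonempty := by
  refine ⟨‖K - 0‖, 0, ?_, rfl⟩
  have : LinearMap.range ((0 : H →L[ℂ] H) : H →ₗ[ℂ] H) = ⊥ := by simp
  rw [this, rank_bot]
  exact zero_le

lemma apS_nonneg (K : H →L[ℂ] H) (k : ℕ) : 0 ≤ sInf (apS K k) := by
  apply Real.sInf_nonneg
  rintro r ⟨F, -, rfl⟩
  exact norm_nonneg _

lemma apS_bdd (K : H →L[ℂ] H) (k : ℕ) : BddBelow (apS K k) := by
  refine ⟨0, ?_⟩
  rintro r ⟨F, -, rfl⟩
  exact norm_nonneg _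

lemma apS_anti (K : H →L[ℂ] H) {k l : ℕ} (h : k ≤ l) : sInf (apS K l) ≤ sInf (apS K k) := by
  apply csInf_le_csInf (apS_bdd K l) (apS_nonempty K k)
  rintro r ⟨F, hF, rfl⟩
  refine ⟨F, hF.trans ?_, rfl⟩
  exact_mod_cast h

lemma fr_of_rank {F : H →L[ℂ] H} {k : ℕ} (hF : Module.rank ℂ (LinearMap.range (F : H →ₗ[ℂ] H)) ≤ (k : Cardinal)) :
    FR F ∧ Module.finrank ℂ (LinearMap.range (F : H →ₗ[ℂ] H)) ≤ k :=
  ⟨Module.rank_lt_aleph0_iff.1 (lt_of_le_of_lt hF Cardinal.natCast_lt_aleph0), Module.finrank_le_of_rank_le hF⟩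

lemma rank_neg' (F : H →L[ℂ] H) : LinearMap.range ((-F : H →L[ℂ] H) : H →ₗ[ℂ] H) = LinearMap.range (F : H →ₗ[ℂ] H) := by
  ext x
  constructor
  · rintro ⟨y, rfl⟩
    exact ⟨-y, by simp⟩
  · rintro ⟨y, rfl⟩
    exact ⟨-y, by simp⟩

theorem approx_LL (K : H →L[ℂ] H)
    (hK : Summable (fun k : ℕ => sInf (apS K k) / Real.sqrt ((k : ℝ) + 1))) :
    ∃ γ : ℝ, 0 ≤ γ ∧ LZ γ K ∧ LL K := by
  have hex : ∀ m : ℕ, ∃ F : H →L[ℂ] H, Module.rank ℂ (LinearMap.range (F : H →ₗ[ℂ] H)) ≤ ((4 ^ m : ℕ) : Cardinal) ∧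
      ‖K - F‖ ≤ sInf (apS K (4 ^ m)) + (1 / 4) ^ m := by
    intro m
    obtain ⟨r, ⟨F, hF, rfl⟩, hr⟩ := Real.lt_sInf_add_pos (apS_nonempty K (4 ^ m)) (ε := (1 / 4) ^ m) (by positivity)
    exact ⟨F, hF, hr.le⟩
  choose F hFr hFn using hex
  -- summability
  have hsum1 : Summable (fun m : ℕ => (2 : ℝ) ^ m * sInf (apS K (4 ^ m))) := by
    have h1 : Summable (fun k : ℕ => (2 : ℝ) ^ k * (sInf (apS K (2 ^ k)) / Real.sqrt (((2 ^ k : ℕ) : ℝ) + 1))) := by
      refine (summable_condensed_iff_of_nonneg (f := fun k : ℕ => sInf (apS K k) / Real.sqrt ((k : ℝ) + 1)) ?_ ?_).2 hK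
      · intro n; exact div_nonneg (apS_nonneg _ _) (Real.sqrt_nonneg _)
      · intro m n _ hmn
        apply div_le_div₀ (apS_nonneg _ _) (apS_anti K hmn) (Real.sqrt_pos.2 (by positivity))
        apply Real.sqrt_le_sqrt
        have : (m : ℝ) ≤ n := by exact_mod_cast hmn
        linarith
    have h2 := h1.comp_injective (i := fun m : ℕ => 2 * m) (fun a b h => by simpa using h)
    refine Summable.of_nonneg_of_le (fun m => mul_nonneg (by positivity) (apS_nonneg _ _)) (fun m => ?_) (h2.mul_left 2)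
    simp only [Function.comp_apply]
    have e1 : 2 ^ (2 * m) = 4 ^ m := by rw [pow_mul]; norm_num
    have e2 : (2 : ℝ) ^ (2 * m) = 2 ^ m * 2 ^ m := by rw [← pow_add]; congr 1; ring
    rw [e1, e2]
    have h3 : Real.sqrt (((4 ^ m : ℕ) : ℝ) + 1) ≤ 2 * 2 ^ m := by
      rw [Real.sqrt_le_left (by positivity)]
      push_cast
      have h4 : (1 : ℝ) ≤ 4 ^ m := one_le_pow₀ (by norm_num)
      have h5 : (2 * 2 ^ m : ℝ) ^ 2 = 4 * 4 ^ m := by
        rw [mul_pow, ← pow_mul, mul_comm m 2, pow_mul]; norm_num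
      rw [h5]; linarith
    have h6 : 0 < Real.sqrt (((4 ^ m : ℕ) : ℝ) + 1) := Real.sqrt_pos.2 (by positivity)
    have h7 := apS_nonneg K (4 ^ m)
    rw [mul_div_assoc', mul_div_assoc', le_div_iff₀ h6]
    have h8 : (0 : ℝ) < 2 ^ m := by positivity
    calc (2 : ℝ) ^ m * sInf (apS K (4 ^ m)) * Real.sqrt (((4 ^ m : ℕ) : ℝ) + 1)
        ≤ (2 : ℝ) ^ m * sInf (apS K (4 ^ m)) * (2 * 2 ^ m) := mul_le_mul_of_nonneg_left h3 (by positivity)
      _ = _ := by ring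
  have hsum2 : Summable (fun m : ℕ => (2 : ℝ) ^ m * (1 / 4) ^ m) := by
    have : (fun m : ℕ => (2 : ℝ) ^ m * (1 / 4) ^ m) = fun m : ℕ => (1 / 2 : ℝ) ^ m := by
      funext m; rw [← mul_pow]; norm_num
    rw [this]
    exact summable_geometric_two
  let D : ℕ → (H →L[ℂ] H) := fun m => F (m + 1) - F m
  have hFRm : ∀ m, FR (F m) := fun m => (fr_of_rank (hFr m)).1
  have hDFR : ∀ m, FR (D m) := by
    intro m
    have := (hFRm (m + 1)).add (hFRm m).neg
    simpa [D, sub_eq_add_neg] using this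
  have hDrank : ∀ m, Module.finrank ℂ (LinearMap.range (D m : H →ₗ[ℂ] H)) ≤ 5 * 4 ^ m := by
    intro m
    apply Module.finrank_le_of_rank_le
    have h1 := LinearMap.rank_add_le (F (m + 1) : H →ₗ[ℂ] H) ((-F m : H →L[ℂ] H) : H →ₗ[ℂ] H)
    have h2 : ((D m : H →L[ℂ] H) : H →ₗ[ℂ] H) = (F (m + 1) : H →ₗ[ℂ] H) + ((-F m : H →L[ℂ] H) : H →ₗ[ℂ] H) := by
      ext x; simp [D, sub_eq_add_neg]
    rw [h2]
    refine h1.trans ?_
    unfold LinearMap.rank
    rw [rank_neg']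
    refine (add_le_add (hFr (m + 1)) (hFr m)).trans ?_
    have h3 : 4 ^ (m + 1) + 4 ^ m = 5 * 4 ^ m := by rw [pow_succ]; ring
    have : ((4 ^ (m + 1) : ℕ) : Cardinal) + ((4 ^ m : ℕ) : Cardinal) = ((5 * 4 ^ m : ℕ) : Cardinal) := by
      rw [← h3]; push_cast; rfl
    rw [this]
  have hDn : ∀ m, ‖D m‖ ≤ 2 * sInf (apS K (4 ^ m)) + 2 * (1 / 4) ^ m := by
    intro m
    have e : D m = (K - F m) - (K - F (m + 1)) := by simp only [D]; abel
    rw [e]
    have h1 := hFn m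
    have h2 := hFn (m + 1)
    have h3 := apS_anti K (k := 4 ^ m) (l := 4 ^ (m + 1)) (Nat.pow_le_pow_right (by norm_num) (by omega))
    have h4 : (1 / 4 : ℝ) ^ (m + 1) ≤ (1 / 4) ^ m := pow_le_pow_of_le_one (by norm_num) (by norm_num) (by omega)
    exact (norm_sub_le _ _).trans (by linarith)
  let γ : ℕ → ℝ := fun m => 12 * 2 ^ m * ‖D m‖
  have hγ0 : ∀ m, 0 ≤ γ m := fun m => by positivity
  have hγs : Summable γ := by
    refine Summable.of_nonneg_of_le hγ0 (fun m => ?_) ((hsum1.add hsum2).mul_left 24)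
    simp only [γ]
    have h8 : (0 : ℝ) < 2 ^ m := by positivity
    have := mul_le_mul_of_nonneg_left (hDn m) (by positivity : (0 : ℝ) ≤ 12 * 2 ^ m)
    linarith
  have hDs : Summable D := by
    refine Summable.of_norm_bounded (g := γ) hγs (fun m => ?_)
    simp only [γ]
    have h1 : (1 : ℝ) ≤ 2 ^ m := one_le_pow₀ (by norm_num)
    nlinarith [norm_nonneg (D m)]
  have hFlim : Tendsto F atTop (𝓝 K) := by
    rw [tendsto_iff_norm_sub_tendsto_zero]
    have h1 : Tendsto (fun m : ℕ => (2 : ℝ) ^ m * sInf (apS K (4 ^ m)) + (2 : ℝ) ^ m * (1 / 4) ^ m) atTop (𝓝 0) := by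
      have := hsum1.tendsto_atTop_zero.add hsum2.tendsto_atTop_zero
      rwa [add_zero] at this
    refine squeeze_zero (fun m => norm_nonneg _) (fun m => ?_) h1
    rw [norm_sub_rev]
    refine (hFn m).trans ?_
    have h1 : (1 : ℝ) ≤ 2 ^ m := one_le_pow₀ (by norm_num)
    have h2 := apS_nonneg K (4 ^ m)
    have h3 : (0 : ℝ) ≤ (1 / 4) ^ m := by positivity
    nlinarith
  have hDsum : HasSum D (K - F 0) := by
    have h1 := hDs.hasSum
    have h2 : Tendsto (fun M => ∑ m ∈ Finset.range M, D m) atTop (𝓝 (K - F 0)) := by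
      have : (fun M => ∑ m ∈ Finset.range M, D m) = fun M => F M - F 0 := by
        funext M; exact Finset.sum_range_sub F M
      rw [this]
      exact hFlim.sub_const _
    have := tendsto_nhds_unique h1.tendsto_sum_nat h2
    rwa [this] at h1
  have hLZ : ∀ m, LZ (γ m) (D m) := fun m => LZ.fr' (D m) (hDFR m) m (hDrank m)
  have hK0 : LZ (∑' m, γ m) (K - F 0) := LZ.tsum hLZ hγ0 hγs hDsum
  have hK1 : LL (K - F 0) := LL.tsum hLZ (fun m => LL.of_fr (hDFR m)) hγ0 hγs hDsum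
  refine ⟨∑' m, γ m + 2 * (Module.finrank ℂ (LinearMap.range (F 0 : H →ₗ[ℂ] H)) * ‖F 0‖), ?_, ?_, ?_⟩
  · have h9 : 0 ≤ ∑' m, γ m := tsum_nonneg hγ0
    positivity
  · have := hK0.add (LZ.fr (F 0) (hFRm 0))
    rwa [sub_add_cancel] at this
  · have := hK1.add (LL.of_fr (hFRm 0))
    rwa [sub_add_cancel] at this

/-- power differences -/
lemma pow_diff (A B : H →L[ℂ] H) (γ : ℝ) (hγ : 0 ≤ γ) (h : LZ γ (A - B)) (hL : LL (A - B)) (R : ℝ) (hR1 : 1 ≤ R)
    (hA : ‖A‖ ≤ R) (hB : ‖B‖ ≤ R) (n : ℕ) : LZ (n * R ^ n * γ) (A ^ n - B ^ n) ∧ LL (A ^ n - B ^ n) := by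
  induction n with
  | zero => simp only [pow_zero, sub_self]; exact ⟨by simpa using LZ.zero, LL.zero⟩
  | succ n ih =>
    have e : A ^ (n + 1) - B ^ (n + 1) = A ^ n * (A - B) * 1 + 1 * (A ^ n - B ^ n) * B := by
      rw [pow_succ, pow_succ]; noncomm_ring
    have h1 : ‖(1 : H →L[ℂ] H)‖ ≤ 1 := norm_id_le
    have hAn : ‖A ^ n‖ ≤ R ^ n := by
      rcases Nat.eq_zero_or_pos n with h0 | h0
      · subst h0; rw [pow_zero, pow_zero]; exact h1
      · exact (norm_pow_le' _ h0).trans (pow_le_pow_left₀ (norm_nonneg _) hA n)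
    constructor
    · rw [e]
      refine ((h.conj (A ^ n) 1).add (ih.1.conj 1 B)).mono ?_
      have e1 : ‖A ^ n‖ * γ * ‖(1 : H →L[ℂ] H)‖ ≤ R ^ n * γ := by
        calc ‖A ^ n‖ * γ * ‖(1 : H →L[ℂ] H)‖ ≤ (R ^ n * γ) * 1 :=
              mul_le_mul (mul_le_mul_of_nonneg_right hAn hγ) h1 (norm_nonneg _) (by positivity)
          _ = _ := mul_one _
      have e2 : ‖(1 : H →L[ℂ] H)‖ * (n * R ^ n * γ) * ‖B‖ ≤ n * R ^ n * γ * R := by
        calc ‖(1 : H →L[ℂ] H)‖ * (n * R ^ n * γ) * ‖B‖ ≤ (1 * (n * R ^ n * γ)) * R :=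
              mul_le_mul (mul_le_mul_of_nonneg_right h1 (by positivity)) hB (norm_nonneg _) (by positivity)
          _ = _ := by rw [one_mul]
      have e3 : R ^ n * γ ≤ R ^ (n + 1) * γ :=
        mul_le_mul_of_nonneg_right (pow_le_pow_right₀ hR1 (Nat.le_succ n)) hγ
      have e4 : (((n + 1 : ℕ) : ℝ)) * R ^ (n + 1) * γ = n * R ^ n * γ * R + R ^ (n + 1) * γ := by
        push_cast; rw [pow_succ]; ring
      rw [e4]
      linarith
    · rw [e]
      exact (hL.conj _ _).add (ih.2.conj _ _)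

theorem exp_LL (A B : H →L[ℂ] H) (γ : ℝ) (hγ : 0 ≤ γ) (h : LZ γ (A - B)) (hL : LL (A - B)) :
    LL (NormedSpace.exp A - NormedSpace.exp B) := by
  set R : ℝ := max 1 (max ‖A‖ ‖B‖) with hR
  have hR1 : 1 ≤ R := le_max_left _ _
  have hA : ‖A‖ ≤ R := (le_max_left _ _).trans (le_max_right _ _)
  have hB : ‖B‖ ≤ R := (le_max_right _ _).trans (le_max_right _ _)
  have hAs := NormedSpace.exp_series_hasSum_exp' (𝕂 := ℂ) A
  have hBs := NormedSpace.exp_series_hasSum_exp' (𝕂 := ℂ) B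
  have hs := hAs.sub hBs
  have hs' : HasSum (fun n : ℕ => ((n.factorial : ℂ)⁻¹) • (A ^ n - B ^ n)) (NormedSpace.exp A - NormedSpace.exp B) := by
    have e : (fun n : ℕ => ((n.factorial : ℂ)⁻¹) • (A ^ n - B ^ n)) =
        fun n : ℕ => ((n.factorial : ℂ)⁻¹) • A ^ n - ((n.factorial : ℂ)⁻¹) • B ^ n := by
      funext n
      rw [smul_sub]
    rw [e]
    exact hs
  refine LL.tsum (γ := fun n : ℕ => ‖((n.factorial : ℂ)⁻¹)‖ * (n * R ^ n * γ)) (fun n => ?_) (fun n => ?_) (fun n => ?_) ?_ hs'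
  · exact (pow_diff A B γ hγ h hL R hR1 hA hB n).1.smul _
  · exact (pow_diff A B γ hγ h hL R hR1 hA hB n).2.smul _
  · positivity
  · have h1 : Summable (fun n : ℕ => (2 * R) ^ n / n.factorial) := Real.summable_pow_div_factorial (2 * R)
    refine Summable.of_nonneg_of_le (fun n => by positivity) (fun n => ?_) (h1.mul_right γ)
    rw [norm_inv, Complex.norm_natCast]
    have h2 : (n : ℝ) ≤ 2 ^ n := by
      have := Nat.lt_two_pow_self (n := n)
      exact_mod_cast this.le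
    rw [mul_pow, div_eq_inv_mul]
    have h3 : (n : ℝ) * R ^ n * γ ≤ 2 ^ n * R ^ n * γ := by
      apply mul_le_mul_of_nonneg_right _ hγ
      exact mul_le_mul_of_nonneg_right h2 (by positivity)
    have h4 := mul_le_mul_of_nonneg_left h3 (by positivity : (0 : ℝ) ≤ ((n.factorial : ℝ))⁻¹)
    linarith

end Pool.Agent.H145R3.WV
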