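import Mathlib

set_option autoImplicit false

open scoped InnerProductSpace ENNReal
open Filter Topology ContinuousLinearMap MeasureTheory

namespace Pool.Agent.H145R3.WV

/-- characters of the plane -/
noncomputable def ec (w p : ℝ × ℝ) : ℂ := Complex.exp (Complex.I * ((w.1 * p.1 + w.2 * p.2 : ℝ) : ℂ))

lemma ec_norm (w p : ℝ × ℝ) : ‖ec w p‖ = 1 := by
  unfold ec
  rw [mul_comm, Complex.norm_exp_ofReal_mul_I]

lemma ec_cont (w : ℝ × ℝ) : Continuous (ec w) := by
  unfold ec
  fun_prop

lemma ec_add (w w' p : ℝ × ℝ) : ec (w + w') p = ec w p * ec w' p := by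
  unfold ec
  rw [← Complex.exp_add]
  congr 1
  simp only [Prod.fst_add, Prod.snd_add]
  push_cast
  ring

lemma ec_neg (w p : ℝ × ℝ) : ec (-w) p = (starRingEnd ℂ) (ec w p) := by
  unfold ec
  rw [← Complex.exp_conj]
  congr 1
  rw [map_mul, Complex.conj_I, Complex.conj_ofReal]
  simp only [Prod.fst_neg, Prod.snd_neg]
  push_cast
  ring

lemma ec_zero (p : ℝ × ℝ) : ec 0 p = 1 := by
  unfold ec; simp

lemma real_zero (μ : Measure (ℝ × ℝ)) [IsFiniteMeasure μ] (u : ℝ × ℝ → ℝ) (hu : Integrable u μ)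
    (h : ∀ w, ∫ p, ec w p * (u p : ℂ) ∂μ = 0) : u =ᵐ[μ] 0 := by
  have hum : AEMeasurable u μ := hu.aestronglyMeasurable.aemeasurable
  set f : ℝ × ℝ → ℝ≥0∞ := fun p => ENNReal.ofReal (u p) with hf
  set g : ℝ × ℝ → ℝ≥0∞ := fun p => ENNReal.ofReal (-u p) with hg
  have hfm : AEMeasurable f μ := hum.ennreal_ofReal
  have hgm : AEMeasurable g μ := hum.neg.ennreal_ofReal
  have : IsFiniteMeasure (μ.withDensity f) := isFiniteMeasure_withDensity_ofReal hu.2
  have : IsFiniteMeasure (μ.withDensity g) := isFiniteMeasure_withDensity_ofReal hu.neg.2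
  have key : μ.withDensity f = μ.withDensity g := by
    apply Measure.ext_of_charFunDual
    funext L
    rw [charFunDual_apply, charFunDual_apply]
    rw [integral_withDensity_eq_integral_toReal_smul₀ hfm (ae_of_all _ (fun _ => ENNReal.ofReal_lt_top)),
      integral_withDensity_eq_integral_toReal_smul₀ hgm (ae_of_all _ (fun _ => ENNReal.ofReal_lt_top))]
    have hexp : ∀ p : ℝ × ℝ, Complex.exp (L p * Complex.I) = ec (L (1, 0), L (0, 1)) p := by
      intro p
      unfold ec
      congr 1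
      have : L p = L (1, 0) * p.1 + L (0, 1) * p.2 := by
        have e : p = p.1 • ((1, 0) : ℝ × ℝ) + p.2 • ((0, 1) : ℝ × ℝ) := by ext <;> simp
        conv_lhs => rw [e]
        rw [map_add, map_smul, map_smul]
        simp only [smul_eq_mul]
        ring
      rw [this, mul_comm]
    simp only [hexp]
    have hi1 : Integrable (fun p => (f p).toReal • ec (L (1, 0), L (0, 1)) p) μ := by
      have h1 : Integrable (fun p => (f p).toReal) μ := by
        have : (fun p => (f p).toReal) = fun p => max (u p) 0 := by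
          funext p; simp only [hf]; rw [ENNReal.toReal_ofReal']
        rw [this]; exact hu.pos_part
      refine ((h1.ofReal (𝕜 := ℂ)).bdd_mul (c := 1) ((ec_cont (L (1, 0), L (0, 1))).aestronglyMeasurable)
        (ae_of_all _ (fun p => (ec_norm (L (1, 0), L (0, 1)) p).le))).congr ?_
      refine ae_of_all _ (fun p => ?_)
      simp only [Complex.real_smul]
      rw [mul_comm]; rfl
    have hi2 : Integrable (fun p => (g p).toReal • ec (L (1, 0), L (0, 1)) p) μ := by
      have h1 : Integrable (fun p => (g p).toReal) μ := by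
        have : (fun p => (g p).toReal) = fun p => max (-u p) 0 := by
          funext p; simp only [hg]; rw [ENNReal.toReal_ofReal']
        rw [this]; exact hu.neg_part
      refine ((h1.ofReal (𝕜 := ℂ)).bdd_mul (c := 1) ((ec_cont (L (1, 0), L (0, 1))).aestronglyMeasurable)
        (ae_of_all _ (fun p => (ec_norm (L (1, 0), L (0, 1)) p).le))).congr ?_
      refine ae_of_all _ (fun p => ?_)
      simp only [Complex.real_smul]
      rw [mul_comm]; rfl
    rw [← sub_eq_zero, ← integral_sub hi1 hi2, ← h (L (1, 0), L (0, 1))]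
    refine integral_congr_ae (ae_of_all _ (fun p => ?_))
    simp only [hf, hg]
    rw [ENNReal.toReal_ofReal', ENNReal.toReal_ofReal', ← sub_smul, Complex.real_smul, mul_comm]
    congr 2
    rcases le_total (u p) 0 with h0 | h0
    · rw [max_eq_right h0, max_eq_left (by linarith)]; ring
    · rw [max_eq_left h0, max_eq_right (by linarith)]; ring
  have hfin : ∫⁻ p, f p ∂μ ≠ ∞ := by
    have := hu.2
    exact (lt_of_le_of_lt (lintegral_mono (fun p => by
      simp only [hf]
      exact Real.ofReal_le_enorm (u p))) this).ne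
  have h1 := (withDensity_eq_iff hfm hgm hfin).1 key
  filter_upwards [h1] with p hp
  simp only [hf, hg] at hp
  rcases le_total (u p) 0 with h0 | h0
  · rw [ENNReal.ofReal_of_nonpos h0] at hp
    have := ENNReal.ofReal_eq_zero.1 hp.symm
    simp only [Pi.zero_apply]; linarith
  · rw [ENNReal.ofReal_of_nonpos (by linarith : -u p ≤ 0)] at hp
    have := ENNReal.ofReal_eq_zero.1 hp
    simp only [Pi.zero_apply]; linarith

lemma ec_memLp (μ : Measure (ℝ × ℝ)) [IsFiniteMeasure μ] (w : ℝ × ℝ) : MemLp (ec w) 2 μ :=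
  MemLp.of_bound (ec_cont w).aestronglyMeasurable 1 (ae_of_all _ (fun p => (ec_norm w p).le))

noncomputable def eL (μ : Measure (ℝ × ℝ)) [IsFiniteMeasure μ] (w : ℝ × ℝ) : Lp ℂ 2 μ := (ec_memLp μ w).toLp

lemma eL_inner (μ : Measure (ℝ × ℝ)) [IsFiniteMeasure μ] (w : ℝ × ℝ) (g : Lp ℂ 2 μ) :
    ⟪eL μ w, g⟫_ℂ = ∫ p, ec (-w) p * g p ∂μ := by
  rw [L2.inner_def]
  refine integral_congr_ae ?_
  filter_upwards [(ec_memLp μ w).coeFn_toLp] with p hp
  unfold eL
  rw [hp, ec_neg]
  simp [mul_comm]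

lemma eL_dense (μ : Measure (ℝ × ℝ)) [IsFiniteMeasure μ] :
    (Submodule.span ℂ (Set.range (eL μ))).topologicalClosure = ⊤ := by
  rw [Submodule.topologicalClosure_eq_top_iff, Submodule.eq_bot_iff]
  intro g hg
  have h0 : ∀ w, ∫ p, ec w p * g p ∂μ = 0 := by
    intro w
    have h1 := (Submodule.mem_orthogonal _ _).1 hg (eL μ (-w)) (Submodule.subset_span ⟨-w, rfl⟩)
    rw [eL_inner, neg_neg] at h1
    exact h1
  have hgi : Integrable g μ := (Lp.memLp g).integrable (by norm_num)
  have hint : ∀ w, Integrable (fun p => ec w p * g p) μ := fun w =>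
    hgi.bdd_mul (c := 1) ((ec_cont _).aestronglyMeasurable) (ae_of_all _ (fun p => (ec_norm _ p).le))
  have h0' : ∀ w, ∫ p, ec w p * (starRingEnd ℂ) (g p) ∂μ = 0 := by
    intro w
    have h1 := congrArg (starRingEnd ℂ) (h0 (-w))
    rw [map_zero, ← integral_conj] at h1
    rw [← h1]
    refine integral_congr_ae (ae_of_all _ (fun p => ?_))
    simp only [map_mul, ec_neg, Complex.conj_conj]
  have hint' : ∀ w, Integrable (fun p => ec w p * (starRingEnd ℂ) (g p)) μ := by
    intro w
    have h1 := (hint (-w)).norm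
    refine Integrable.mono' (hint (-w)).norm ?_ (ae_of_all _ (fun p => ?_))
    · exact (ec_cont w).aestronglyMeasurable.mul (Complex.continuous_conj.comp_aestronglyMeasurable hgi.1)
    · rw [norm_mul, norm_mul, ec_norm, ec_norm, RCLike.norm_conj]
  have hre : (fun p => (g p).re) =ᵐ[μ] 0 := by
    apply real_zero μ _ hgi.re
    intro w
    change ∫ p, ec w p * (((g p).re : ℝ) : ℂ) ∂μ = 0
    have e : ∀ p, ec w p * (((g p).re : ℝ) : ℂ) = (1 / 2 : ℂ) * (ec w p * g p + ec w p * (starRingEnd ℂ) (g p)) := by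
      intro p
      rw [← mul_add, Complex.add_conj]
      push_cast
      ring
    simp only [e]
    rw [integral_const_mul, integral_add (hint w) (hint' w), h0, h0']
    simp
  have him : (fun p => (g p).im) =ᵐ[μ] 0 := by
    apply real_zero μ _ hgi.im
    intro w
    change ∫ p, ec w p * (((g p).im : ℝ) : ℂ) ∂μ = 0
    have e : ∀ p, ec w p * (((g p).im : ℝ) : ℂ) = (-Complex.I / 2 : ℂ) * (ec w p * g p - ec w p * (starRingEnd ℂ) (g p)) := by
      intro p
      rw [← mul_sub, Complex.sub_conj]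
      push_cast
      ring_nf
      rw [Complex.I_sq]
      ring
    simp only [e]
    rw [integral_const_mul, integral_sub (hint w) (hint' w), h0, h0']
    simp
  rw [Lp.eq_zero_iff_ae_eq_zero]
  filter_upwards [hre, him] with p h1 h2
  exact Complex.ext h1 h2

lemma Mw_memLp (μ : Measure (ℝ × ℝ)) [IsFiniteMeasure μ] (w : ℝ × ℝ) (g : Lp ℂ 2 μ) :
    MemLp (fun p => ec w p * g p) 2 μ :=
  (Lp.memLp g).of_le ((ec_cont w).aestronglyMeasurable.mul (Lp.aestronglyMeasurable g))
    (ae_of_all _ (fun p => by rw [norm_mul, ec_norm, one_mul]))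

/-- multiplication by a character -/
noncomputable def Mw (μ : Measure (ℝ × ℝ)) [IsFiniteMeasure μ] (w : ℝ × ℝ) : Lp ℂ 2 μ →ₗᵢ[ℂ] Lp ℂ 2 μ where
  toFun g := (Mw_memLp μ w g).toLp
  map_add' f g := by
    apply Lp.ext
    refine (MemLp.coeFn_toLp _).trans ?_
    refine EventuallyEq.trans ?_ (Lp.coeFn_add _ _).symm
    filter_upwards [Lp.coeFn_add f g, (Mw_memLp μ w f).coeFn_toLp, (Mw_memLp μ w g).coeFn_toLp] with p h1 h2 h3
    rw [Pi.add_apply, h2, h3, h1, Pi.add_apply, mul_add]
  map_smul' c g := by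
    apply Lp.ext
    refine (MemLp.coeFn_toLp _).trans ?_
    refine EventuallyEq.trans ?_ (Lp.coeFn_smul _ _).symm
    filter_upwards [Lp.coeFn_smul c g, (Mw_memLp μ w g).coeFn_toLp] with p h1 h2
    rw [Pi.smul_apply, RingHom.id_apply, h2, h1, Pi.smul_apply]
    simp only [smul_eq_mul]
    ring
  norm_map' g := by
    change ‖((Mw_memLp μ w g).toLp)‖ = ‖g‖
    rw [Lp.norm_toLp, Lp.norm_def]
    congr 1
    refine eLpNorm_congr_norm_ae (ae_of_all _ (fun p => ?_))
    rw [norm_mul, ec_norm, one_mul]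

lemma Mw_coe (μ : Measure (ℝ × ℝ)) [IsFiniteMeasure μ] (w : ℝ × ℝ) (g : Lp ℂ 2 μ) :
    (Mw μ w g : ℝ × ℝ → ℂ) =ᵐ[μ] fun p => ec w p * g p := (Mw_memLp μ w g).coeFn_toLp

lemma Mw_eL (μ : Measure (ℝ × ℝ)) [IsFiniteMeasure μ] (w w' : ℝ × ℝ) : Mw μ w (eL μ w') = eL μ (w + w') := by
  apply Lp.ext
  refine (Mw_coe μ w _).trans ?_
  refine EventuallyEq.trans ?_ ((ec_memLp μ (w + w')).coeFn_toLp).symm
  filter_upwards [(ec_memLp μ w').coeFn_toLp] with p hp
  unfold eL
  rw [hp, ec_add]

end Pool.Agent.H145R3.WV
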