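import Mathlib
import Pool.Agent.H145R3.WV4
import Pool.Agent.H145R3.WV5

set_option autoImplicit false

open scoped InnerProductSpace ENNReal
open Filter Topology ContinuousLinearMap MeasureTheory

namespace Pool.Agent.H145R3.WV

/-- one-dimensional orthogonality -/
lemma int_one (δ : ℝ) (hδ : 0 < δ) (N : ℕ) (m : ℤ) :
    ∫ p in Set.Ioc (-(Real.pi * (N + 1) / δ)) (Real.pi * (N + 1) / δ), Complex.exp (Complex.I * ((δ * m * p : ℝ) : ℂ)) =
      if m = 0 then ((2 * (Real.pi * (N + 1) / δ) : ℝ) : ℂ) else 0 := by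
  have ha : 0 ≤ Real.pi * (N + 1) / δ := by positivity
  set a := Real.pi * (N + 1) / δ with hadef
  rw [← intervalIntegral.integral_of_le (by linarith)]
  split_ifs with hm
  · subst hm
    simp only [Int.cast_zero, mul_zero, zero_mul, Complex.ofReal_zero, Complex.exp_zero]
    rw [intervalIntegral.integral_const]
    rw [Complex.real_smul, mul_one]
    congr 1
    ring
  · have hc : (Complex.I * ((δ * m : ℝ) : ℂ)) ≠ 0 := by
      apply mul_ne_zero Complex.I_ne_zero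
      have : (δ * m : ℝ) ≠ 0 := mul_ne_zero hδ.ne' (by exact_mod_cast hm)
      exact_mod_cast this
    have e : ∀ p : ℝ, Complex.exp (Complex.I * ((δ * m * p : ℝ) : ℂ)) = Complex.exp ((Complex.I * ((δ * m : ℝ) : ℂ)) * p) := by
      intro p; congr 1; push_cast; ring
    simp only [e]
    rw [integral_exp_mul_complex hc]
    have e2 : Complex.exp ((Complex.I * ((δ * m : ℝ) : ℂ)) * (a : ℝ)) = Complex.exp ((Complex.I * ((δ * m : ℝ) : ℂ)) * ((-a : ℝ) : ℂ)) := by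
      rw [Complex.exp_eq_exp_iff_exists_int]
      refine ⟨m * (N + 1), ?_⟩
      have hda : (δ : ℂ) * (a : ℂ) = Real.pi * (N + 1) := by
        rw [hadef]
        have : (δ : ℂ) ≠ 0 := by exact_mod_cast hδ.ne'
        push_cast
        field_simp
      push_cast
      have : Complex.I * (↑δ * ↑m) * ↑a = Complex.I * m * ((δ : ℂ) * (a : ℂ)) := by ring
      rw [this, hda]
      have h2 : Complex.I * (↑δ * ↑m) * -↑a = -(Complex.I * m * ((δ : ℂ) * (a : ℂ))) := by ring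
      rw [h2, hda]
      ring
    rw [e2, sub_self, zero_div]

def QN (δ : ℝ) (N : ℕ) : Set (ℝ × ℝ) :=
  Set.Ioc (-(Real.pi * (N + 1) / δ)) (Real.pi * (N + 1) / δ) ×ˢ Set.Ioc (-(Real.pi * (N + 1) / δ)) (Real.pi * (N + 1) / δ)

lemma QN_meas (δ : ℝ) (N : ℕ) : MeasurableSet (QN δ N) := measurableSet_Ioc.prod measurableSet_Ioc

lemma int_two (δ : ℝ) (hδ : 0 < δ) (N : ℕ) (x : ℤ × ℤ) :
    ∫ p in QN δ N, ec (δ * x.1, δ * x.2) p =
      if x = 0 then ((2 * (Real.pi * (N + 1) / δ) : ℝ) : ℂ) ^ 2 else 0 := by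
  have e : ∀ p : ℝ × ℝ, ec (δ * x.1, δ * x.2) p =
      Complex.exp (Complex.I * ((δ * x.1 * p.1 : ℝ) : ℂ)) * Complex.exp (Complex.I * ((δ * x.2 * p.2 : ℝ) : ℂ)) := by
    intro p
    unfold ec
    rw [← Complex.exp_add]
    congr 1
    push_cast
    ring
  simp only [e]
  unfold QN
  rw [Measure.volume_eq_prod, setIntegral_prod_mul
    (fun p : ℝ => Complex.exp (Complex.I * ((δ * x.1 * p : ℝ) : ℂ)))
    (fun p : ℝ => Complex.exp (Complex.I * ((δ * x.2 * p : ℝ) : ℂ))), int_one δ hδ, int_one δ hδ]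
  by_cases h1 : x.1 = 0
  · by_cases h2 : x.2 = 0
    · rw [if_pos h1, if_pos h2, if_pos (Prod.ext h1 h2)]; ring
    · have hx : ¬ x = 0 := fun h => h2 (by rw [h]; rfl)
      rw [if_neg h2, if_neg hx, mul_zero]
  · have hx : ¬ x = 0 := fun h => h1 (by rw [h]; rfl)
    rw [if_neg h1, if_neg hx, zero_mul]

lemma QN_fin (δ : ℝ) (N : ℕ) : volume (QN δ N) ≠ ∞ := by
  unfold QN
  rw [Measure.volume_eq_prod, Measure.prod_prod, Real.volume_Ioc]
  exact ENNReal.mul_ne_top ENNReal.ofReal_ne_top ENNReal.ofReal_ne_top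

/-- Parseval for trigonometric polynomials on the box -/
lemma parseval (δ : ℝ) (hδ : 0 < δ) (N : ℕ) (s : Finset (ℤ × ℤ)) (c : ℤ × ℤ → ℂ) :
    ∫ p in QN δ N, ‖∑ x ∈ s, c x * ec (δ * x.1, δ * x.2) p‖ ^ 2 =
      (2 * (Real.pi * (N + 1) / δ)) ^ 2 * ∑ x ∈ s, ‖c x‖ ^ 2 := by
  have hfin : IsFiniteMeasure (volume.restrict (QN δ N)) := ⟨by
    rw [Measure.restrict_apply_univ]; exact lt_top_iff_ne_top.2 (QN_fin δ N)⟩
  have hint : ∀ w, Integrable (ec w) (volume.restrict (QN δ N)) := fun w =>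
    Integrable.of_bound (ec_cont w).aestronglyMeasurable 1 (ae_of_all _ (fun p => (ec_norm w p).le))
  have e : ∀ p, ((‖∑ x ∈ s, c x * ec (δ * x.1, δ * x.2) p‖ ^ 2 : ℝ) : ℂ) =
      ∑ x ∈ s, ∑ y ∈ s, (c x * (starRingEnd ℂ) (c y)) * ec (δ * (x - y).1, δ * (x - y).2) p := by
    intro p
    rw [← Complex.normSq_eq_norm_sq, ← Complex.mul_conj, map_sum, Finset.sum_mul_sum]
    refine Finset.sum_congr rfl (fun x _ => Finset.sum_congr rfl (fun y _ => ?_))
    rw [map_mul, ← ec_neg]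
    have e2 : ((δ * ((x - y).1 : ℤ), δ * ((x - y).2 : ℤ)) : ℝ × ℝ) = (δ * (x.1 : ℝ), δ * (x.2 : ℝ)) + -((δ * (y.1 : ℝ), δ * (y.2 : ℝ)) : ℝ × ℝ) := by
      ext <;> simp <;> ring
    rw [e2, ec_add]
    ring
  have h1 : ((∫ p in QN δ N, ‖∑ x ∈ s, c x * ec (δ * x.1, δ * x.2) p‖ ^ 2 : ℝ) : ℂ) =
      (((2 * (Real.pi * (N + 1) / δ)) ^ 2 * ∑ x ∈ s, ‖c x‖ ^ 2 : ℝ) : ℂ) := by
    rw [← integral_complex_ofReal]
    simp only [e]
    rw [integral_finsetSum]
    · have : ∀ x ∈ s, ∫ p in QN δ N, ∑ y ∈ s, (c x * (starRingEnd ℂ) (c y)) * ec (δ * (x - y).1, δ * (x - y).2) p =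
          ((2 * (Real.pi * (N + 1) / δ) : ℝ) : ℂ) ^ 2 * ((‖c x‖ ^ 2 : ℝ) : ℂ) := by
        intro x hx
        rw [integral_finsetSum]
        · rw [Finset.sum_eq_single x]
          · rw [integral_const_mul, int_two δ hδ, if_pos (sub_self x), Complex.mul_conj, Complex.normSq_eq_norm_sq]
            ring
          · intro y _ hy
            rw [integral_const_mul, int_two δ hδ, if_neg (fun h => hy (sub_eq_zero.1 h).symm), mul_zero]
          · intro h; exact absurd hx h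
        · intro y _
          exact (hint _).const_mul _
      rw [Finset.sum_congr rfl this, ← Finset.mul_sum]
      push_cast
      ring
    · intro x _
      exact integrable_finsetSum _ (fun y _ => (hint _).const_mul _)
  exact_mod_cast h1

variable {H : Type*} [NormedAddCommGroup H] [InnerProductSpace ℂ H] [CompleteSpace H]

lemma bes_of_dual (C : ℝ) (ξ : ℤ × ℤ → H)
    (h : ∀ (s : Finset (ℤ × ℤ)) (c : ℤ × ℤ → ℂ), ‖∑ x ∈ s, c x • ξ x‖ ^ 2 ≤ C ^ 2 * ∑ x ∈ s, ‖c x‖ ^ 2) :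
    Bes C ξ := by
  intro s g
  set A : ℝ := ∑ x ∈ s, ‖⟪ξ x, g⟫_ℂ‖ ^ 2 with hA
  have hA0 : 0 ≤ A := Finset.sum_nonneg (fun i _ => by positivity)
  have h1 := h s (fun x => ⟪ξ x, g⟫_ℂ)
  have h2 : ⟪∑ x ∈ s, ⟪ξ x, g⟫_ℂ • ξ x, g⟫_ℂ = ((A : ℝ) : ℂ) := by
    rw [sum_inner, hA]
    push_cast
    refine Finset.sum_congr rfl (fun x _ => ?_)
    rw [inner_smul_left, mul_comm, Complex.mul_conj, Complex.normSq_eq_norm_sq]
    push_cast; rfl
  have h3 : A ≤ ‖∑ x ∈ s, ⟪ξ x, g⟫_ℂ • ξ x‖ * ‖g‖ := by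
    have h4 := norm_inner_le_norm (𝕜 := ℂ) (∑ x ∈ s, ⟪ξ x, g⟫_ℂ • ξ x) g
    rw [h2, Complex.norm_real, Real.norm_of_nonneg hA0] at h4
    exact h4
  have h5 : A ^ 2 ≤ (C ^ 2 * A) * ‖g‖ ^ 2 := by
    calc A ^ 2 ≤ (‖∑ x ∈ s, ⟪ξ x, g⟫_ℂ • ξ x‖ * ‖g‖) ^ 2 := pow_le_pow_left₀ hA0 h3 2
      _ = ‖∑ x ∈ s, ⟪ξ x, g⟫_ℂ • ξ x‖ ^ 2 * ‖g‖ ^ 2 := by ring
      _ ≤ _ := mul_le_mul_of_nonneg_right h1 (sq_nonneg _)
  rcases hA0.eq_or_lt with h0 | h0
  · rw [← h0]; positivity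
  · have : A * A ≤ A * (C ^ 2 * ‖g‖ ^ 2) := by nlinarith
    exact le_of_mul_le_mul_left this h0

theorem bessel_dense (E : ℝ × ℝ → (H →L[ℂ] H)) (hE0 : E 0 = 1) (hEadd : ∀ s t, E (s + t) = E s * E t)
    (hEstar : ∀ s, star (E s) = E (-s)) (h : H) (μ : Measure (ℝ × ℝ)) [IsFiniteMeasure μ] (hμ : μ ≪ volume)
    (hF : ∀ w, ⟪h, E w h⟫_ℂ = ∫ p, ec w p ∂μ) (δ : ℝ) (hδ : 0 < δ) (ε : ℝ) (hε : 0 < ε) :
    ∃ (h' : H) (C : ℝ), 0 ≤ C ∧ ‖h - h'‖ ≤ ε ∧ Bes C (fun x : ℤ × ℤ => E (δ * x.1, δ * x.2) h') := by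
  -- Gram matrices
  have gram : ∀ s t, ⟪E s h, E t h⟫_ℂ = ⟪eL μ s, eL μ t⟫_ℂ := by
    intro s t
    rw [inner_star, hEstar, ← mul_apply_eq_comp, ← hEadd, hF, eL_inner]
    refine integral_congr_ae ?_
    filter_upwards [(ec_memLp μ t).coeFn_toLp] with p hp
    unfold eL
    rw [hp, ec_add]
  let Φ : ((ℝ × ℝ) →₀ ℂ) →ₗ[ℂ] Lp ℂ 2 μ := Finsupp.linearCombination ℂ (eL μ)
  let V : ((ℝ × ℝ) →₀ ℂ) →ₗ[ℂ] H := Finsupp.linearCombination ℂ (fun w => E w h)
  have hnorm : ∀ b, ‖V b‖ = ‖Φ b‖ := by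
    intro b
    have e : ⟪V b, V b⟫_ℂ = ⟪Φ b, Φ b⟫_ℂ := by
      simp only [V, Φ, Finsupp.linearCombination_apply, Finsupp.sum, sum_inner, inner_sum, inner_smul_left,
        inner_smul_right, gram]
    have h1 := inner_self_eq_norm_sq_to_K (𝕜 := ℂ) (V b)
    have h2 := inner_self_eq_norm_sq_to_K (𝕜 := ℂ) (Φ b)
    rw [e, h2] at h1
    have h3 : ‖Φ b‖ ^ 2 = ‖V b‖ ^ 2 := by exact_mod_cast h1
    exact ((pow_left_inj₀ (norm_nonneg _) (norm_nonneg _) two_ne_zero).1 h3).symm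
  have hspan : Dense (Submodule.span ℂ (Set.range (eL μ)) : Set (Lp ℂ 2 μ)) := by
    rw [Submodule.dense_iff_topologicalClosure_eq_top]
    exact eL_dense μ
  have hdense : DenseRange Φ := by
    have : Set.range Φ = (Submodule.span ℂ (Set.range (eL μ)) : Set (Lp ℂ 2 μ)) := by
      rw [← LinearMap.coe_range]
      simp only [Φ]
      rw [Finsupp.range_linearCombination]
    unfold DenseRange
    rw [this]
    exact hspan
  let J : Lp ℂ 2 μ →L[ℂ] H := V.extendOfNorm Φ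
  have hJ : ∀ b, J (Φ b) = V b := fun b => LinearMap.extendOfNorm_eq hdense ⟨1, fun x => by rw [one_mul, hnorm]⟩ b
  have hJn : ∀ G, ‖J G‖ ≤ ‖G‖ := by
    intro G
    have := LinearMap.norm_extendOfNorm_apply_le (f := V) (e := Φ) hdense 1 (fun x => by rw [one_mul, hnorm]) G
    rwa [one_mul] at this
  clear_value J
  have hJe : ∀ w, J (eL μ w) = E w h := by
    intro w
    have := hJ (Finsupp.single w 1)
    simpa [Φ, V, Finsupp.linearCombination_single] using this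
  have hJM : ∀ w G, E w (J G) = J (Mw μ w G) := by
    intro w
    have : (E w) ∘L J = J ∘L (Mw μ w).toContinuousLinearMap := by
      apply ContinuousLinearMap.ext_on hspan
      rintro _ ⟨w', rfl⟩
      simp only [comp_apply, LinearIsometry.coe_toContinuousLinearMap]
      rw [hJe, Mw_eL, hJe, hEadd]; rfl
    intro G
    exact congrArg (fun T : Lp ℂ 2 μ →L[ℂ] H => T G) this
  -- the sets
  let f := μ.rnDeriv volume
  have hfm : Measurable f := Measure.measurable_rnDeriv _ _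
  have hμf : μ = volume.withDensity f := (Measure.withDensity_rnDeriv_eq μ volume hμ).symm
  let S : ℕ → Set (ℝ × ℝ) := fun N => {p | f p ≤ (N : ℝ≥0∞)} ∩ QN δ N
  have hSm : ∀ N, MeasurableSet (S N) := fun N => (measurableSet_le hfm measurable_const).inter (QN_meas δ N)
  have hSmono : Monotone S := by
    intro N M hNM
    rintro p ⟨h1, h2⟩
    refine ⟨?_, ?_⟩
    · have : (N : ℝ≥0∞) ≤ M := by exact_mod_cast hNM
      exact le_trans h1 this
    · have hNM' : (N : ℝ) ≤ M := by exact_mod_cast hNM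
      have h3 : Real.pi * (N + 1) / δ ≤ Real.pi * (M + 1) / δ := by
        apply div_le_div_of_nonneg_right _ hδ.le
        exact mul_le_mul_of_nonneg_left (by linarith) Real.pi_pos.le
      unfold QN at h2 ⊢
      rw [Set.mem_prod, Set.mem_Ioc, Set.mem_Ioc] at h2 ⊢
      refine ⟨⟨?_, ?_⟩, ⟨?_, ?_⟩⟩ <;> linarith [h2.1.1, h2.1.2, h2.2.1, h2.2.2]
  have hScompl : μ (⋃ N, S N)ᶜ = 0 := by
    have h1 : ∀ᵐ p ∂μ, f p < ∞ := hμ.ae_le (Measure.rnDeriv_lt_top μ volume)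
    rw [← mem_ae_iff]
    filter_upwards [h1] with p hp
    obtain ⟨n1, hn1⟩ := ENNReal.exists_nat_gt hp.ne
    obtain ⟨n2, hn2⟩ := exists_nat_gt ((|p.1| + |p.2|) * δ / Real.pi)
    rw [Set.mem_iUnion]
    refine ⟨n1 + n2, ?_, ?_⟩
    · simp only [Set.mem_setOf_eq]
      refine hn1.le.trans ?_
      exact_mod_cast Nat.le_add_right n1 n2
    · have h3 : |p.1| + |p.2| < Real.pi * (((n1 + n2 : ℕ) : ℝ) + 1) / δ := by
        rw [lt_div_iff₀ hδ]
        rw [div_lt_iff₀ Real.pi_pos] at hn2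
        have h4 : (n2 : ℝ) ≤ ((n1 + n2 : ℕ) : ℝ) + 1 := by push_cast; linarith [Nat.cast_nonneg (α := ℝ) n1]
        nlinarith [Real.pi_pos]
      have h5 := abs_nonneg p.1
      have h6 := abs_nonneg p.2
      have h7 := le_abs_self p.1
      have h8 := le_abs_self p.2
      have h9 := neg_abs_le p.1
      have h10 := neg_abs_le p.2
      unfold QN
      rw [Set.mem_prod, Set.mem_Ioc, Set.mem_Ioc]
      refine ⟨⟨?_, ?_⟩, ⟨?_, ?_⟩⟩ <;> linarith
  have hSlim : Tendsto (fun N => μ (S N)ᶜ) atTop (𝓝 0) := by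
    have h1 := tendsto_measure_iInter_atTop (μ := μ) (s := fun N => (S N)ᶜ)
      (fun N => (hSm N).compl.nullMeasurableSet) (fun N M hNM => Set.compl_subset_compl.2 (hSmono hNM))
      ⟨0, measure_ne_top _ _⟩
    rw [← Set.compl_iUnion, hScompl] at h1
    exact h1
  obtain ⟨N, hN⟩ : ∃ N, μ.real (S N)ᶜ ≤ ε ^ 2 := by
    have h1 := hSlim.eventually_lt_const (u := ENNReal.ofReal (ε ^ 2)) (by
      rw [ENNReal.ofReal_pos]; positivity)
    obtain ⟨N, hN⟩ := h1.exists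
    refine ⟨N, ?_⟩
    have := ENNReal.toReal_mono ENNReal.ofReal_ne_top hN.le
    rwa [ENNReal.toReal_ofReal (by positivity)] at this
  let G : Lp ℂ 2 μ := indicatorConstLp 2 (hSm N) (measure_ne_top μ _) (1 : ℂ)
  set K : ℝ := Real.sqrt N * (2 * (Real.pi * (N + 1) / δ)) with hK
  have hK0 : 0 ≤ K := by positivity
  refine ⟨J G, K, hK0, ?_, ?_⟩
  · have e1 : h = J (eL μ 0) := by rw [hJe, hE0]; rfl
    have e2 : ‖h - J G‖ ≤ ‖eL μ 0 - G‖ := by
      conv_lhs => rw [e1]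
      rw [← map_sub]
      exact hJn _
    have e3 : eL μ 0 - G = indicatorConstLp 2 (hSm N).compl (measure_ne_top μ _) (1 : ℂ) := by
      apply Lp.ext
      filter_upwards [Lp.coeFn_sub (eL μ 0) G, (ec_memLp μ 0).coeFn_toLp,
        indicatorConstLp_coeFn (p := 2) (hs := hSm N) (hμs := measure_ne_top μ _) (c := (1 : ℂ)),
        indicatorConstLp_coeFn (p := 2) (hs := (hSm N).compl) (hμs := measure_ne_top μ _) (c := (1 : ℂ))] with p h1 h2 h3 h4
      rw [h1, Pi.sub_apply, h4]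
      unfold eL
      rw [h2, h3, ec_zero]
      by_cases hp : p ∈ S N
      · rw [Set.indicator_of_mem hp, Set.indicator_of_notMem (Set.notMem_compl_iff.2 hp)]; ring
      · rw [Set.indicator_of_notMem hp, Set.indicator_of_mem hp]; ring
    have e4 : ‖eL μ 0 - G‖ ≤ ε := by
      rw [e3, norm_indicatorConstLp (by norm_num) (by norm_num)]
      simp only [norm_one, one_mul]
      have e5 : (1 / (2 : ℝ≥0∞).toReal) = (1 / 2 : ℝ) := by norm_num
      rw [e5, ← Real.sqrt_eq_rpow]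
      calc Real.sqrt (μ.real (S N)ᶜ) ≤ Real.sqrt (ε ^ 2) := Real.sqrt_le_sqrt hN
        _ = ε := Real.sqrt_sq hε.le
    exact e2.trans e4
  · apply bes_of_dual
    intro s c
    have e1 : ∑ x ∈ s, c x • E (δ * x.1, δ * x.2) (J G) = J (∑ x ∈ s, c x • Mw μ (δ * x.1, δ * x.2) G) := by
      rw [map_sum]
      refine Finset.sum_congr rfl (fun x _ => ?_)
      rw [map_smul, hJM]
    rw [e1]
    set F : Lp ℂ 2 μ := ∑ x ∈ s, c x • Mw μ (δ * x.1, δ * x.2) G with hFdef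
    have hFae : (F : ℝ × ℝ → ℂ) =ᵐ[μ] (S N).indicator (fun p => ∑ x ∈ s, c x * ec (δ * x.1, δ * x.2) p) := by
      have h1 : (F : ℝ × ℝ → ℂ) =ᵐ[μ] ∑ x ∈ s, ((c x • Mw μ (δ * x.1, δ * x.2) G : Lp ℂ 2 μ) : ℝ × ℝ → ℂ) := by
        rw [hFdef]; exact Lp.coeFn_finsetSum _ _
      have h2 : ∀ x ∈ s, ((c x • Mw μ (δ * x.1, δ * x.2) G : Lp ℂ 2 μ) : ℝ × ℝ → ℂ) =ᵐ[μ]
          fun p => c x * (ec (δ * x.1, δ * x.2) p * (S N).indicator (fun _ => (1 : ℂ)) p) := by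
        intro x _
        filter_upwards [Lp.coeFn_smul (c x) (Mw μ (δ * x.1, δ * x.2) G), Mw_coe μ (δ * x.1, δ * x.2) G,
          indicatorConstLp_coeFn (p := 2) (hs := hSm N) (hμs := measure_ne_top μ _) (c := (1 : ℂ))] with p h3 h4 h5
        rw [h3, Pi.smul_apply, h4, smul_eq_mul, h5]
      have h3 : ∀ᵐ p ∂μ, ∀ x ∈ s, ((c x • Mw μ (δ * x.1, δ * x.2) G : Lp ℂ 2 μ) : ℝ × ℝ → ℂ) p =
          c x * (ec (δ * x.1, δ * x.2) p * (S N).indicator (fun _ => (1 : ℂ)) p) := by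
        rw [Finset.eventually_all]
        exact h2
      filter_upwards [h1, h3] with p h4 h5
      rw [h4, Finset.sum_apply, Finset.sum_congr rfl h5]
      by_cases hp : p ∈ S N
      · simp only [Set.indicator_of_mem hp, mul_one]
      · simp only [Set.indicator_of_notMem hp, mul_zero, Finset.sum_const_zero]
    have hF2 : ‖F‖ ^ 2 = ∫ p, ‖F p‖ ^ 2 ∂μ := by
      have h1 := inner_self_eq_norm_sq_to_K (𝕜 := ℂ) F
      rw [L2.inner_def] at h1
      have h2 : ∀ p, ⟪F p, F p⟫_ℂ = ((‖F p‖ ^ 2 : ℝ) : ℂ) := by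
        intro p
        rw [inner_self_eq_norm_sq_to_K]; norm_num
      simp only [h2] at h1
      rw [integral_complex_ofReal] at h1
      have h3 : ((‖F‖ ^ 2 : ℝ) : ℂ) = ((∫ p, ‖F p‖ ^ 2 ∂μ : ℝ) : ℂ) := by
        rw [h1]; push_cast; rfl
      exact Complex.ofReal_injective h3
    have hqc : Continuous (fun p => ‖∑ x ∈ s, c x * ec (δ * x.1, δ * x.2) p‖ ^ 2) := by
      refine Continuous.pow (Continuous.norm (continuous_finsetSum _ (fun x _ => ?_))) 2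
      exact continuous_const.mul (ec_cont _)
    have hFint : ∫ p, ‖F p‖ ^ 2 ∂μ = ∫ p in S N, ‖∑ x ∈ s, c x * ec (δ * x.1, δ * x.2) p‖ ^ 2 ∂μ := by
      rw [← integral_indicator (hSm N)]
      refine integral_congr_ae ?_
      filter_upwards [hFae] with p hp
      rw [hp]
      by_cases hpS : p ∈ S N
      · rw [Set.indicator_of_mem hpS, Set.indicator_of_mem hpS]
      · rw [Set.indicator_of_notMem hpS, Set.indicator_of_notMem hpS, norm_zero]; norm_num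
    have hmeas : μ.restrict (S N) ≤ (N : ℝ≥0∞) • volume.restrict (QN δ N) := by
      rw [Measure.le_iff]
      intro A hA
      rw [Measure.restrict_apply hA, Measure.smul_apply, Measure.restrict_apply hA, smul_eq_mul]
      rw [hμf, withDensity_apply _ (hA.inter (hSm N))]
      calc ∫⁻ p in A ∩ S N, f p ≤ ∫⁻ p in A ∩ S N, (N : ℝ≥0∞) := by
            refine setLIntegral_mono' (hA.inter (hSm N)) (fun p hp => ?_)
            exact hp.2.1
        _ = N * volume (A ∩ S N) := by rw [setLIntegral_const]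
        _ ≤ N * volume (A ∩ QN δ N) := by
            gcongr
            exact fun p hp => hp.2
    have hfinQ : IsFiniteMeasure (volume.restrict (QN δ N)) := ⟨by
      rw [Measure.restrict_apply_univ]; exact lt_top_iff_ne_top.2 (QN_fin δ N)⟩
    have hbd : ∀ p, ‖(‖∑ x ∈ s, c x * ec (δ * x.1, δ * x.2) p‖ ^ 2)‖ ≤ (∑ x ∈ s, ‖c x‖) ^ 2 := by
      intro p
      rw [Real.norm_of_nonneg (by positivity)]
      refine pow_le_pow_left₀ (norm_nonneg _) ((norm_sum_le _ _).trans (Finset.sum_le_sum (fun x _ => ?_))) 2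
      rw [norm_mul, ec_norm, mul_one]
    have hint : Integrable (fun p => ‖∑ x ∈ s, c x * ec (δ * x.1, δ * x.2) p‖ ^ 2) (volume.restrict (QN δ N)) :=
      Integrable.of_bound hqc.aestronglyMeasurable _ (ae_of_all _ hbd)
    have hle : ∫ p in S N, ‖∑ x ∈ s, c x * ec (δ * x.1, δ * x.2) p‖ ^ 2 ∂μ ≤
        ∫ p, ‖∑ x ∈ s, c x * ec (δ * x.1, δ * x.2) p‖ ^ 2 ∂((N : ℝ≥0∞) • volume.restrict (QN δ N)) := by
      apply integral_mono_measure hmeas (ae_of_all _ (fun p => by positivity))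
      exact hint.smul_measure (by simp)
    rw [integral_smul_measure, parseval δ hδ N s c] at hle
    calc ‖J F‖ ^ 2 ≤ ‖F‖ ^ 2 := pow_le_pow_left₀ (norm_nonneg _) (hJn F) 2
      _ = ∫ p in S N, ‖∑ x ∈ s, c x * ec (δ * x.1, δ * x.2) p‖ ^ 2 ∂μ := by rw [hF2, hFint]
      _ ≤ _ := hle
      _ = K ^ 2 * ∑ x ∈ s, ‖c x‖ ^ 2 := by
          have hK2 : K ^ 2 = N * (2 * (Real.pi * (N + 1) / δ)) ^ 2 := by
            rw [hK, mul_pow, Real.sq_sqrt (by positivity)]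
          rw [hK2]
          simp only [ENNReal.toReal_natCast, smul_eq_mul]
          ring

end Pool.Agent.H145R3.WV
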