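import Mathlib
import Pool.Agent.H145R3.WV6

set_option autoImplicit false

open scoped InnerProductSpace ENNReal
open Filter Topology ContinuousLinearMap MeasureTheory

namespace Pool.Agent.H145R3.WV

variable {H : Type*} [NormedAddCommGroup H] [InnerProductSpace ℂ H] [CompleteSpace H]

/-- the unitary group of a pair -/
noncomputable def EE (A₁ A₂ : H →L[ℂ] H) (w : ℝ × ℝ) : H →L[ℂ] H :=
  NormedSpace.exp ((Complex.I * (w.1 : ℂ)) • A₁) * NormedSpace.exp ((Complex.I * (w.2 : ℂ)) • A₂)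

lemma EE_zero (A₁ A₂ : H →L[ℂ] H) : EE A₁ A₂ 0 = 1 := by
  unfold EE
  simp

lemma EE_add (A₁ A₂ : H →L[ℂ] H) (hc : Commute A₁ A₂) (s t : ℝ × ℝ) :
    EE A₁ A₂ (s + t) = EE A₁ A₂ s * EE A₁ A₂ t := by
  have hQ : NormedAlgebra ℚ (H →L[ℂ] H) := NormedAlgebra.restrictScalars ℚ ℂ (H →L[ℂ] H)
  unfold EE
  have e1 : NormedSpace.exp ((Complex.I * (((s + t).1 : ℝ) : ℂ)) • A₁) =
      NormedSpace.exp ((Complex.I * (s.1 : ℂ)) • A₁) * NormedSpace.exp ((Complex.I * (t.1 : ℂ)) • A₁) := by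
    rw [← NormedSpace.exp_add_of_commute (((Commute.refl A₁).smul_left _).smul_right _), ← add_smul]
    congr 2
    rw [Prod.fst_add]; push_cast; ring
  have e2 : NormedSpace.exp ((Complex.I * (((s + t).2 : ℝ) : ℂ)) • A₂) =
      NormedSpace.exp ((Complex.I * (s.2 : ℂ)) • A₂) * NormedSpace.exp ((Complex.I * (t.2 : ℂ)) • A₂) := by
    rw [← NormedSpace.exp_add_of_commute (((Commute.refl A₂).smul_left _).smul_right _), ← add_smul]
    congr 2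
    rw [Prod.snd_add]; push_cast; ring
  have e3 : Commute (NormedSpace.exp ((Complex.I * (t.1 : ℂ)) • A₁)) (NormedSpace.exp ((Complex.I * (s.2 : ℂ)) • A₂)) :=
    Commute.exp ((hc.smul_left _).smul_right _)
  rw [e1, e2]
  have := e3.eq
  calc NormedSpace.exp ((Complex.I * (s.1 : ℂ)) • A₁) * NormedSpace.exp ((Complex.I * (t.1 : ℂ)) • A₁) *
      (NormedSpace.exp ((Complex.I * (s.2 : ℂ)) • A₂) * NormedSpace.exp ((Complex.I * (t.2 : ℂ)) • A₂))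
      = NormedSpace.exp ((Complex.I * (s.1 : ℂ)) • A₁) * (NormedSpace.exp ((Complex.I * (t.1 : ℂ)) • A₁) *
      NormedSpace.exp ((Complex.I * (s.2 : ℂ)) • A₂)) * NormedSpace.exp ((Complex.I * (t.2 : ℂ)) • A₂) := by
        simp only [mul_assoc]
    _ = _ := by rw [this]; simp only [mul_assoc]

lemma EE_star (A₁ A₂ : H →L[ℂ] H) (h1 : IsSelfAdjoint A₁) (h2 : IsSelfAdjoint A₂) (hc : Commute A₁ A₂) (s : ℝ × ℝ) :
    star (EE A₁ A₂ s) = EE A₁ A₂ (-s) := by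
  unfold EE
  rw [star_mul, NormedSpace.star_exp, NormedSpace.star_exp, star_smul, star_smul, h1.star_eq, h2.star_eq]
  have e3 : Commute (NormedSpace.exp ((Complex.I * (((-s).1 : ℝ) : ℂ)) • A₁)) (NormedSpace.exp ((Complex.I * (((-s).2 : ℝ) : ℂ)) • A₂)) :=
    Commute.exp ((hc.smul_left _).smul_right _)
  rw [e3.eq]
  congr 3
  · simp
  · simp

lemma EE_LL (A₁ A₂ B₁ B₂ : H →L[ℂ] H) (γ₁ γ₂ : ℝ) (hγ₁ : 0 ≤ γ₁) (hγ₂ : 0 ≤ γ₂)
    (h1 : LZ γ₁ (A₁ - B₁)) (h1' : LL (A₁ - B₁)) (h2 : LZ γ₂ (A₂ - B₂)) (h2' : LL (A₂ - B₂)) (w : ℝ × ℝ) :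
    LL (EE A₁ A₂ w - EE B₁ B₂ w) := by
  unfold EE
  have k1 : LL (NormedSpace.exp ((Complex.I * (w.1 : ℂ)) • A₁) - NormedSpace.exp ((Complex.I * (w.1 : ℂ)) • B₁)) := by
    refine exp_LL _ _ (‖Complex.I * (w.1 : ℂ)‖ * γ₁) (by positivity) ?_ ?_
    · rw [← smul_sub]; exact h1.smul _
    · rw [← smul_sub]; exact h1'.smul _
  have k2 : LL (NormedSpace.exp ((Complex.I * (w.2 : ℂ)) • A₂) - NormedSpace.exp ((Complex.I * (w.2 : ℂ)) • B₂)) := by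
    refine exp_LL _ _ (‖Complex.I * (w.2 : ℂ)‖ * γ₂) (by positivity) ?_ ?_
    · rw [← smul_sub]; exact h2.smul _
    · rw [← smul_sub]; exact h2'.smul _
  have := (k1.conj 1 (NormedSpace.exp ((Complex.I * (w.2 : ℂ)) • A₂))).add
    (k2.conj (NormedSpace.exp ((Complex.I * (w.1 : ℂ)) • B₁)) 1)
  convert this using 1
  noncomm_ring

lemma EE_cont (A₁ A₂ : H →L[ℂ] H) : Continuous (EE A₁ A₂) := by
  have hQ : NormedAlgebra ℚ (H →L[ℂ] H) := NormedAlgebra.restrictScalars ℚ ℂ (H →L[ℂ] H)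
  unfold EE
  refine Continuous.mul ?_ ?_
  · refine NormedSpace.exp_continuous.comp ?_
    fun_prop
  · refine NormedSpace.exp_continuous.comp ?_
    fun_prop

theorem main (H : Type) [NormedAddCommGroup H] [InnerProductSpace ℂ H] [CompleteSpace H]
    (A₁ A₂ B₁ B₂ : H →L[ℂ] H) (hA₁ : IsSelfAdjoint A₁) (hA₂ : IsSelfAdjoint A₂)
    (hB₁ : IsSelfAdjoint B₁) (hB₂ : IsSelfAdjoint B₂) (hA : Commute A₁ A₂) (hB : Commute B₁ B₂)
    (hK₁ : Summable (fun k : ℕ => sInf (apS (A₁ - B₁) k) / Real.sqrt ((k : ℝ) + 1)))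
    (hK₂ : Summable (fun k : ℕ => sInf (apS (A₂ - B₂) k) / Real.sqrt ((k : ℝ) + 1)))
    (x : H) (μ : Measure (ℝ × ℝ)) (hμf : IsFiniteMeasure μ) (hμ : μ ≪ volume)
    (hμF : ∀ w : ℝ × ℝ, ⟪x, EE A₁ A₂ w x⟫_ℂ = ∫ p, ec w p ∂μ) :
    ∃ y : H, Tendsto (fun t : ℝ => EE B₁ B₂ (-t, 0) (EE A₁ A₂ (t, 0) x)) atTop (𝓝 y) := by
  obtain ⟨γ₁, hγ₁, hZ₁, hL₁⟩ := approx_LL (A₁ - B₁) hK₁
  obtain ⟨γ₂, hγ₂, hZ₂, hL₂⟩ := approx_LL (A₂ - B₂) hK₂
  have hLL := EE_LL A₁ A₂ B₁ B₂ γ₁ γ₂ hγ₁ hγ₂ hZ₁ hL₁ hZ₂ hL₂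
  have hrep : ∀ (C₁ C₂ : H →L[ℂ] H), IsSelfAdjoint C₁ → IsSelfAdjoint C₂ → Commute C₁ C₂ → ∀ δ : ℝ,
      Rep (fun x : ℤ × ℤ => EE C₁ C₂ (δ * x.1, δ * x.2)) := by
    intro C₁ C₂ h1 h2 hc δ
    refine ⟨?_, ?_, ?_⟩
    · have : ((δ * (((0 : ℤ × ℤ).1 : ℤ) : ℝ), δ * (((0 : ℤ × ℤ).2 : ℤ) : ℝ)) : ℝ × ℝ) = 0 := by ext <;> simp
      rw [this, EE_zero]
    · intro a c
      rw [← EE_add _ _ hc]
      congr 1
      ext <;> simp <;> ring
    · intro a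
      rw [EE_star _ _ h1 h2 hc]
      congr 1
      ext <;> simp
  have hnorm : ∀ (C₁ C₂ : H →L[ℂ] H), IsSelfAdjoint C₁ → IsSelfAdjoint C₂ → Commute C₁ C₂ → ∀ (t : ℝ) (v : H),
      ‖EE C₁ C₂ (t, 0) v‖ = ‖v‖ := by
    intro C₁ C₂ h1 h2 hc t v
    have := (hrep C₁ C₂ h1 h2 hc t).norm (1, 0) v
    simpa using this
  let W : ℝ → H → H := fun t v => EE B₁ B₂ (-t, 0) (EE A₁ A₂ (t, 0) v)
  have hW : ∀ t v, ‖W t v‖ = ‖v‖ := by
    intro t v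
    simp only [W]
    rw [hnorm _ _ hB₁ hB₂ hB, hnorm _ _ hA₁ hA₂ hA]
  have hWsub : ∀ t v v', W t v - W t v' = W t (v - v') := by
    intro t v v'; simp only [W, map_sub]
  -- lattice
  have hlat : ∀ δ : ℝ, 0 < δ → CauchySeq (fun n : ℕ => W (δ * n) x) := by
    intro δ hδ
    rw [Metric.cauchySeq_iff]
    intro ε hε
    obtain ⟨h', C, hC, hh', hB'⟩ := bessel_dense (EE A₁ A₂) (EE_zero _ _) (EE_add _ _ hA) (EE_star _ _ hA₁ hA₂ hA)
      x μ hμ hμF δ hδ (ε / 4) (by positivity)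
    have h1 := cauchy_main (fun x : ℤ × ℤ => EE A₁ A₂ (δ * x.1, δ * x.2)) (fun x : ℤ × ℤ => EE B₁ B₂ (δ * x.1, δ * x.2))
      (hrep _ _ hA₁ hA₂ hA δ) (hrep _ _ hB₁ hB₂ hB δ) (fun x => hLL _) h' C hC hB'
    have h2 : (fun n : ℕ => (fun x : ℤ × ℤ => EE B₁ B₂ (δ * x.1, δ * x.2)) (-((n : ℤ), 0))
        ((fun x : ℤ × ℤ => EE A₁ A₂ (δ * x.1, δ * x.2)) ((n : ℤ), 0) h')) = fun n : ℕ => W (δ * n) h' := by
      funext n
      have a1 : ((δ * (((-((n : ℤ), (0 : ℤ)) : ℤ × ℤ).1 : ℤ) : ℝ), δ * (((-((n : ℤ), (0 : ℤ)) : ℤ × ℤ).2 : ℤ) : ℝ)) : ℝ × ℝ) =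
          (-(δ * n), 0) := by
        ext <;> simp
      have a2 : ((δ * (((((n : ℤ), (0 : ℤ)) : ℤ × ℤ).1 : ℤ) : ℝ), δ * (((((n : ℤ), (0 : ℤ)) : ℤ × ℤ).2 : ℤ) : ℝ)) : ℝ × ℝ) =
          (δ * n, 0) := by
        ext <;> simp
      simp only [W]
      rw [a1, a2]
    rw [h2] at h1
    obtain ⟨n₀, hn₀⟩ := Metric.cauchySeq_iff.1 h1 (ε / 4) (by positivity)
    refine ⟨n₀, fun m hm n hn => ?_⟩
    have h3 := hn₀ m hm n hn
    rw [dist_eq_norm] at h3 ⊢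
    have e : W (δ * m) x - W (δ * n) x = W (δ * m) (x - h') + (W (δ * m) h' - W (δ * n) h') - W (δ * n) (x - h') := by
      rw [← hWsub, ← hWsub]; abel
    rw [e]
    calc ‖W (δ * m) (x - h') + (W (δ * m) h' - W (δ * n) h') - W (δ * n) (x - h')‖
        ≤ ‖W (δ * m) (x - h')‖ + ‖W (δ * m) h' - W (δ * n) h'‖ + ‖W (δ * n) (x - h')‖ :=
          (norm_sub_le _ _).trans (add_le_add (norm_add_le _ _) le_rfl)
      _ < ε := by rw [hW, hW]; linarith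
  -- real time
  have hcauchy : CauchySeq (fun t : ℝ => W t x) := by
    rw [Metric.cauchySeq_iff]
    intro ε hε
    set η : ℝ := ε / (8 * (‖x‖ + 1)) with hη
    have hη0 : 0 < η := by positivity
    have hcA : Tendsto (fun s : ℝ => EE A₁ A₂ (s, 0)) (𝓝 0) (𝓝 1) := by
      have h1 : Continuous (fun s : ℝ => EE A₁ A₂ (s, 0)) := (EE_cont A₁ A₂).comp (by fun_prop)
      have h2 := h1.tendsto 0
      have e : EE A₁ A₂ ((0 : ℝ), (0 : ℝ)) = 1 := EE_zero A₁ A₂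
      rw [e] at h2
      exact h2
    have hcB : Tendsto (fun s : ℝ => EE B₁ B₂ (-s, 0)) (𝓝 0) (𝓝 1) := by
      have h1 : Continuous (fun s : ℝ => EE B₁ B₂ (-s, 0)) := (EE_cont B₁ B₂).comp (by fun_prop)
      have h2 := h1.tendsto 0
      have e : EE B₁ B₂ (-(0 : ℝ), (0 : ℝ)) = 1 := by rw [neg_zero]; exact EE_zero B₁ B₂
      rw [e] at h2
      exact h2
    obtain ⟨δ₁, hδ₁, hA'⟩ := Metric.tendsto_nhds_nhds.1 hcA η hη0
    obtain ⟨δ₂, hδ₂, hB'⟩ := Metric.tendsto_nhds_nhds.1 hcB η hη0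
    set δ := min δ₁ δ₂ with hδ
    have hδ0 : 0 < δ := lt_min hδ₁ hδ₂
    have hshort : ∀ t s : ℝ, |s| < δ → ‖W (t + s) x - W t x‖ ≤ 2 * η * ‖x‖ := by
      intro t s hs
      have k1 := hA' (show dist s 0 < δ₁ by rw [Real.dist_eq, sub_zero]; exact lt_of_lt_of_le hs (min_le_left _ _))
      have k2 := hB' (show dist s 0 < δ₂ by rw [Real.dist_eq, sub_zero]; exact lt_of_lt_of_le hs (min_le_right _ _))
      rw [dist_eq_norm] at k1 k2
      have e1 : W (t + s) x = EE B₁ B₂ (-s, 0) (W t (EE A₁ A₂ (s, 0) x)) := by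
        simp only [W]
        have a1 : ((-(t + s), 0) : ℝ × ℝ) = (-s, 0) + (-t, 0) := by ext <;> simp <;> ring
        have a2 : ((t + s, 0) : ℝ × ℝ) = (t, 0) + (s, 0) := by ext <;> simp
        rw [a1, a2, EE_add _ _ hB, EE_add _ _ hA]; rfl
      have e2 : W (t + s) x - W t x = EE B₁ B₂ (-s, 0) (W t (EE A₁ A₂ (s, 0) x - x)) + (EE B₁ B₂ (-s, 0) - 1) (W t x) := by
        rw [e1, ← hWsub, map_sub, sub_apply, one_apply_eq_self]; abel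
      rw [e2]
      refine (norm_add_le _ _).trans ?_
      rw [hnorm _ _ hB₁ hB₂ hB, hW]
      have k3 : ‖EE A₁ A₂ (s, 0) x - x‖ ≤ η * ‖x‖ := by
        have : EE A₁ A₂ (s, 0) x - x = (EE A₁ A₂ (s, 0) - 1) x := by rw [sub_apply, one_apply_eq_self]
        rw [this]
        exact (le_opNorm _ _).trans (mul_le_mul_of_nonneg_right k1.le (norm_nonneg _))
      have k4 : ‖(EE B₁ B₂ (-s, 0) - 1) (W t x)‖ ≤ η * ‖x‖ := by
        refine (le_opNorm _ _).trans ?_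
        rw [hW]
        exact mul_le_mul_of_nonneg_right k2.le (norm_nonneg _)
      linarith
    have hηx : 2 * η * ‖x‖ ≤ ε / 4 := by
      rw [hη, ← mul_div_assoc, div_mul_eq_mul_div, div_le_div_iff₀ (by positivity) (by norm_num)]
      nlinarith [norm_nonneg x]
    obtain ⟨n₀, hn₀⟩ := Metric.cauchySeq_iff.1 (hlat δ hδ0) (ε / 4) (by positivity)
    have hnear : ∀ t : ℝ, δ * (n₀ + 1) ≤ t → ∃ n : ℕ, n₀ ≤ n ∧ ‖W t x - W (δ * n) x‖ ≤ ε / 4 := by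
      intro t ht
      have ht0 : 0 ≤ t / δ := by
        apply div_nonneg _ hδ0.le
        refine le_trans ?_ ht
        positivity
      refine ⟨⌊t / δ⌋₊, ?_, ?_⟩
      · apply Nat.le_floor
        rw [le_div_iff₀ hδ0]
        nlinarith
      · have h1 := Nat.floor_le ht0
        have h2 := Nat.lt_floor_add_one (t / δ)
        rw [le_div_iff₀ hδ0] at h1
        rw [div_lt_iff₀ hδ0] at h2
        have h3 := hshort (δ * ⌊t / δ⌋₊) (t - δ * ⌊t / δ⌋₊) (by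
          rw [abs_lt]; constructor <;> nlinarith)
        rw [add_sub_cancel] at h3
        exact h3.trans hηx
    refine ⟨δ * (n₀ + 1), fun t ht t' ht' => ?_⟩
    obtain ⟨n, hn, h1⟩ := hnear t ht
    obtain ⟨n', hn', h2⟩ := hnear t' ht'
    have h3 := hn₀ n hn n' hn'
    rw [dist_eq_norm] at h3 ⊢
    have e : W t x - W t' x = (W t x - W (δ * n) x) + (W (δ * n) x - W (δ * n') x) - (W t' x - W (δ * n') x) := by abel
    rw [e]
    calc ‖(W t x - W (δ * n) x) + (W (δ * n) x - W (δ * n') x) - (W t' x - W (δ * n') x)‖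
        ≤ ‖W t x - W (δ * n) x‖ + ‖W (δ * n) x - W (δ * n') x‖ + ‖W t' x - W (δ * n') x‖ :=
          (norm_sub_le _ _).trans (add_le_add (norm_add_le _ _) le_rfl)
      _ < ε := by linarith
  exact cauchySeq_tendsto_of_complete hcauchy

end Pool.Agent.H145R3.WV
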